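import Pool.Agent.CollatzLin.Split

set_option autoImplicit false

/-!
# Functions that vanish at the ends of typical words are exponentially small
-/

namespace CollatzPow

open CollatzLin CollatzOne Finset Filter Topology

theorem atyp : ∃ (C : ℝ) (L₀ E₀ : ℕ), 0 < C ∧ ∀ L ℓ n m Δ E : ℕ, L₀ ≤ L → 1 ≤ ℓ → 1 ≤ n → 4 * n ≤ L →
    16 * m ≤ L → Δ ≤ n → E₀ ≤ E → 2 * (L + ℓ + n + 4) ≤ E → ∀ a : ℤ → ℝ, (∀ v, 0 ≤ a v) →
    (∀ v, a v ≤ 1) → (∀ (v : ℤ) (W : List ℕ), OO v → W ∈ typ E n Δ L → vd W v →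
      ch W v ∈ win L (L + ℓ) → a (ch W v) = 0) →
    LS L (L + ℓ) (fun v => F E m v * a v) ≤
      C * ℓ * (Real.exp (-((Δ : ℝ) ^ 2 / (8 * n))) + (1 / 2) ^ (L / 16)) := by
  obtain ⟨E₀, hE₀⟩ := Pr_not_typ
  refine ⟨300, 16, max E₀ 1, by norm_num, fun L ℓ n m Δ E hL hℓ hn hnL hmL hΔ hE hE2 a ha0 ha1 hat => ?_⟩
  have hE1 : 1 ≤ E := (le_max_right _ _).trans hE
  have hnt := hE₀ L n Δ E hn hΔ ((le_max_left _ _).trans hE) (by omega)
  set B := L + ℓ with hB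
  set δ : ℝ := (1 / 2) ^ (L / 16) with hδ
  set x : ℝ := Real.exp (-((Δ : ℝ) ^ 2 / (8 * n))) with hx
  have hδ0 : 0 < δ := by positivity
  have hx0 : 0 < x := Real.exp_pos _
  have hℓr : (1 : ℝ) ≤ ℓ := by exact_mod_cast hℓ
  have hF0 : ∀ v, 0 ≤ F E m v := F_nonneg E m
  have hmean : mean (3 ^ m) (F E m) = 1 := mean_F hE1 m
  -- the two functions
  set g1 : ℤ → ℝ := fun u => if u ∈ win L B then F E m u * a u / |(u : ℝ)| else 0 with hg1
  set g2 : ℤ → ℝ := fun u => if u ∈ win L B then F E m u / |(u : ℝ)| else 0 with hg2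
  have hout : ∀ u : ℤ, 2 ^ B ≤ |u| → u ∉ win L B := by
    intro u hu h
    rw [sp_mem_win] at h
    omega
  have hT1 := transport (B := B) (n := n) (E := E) (by omega) g1 (fun u hu => by
    simp only [hg1]; exact if_neg (hout u hu))
  have hT2 := transport (B := B) (n := n) (E := E) (by omega) g2 (fun u hu => by
    simp only [hg2]; exact if_neg (hout u hu))
  have hg10 : ∀ u, g1 u ≤ g2 u := by
    intro u
    simp only [hg1, hg2]
    split_ifs
    · refine div_le_div_of_nonneg_right ?_ (abs_nonneg _)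
      calc F E m u * a u ≤ F E m u * 1 := mul_le_mul_of_nonneg_left (ha1 u) (hF0 u)
        _ = _ := mul_one _
    · exact le_rfl
  have hg20 : ∀ u, 0 ≤ g2 u := by
    intro u
    simp only [hg2]
    split_ifs
    · exact div_nonneg (hF0 u) (abs_nonneg _)
    · exact le_rfl
  -- sizes
  have h3m : (3 : ℝ) ^ m ≤ 2 ^ (2 * m) := by
    rw [pow_mul]
    exact pow_le_pow_left₀ (by norm_num) (by norm_num) m
  have hδeq : δ * 2 ^ (L / 16) = 1 := by
    rw [hδ, ← mul_pow]; norm_num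
  have hsmall : 36 * 3 ^ m / (2 : ℝ) ^ L * (1 + 2 ^ (2 * n + Δ)) ≤ 36 * δ := by
    have h1 : (1 : ℝ) + 2 ^ (2 * n + Δ) ≤ 2 ^ (3 * n + 1) := by
      have h2 : (1 : ℝ) ≤ 2 ^ (3 * n) := one_le_pow₀ (by norm_num)
      have h3 : (2 : ℝ) ^ (2 * n + Δ) ≤ 2 ^ (3 * n) := pow_le_pow_right₀ (by norm_num) (by omega)
      rw [pow_succ]
      linarith
    have h2 : (3 : ℝ) ^ m * (1 + 2 ^ (2 * n + Δ)) * 2 ^ (L / 16) ≤ 2 ^ L := by
      calc (3 : ℝ) ^ m * (1 + 2 ^ (2 * n + Δ)) * 2 ^ (L / 16) ≤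
            2 ^ (2 * m) * 2 ^ (3 * n + 1) * 2 ^ (L / 16) := by gcongr
        _ = 2 ^ (2 * m + (3 * n + 1) + L / 16) := by rw [← pow_add, ← pow_add]
        _ ≤ 2 ^ L := pow_le_pow_right₀ (by norm_num) (by omega)
    have h3 : (3 : ℝ) ^ m * (1 + 2 ^ (2 * n + Δ)) ≤ δ * 2 ^ L := by
      have h4 := mul_le_mul_of_nonneg_left h2 hδ0.le
      calc (3 : ℝ) ^ m * (1 + 2 ^ (2 * n + Δ)) = δ * 2 ^ (L / 16) * ((3 : ℝ) ^ m * (1 + 2 ^ (2 * n + Δ))) := by
            rw [hδeq, one_mul]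
        _ = δ * (3 ^ m * (1 + 2 ^ (2 * n + Δ)) * 2 ^ (L / 16)) := by ring
        _ ≤ _ := h4
    rw [div_mul_eq_mul_div, div_le_iff₀ (by positivity)]
    linarith
  have hsmall1 : 36 * 3 ^ m / (2 : ℝ) ^ L ≤ 36 * δ := by
    refine le_trans ?_ hsmall
    have h1 : (0 : ℝ) ≤ 36 * 3 ^ m / (2 : ℝ) ^ L := by positivity
    have h2 : (1 : ℝ) ≤ 1 + 2 ^ (2 * n + Δ) := by
      have : (0 : ℝ) ≤ 2 ^ (2 * n + Δ) := by positivity
      linarith
    nlinarith
  have hnat : 4 * 3 ^ m ≤ 2 ^ L := by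
    have h1 : 3 ^ m ≤ 2 ^ (2 * m) := by
      rw [pow_mul]
      exact Nat.pow_le_pow_left (by norm_num) m
    calc 4 * 3 ^ m ≤ 2 ^ 2 * 2 ^ (2 * m) := Nat.mul_le_mul (by norm_num) h1
      _ = 2 ^ (2 + 2 * m) := by rw [← pow_add]
      _ ≤ 2 ^ L := Nat.pow_le_pow_right (by norm_num) (by omega)
  have hlog : 3 / 2 * Real.log 2 ≤ 2 := by
    have := Real.log_two_lt_d9
    linarith
  have hlog0 : 0 ≤ 3 / 2 * Real.log 2 := by
    have := Real.log_nonneg (show (1 : ℝ) ≤ 2 by norm_num)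
    linarith
  have hBL : ((B : ℝ) - L) = ℓ := by
    rw [hB]; push_cast; ring
  -- total mass
  have htot : ∑ u ∈ bx B, g2 u = LS L B (F E m) := by rw [LS_eq]
  have hLSper := LS_per (A := L) (B := B) (by omega) hnat (F_per E m) hF0
  rw [hmean, mul_one, mul_one, hBL] at hLSper
  have hLSub : LS L B (F E m) ≤ 3 / 2 * Real.log 2 * ℓ + 36 * 3 ^ m / 2 ^ L := by
    have := (abs_le.1 hLSper).2
    linarith
  -- the typical part of the transported mass
  set T2 : ℝ := ∑ v ∈ bx (B + n), ∑ W ∈ typ E n Δ L, if vd W v then g2 (ch W v) else 0 with hT2def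
  have hT2lb : 3 / 2 * Real.log 2 * ℓ * (Z E ^ n * Pr E (typ E n Δ L)) -
      (typ E n Δ L).card * (36 * 3 ^ m / 2 ^ L) ≤ T2 := by
    rw [hT2def, sum_comm]
    have h1 : ∀ W ∈ typ E n Δ L, 3 / 2 * Real.log 2 * ℓ * (1 / 2 ^ js W) - 36 * 3 ^ m / 2 ^ L ≤
        ∑ v ∈ bx (B + n), if vd W v then g2 (ch W v) else 0 := by
      intro W hW
      have hW' := sp_mem_typ.1 hW
      have hjs : 4 * 3 ^ m * 2 ^ js W ≤ 2 ^ L := by
        have h1 : 3 ^ m ≤ 2 ^ (2 * m) := by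
          rw [pow_mul]
          exact Nat.pow_le_pow_left (by norm_num) m
        calc 4 * 3 ^ m * 2 ^ js W ≤ 2 ^ 2 * 2 ^ (2 * m) * 2 ^ (3 * n) :=
              Nat.mul_le_mul (Nat.mul_le_mul (by norm_num) h1) (Nat.pow_le_pow_right (by norm_num) (by omega))
          _ = 2 ^ (2 + 2 * m + 3 * n) := by rw [← pow_add, ← pow_add]
          _ ≤ 2 ^ L := Nat.pow_le_pow_right (by norm_num) (by omega)
      have h2 := LS_class (n := n) (A := L) (B := B) (one_le_of_mem hW'.1) (length_of_mem hW'.1) (by omega) hjs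
        (F_per E m) hF0
      rw [hmean, mul_one, mul_one, hBL] at h2
      refine le_trans (le_of_eq ?_) (h2.trans (le_of_eq ?_))
      · rw [mul_one_div]
      · refine sum_congr rfl fun v _ => ?_
        simp only [hg2]
        by_cases hvd : vd W v
        · by_cases hw : ch W v ∈ win L B
          · rw [if_pos ⟨hvd, hw⟩, if_pos hvd, if_pos hw]
          · rw [if_neg (fun h => hw h.2), if_pos hvd, if_neg hw]
        · rw [if_neg (fun h => hvd h.1), if_neg hvd]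
    refine le_trans (le_of_eq ?_) (sum_le_sum h1)
    rw [sum_sub_distrib, ← mul_sum, sum_inv_eq hE1 (fun W hW => length_of_mem (typ_sub _ _ _ _ hW)),
      sum_const, nsmul_eq_mul]
  -- the non typical part
  have hNT : ∑ v ∈ bx (B + n), ∑ W ∈ words E n \ typ E n Δ L, (if vd W v then g1 (ch W v) else 0) ≤
      LS L B (F E m) - T2 := by
    have h1 : ∑ v ∈ bx (B + n), ∑ W ∈ words E n \ typ E n Δ L, (if vd W v then g1 (ch W v) else 0) ≤
        ∑ v ∈ bx (B + n), ∑ W ∈ words E n \ typ E n Δ L, (if vd W v then g2 (ch W v) else 0) := by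
      refine sum_le_sum fun v _ => sum_le_sum fun W _ => ?_
      split_ifs
      · exact hg10 _
      · exact le_rfl
    refine h1.trans (le_of_eq ?_)
    rw [← htot, hT2, hT2def, ← sum_sub_distrib]
    refine sum_congr rfl fun v _ => ?_
    rw [← sum_sdiff (typ_sub E n Δ L)]
    ring
  have hPr1 : Pr E (typ E n Δ L) ≤ 1 := by
    have := Pr_mono (E := E) (typ_sub E n Δ L)
    rwa [Pr_words hE1] at this
  have hPr0 := Pr_nonneg E (typ E n Δ L)
  have hZn := Z_pow_ge E n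
  have hZn1 : Z E ^ n ≤ 1 := pow_le_one₀ (Z_nonneg E) (Z_le_one E)
  have hnE : (n : ℝ) / 2 ^ E ≤ δ := by
    have h1 : n < 2 ^ n := Nat.lt_two_pow_self
    have h2 : (n : ℝ) ≤ 2 ^ n := by exact_mod_cast h1.le
    rw [div_le_iff₀ (by positivity)]
    calc (n : ℝ) ≤ 2 ^ n := h2
      _ = δ * 2 ^ (L / 16) * 2 ^ n := by rw [hδeq, one_mul]
      _ = δ * 2 ^ (L / 16 + n) := by rw [mul_assoc, ← pow_add]
      _ ≤ δ * 2 ^ E := mul_le_mul_of_nonneg_left (pow_le_pow_right₀ (by norm_num) (by omega)) hδ0.le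
  have hbrace : LS L B (F E m) - T2 ≤ ℓ * (8 * x + 198 * δ) := by
    have h1 : 1 - Z E ^ n * Pr E (typ E n Δ L) ≤ δ + (4 * x + 80 * δ) := by
      have h2 : (1 - Z E ^ n) * Pr E (typ E n Δ L) ≤ (1 - Z E ^ n) * 1 :=
        mul_le_mul_of_nonneg_left hPr1 (by linarith)
      nlinarith
    have h2 : 3 / 2 * Real.log 2 * ℓ * (1 - Z E ^ n * Pr E (typ E n Δ L)) ≤ 2 * ℓ * (δ + (4 * x + 80 * δ)) := by
      have h3 : 0 ≤ 1 - Z E ^ n * Pr E (typ E n Δ L) := by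
        have : Z E ^ n * Pr E (typ E n Δ L) ≤ 1 * 1 :=
          mul_le_mul hZn1 hPr1 hPr0 (by norm_num)
        linarith
      have h4 : 3 / 2 * Real.log 2 * ℓ ≤ 2 * ℓ := mul_le_mul_of_nonneg_right hlog (by linarith)
      exact mul_le_mul h4 h1 h3 (by linarith)
    have h3 : (typ E n Δ L).card * (36 * 3 ^ m / (2 : ℝ) ^ L) + 36 * 3 ^ m / (2 : ℝ) ^ L ≤ 36 * δ := by
      refine le_trans ?_ hsmall
      have h4 := card_typ_le (E := E) (n := n) (Δ := Δ) (L := L) hE1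
      have h5 : (0 : ℝ) ≤ 36 * 3 ^ m / (2 : ℝ) ^ L := by positivity
      nlinarith [mul_le_mul_of_nonneg_right h4 h5]
    have h4 : 36 * δ ≤ 36 * (ℓ * δ) := by nlinarith
    have h5 : 3 / 2 * Real.log 2 * ℓ * (1 - Z E ^ n * Pr E (typ E n Δ L)) =
        3 / 2 * Real.log 2 * ℓ - 3 / 2 * Real.log 2 * ℓ * (Z E ^ n * Pr E (typ E n Δ L)) := by ring
    have h6 : 2 * (ℓ : ℝ) * (δ + (4 * x + 80 * δ)) = 162 * (ℓ * δ) + 8 * (ℓ * x) := by ring
    have h7 : (ℓ : ℝ) * (8 * x + 198 * δ) = 198 * (ℓ * δ) + 8 * (ℓ * x) := by ring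
    rw [h7]
    rw [h5, h6] at h2
    linarith
  -- the typical part vanishes
  have hT1z : ∑ v ∈ bx (B + n), ∑ W ∈ typ E n Δ L, (if vd W v then g1 (ch W v) else 0) = 0 := by
    refine sum_eq_zero fun v hv => sum_eq_zero fun W hW => ?_
    by_cases hvd : vd W v
    · rw [if_pos hvd]
      simp only [hg1]
      by_cases hw : ch W v ∈ win L B
      · rw [if_pos hw, hat v W (sp_mem_bx.1 hv).2 hW hvd hw]
        simp
      · rw [if_neg hw]
    · rw [if_neg hvd]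
  have hLS1 : LS L B (fun v => F E m v * a v) = ∑ u ∈ bx B, g1 u := by rw [LS_eq]
  have hsum : ∑ u ∈ bx B, g1 u =
      ∑ v ∈ bx (B + n), ∑ W ∈ words E n \ typ E n Δ L, (if vd W v then g1 (ch W v) else 0) +
      ∑ v ∈ bx (B + n), ∑ W ∈ typ E n Δ L, (if vd W v then g1 (ch W v) else 0) := by
    rw [hT1, ← sum_add_distrib]
    refine sum_congr rfl fun v _ => ?_
    rw [← sum_sdiff (typ_sub E n Δ L)]
  rw [hLS1, hsum, hT1z, add_zero]
  have hfin : (ℓ : ℝ) * (8 * x + 198 * δ) ≤ 300 * ℓ * (x + δ) := by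
    have h1 : 0 ≤ (ℓ : ℝ) * x := by positivity
    have h2 : 0 ≤ (ℓ : ℝ) * δ := by positivity
    nlinarith
  linarith

end CollatzPow
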