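import Pool.Agent.CollatzPow.Hi
import Pool.Agent.CollatzLin.LSBasic

set_option autoImplicit false

/-!
# First passage decomposition of the trajectories that stay away from the bounded region
-/

namespace CollatzPow

open CollatzOne CollatzLin Finset

/-- `v` is the ancestor of `u` along the word `W`. -/
def Anc (W : List ℕ) (v u : ℤ) : Prop := (∀ e ∈ W, 1 ≤ e) ∧ OO v ∧ vd W v ∧ ch W v = u

/-- The typical size of the ancestor at distance `ℓ / 4` of a point of size `2 ^ ℓ`. -/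
def thr (ℓ : ℕ) : ℕ := ℓ - sh (ℓ / 4) + (ℓ / 4) / 1000 + 2

lemma thr_le {ℓ : ℕ} (h : 400 ≤ ℓ) : thr ℓ ≤ ℓ - ℓ / 11 := by
  unfold thr
  have h1 := twelve_sh (ℓ / 4)
  have h2 := lt_five_sh (ℓ / 4)
  omega

/-- None of the first `ℓ / 4` ancestors of `w` is below the typical size. -/
def Stuck (ℓ : ℕ) (w : ℤ) : Prop :=
  ∀ (W : List ℕ) (v : ℤ), Anc W v w → W.length ≤ ℓ / 4 → (2 : ℤ) ^ thr ℓ ≤ |v|

lemma Anc.nil {u : ℤ} (h : OO u) : Anc [] u u := ⟨by simp, h, vd_nil u, ch_nil u⟩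

lemma Anc.trans {W V : List ℕ} {v w u : ℤ} (h1 : Anc W v w) (h2 : Anc V w u) : Anc (W ++ V) v u := by
  obtain ⟨a1, a2, a3, a4⟩ := h1
  obtain ⟨b1, b2, b3, b4⟩ := h2
  have hv : vd (W ++ V) v := vd_append.2 ⟨a3, by rw [a4]; exact b3⟩
  refine ⟨?_, a2, hv, ?_⟩
  · intro e he
    rcases List.mem_append.1 he with h | h
    · exact a1 e h
    · exact b1 e h
  · rw [ch_append hv, a4, b4]

lemma Anc.split {W V : List ℕ} {v u : ℤ} (h : Anc (W ++ V) v u) :
    Anc W v (ch W v) ∧ Anc V (ch W v) u := by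
  obtain ⟨a1, a2, a3, a4⟩ := h
  obtain ⟨b1, b2⟩ := vd_append.1 a3
  have h1 : ∀ e ∈ W, 1 ≤ e := fun e he => a1 e (List.mem_append.2 (Or.inl he))
  refine ⟨⟨h1, a2, b1, rfl⟩, fun e he => a1 e (List.mem_append.2 (Or.inr he)), OO_ch h1 a2 b1, b2, ?_⟩
  rw [← ch_append a3, a4]

theorem chain {L₂ : ℕ} (hL₂ : 400 ≤ L₂) {a : ℤ → ℝ} (ha : Adm a)
    (hz : ∀ v : ℤ, |v| < 2 ^ L₂ → a v = 0) : ∀ (ℓ : ℕ) (u : ℤ), u ∈ win ℓ (ℓ + 1) → a u ≠ 0 →
    ∃ (ℓ' : ℕ) (W : List ℕ) (v : ℤ), L₂ ≤ ℓ' ∧ Anc W v u ∧ v ∈ win ℓ' (ℓ' + 1) ∧ Stuck ℓ' v ∧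
      Hi |v| W v ∧ W.length ≤ 3 * ℓ ∧ ((W = [] ∧ v = u) ∨ |v| < 2 ^ thr ℓ) := by
  intro ℓ
  induction ℓ using Nat.strong_induction_on with
  | _ ℓ ih =>
    intro u hu hau
    obtain ⟨hu1, hu2, hu3⟩ := mem_win.1 hu
    have hℓ : L₂ ≤ ℓ := by
      by_contra hcon
      apply hau
      apply hz
      exact lt_of_lt_of_le hu2 (pow_le_pow_right₀ (by norm_num) (by omega))
    by_cases hs : Stuck ℓ u
    · refine ⟨ℓ, [], u, hℓ, Anc.nil hu3, hu, hs, ?_, by simp, Or.inl ⟨rfl, rfl⟩⟩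
      intro W' W'' h
      have h1 : W' = [] := by
        have := List.append_eq_nil_iff.1 h.symm
        exact this.1
      rw [h1, ch_nil]
    · have hex : ∃ k : ℕ, ∃ (W : List ℕ) (v : ℤ), Anc W v u ∧ W.length = k ∧ |v| < 2 ^ thr ℓ := by
        unfold Stuck at hs
        push Not at hs
        obtain ⟨W, v, h1, h2, h3⟩ := hs
        exact ⟨W.length, W, v, h1, rfl, h3⟩
      classical
      obtain ⟨W₁, v₁, h1, h2, h3⟩ := Nat.find_spec hex
      have hmin : ∀ (W : List ℕ) (v : ℤ), Anc W v u → W.length < Nat.find hex → (2 : ℤ) ^ thr ℓ ≤ |v| := by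
        intro W v hW hlt
        by_contra hcon
        exact Nat.find_min hex hlt ⟨W, v, hW, rfl, not_le.1 hcon⟩
      have hk : Nat.find hex ≤ ℓ / 4 := by
        unfold Stuck at hs
        push Not at hs
        obtain ⟨W, v, g1, g2, g3⟩ := hs
        exact (Nat.find_min' hex ⟨W, v, g1, rfl, g3⟩).trans g2
      have hHi : Hi |v₁| W₁ v₁ := by
        intro W' W'' hW
        rcases W'.eq_nil_or_concat with h0 | ⟨V, e, h0⟩
        · rw [h0, ch_nil]
        · have h4 : Anc (W' ++ W'') v₁ u := hW ▸ h1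
          have h5 := hmin W'' (ch W' v₁) h4.split.2 (by
            rw [← h2, hW, List.length_append, h0, List.concat_eq_append, List.length_append,
              List.length_singleton]
            omega)
          exact h3.le.trans h5
      have hav₁ : a v₁ ≠ 0 := by
        obtain ⟨b1, b2, b3, b4⟩ := h1
        have h4 := ha.ch b1 b2 b3
        rw [b4] at h4
        have h5 := ha.nonneg u
        have h6 : 0 < a u := lt_of_le_of_ne h5 (Ne.symm hau)
        linarith [h6.trans_le h4 |>.ne']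
        
      have hv₁0 : v₁ ≠ 0 := by
        rintro rfl
        exact hav₁ (hz 0 (by simp))
      obtain ⟨ℓ₁, g1, g2⟩ := exists_dyadic hv₁0
      have hℓ₁ : ℓ₁ < thr ℓ := (pow_lt_pow_iff_right₀ (show (1 : ℤ) < 2 by norm_num)).1 (lt_of_le_of_lt g1 h3)
      have hthr := thr_le (ℓ := ℓ) (by omega)
      obtain ⟨ℓ', W₂, v₂, c1, c2, c3, c4, c5, c6, -⟩ := ih ℓ₁ (by omega) v₁
        (mem_win.2 ⟨g1, g2, h1.2.1⟩) hav₁
      have hanc := c2.trans h1
      have hlast : |v₂| ≤ |v₁| := by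
        have := c5.last
        rwa [c2.2.2.2] at this
      refine ⟨ℓ', W₂ ++ W₁, v₂, c1, hanc, c3, c4, ?_, ?_, Or.inr (lt_of_le_of_lt hlast h3)⟩
      · refine Hi.append hanc.2.2.1 c5 ?_
        rw [c2.2.2.2]
        exact hHi.mono hlast
      · rw [List.length_append, h2]
        omega

end CollatzPow
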