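import Pool.Agent.CollatzPow.Chain
import Pool.Agent.CollatzPow.AtypR
import Pool.Agent.CollatzTime.Adm
import Pool.Agent.CollatzLin.Step

set_option autoImplicit false

/-!
# Records of the trajectories and regular words
-/

namespace CollatzPow

open CollatzOne CollatzLin CollatzTime Finset

/-- The word `W` from the ancestor `v` to `u`, of `ℓ / 4` letters, is regular. -/
def RegAnc (d ℓ : ℕ) (W : List ℕ) (v u : ℤ) : Prop :=
  Anc W v u ∧ W.length = ℓ / 4 ∧ Reg (3 * (ℓ / 4 / d)) W ∧ dst W ≤ 2 ^ (ℓ / 8)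

/-- The word of the first `ℓ / 4` letters is not regular. -/
def StuckR (d ℓ : ℕ) (u : ℤ) : Prop := ∀ (W : List ℕ) (v : ℤ), ¬ RegAnc d ℓ W v u

lemma exists_bound (W : List ℕ) : ∃ B : ℕ, ∀ e ∈ W, e < B := by
  induction W with
  | nil => exact ⟨0, by simp⟩
  | cons x W ih =>
    obtain ⟨B, hB⟩ := ih
    refine ⟨max B (x + 1), fun e he => ?_⟩
    rcases List.mem_cons.1 he with rfl | h
    · exact lt_of_lt_of_le (Nat.lt_succ_self _) (le_max_right _ _)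
    · exact lt_of_lt_of_le (hB e h) (le_max_left _ _)

/-- The size of the ancestor along a regular word. -/
lemma RegAnc.lt_thr {d ℓ : ℕ} (hd : 3000 ≤ d) (hℓ : 400 ≤ ℓ) {W : List ℕ} {v u : ℤ}
    (h : RegAnc d ℓ W v u) (hu : u ∈ win ℓ (ℓ + 1)) : |v| < 2 ^ thr ℓ := by
  obtain ⟨⟨h1, h2, h3, h4⟩, h5, h6, h7⟩ := h
  obtain ⟨B, hB⟩ := exists_bound W
  have hreg := h6 W.length le_rfl
  rw [List.take_length, h5] at hreg
  have hΔ : 3 * (ℓ / 4 / d) ≤ (ℓ / 4) / 1000 := by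
    have e1 : ℓ / 4 / d ≤ ℓ / 4 / 3000 := Nat.div_le_div_left hd (by norm_num)
    omega
  have hW : W ∈ typ B (ℓ / 4) ((ℓ / 4) / 1000) ℓ :=
    mem_typ.2 ⟨mem_words.2 ⟨h5, fun e he => ⟨h1 e he, (hB e he).le⟩⟩, by omega, by omega, h7⟩
  have e1 := twelve_sh (ℓ / 4)
  have h8 := win_of_typ (ℓ := 1) (by omega) hW h2 h3 (by rw [h4]; exact hu)
  obtain ⟨-, -, h9⟩ := mem_winS.1 h8
  have e2 : ℓ - sh (ℓ / 4) + 1 + ((ℓ / 4) / 1000 + 1) = thr ℓ := by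
    unfold thr
    omega
  rwa [e2] at h9

lemma RegAnc.ctx {d ℓ : ℕ} (hd : 3000 ≤ d) (hℓ : 400 ≤ ℓ) {W : List ℕ} {v u : ℤ}
    (h : RegAnc d ℓ W v u) (hu : u ∈ win ℓ (ℓ + 1)) :
    Ctx (ℓ / 4) (3 * (ℓ / 4 / d)) W v (2 ^ (ℓ / 8)) := by
  obtain ⟨⟨h1, h2, h3, h4⟩, h5, h6, h7⟩ := h
  have e1 : ℓ / 4 / d ≤ ℓ / 4 / 3000 := Nat.div_le_div_left hd (by norm_num)
  refine ctx_of (by omega) (by omega) (by omega) h1 h5 h6 h7 h3 ?_
  rw [h4]
  exact (mem_win.1 hu).1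

lemma le_two_pow_sixteenth {ℓ : ℕ} (h : 400 ≤ ℓ) : ℓ ≤ 2 ^ (ℓ / 16) := by
  obtain ⟨m, hm⟩ : ∃ m, ℓ / 16 = m + 8 := ⟨ℓ / 16 - 8, by omega⟩
  have h1 : m < 2 ^ m := Nat.lt_two_pow_self
  rw [hm, pow_add]
  omega

/-- The next record. -/
theorem exists_record {d ℓ : ℕ} (hd : 3000 ≤ d) (hℓ : 400 ≤ ℓ) {W : List ℕ} {v u : ℤ}
    (h : RegAnc d ℓ W v u) (hu : u ∈ win ℓ (ℓ + 1)) :
    ∃ (U V : List ℕ) (w : ℤ), W = U ++ V ∧ w = ch U v ∧ Anc V w u ∧ Hi |w| V w ∧ |w| < 2 ^ thr ℓ ∧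
      V.length ≤ ℓ / 4 ∧ ℓ / 4 ≤ 2 * V.length + 1 ∧ Reg (6 * (ℓ / 4 / d)) V ∧ dst V ≤ 2 ^ (ℓ / 8) := by
  have hthr := h.lt_thr hd hℓ hu
  have hc := h.ctx hd hℓ hu
  obtain ⟨h0, h5, h6, h7⟩ := h
  -- choice of the record
  obtain ⟨i, hi, hmin⟩ := exists_min_image (range (W.length + 1)) (fun i => |ch (W.take i) v|)
    ⟨0, by rw [mem_range]; omega⟩
  rw [mem_range] at hi
  have hWd := List.take_append_drop i W
  obtain ⟨U, hU⟩ : ∃ U, U = W.take i := ⟨_, rfl⟩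
  obtain ⟨V, hV⟩ : ∃ V, V = W.drop i := ⟨_, rfl⟩
  rw [← hU, ← hV] at hWd
  have hUlen : U.length = i := by rw [hU, List.length_take]; omega
  have hVlen : V.length = ℓ / 4 - i := by rw [hV, List.length_drop, h5]
  have hW' : W = U ++ V := hWd.symm
  have hanc : Anc V (ch U v) u := (Anc.split (hW' ▸ h0)).2
  have hvd : vd (U ++ V) v := hW' ▸ h0.2.2.1
  have hmin' : ∀ U' V' : List ℕ, W = U' ++ V' → |ch U v| ≤ |ch U' v| := by
    intro U' V' hUV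
    have h1 : U' = W.take U'.length := by rw [hUV, List.take_left']; rfl
    have h2 := hmin U'.length (by
      rw [mem_range, hUV, List.length_append]; omega)
    rw [← h1, ← hU] at h2
    exact h2
  have hle : |ch U v| ≤ |v| := by
    have := hmin' [] W rfl
    rwa [ch_nil] at this
  have hHi : Hi |ch U v| V (ch U v) := by
    intro V' V'' hVV
    have h1 : vd (U ++ V') v := by
      rw [hVV, ← List.append_assoc] at hvd
      exact (vd_append.1 hvd).1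
    have h2 := hmin' (U ++ V') V'' (by rw [hW', hVV, List.append_assoc])
    rwa [ch_append h1] at h2
  -- the record is not close to `v`
  have hΔ : ℓ / 4 / d ≤ ℓ / 4 / 3000 := Nat.div_le_div_left hd (by norm_num)
  have hD0 : (0 : ℝ) < 2 ^ (ℓ / 8) := by positivity
  have hv0 : 0 < |(v : ℝ)| := by linarith [hc.big]
  have hlen : ℓ / 4 ≤ 2 * V.length + 1 := by
    by_contra hcon
    push Not at hcon
    have hi2 : ℓ / 4 ≤ 2 * i := by omega
    have h1 := (hc.reg' hW').2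
    rw [hUlen] at h1
    have h2 : 2 < ht U := by
      unfold ht
      rw [hUlen, lt_div_iff₀ (by positivity)]
      have h3 : 3 ^ 5 * 2 ^ 2 ≤ 4 ^ 5 := by norm_num
      have h4 : 2 * 3 ^ i * 2 ^ (3 * (ℓ / 4 / d)) < 2 ^ (2 * i) := by
        have e1 : (2 ^ 2 * 3 ^ 5) ^ (i / 5) ≤ (4 ^ 5) ^ (i / 5) := Nat.pow_le_pow_left (by norm_num) _
        have e2 : 3 ^ (i % 5) ≤ 4 ^ (i % 5) := Nat.pow_le_pow_left (by norm_num) _
        have e3 : i = 5 * (i / 5) + i % 5 := by omega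
        have e4 : 2 * 2 ^ (3 * (ℓ / 4 / d)) < 2 ^ (2 * (i / 5)) := by
          rw [← pow_succ']
          exact Nat.pow_lt_pow_right (by norm_num) (by omega)
        have e5 : (3 : ℕ) ^ i = (3 ^ 5) ^ (i / 5) * 3 ^ (i % 5) := by
          rw [← pow_mul, ← pow_add, ← e3]
        have e6 : (2 : ℕ) ^ (2 * i) = (4 ^ 5) ^ (i / 5) * 4 ^ (i % 5) := by
          rw [← pow_mul, ← pow_add, ← e3, pow_mul]
          norm_num
        have e7 : (2 ^ 2 * 3 ^ 5 : ℕ) ^ (i / 5) = 2 ^ (2 * (i / 5)) * (3 ^ 5) ^ (i / 5) := by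
          rw [mul_pow, ← pow_mul]
        have e8 : 0 < (3 ^ 5 : ℕ) ^ (i / 5) * 3 ^ (i % 5) := by positivity
        rw [e5, e6]
        calc 2 * ((3 ^ 5) ^ (i / 5) * 3 ^ (i % 5)) * 2 ^ (3 * (ℓ / 4 / d))
            = (2 * 2 ^ (3 * (ℓ / 4 / d))) * ((3 ^ 5) ^ (i / 5) * 3 ^ (i % 5)) := by ring
          _ < 2 ^ (2 * (i / 5)) * ((3 ^ 5) ^ (i / 5) * 3 ^ (i % 5)) := Nat.mul_lt_mul_of_pos_right e4 e8
          _ = (2 ^ 2 * 3 ^ 5) ^ (i / 5) * 3 ^ (i % 5) := by rw [e7]; ring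
          _ ≤ (4 ^ 5) ^ (i / 5) * 4 ^ (i % 5) := Nat.mul_le_mul e1 e2
      have h5 : 2 ^ (2 * i) ≤ 2 ^ js U * 2 ^ (3 * (ℓ / 4 / d)) := by
        rw [← pow_add]
        exact Nat.pow_le_pow_right (by norm_num) h1
      have h6 : 2 * 3 ^ i * 2 ^ (3 * (ℓ / 4 / d)) < 2 ^ js U * 2 ^ (3 * (ℓ / 4 / d)) := lt_of_lt_of_le h4 h5
      have h7 : 2 * 3 ^ i < 2 ^ js U := lt_of_mul_lt_mul_right h6 (Nat.zero_le _)
      exact_mod_cast h7
    have h3 : dst U ≤ 2 ^ (ℓ / 8) := by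
      refine (dst_le_append U V).trans ?_
      rw [← hW']
      exact h7
    have h4 := (ch_between (vd_append.1 hvd).1 h3).1
    have h5 : |(v : ℝ)| / 2 ≤ |(v : ℝ)| - 2 ^ (ℓ / 8) := by linarith [hc.big]
    have h6 : 2 * (|(v : ℝ)| / 2) < ht U * (|(v : ℝ)| - 2 ^ (ℓ / 8)) :=
      mul_lt_mul h2 h5 (by positivity) (by positivity)
    have h8 : |(ch U v : ℝ)| ≤ |(v : ℝ)| := by exact_mod_cast hle
    linarith
  refine ⟨U, V, ch U v, hW', rfl, hanc, hHi, lt_of_le_of_lt hle hthr, by omega, hlen, ?_, ?_⟩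
  · -- regularity
    intro j hj
    have h1 : W.take (i + j) = U ++ V.take j := by
      rw [hW', List.take_append, hUlen, List.take_of_length_le (by omega)]
      congr 2
      omega
    have h2 := h6 (i + j) (by rw [h5]; omega)
    rw [h1, js_append] at h2
    have h3 := hc.reg' hW'
    rw [hUlen] at h3
    omega
  · -- displacement
    have hlin := le_two_pow_sixteenth hℓ
    have h3 : dst U ≤ 2 ^ (ℓ / 8) := by
      refine (dst_le_append U V).trans ?_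
      rw [← hW']
      exact h7
    have h4 := (ch_between (vd_append.1 hvd).1 h3).1
    have h5 : |(v : ℝ)| / 2 ≤ |(v : ℝ)| - 2 ^ (ℓ / 8) := by linarith [hc.big]
    have h6 : (2 : ℝ) ^ (ℓ / 8) ≤ |(v : ℝ)| / 2 := by linarith [hc.big]
    have h8 : 1 ≤ 2 ^ (3 * (ℓ / 4 / d)) * ht U := by
      have h1 := (hc.reg' hW').2
      unfold ht
      rw [← mul_div_assoc, le_div_iff₀ (by positivity), one_mul, ← pow_add]
      calc (3 : ℝ) ^ U.length ≤ 4 ^ U.length := pow_le_pow_left₀ (by norm_num) (by norm_num) _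
        _ = 2 ^ (2 * U.length) := by rw [pow_mul]; norm_num
        _ ≤ 2 ^ (3 * (ℓ / 4 / d) + js U) := pow_le_pow_right₀ (by norm_num) (by omega)
    have h9 : (2 : ℝ) ^ (ℓ / 16) ≤ |(ch U v : ℝ)| := by
      have e1 : (2 : ℝ) ^ (ℓ / 16) * 2 ^ (3 * (ℓ / 4 / d)) ≤ 2 ^ (ℓ / 8) := by
        rw [← pow_add]
        exact pow_le_pow_right₀ (by norm_num) (by omega)
      have e2 : ht U * (|(v : ℝ)| / 2) ≤ |(ch U v : ℝ)| :=
        (mul_le_mul_of_nonneg_left h5 (ht_pos U).le).trans h4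
      have e3 : ht U * 2 ^ (ℓ / 8) ≤ |(ch U v : ℝ)| :=
        (mul_le_mul_of_nonneg_left h6 (ht_pos U).le).trans e2
      calc (2 : ℝ) ^ (ℓ / 16) = 2 ^ (ℓ / 16) * 1 := by ring
        _ ≤ 2 ^ (ℓ / 16) * (2 ^ (3 * (ℓ / 4 / d)) * ht U) := mul_le_mul_of_nonneg_left h8 (by positivity)
        _ = (2 ^ (ℓ / 16) * 2 ^ (3 * (ℓ / 4 / d))) * ht U := by ring
        _ ≤ 2 ^ (ℓ / 8) * ht U := mul_le_mul_of_nonneg_right e1 (ht_pos U).le
        _ = ht U * 2 ^ (ℓ / 8) := by ring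
        _ ≤ _ := e3
    have hlin' : (ℓ : ℝ) ≤ 2 ^ (ℓ / 16) := by exact_mod_cast hlin
    have hw0 : ch U v ≠ 0 := by
      intro h1
      rw [h1] at h9
      simp at h9
      have : (0 : ℝ) < 2 ^ (ℓ / 16) := by positivity
      linarith
    have hV2 : (V.length : ℝ) ≤ ℓ / 4 := by
      have e1 : 4 * V.length ≤ ℓ := by omega
      have e2 : 4 * (V.length : ℝ) ≤ ℓ := by exact_mod_cast e1
      linarith
    have hℓr : (400 : ℝ) ≤ ℓ := by exact_mod_cast hℓ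
    have h10 := dst_le_of_Hi hanc.2.2.1 hHi (by linarith) hw0
    have h11 : (2 : ℝ) ^ (ℓ / 16) ≤ 2 ^ (ℓ / 8) := pow_le_pow_right₀ (by norm_num) (by omega)
    linarith

/-- The first stuck record. -/
theorem chainR {c : ℝ} {n₀ d L₂ : ℕ} (hd : 3000 ≤ d) (hdc : 18 ≤ c * d) (hL₂ : 16 * n₀ + 10000 ≤ L₂)
    {a : ℤ → ℝ} (ha : AdmC c n₀ a)
    (hz : ∀ v : ℤ, |v| < 2 ^ L₂ → a v = 0) : ∀ (ℓ : ℕ) (u : ℤ), u ∈ win ℓ (ℓ + 1) → a u ≠ 0 →
    ∃ (ℓ' : ℕ) (W : List ℕ) (v : ℤ), L₂ ≤ ℓ' ∧ Anc W v u ∧ v ∈ win ℓ' (ℓ' + 1) ∧ StuckR d ℓ' v ∧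
      Hi |v| W v ∧ W.length ≤ 3 * ℓ ∧ ((W = [] ∧ v = u) ∨ |v| < 2 ^ thr ℓ) := by
  intro ℓ
  induction ℓ using Nat.strong_induction_on with
  | _ ℓ ih =>
    intro u hu hau
    obtain ⟨hu1, hu2, hu3⟩ := mem_win.1 hu
    have hℓ : L₂ ≤ ℓ := by
      by_contra hcon
      apply hau
      apply hz
      exact lt_of_lt_of_le hu2 (pow_le_pow_right₀ (by norm_num) (by omega))
    by_cases hs : StuckR d ℓ u
    · refine ⟨ℓ, [], u, hℓ, Anc.nil hu3, hu, hs, ?_, by simp, Or.inl ⟨rfl, rfl⟩⟩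
      intro W' W'' h
      have h1 : W' = [] := by
        have := List.append_eq_nil_iff.1 h.symm
        exact this.1
      rw [h1, ch_nil]
    · unfold StuckR at hs
      push Not at hs
      obtain ⟨W₀, v₀, hW₀⟩ := hs
      obtain ⟨U, V, v₁, -, -, h1, hHi, h3, hlen, hlen2, hreg, hdst⟩ := exists_record hd (by omega) hW₀ hu
      have hav₁ : a v₁ ≠ 0 := by
        obtain ⟨b1, b2, b3, b4⟩ := h1
        have hdiv : ℓ / 4 / d ≤ ℓ / 4 / 3000 := Nat.div_le_div_left hd (by norm_num)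
        have hd0 : (0 : ℝ) < d := by exact_mod_cast (by omega : 0 < d)
        have h4 := ha.mono V.length (6 * (ℓ / 4 / d)) ℓ V v₁ (by omega) (by
          have e1 : (((ℓ / 4 / d : ℕ) : ℝ)) * d ≤ ((ℓ / 4 : ℕ) : ℝ) := by
            exact_mod_cast Nat.div_mul_le_self (ℓ / 4) d
          have e2 : ((ℓ / 4 : ℕ) : ℝ) ≤ 3 * V.length := by
            have : ℓ / 4 ≤ 3 * V.length := by omega
            exact_mod_cast this
          have e3 : (0 : ℝ) ≤ V.length := Nat.cast_nonneg _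
          have e4 : 6 * (((ℓ / 4 / d : ℕ) : ℝ)) * d ≤ c * V.length * d := by nlinarith
          push_cast
          exact le_of_mul_le_mul_right e4 hd0) (by omega) (by omega) b1 rfl hreg hdst b2 b3 (by
            rw [b4]; exact hu1)
        rw [b4] at h4
        have h5 := ha.nonneg u
        have h6 : 0 < a u := lt_of_le_of_ne h5 (Ne.symm hau)
        exact (h6.trans_le h4).ne'
      have hv₁0 : v₁ ≠ 0 := by
        rintro rfl
        exact hav₁ (hz 0 (by simp))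
      obtain ⟨ℓ₁, g1, g2⟩ := exists_dyadic hv₁0
      have hℓ₁ : ℓ₁ < thr ℓ := (pow_lt_pow_iff_right₀ (show (1 : ℤ) < 2 by norm_num)).1 (lt_of_le_of_lt g1 h3)
      have hthr := thr_le (ℓ := ℓ) (by omega)
      obtain ⟨ℓ', W₂, v₂, c1, c2, c3, c4, c5, c6, -⟩ := ih ℓ₁ (by omega) v₁
        (mem_win.2 ⟨g1, g2, h1.2.1⟩) hav₁
      have hanc := c2.trans h1
      have hlast : |v₂| ≤ |v₁| := by
        have := c5.last
        rwa [c2.2.2.2] at this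
      refine ⟨ℓ', W₂ ++ V, v₂, c1, hanc, c3, c4, ?_, ?_, Or.inr (lt_of_le_of_lt hlast h3)⟩
      · refine Hi.append hanc.2.2.1 c5 ?_
        rw [c2.2.2.2]
        exact hHi.mono hlast
      · rw [List.length_append]
        omega

end CollatzPow
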