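import Pool.Agent.CollatzPow.Hi
import Pool.Agent.CollatzLin.Mom

set_option autoImplicit false

/-!
# Sums of periodic functions over the descendants of a point
-/

namespace CollatzPow

open CollatzOne CollatzLin Finset

lemma S_mul_period {N : ℕ} {f : ℤ → ℝ} (h : Per N f) (q : ℕ) : S (N * q) f = q * S N f := by
  rw [S_mul]
  have h1 : ∀ a : ℤ, S q (fun u => f (a + N * u)) = q * f a := by
    intro a
    have h2 : S q (fun u => f (a + N * u)) = S q (fun _ => f a) := S_congr fun u => h.add_mul a u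
    rw [h2, S_const]
  rw [S_congr h1, S_mul_left]

lemma sum_Icc_le {N : ℕ} (hN : 1 ≤ N) {f : ℤ → ℝ} (h : Per N f) (h0 : ∀ x, 0 ≤ f x) (a b : ℤ) {X : ℝ}
    (hX0 : 0 ≤ X) (hX : (b : ℝ) - a ≤ X) : ∑ x ∈ Icc a b, f x ≤ (X + 1 + N) * mean N f := by
  have hN' : (0 : ℝ) < N := by exact_mod_cast hN
  have hm : 0 ≤ mean N f := mean_nonneg h0
  have hS : S N f = N * mean N f := by
    unfold mean
    field_simp
  set L := (b + 1 - a).toNat with hL
  set q := L / N + 1 with hq
  have hLq : L ≤ N * q := by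
    have h1 := Nat.div_add_mod L N
    have h2 := Nat.mod_lt L hN
    rw [hq, Nat.mul_add, Nat.mul_one]
    omega
  have h1 : ∑ x ∈ Icc a b, f x ≤ S (N * q) (fun x => f (x + a)) := by
    unfold S
    rw [← sum_image (s := range (N * q)) (g := fun u : ℕ => (u : ℤ) + a) (f := f)]
    · refine sum_le_sum_of_subset_of_nonneg ?_ fun x _ _ => h0 x
      intro x hx
      rw [mem_Icc] at hx
      rw [mem_image]
      refine ⟨(x - a).toNat, ?_, by omega⟩
      rw [mem_range]
      omega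
    · intro x _ y _ hxy
      have : (x : ℤ) + a = (y : ℤ) + a := hxy
      omega
  refine h1.trans ?_
  rw [S_shift (Per.mul_right h) a, S_mul_period h, hS]
  have h2 : (q : ℝ) * N ≤ X + 1 + N := by
    have h3 : L / N * N ≤ L := Nat.div_mul_le_self L N
    have h4 : q * N ≤ L + N := by
      rw [hq, Nat.add_mul, Nat.one_mul]
      omega
    have h5 : (q : ℝ) * N ≤ L + N := by exact_mod_cast h4
    have h6 : (L : ℝ) ≤ X + 1 := by
      rcases le_total 0 (b + 1 - a) with h7 | h7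
      · have h8 : ((L : ℤ) : ℝ) = ((b + 1 - a : ℤ) : ℝ) := by
          rw [hL, Int.toNat_of_nonneg h7]
        push_cast at h8
        linarith
      · have h8 : L = 0 := by omega
        rw [h8]
        push_cast
        linarith
    linarith
  calc (q : ℝ) * (N * mean N f) = (q * N) * mean N f := by ring
    _ ≤ _ := mul_le_mul_of_nonneg_right h2 hm

/-- The descendants of a point along words of the same length and exponent, of displacement at
most `K`, are distinct integers of an interval of length `K h`. -/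
theorem sum_ch_le {N : ℕ} (hN : 1 ≤ N) {f : ℤ → ℝ} (h : Per N f) (h0 : ∀ x, 0 ≤ f x) {y : ℤ} {n J : ℕ}
    {K : ℝ} (hK : 0 ≤ K) {𝒱 : Finset (List ℕ)} (h1 : ∀ W ∈ 𝒱, ∀ e ∈ W, 1 ≤ e)
    (h2 : ∀ W ∈ 𝒱, W.length = n) (h3 : ∀ W ∈ 𝒱, js W = J) (h4 : ∀ W ∈ 𝒱, vd W y)
    (h5 : ∀ W ∈ 𝒱, dst W ≤ K) :
    ∑ W ∈ 𝒱, f (ch W y) ≤ (K * (2 ^ J / 3 ^ n) + 1 + N) * mean N f := by
  set H : ℝ := 2 ^ J / 3 ^ n with hH
  have hH0 : 0 < H := by positivity
  have hbd : ∀ W ∈ 𝒱, H * ((y : ℝ) - K) ≤ ch W y ∧ (ch W y : ℝ) ≤ H * y := by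
    intro W hW
    have e1 := ch_real (h4 W hW)
    have e2 : ht W = H := by
      unfold ht
      rw [h2 W hW, h3 W hW]
    have e3 : (0 : ℝ) ≤ bs W := by exact_mod_cast bs_nonneg W
    have e4 := bs_le W
    have e5 : (bs W : ℝ) / 2 ^ js W ≤ dst W := by
      rw [div_le_iff₀ (by positivity)]
      linarith
    have e6 : 0 ≤ (bs W : ℝ) / 2 ^ js W := by positivity
    have e7 := h5 W hW
    rw [e1, e2]
    constructor
    · exact mul_le_mul_of_nonneg_left (by linarith) hH0.le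
    · exact mul_le_mul_of_nonneg_left (by linarith) hH0.le
  have hinj : Set.InjOn (fun W => ch W y) (𝒱 : Set (List ℕ)) := by
    intro W hW W' hW' hWW
    exact ch_inj (h1 W hW) (h1 W' hW') (h4 W hW) (h4 W' hW') (by rw [h2 W hW, h2 W' hW'])
      (by rw [h3 W hW, h3 W' hW']) hWW
  rw [← sum_image (f := f) hinj]
  refine le_trans (sum_le_sum_of_subset_of_nonneg (t := Icc ⌈H * ((y : ℝ) - K)⌉ ⌊H * y⌋) ?_ fun x _ _ => h0 x) ?_
  · intro x hx
    rw [mem_image] at hx
    obtain ⟨W, hW, rfl⟩ := hx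
    rw [mem_Icc]
    obtain ⟨e1, e2⟩ := hbd W hW
    exact ⟨Int.ceil_le.2 e1, Int.le_floor.2 e2⟩
  · refine sum_Icc_le hN h h0 _ _ (by positivity) ?_
    have e1 := Int.le_ceil (H * ((y : ℝ) - K))
    have e2 := Int.floor_le (H * (y : ℝ))
    have e3 : H * (y : ℝ) - H * ((y : ℝ) - K) = K * H := by ring
    linarith

end CollatzPow
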