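import Pool.Agent.CollatzPow.Stk
import Pool.Agent.CollatzPow.Count

set_option autoImplicit false

/-!
# The crude bound for the points whose trajectories stay away from the bounded region
-/

namespace CollatzPow

open CollatzOne CollatzLin Finset

lemma sum_le_of_cover {ι : Type*} (U : Finset ℤ) (I : Finset ι) (φ : ι → ℤ) (g : ℤ → ℝ)
    (hg : ∀ x, 0 ≤ g x) (h : ∀ u ∈ U, ∃ i ∈ I, φ i = u) : ∑ u ∈ U, g u ≤ ∑ i ∈ I, g (φ i) := by
  classical
  have h1 : U ⊆ I.image φ := by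
    intro u hu
    obtain ⟨i, hi, rfl⟩ := h u hu
    exact mem_image_of_mem φ hi
  have h2 : ∑ i ∈ I, g (φ i) = ∑ x ∈ I.image φ, ∑ i ∈ I.filter (fun i => φ i = x), g (φ i) :=
    (sum_fiberwise_of_maps_to (fun i hi => mem_image_of_mem φ hi) _).symm
  rw [h2]
  refine (sum_le_sum_of_subset_of_nonneg h1 fun x _ _ => hg x).trans (sum_le_sum fun x hx => ?_)
  obtain ⟨i, hi, hix⟩ := mem_image.1 hx
  have h3 : g (φ i) ≤ ∑ i ∈ I.filter (fun i => φ i = x), g (φ i) :=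
    single_le_sum (f := fun i => g (φ i)) (fun j _ => hg (φ j)) (mem_filter.2 ⟨hi, hix⟩)
  rwa [hix] at h3

lemma letters_lt {B : ℕ} : ∀ {W : List ℕ} (_ : ∀ e ∈ W, 1 ≤ e) {v : ℤ} (_ : vd W v)
    (_ : |ch W v| < 2 ^ B), ∀ e ∈ W, e < B + W.length + 4 := by
  intro W
  induction W with
  | nil => intro _ v _ _ e he; simp at he
  | cons e W ih =>
    intro hW v hv hB x hx
    obtain ⟨h1, h2⟩ := vd_cons.1 hv
    rw [ch_cons hv] at hB
    have hW' : ∀ e ∈ W, 1 ≤ e := fun y hy => hW y (by simp [hy])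
    rw [List.length_cons]
    rcases List.mem_cons.1 hx with rfl | hx
    · have h3 := abs_ancestor_lt hW' rfl h2 hB
      have h4 := letter_lt h1 h3
      omega
    · have := ih hW' h2 hB x hx
      omega

/-- For large `A` the descendants of the points below the threshold are spread over many periods. -/
lemma three_pow_le_thr {A m : ℕ} (hA : 20000 ≤ A) (hm : 16 * m ≤ A) : 3 ^ m ≤ 2 ^ (A - thr A) := by
  have h1 := twelve_sh (A / 4)
  have h2 := lt_five_sh (A / 4)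
  have h3 : 27 * m ≤ 17 * (A - thr A) := by
    unfold thr
    omega
  have h4 : (3 ^ m) ^ 17 ≤ (2 ^ (A - thr A)) ^ 17 := by
    calc (3 ^ m) ^ 17 = (3 ^ 17) ^ m := by rw [← pow_mul, ← pow_mul, mul_comm]
      _ ≤ (2 ^ 27) ^ m := Nat.pow_le_pow_left (by norm_num) m
      _ = 2 ^ (27 * m) := by rw [← pow_mul]
      _ ≤ 2 ^ (17 * (A - thr A)) := Nat.pow_le_pow_right (by norm_num) h3
      _ = (2 ^ (A - thr A)) ^ 17 := by rw [← pow_mul, mul_comm]
  exact (Nat.pow_le_pow_iff_left (by norm_num)).1 h4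

open Classical in
/-- The descendants in the window along words of displacement at most `6 A + 2`. -/
noncomputable def dsc (E A n : ℕ) (v : ℤ) : Finset (List ℕ) :=
  (words E n).filter (fun W => vd W v ∧ ch W v ∈ win A (A + 1) ∧ dst W ≤ 6 * A + 2)

lemma dsc_sum_le {E A m n : ℕ} (hE : 1 ≤ E) (hA : 20000 ≤ A) (hm : 16 * m ≤ A) (hn : n ≤ 3 * A) {v : ℤ}
    (hv1 : 2 * (6 * (A : ℝ) + 2) ≤ |(v : ℝ)|) (hv2 : |v| < 2 ^ thr A) :
    ∑ W ∈ dsc E A n v, F E m (ch W v) / |(ch W v : ℝ)| ≤ 200 * (A : ℝ) ^ 2 / |(v : ℝ)| := by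
  classical
  have hAr : (20000 : ℝ) ≤ A := by exact_mod_cast hA
  set K : ℝ := 6 * A + 2 with hK
  have hK0 : 0 ≤ K := by positivity
  have hv0 : 0 < |(v : ℝ)| := by linarith
  have hmem : ∀ W ∈ dsc E A n v, W ∈ words E n ∧ vd W v ∧ ch W v ∈ win A (A + 1) ∧ dst W ≤ K := by
    intro W hW
    unfold dsc at hW
    rw [mem_filter] at hW
    exact ⟨hW.1, hW.2.1, hW.2.2.1, hW.2.2.2⟩
  have hht : ∀ W ∈ dsc E A n v, ht W < 4 * 2 ^ A / |(v : ℝ)| := by
    intro W hW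
    obtain ⟨h1, h2, h3, h4⟩ := hmem W hW
    obtain ⟨g1, -⟩ := ch_between h2 h4
    have g2 := (win_real h3).2
    rw [lt_div_iff₀ hv0]
    have h5 := ht_pos W
    have g3 : ht W * (|(v : ℝ)| / 2) ≤ ht W * (|(v : ℝ)| - K) := mul_le_mul_of_nonneg_left (by linarith) h5.le
    rw [pow_succ] at g2
    linarith
  have hjs : ∀ W ∈ dsc E A n v, js W ∈ range (7 * A + 2) := by
    intro W hW
    have h1 := hht W hW
    have h2 : (1 : ℝ) ≤ |(v : ℝ)| := by linarith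
    have h3 : ht W < 4 * 2 ^ A := by
      refine lt_of_lt_of_le h1 ?_
      rw [div_le_iff₀ hv0]
      have : (0 : ℝ) ≤ 4 * 2 ^ A := by positivity
      nlinarith
    unfold ht at h3
    rw [length_of_mem (hmem W hW).1, div_lt_iff₀ (by positivity)] at h3
    have h4 : (3 : ℝ) ^ n ≤ 4 ^ n := pow_le_pow_left₀ (by norm_num) (by norm_num) n
    have h5 : (2 : ℝ) ^ js W < 2 ^ (2 + A + 2 * n) := by
      calc (2 : ℝ) ^ js W < 4 * 2 ^ A * 3 ^ n := h3
        _ ≤ 4 * 2 ^ A * 4 ^ n := mul_le_mul_of_nonneg_left h4 (by positivity)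
        _ = 2 ^ (2 + A + 2 * n) := by
          rw [pow_add, pow_add, pow_mul]; norm_num
    have h6 := (pow_lt_pow_iff_right₀ (show (1 : ℝ) < 2 by norm_num)).1 h5
    rw [mem_range]
    omega
  rw [← sum_fiberwise_of_maps_to hjs]
  have hone : ∀ J ∈ range (7 * A + 2), ∑ W ∈ (dsc E A n v).filter (fun W => js W = J),
      F E m (ch W v) / |(ch W v : ℝ)| ≤ (4 * K + 2) / |(v : ℝ)| := by
    intro J _
    set 𝒱 := (dsc E A n v).filter (fun W => js W = J) with h𝒱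
    have hm' : ∀ W ∈ 𝒱, W ∈ dsc E A n v ∧ js W = J := fun W hW => mem_filter.1 hW
    rcases 𝒱.eq_empty_or_nonempty with h0 | ⟨W₀, hW₀⟩
    · rw [h0, sum_empty]; positivity
    have h1 : ∀ W ∈ 𝒱, F E m (ch W v) / |(ch W v : ℝ)| ≤ F E m (ch W v) * (1 / 2 ^ A) := by
      intro W hW
      have h2 := (win_real (hmem W (hm' W hW).1).2.2.1).1
      rw [div_eq_mul_one_div]
      exact mul_le_mul_of_nonneg_left (one_div_le_one_div_of_le (by positivity) h2) (F_nonneg E m _)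
    have h2 := sum_ch_le (N := 3 ^ m) (Nat.one_le_pow _ _ (by norm_num)) (F_per E m) (F_nonneg E m)
      (y := v) (n := n) (J := J) hK0 (𝒱 := 𝒱) (fun W hW => one_le_of_mem (hmem W (hm' W hW).1).1)
      (fun W hW => length_of_mem (hmem W (hm' W hW).1).1) (fun W hW => (hm' W hW).2)
      (fun W hW => (hmem W (hm' W hW).1).2.1) (fun W hW => (hmem W (hm' W hW).1).2.2.2)
    rw [mean_F hE, mul_one] at h2
    have h3 : (2 : ℝ) ^ J / 3 ^ n < 4 * 2 ^ A / |(v : ℝ)| := by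
      have h4 := hht W₀ (hm' W₀ hW₀).1
      unfold ht at h4
      rwa [length_of_mem (hmem W₀ (hm' W₀ hW₀).1).1, (hm' W₀ hW₀).2] at h4
    have hthr : thr A ≤ A := (thr_le (by omega)).trans (Nat.sub_le _ _)
    have h4 : (3 : ℝ) ^ m ≤ 2 ^ A / |(v : ℝ)| := by
      rw [le_div_iff₀ hv0]
      have h5 : (3 : ℝ) ^ m ≤ 2 ^ (A - thr A) := by exact_mod_cast three_pow_le_thr hA hm
      have h6 : |(v : ℝ)| ≤ 2 ^ thr A := by exact_mod_cast hv2.le
      calc (3 : ℝ) ^ m * |(v : ℝ)| ≤ 2 ^ (A - thr A) * 2 ^ thr A :=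
            mul_le_mul h5 h6 (abs_nonneg _) (by positivity)
        _ = 2 ^ A := by rw [← pow_add]; congr 1; omega
    have h5 : (1 : ℝ) ≤ 3 ^ m := one_le_pow₀ (by norm_num)
    calc ∑ W ∈ 𝒱, F E m (ch W v) / |(ch W v : ℝ)| ≤ ∑ W ∈ 𝒱, F E m (ch W v) * (1 / 2 ^ A) := sum_le_sum h1
      _ = (∑ W ∈ 𝒱, F E m (ch W v)) * (1 / 2 ^ A) := by rw [sum_mul]
      _ ≤ (K * (2 ^ J / 3 ^ n) + 1 + ((3 ^ m : ℕ) : ℝ)) * (1 / 2 ^ A) :=
          mul_le_mul_of_nonneg_right h2 (by positivity)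
      _ ≤ (K * (4 * 2 ^ A / |(v : ℝ)|) + 2 * (2 ^ A / |(v : ℝ)|)) * (1 / 2 ^ A) := by
          refine mul_le_mul_of_nonneg_right ?_ (by positivity)
          have h6 := mul_le_mul_of_nonneg_left h3.le hK0
          push_cast
          linarith
      _ = (4 * K + 2) / |(v : ℝ)| := by field_simp
  refine (sum_le_sum hone).trans ?_
  rw [sum_const, card_range, nsmul_eq_mul, ← mul_div_assoc]
  refine div_le_div_of_nonneg_right ?_ hv0.le
  push_cast
  nlinarith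

theorem crude : ∃ (C : ℝ) (L₀ E₀ : ℕ), 0 < C ∧ ∀ L₂ A m E : ℕ, L₀ ≤ L₂ → 12 * A + 4 ≤ 2 ^ L₂ →
    16 * m ≤ A → E₀ ≤ E → 5 * A ≤ E → ∀ a : ℤ → ℝ, Adm a → (∀ v : ℤ, |v| < 2 ^ L₂ → a v = 0) →
    LS A (A + 1) (fun v => F E m v * a v) ≤ C * (A : ℝ) ^ 3 * Real.exp (-(c₀ * L₂)) := by
  classical
  obtain ⟨C, L₀, E₀, hC, hL8, hstk⟩ := stk_small
  set r : ℝ := Real.exp (-c₀) with hr
  have hr0 : 0 < r := Real.exp_pos _
  have hr1 : r < 1 := by
    rw [hr, Real.exp_lt_one_iff]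
    linarith [c₀_pos]
  have hrl : ∀ ℓ : ℕ, Real.exp (-(c₀ * ℓ)) = r ^ ℓ := by
    intro ℓ
    rw [hr, ← Real.exp_nat_mul]
    congr 1
    ring
  refine ⟨C * (1 + 800 / (1 - r)), max L₀ 20000, max E₀ 1, ?_, ?_⟩
  · have : 0 < 1 - r := by linarith
    positivity
  intro L₂ A m E hL hA2 hm hE hE5 a ha hz
  have hL0 : L₀ ≤ L₂ := (le_max_left _ _).trans hL
  have hL2 : 20000 ≤ L₂ := (le_max_right _ _).trans hL
  have hE0 : E₀ ≤ E := (le_max_left _ _).trans hE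
  have hE1 : 1 ≤ E := (le_max_right _ _).trans hE
  have h1r : 0 < 1 - r := by linarith
  have hexp0 := Real.exp_pos (-(c₀ * L₂))
  rcases Nat.lt_or_ge A L₂ with hAL | hAL
  · -- empty case
    have h1 : LS A (A + 1) (fun v => F E m v * a v) = 0 := by
      refine LS_zero fun v hv => ?_
      have h2 := (mem_win.1 hv).2.1
      rw [hz v (lt_of_lt_of_le h2 (pow_le_pow_right₀ (by norm_num) (by omega))), mul_zero]
    rw [h1]
    positivity
  have hA : 20000 ≤ A := hL2.trans hAL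
  have hAr : (20000 : ℝ) ≤ A := by exact_mod_cast hA
  have hthr : thr A ≤ A - A / 11 := thr_le (by omega)
  set g : ℤ → ℝ := fun u => F E m u / |(u : ℝ)| with hg
  have hg0 : ∀ u, 0 ≤ g u := fun u => div_nonneg (F_nonneg E m u) (abs_nonneg _)
  set U := (win A (A + 1)).filter (fun u => a u ≠ 0) with hU
  have hLS : LS A (A + 1) (fun v => F E m v * a v) ≤ ∑ u ∈ U, g u := by
    unfold LS
    rw [← sum_filter_add_sum_filter_not (win A (A + 1)) (fun u => a u ≠ 0)]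
    have h1 : ∑ u ∈ (win A (A + 1)).filter (fun u => ¬ a u ≠ 0), F E m u * a u / |(u : ℝ)| = 0 := by
      refine sum_eq_zero fun u hu => ?_
      have := (mem_filter.1 hu).2
      push Not at this
      rw [this, mul_zero, zero_div]
    rw [h1, add_zero]
    refine sum_le_sum fun u _ => ?_
    refine div_le_div_of_nonneg_right ?_ (abs_nonneg _)
    have := mul_le_mul_of_nonneg_left (ha.le_one u) (F_nonneg E m u)
    linarith
  have hsplit := (sum_filter_add_sum_filter_not U (fun u => Stuck A u) g).symm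
  -- the stuck points of the window
  have hst : ∑ u ∈ U.filter (fun u => Stuck A u), g u ≤ C * Real.exp (-(c₀ * L₂)) := by
    have h1 := hstk A m E (hL0.trans hAL) hm hE0 (by omega)
    have h2 : C * Real.exp (-(c₀ * A)) ≤ C * Real.exp (-(c₀ * L₂)) := by
      refine mul_le_mul_of_nonneg_left (Real.exp_le_exp.2 (neg_le_neg ?_)) hC.le
      exact mul_le_mul_of_nonneg_left (by exact_mod_cast hAL) c₀_pos.le
    refine le_trans ?_ (h1.trans h2)
    unfold LS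
    calc ∑ u ∈ U.filter (fun u => Stuck A u), g u
        = ∑ u ∈ U.filter (fun u => Stuck A u), F E m u * stk A u / |(u : ℝ)| := by
          refine sum_congr rfl fun u hu => ?_
          unfold stk
          rw [if_pos (mem_filter.1 hu).2, mul_one]
      _ ≤ ∑ u ∈ win A (A + 1), F E m u * stk A u / |(u : ℝ)| := by
          refine sum_le_sum_of_subset_of_nonneg ?_ fun u _ _ =>
            div_nonneg (mul_nonneg (F_nonneg E m u) (stk_nonneg A u)) (abs_nonneg _)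
          intro u hu
          exact (mem_filter.1 (mem_filter.1 hu).1).1
  -- the other points
  set I : Finset ((_ : ℕ) × (_ : ℤ) × (_ : ℕ) × List ℕ) := (Ico L₂ (thr A)).sigma fun ℓ =>
    ((win ℓ (ℓ + 1)).filter (fun v => Stuck ℓ v)).sigma fun v => (range (3 * A + 1)).sigma fun n =>
      dsc E A n v with hI
  have hcov : ∑ u ∈ U.filter (fun u => ¬ Stuck A u), g u ≤ ∑ i ∈ I, g (ch i.2.2.2 i.2.1) := by
    refine sum_le_of_cover _ I (fun i => ch i.2.2.2 i.2.1) g hg0 ?_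
    intro u hu
    obtain ⟨hu1, hu2⟩ := mem_filter.1 hu
    obtain ⟨hu3, hu4⟩ := mem_filter.1 hu1
    obtain ⟨ℓ', W, v, c1, c2, c3, c4, c5, c6, c7⟩ := chain (by omega) ha hz A u hu3 hu4
    have hwin := mem_win.1 hu3
    have hvw := mem_win.1 c3
    have hv : |v| < 2 ^ thr A := by
      rcases c7 with ⟨-, h2⟩ | h
      · exfalso
        subst h2
        have e1 : ℓ' < A + 1 := (pow_lt_pow_iff_right₀ (show (1 : ℤ) < 2 by norm_num)).1
          (lt_of_le_of_lt hvw.1 hwin.2.1)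
        have e2 : A < ℓ' + 1 := (pow_lt_pow_iff_right₀ (show (1 : ℤ) < 2 by norm_num)).1
          (lt_of_le_of_lt hwin.1 hvw.2.1)
        have e3 : ℓ' = A := by omega
        rw [e3] at c4
        exact hu2 c4
      · exact h
    have hℓ' : ℓ' < thr A := (pow_lt_pow_iff_right₀ (show (1 : ℤ) < 2 by norm_num)).1
      (lt_of_le_of_lt hvw.1 hv)
    have hv0 : v ≠ 0 := by
      rintro rfl
      have := hvw.1
      have h2 : (0 : ℤ) < 2 ^ ℓ' := by positivity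
      simp at this
      omega
    have hbig : (12 * (A : ℝ) + 4) ≤ |(v : ℝ)| := by
      have e1 : (2 : ℤ) ^ L₂ ≤ 2 ^ ℓ' := pow_le_pow_right₀ (by norm_num) c1
      have e2 : ((12 * A + 4 : ℕ) : ℤ) ≤ 2 ^ L₂ := by exact_mod_cast hA2
      have e3 : ((12 * A + 4 : ℕ) : ℤ) ≤ |v| := e2.trans (e1.trans hvw.1)
      have e4 : (((12 * A + 4 : ℕ) : ℤ) : ℝ) ≤ ((|v| : ℤ) : ℝ) := by exact_mod_cast e3
      push_cast at e4
      exact e4
    have hlenr : (W.length : ℝ) ≤ 3 * A := by exact_mod_cast c6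
    have hdst := dst_le_of_Hi c2.2.2.1 c5 (by linarith) hv0
    have hch : |ch W v| < 2 ^ (A + 1) := by
      rw [c2.2.2.2]
      exact hwin.2.1
    refine ⟨⟨ℓ', v, W.length, W⟩, ?_, c2.2.2.2⟩
    rw [hI, mem_sigma]
    refine ⟨mem_Ico.2 ⟨c1, hℓ'⟩, ?_⟩
    rw [mem_sigma]
    refine ⟨mem_filter.2 ⟨c3, c4⟩, ?_⟩
    rw [mem_sigma]
    refine ⟨mem_range.2 (by show W.length < 3 * A + 1; omega), ?_⟩
    show W ∈ dsc E A W.length v
    unfold dsc
    rw [mem_filter]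
    refine ⟨mem_words.2 ⟨rfl, fun e he => ⟨c2.1 e he, ?_⟩⟩, c2.2.2.1, ?_, ?_⟩
    · have := letters_lt c2.1 c2.2.2.1 hch e he
      omega
    · rw [c2.2.2.2]
      exact hu3
    · linarith
  have hIsum : ∑ i ∈ I, g (ch i.2.2.2 i.2.1) ≤
      ∑ ℓ ∈ Ico L₂ (thr A), 800 * (A : ℝ) ^ 3 * LS ℓ (ℓ + 1) (stk ℓ) := by
    rw [hI, sum_sigma]
    refine sum_le_sum fun ℓ hℓ => ?_
    obtain ⟨hℓ1, hℓ2⟩ := mem_Ico.1 hℓ
    rw [sum_sigma]
    have hv : ∀ v ∈ (win ℓ (ℓ + 1)).filter (fun v => Stuck ℓ v),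
        ∑ s ∈ (range (3 * A + 1)).sigma (fun n => dsc E A n v), g (ch s.2 v) ≤
          800 * (A : ℝ) ^ 3 * (stk ℓ v / |(v : ℝ)|) := by
      intro v hv
      obtain ⟨hv1, hv2⟩ := mem_filter.1 hv
      have hvw := mem_win.1 hv1
      have hv3 : |v| < 2 ^ thr A := lt_of_lt_of_le hvw.2.1 (pow_le_pow_right₀ (by norm_num) (by omega))
      have hbig : (12 * (A : ℝ) + 4) ≤ |(v : ℝ)| := by
        have e1 : (2 : ℤ) ^ L₂ ≤ 2 ^ ℓ := pow_le_pow_right₀ (by norm_num) hℓ1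
        have e2 : ((12 * A + 4 : ℕ) : ℤ) ≤ 2 ^ L₂ := by exact_mod_cast hA2
        have e3 : ((12 * A + 4 : ℕ) : ℤ) ≤ |v| := e2.trans (e1.trans hvw.1)
        have e4 : (((12 * A + 4 : ℕ) : ℤ) : ℝ) ≤ ((|v| : ℤ) : ℝ) := by exact_mod_cast e3
        push_cast at e4
        exact e4
      have hv0 : 0 < |(v : ℝ)| := by linarith
      rw [sum_sigma]
      have h1 : ∀ n ∈ range (3 * A + 1), ∑ W ∈ dsc E A n v, g (ch W v) ≤ 200 * (A : ℝ) ^ 2 / |(v : ℝ)| := by
        intro n hn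
        rw [mem_range] at hn
        exact dsc_sum_le hE1 hA hm (by omega) (by linarith) hv3
      refine (sum_le_sum h1).trans ?_
      rw [sum_const, card_range, nsmul_eq_mul]
      unfold stk
      rw [if_pos hv2, mul_one_div, ← mul_div_assoc]
      refine div_le_div_of_nonneg_right ?_ hv0.le
      push_cast
      nlinarith
    refine (sum_le_sum hv).trans ?_
    rw [← mul_sum]
    refine mul_le_mul_of_nonneg_left ?_ (by positivity)
    unfold LS
    exact sum_le_sum_of_subset_of_nonneg (filter_subset _ _) fun v _ _ =>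
      div_nonneg (stk_nonneg ℓ v) (abs_nonneg _)
  have hgeo : ∑ ℓ ∈ Ico L₂ (thr A), 800 * (A : ℝ) ^ 3 * LS ℓ (ℓ + 1) (stk ℓ) ≤
      800 * (A : ℝ) ^ 3 * (C * (Real.exp (-(c₀ * L₂)) / (1 - r))) := by
    rw [← mul_sum]
    refine mul_le_mul_of_nonneg_left ?_ (by positivity)
    have h1 : ∀ ℓ ∈ Ico L₂ (thr A), LS ℓ (ℓ + 1) (stk ℓ) ≤ C * r ^ ℓ := by
      intro ℓ hℓ
      obtain ⟨hℓ1, hℓ2⟩ := mem_Ico.1 hℓ
      have h2 := hstk ℓ 0 E (hL0.trans hℓ1) (by omega) hE0 (by omega)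
      rw [hrl] at h2
      refine le_trans (le_of_eq ?_) h2
      refine LS_congr fun v _ => ?_
      rw [F_zero, one_mul]
    refine (sum_le_sum h1).trans ?_
    rw [← mul_sum]
    refine mul_le_mul_of_nonneg_left ?_ hC.le
    rw [hrl]
    exact geom_sum_Ico_le_of_lt_one hr0.le hr1
  have hA3 : (1 : ℝ) ≤ (A : ℝ) ^ 3 := one_le_pow₀ (by linarith)
  calc LS A (A + 1) (fun v => F E m v * a v) ≤ ∑ u ∈ U, g u := hLS
    _ = _ := hsplit
    _ ≤ C * Real.exp (-(c₀ * L₂)) + 800 * (A : ℝ) ^ 3 * (C * (Real.exp (-(c₀ * L₂)) / (1 - r))) :=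
        add_le_add hst (hcov.trans (hIsum.trans hgeo))
    _ ≤ C * (A : ℝ) ^ 3 * Real.exp (-(c₀ * L₂)) +
        800 * (A : ℝ) ^ 3 * (C * (Real.exp (-(c₀ * L₂)) / (1 - r))) := by
        have h1 : C * 1 * Real.exp (-(c₀ * L₂)) ≤ C * (A : ℝ) ^ 3 * Real.exp (-(c₀ * L₂)) := by
          gcongr
        linarith
    _ = C * (1 + 800 / (1 - r)) * (A : ℝ) ^ 3 * Real.exp (-(c₀ * L₂)) := by
        field_simp

end CollatzPow
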