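import Pool.Agent.CollatzPow.Atyp
import Pool.Agent.CollatzPow.Chain
import Pool.Agent.CollatzLin.Step

set_option autoImplicit false

/-!
# Stuck points are exponentially rare
-/

namespace CollatzPow

open CollatzOne CollatzLin Finset

open Classical in
/-- The indicator function of the stuck points. -/
noncomputable def stk (ℓ : ℕ) (v : ℤ) : ℝ := if Stuck ℓ v then 1 else 0

lemma stk_nonneg (ℓ : ℕ) (v : ℤ) : 0 ≤ stk ℓ v := by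
  unfold stk
  split_ifs <;> norm_num

lemma stk_le_one (ℓ : ℕ) (v : ℤ) : stk ℓ v ≤ 1 := by
  unfold stk
  split_ifs <;> norm_num

/-- The rate. -/
noncomputable def c₀ : ℝ := 1 / 10 ^ 9

lemma c₀_pos : 0 < c₀ := by unfold c₀; norm_num

lemma err_le {ℓ : ℕ} (h : 8000 ≤ ℓ) :
    Real.exp (-((((ℓ / 4) / 1000 : ℕ) : ℝ) ^ 2 / (8 * ((ℓ / 4 : ℕ) : ℝ)))) + (1 / 2 : ℝ) ^ (ℓ / 16) ≤
      2 * Real.exp (-(c₀ * ℓ)) := by
  have hℓ : (8000 : ℝ) ≤ ℓ := by exact_mod_cast h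
  have h1 : (ℓ : ℝ) / 8000 ≤ (((ℓ / 4) / 1000 : ℕ) : ℝ) := by
    have : ℓ ≤ 8000 * ((ℓ / 4) / 1000) := by omega
    have : (ℓ : ℝ) ≤ 8000 * (((ℓ / 4) / 1000 : ℕ) : ℝ) := by exact_mod_cast this
    linarith
  have h2 : (((ℓ / 4 : ℕ) : ℝ)) ≤ ℓ / 4 := Nat.cast_div_le
  have h3 : (0 : ℝ) < ((ℓ / 4 : ℕ) : ℝ) := by
    have : 0 < ℓ / 4 := by omega
    exact_mod_cast this
  have h4 : Real.exp (-((((ℓ / 4) / 1000 : ℕ) : ℝ) ^ 2 / (8 * ((ℓ / 4 : ℕ) : ℝ)))) ≤ Real.exp (-(c₀ * ℓ)) := by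
    refine Real.exp_le_exp.2 (neg_le_neg ?_)
    rw [le_div_iff₀ (by positivity)]
    have h5 : ((ℓ : ℝ) / 8000) ^ 2 ≤ (((ℓ / 4) / 1000 : ℕ) : ℝ) ^ 2 :=
      pow_le_pow_left₀ (by positivity) h1 2
    refine le_trans ?_ h5
    unfold c₀
    have h6 : 1 / 10 ^ 9 * (ℓ : ℝ) * (8 * ((ℓ / 4 : ℕ) : ℝ)) ≤ 1 / 10 ^ 9 * (ℓ : ℝ) * (8 * (ℓ / 4)) := by
      refine mul_le_mul_of_nonneg_left (by linarith) (by positivity)
    refine h6.trans ?_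
    nlinarith
  have h7 : (1 / 2 : ℝ) ^ (ℓ / 16) ≤ Real.exp (-(c₀ * ℓ)) := by
    have h8 : (1 / 2 : ℝ) ≤ Real.exp (-(1 / 2)) := by
      have := Real.add_one_le_exp (-(1 / 2) : ℝ)
      linarith
    have h9 : (1 / 2 : ℝ) ^ (ℓ / 16) ≤ Real.exp (-(1 / 2)) ^ (ℓ / 16) := pow_le_pow_left₀ (by norm_num) h8 _
    refine h9.trans ?_
    rw [← Real.exp_nat_mul]
    refine Real.exp_le_exp.2 ?_
    have h10 : (ℓ : ℝ) ≤ 32 * ((ℓ / 16 : ℕ) : ℝ) := by exact_mod_cast (by omega : ℓ ≤ 32 * (ℓ / 16))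
    unfold c₀
    nlinarith
  linarith

theorem stk_small : ∃ (C : ℝ) (L₀ E₀ : ℕ), 0 < C ∧ 8000 ≤ L₀ ∧ ∀ ℓ m E : ℕ, L₀ ≤ ℓ → 16 * m ≤ ℓ → E₀ ≤ E →
    4 * ℓ ≤ E → LS ℓ (ℓ + 1) (fun v => F E m v * stk ℓ v) ≤ C * Real.exp (-(c₀ * ℓ)) := by
  obtain ⟨C, L₀, E₀, hC, h⟩ := atyp
  refine ⟨2 * C, max L₀ 8000, E₀, by positivity, le_max_right _ _, ?_⟩
  intro ℓ m E hℓ hm hE hE2
  have hL0 : L₀ ≤ ℓ := (le_max_left _ _).trans hℓ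
  have hL1 : 8000 ≤ ℓ := (le_max_right _ _).trans hℓ
  have h1 := twelve_sh (ℓ / 4)
  have hn : 1 ≤ ℓ / 4 := by omega
  have h2 := h ℓ 1 (ℓ / 4) m ((ℓ / 4) / 1000) E hL0 le_rfl hn (by omega) hm (by omega) hE (by omega)
    (stk ℓ) (stk_nonneg ℓ) (stk_le_one ℓ) (by
      intro v W hv hW hvd hch
      unfold stk
      rw [if_neg]
      intro hs
      have h3 := win_of_typ (ℓ := 1) (by omega) hW hv hvd hch
      obtain ⟨-, -, h4⟩ := mem_winS.1 h3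
      have hWm := typ_subset _ _ _ _ hW
      have h5 := hs W v ⟨one_le_of_mem hWm, hv, hvd, rfl⟩ (length_of_mem hWm).le
      have h6 : ℓ - sh (ℓ / 4) + 1 + ((ℓ / 4) / 1000 + 1) = thr ℓ := by
        unfold thr
        omega
      rw [h6] at h4
      omega)
  refine h2.trans ?_
  have h3 := err_le hL1
  rw [Nat.cast_one, mul_one]
  calc C * _ ≤ C * (2 * Real.exp (-(c₀ * ℓ))) := mul_le_mul_of_nonneg_left h3 hC.le
    _ = _ := by ring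

end CollatzPow
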