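import Pool.Agent.CollatzPow.ChainR
import Pool.Agent.CollatzPow.Stk

set_option autoImplicit false

/-!
# Irregular points are exponentially rare
-/

namespace CollatzPow

open CollatzOne CollatzLin CollatzTime Finset

open Classical in
/-- The indicator function of the irregular points. -/
noncomputable def stkR (d ℓ : ℕ) (v : ℤ) : ℝ := if StuckR d ℓ v then 1 else 0

lemma stkR_nonneg (d ℓ : ℕ) (v : ℤ) : 0 ≤ stkR d ℓ v := by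
  unfold stkR
  split_ifs <;> norm_num

lemma stkR_le_one (d ℓ : ℕ) (v : ℤ) : stkR d ℓ v ≤ 1 := by
  unfold stkR
  split_ifs <;> norm_num

/-- The rate. -/
noncomputable def cR (d : ℕ) : ℝ := 1 / (1000 * (d : ℝ) ^ 2)

lemma cR_pos {d : ℕ} (hd : 1 ≤ d) : 0 < cR d := by
  have : (0 : ℝ) < d := by exact_mod_cast hd
  unfold cR
  positivity

lemma cR_le {d : ℕ} (hd : 3000 ≤ d) : cR d ≤ c₀ := by
  have h1 : (3000 : ℝ) ≤ d := by exact_mod_cast hd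
  unfold cR c₀
  rw [div_le_div_iff₀ (by positivity) (by norm_num)]
  nlinarith

lemma errR_le {d ℓ : ℕ} (hd : 3000 ≤ d) (h : 8 * d ≤ ℓ) :
    (((ℓ / 4 : ℕ) : ℝ) + 1) * Real.exp (-((((ℓ / 4) / d : ℕ) : ℝ) ^ 2 / (8 * ((ℓ / 4 : ℕ) : ℝ)))) +
      (1 / 2 : ℝ) ^ (ℓ / 16) ≤ (1000 * (d : ℝ) ^ 2 + 1) * Real.exp (-(cR d * ℓ)) := by
  have hd0 : (0 : ℝ) < d := by exact_mod_cast (by omega : 0 < d)
  have hℓ : (8000 : ℝ) ≤ ℓ := by exact_mod_cast (by omega : 8000 ≤ ℓ)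
  obtain ⟨q, hq⟩ : ∃ q, q = ℓ / 4 / d := ⟨_, rfl⟩
  have hq1 : 1 ≤ q := by
    rw [hq, Nat.one_le_div_iff (by omega)]
    omega
  have h1 : (ℓ : ℝ) ≤ 12 * d * q := by
    have e1 : ℓ / 4 < d * (q + 1) := by
      rw [hq]
      exact Nat.lt_mul_div_succ _ (by omega)
    have e2 : ℓ ≤ 4 * (ℓ / 4) + 3 := by omega
    have e3 : d * (q + 1) ≤ 2 * (d * q) := by nlinarith
    have e4 : ℓ ≤ 12 * d * q := by nlinarith
    exact_mod_cast e4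
  have h2 : (((ℓ / 4 : ℕ) : ℝ)) ≤ ℓ / 4 := Nat.cast_div_le
  have h3 : (0 : ℝ) < ((ℓ / 4 : ℕ) : ℝ) := by
    have : 0 < ℓ / 4 := by omega
    exact_mod_cast this
  rw [← hq]
  have hc := cR_pos (d := d) (by omega)
  have h4 : Real.exp (-((q : ℝ) ^ 2 / (8 * ((ℓ / 4 : ℕ) : ℝ)))) ≤ Real.exp (-(2 * cR d * ℓ)) := by
    refine Real.exp_le_exp.2 (neg_le_neg ?_)
    rw [le_div_iff₀ (by positivity)]
    have h5 : (ℓ : ℝ) ^ 2 ≤ (12 * d * q) ^ 2 := pow_le_pow_left₀ (by linarith) h1 2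
    have h6 : 2 * cR d * ℓ * (8 * ((ℓ / 4 : ℕ) : ℝ)) ≤ 2 * cR d * ℓ * (8 * (ℓ / 4)) :=
      mul_le_mul_of_nonneg_left (by linarith) (by positivity)
    refine h6.trans ?_
    have h7 : 2 * cR d * ℓ * (8 * (ℓ / 4)) = (ℓ : ℝ) ^ 2 / (250 * (d : ℝ) ^ 2) := by
      unfold cR
      field_simp
      norm_num
    rw [h7, div_le_iff₀ (by positivity)]
    calc (ℓ : ℝ) ^ 2 ≤ (12 * d * q) ^ 2 := h5
      _ = 144 * ((q : ℝ) ^ 2 * (d : ℝ) ^ 2) := by ring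
      _ ≤ (q : ℝ) ^ 2 * (250 * (d : ℝ) ^ 2) := by
        have : 0 ≤ (q : ℝ) ^ 2 * (d : ℝ) ^ 2 := by positivity
        linarith
  have h8 : ((ℓ / 4 : ℕ) : ℝ) + 1 ≤ 1000 * (d : ℝ) ^ 2 * Real.exp (cR d * ℓ) := by
    have h9 := Real.add_one_le_exp (cR d * ℓ)
    have h10 : 1000 * (d : ℝ) ^ 2 * (cR d * ℓ) = ℓ := by
      unfold cR
      field_simp
    have h11 : 1000 * (d : ℝ) ^ 2 * (cR d * ℓ + 1) ≤ 1000 * (d : ℝ) ^ 2 * Real.exp (cR d * ℓ) :=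
      mul_le_mul_of_nonneg_left h9 (by positivity)
    have h12 : (0 : ℝ) ≤ 1000 * (d : ℝ) ^ 2 := by positivity
    linarith
  have h9 : (((ℓ / 4 : ℕ) : ℝ) + 1) * Real.exp (-((q : ℝ) ^ 2 / (8 * ((ℓ / 4 : ℕ) : ℝ)))) ≤
      1000 * (d : ℝ) ^ 2 * Real.exp (-(cR d * ℓ)) := by
    calc (((ℓ / 4 : ℕ) : ℝ) + 1) * Real.exp (-((q : ℝ) ^ 2 / (8 * ((ℓ / 4 : ℕ) : ℝ))))
        ≤ (1000 * (d : ℝ) ^ 2 * Real.exp (cR d * ℓ)) * Real.exp (-(2 * cR d * ℓ)) :=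
          mul_le_mul h8 h4 (Real.exp_pos _).le (by positivity)
      _ = 1000 * (d : ℝ) ^ 2 * Real.exp (-(cR d * ℓ)) := by
        rw [mul_assoc, ← Real.exp_add]
        congr 2
        ring
  have h7 : (1 / 2 : ℝ) ^ (ℓ / 16) ≤ Real.exp (-(cR d * ℓ)) := by
    have h8 : (1 / 2 : ℝ) ≤ Real.exp (-(1 / 2)) := by
      have := Real.add_one_le_exp (-(1 / 2) : ℝ)
      linarith
    have h9 : (1 / 2 : ℝ) ^ (ℓ / 16) ≤ Real.exp (-(1 / 2)) ^ (ℓ / 16) := pow_le_pow_left₀ (by norm_num) h8 _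
    refine h9.trans ?_
    rw [← Real.exp_nat_mul]
    refine Real.exp_le_exp.2 ?_
    have h10 : (ℓ : ℝ) ≤ 32 * ((ℓ / 16 : ℕ) : ℝ) := by exact_mod_cast (by omega : ℓ ≤ 32 * (ℓ / 16))
    have h11 := cR_le hd
    have h12 : cR d * ℓ ≤ 1 / 10 ^ 9 * ℓ := by
      unfold c₀ at h11
      exact mul_le_mul_of_nonneg_right h11 (by linarith)
    nlinarith
  calc _ ≤ 1000 * (d : ℝ) ^ 2 * Real.exp (-(cR d * ℓ)) + Real.exp (-(cR d * ℓ)) := add_le_add h9 h7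
    _ = _ := by ring

theorem stkR_small {d : ℕ} (hd : 3000 ≤ d) : ∃ (C : ℝ) (L₀ E₀ : ℕ), 0 < C ∧ 8000 ≤ L₀ ∧ ∀ ℓ m E : ℕ,
    L₀ ≤ ℓ → 16 * m ≤ ℓ → E₀ ≤ E →
    4 * ℓ ≤ E → LS ℓ (ℓ + 1) (fun v => F E m v * stkR d ℓ v) ≤ C * Real.exp (-(cR d * ℓ)) := by
  obtain ⟨C, L₀, E₀, hC, h⟩ := atypR
  refine ⟨C * (1000 * (d : ℝ) ^ 2 + 1), max L₀ (8 * d), E₀, by positivity, ?_, ?_⟩
  · exact le_trans (by omega) (le_max_right _ _)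
  intro ℓ m E hℓ hm hE hE2
  have hL0 : L₀ ≤ ℓ := (le_max_left _ _).trans hℓ
  have hL1 : 8 * d ≤ ℓ := (le_max_right _ _).trans hℓ
  have hdiv : ℓ / 4 / d ≤ ℓ / 4 / 3000 := Nat.div_le_div_left hd (by norm_num)
  have h2 := h ℓ 1 (ℓ / 4) m ((ℓ / 4) / d) E hL0 le_rfl (by omega) (by omega) hm (by omega) hE (by omega)
    (stkR d ℓ) (stkR_nonneg d ℓ) (stkR_le_one d ℓ) (by
      intro v W hv hW hvd hch
      unfold stkR
      rw [if_neg]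
      intro hs
      obtain ⟨hW1, hW2⟩ := mem_typR.1 hW
      have hW3 := mem_typ.1 hW1
      exact hs W v ⟨⟨one_le_of_mem hW3.1, hv, hvd, rfl⟩, length_of_mem hW3.1, hW2, hW3.2.2.2⟩)
  refine h2.trans ?_
  have h3 := errR_le hd hL1
  rw [Nat.cast_one, mul_one]
  calc C * _ ≤ C * ((1000 * (d : ℝ) ^ 2 + 1) * Real.exp (-(cR d * ℓ))) := mul_le_mul_of_nonneg_left h3 hC.le
    _ = _ := by ring

end CollatzPow
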