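import Pool.Agent.CollatzPow.Crude
import Pool.Agent.CollatzPow.StkR

set_option autoImplicit false

/-!
# The crude bound for the points with a stuck record
-/

namespace CollatzPow

open CollatzOne CollatzLin CollatzTime Finset

/-- Every point of the support of `a` in the window has a stuck record of size at least `2 ^ L₂`. -/
def Rec (d L₂ A : ℕ) (a : ℤ → ℝ) : Prop := ∀ u : ℤ, u ∈ win A (A + 1) → a u ≠ 0 →
    ∃ (ℓ' : ℕ) (W : List ℕ) (v : ℤ), L₂ ≤ ℓ' ∧ Anc W v u ∧ v ∈ win ℓ' (ℓ' + 1) ∧ StuckR d ℓ' v ∧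
      Hi |v| W v ∧ W.length ≤ 3 * A ∧ ((W = [] ∧ v = u) ∨ |v| < 2 ^ thr A)

theorem crudeR {d : ℕ} (hd : 3000 ≤ d) : ∃ (C : ℝ) (L₀ E₀ : ℕ), 0 < C ∧ ∀ L₂ A m E : ℕ, L₀ ≤ L₂ →
    12 * A + 4 ≤ 2 ^ L₂ → 16 * m ≤ A → E₀ ≤ E → 5 * A ≤ E → ∀ a : ℤ → ℝ, (∀ v, a v ≤ 1) →
    (∀ v : ℤ, |v| < 2 ^ L₂ → a v = 0) → Rec d L₂ A a →
    LS A (A + 1) (fun v => F E m v * a v) ≤ C * (A : ℝ) ^ 3 * Real.exp (-(cR d * L₂)) := by
  have hcR := cR_pos (d := d) (by omega)
  classical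
  obtain ⟨C, L₀, E₀, hC, hL8, hstk⟩ := stkR_small hd
  set r : ℝ := Real.exp (-cR d) with hr
  have hr0 : 0 < r := Real.exp_pos _
  have hr1 : r < 1 := by
    rw [hr, Real.exp_lt_one_iff]
    linarith [hcR]
  have hrl : ∀ ℓ : ℕ, Real.exp (-(cR d * ℓ)) = r ^ ℓ := by
    intro ℓ
    rw [hr, ← Real.exp_nat_mul]
    congr 1
    ring
  refine ⟨C * (1 + 800 / (1 - r)), max L₀ 20000, max E₀ 1, ?_, ?_⟩
  · have : 0 < 1 - r := by linarith
    positivity
  intro L₂ A m E hL hA2 hm hE hE5 a ha1 hz hrec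
  have hL0 : L₀ ≤ L₂ := (le_max_left _ _).trans hL
  have hL2 : 20000 ≤ L₂ := (le_max_right _ _).trans hL
  have hE0 : E₀ ≤ E := (le_max_left _ _).trans hE
  have hE1 : 1 ≤ E := (le_max_right _ _).trans hE
  have h1r : 0 < 1 - r := by linarith
  have hexp0 := Real.exp_pos (-(cR d * L₂))
  rcases Nat.lt_or_ge A L₂ with hAL | hAL
  · -- empty case
    have h1 : LS A (A + 1) (fun v => F E m v * a v) = 0 := by
      refine LS_zero fun v hv => ?_
      have h2 := (mem_win.1 hv).2.1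
      rw [hz v (lt_of_lt_of_le h2 (pow_le_pow_right₀ (by norm_num) (by omega))), mul_zero]
    rw [h1]
    positivity
  have hA : 20000 ≤ A := hL2.trans hAL
  have hAr : (20000 : ℝ) ≤ A := by exact_mod_cast hA
  have hthr : thr A ≤ A - A / 11 := thr_le (by omega)
  set g : ℤ → ℝ := fun u => F E m u / |(u : ℝ)| with hg
  have hg0 : ∀ u, 0 ≤ g u := fun u => div_nonneg (F_nonneg E m u) (abs_nonneg _)
  set U := (win A (A + 1)).filter (fun u => a u ≠ 0) with hU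
  have hLS : LS A (A + 1) (fun v => F E m v * a v) ≤ ∑ u ∈ U, g u := by
    unfold LS
    rw [← sum_filter_add_sum_filter_not (win A (A + 1)) (fun u => a u ≠ 0)]
    have h1 : ∑ u ∈ (win A (A + 1)).filter (fun u => ¬ a u ≠ 0), F E m u * a u / |(u : ℝ)| = 0 := by
      refine sum_eq_zero fun u hu => ?_
      have := (mem_filter.1 hu).2
      push Not at this
      rw [this, mul_zero, zero_div]
    rw [h1, add_zero]
    refine sum_le_sum fun u _ => ?_
    refine div_le_div_of_nonneg_right ?_ (abs_nonneg _)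
    have := mul_le_mul_of_nonneg_left (ha1 u) (F_nonneg E m u)
    linarith
  have hsplit := (sum_filter_add_sum_filter_not U (fun u => StuckR d A u) g).symm
  -- the stuck points of the window
  have hst : ∑ u ∈ U.filter (fun u => StuckR d A u), g u ≤ C * Real.exp (-(cR d * L₂)) := by
    have h1 := hstk A m E (hL0.trans hAL) hm hE0 (by omega)
    have h2 : C * Real.exp (-(cR d * A)) ≤ C * Real.exp (-(cR d * L₂)) := by
      refine mul_le_mul_of_nonneg_left (Real.exp_le_exp.2 (neg_le_neg ?_)) hC.le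
      exact mul_le_mul_of_nonneg_left (by exact_mod_cast hAL) hcR.le
    refine le_trans ?_ (h1.trans h2)
    unfold LS
    calc ∑ u ∈ U.filter (fun u => StuckR d A u), g u
        = ∑ u ∈ U.filter (fun u => StuckR d A u), F E m u * stkR d A u / |(u : ℝ)| := by
          refine sum_congr rfl fun u hu => ?_
          unfold stkR
          rw [if_pos (mem_filter.1 hu).2, mul_one]
      _ ≤ ∑ u ∈ win A (A + 1), F E m u * stkR d A u / |(u : ℝ)| := by
          refine sum_le_sum_of_subset_of_nonneg ?_ fun u _ _ =>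
            div_nonneg (mul_nonneg (F_nonneg E m u) (stkR_nonneg d A u)) (abs_nonneg _)
          intro u hu
          exact (mem_filter.1 (mem_filter.1 hu).1).1
  -- the other points
  set I : Finset ((_ : ℕ) × (_ : ℤ) × (_ : ℕ) × List ℕ) := (Ico L₂ (thr A)).sigma fun ℓ =>
    ((win ℓ (ℓ + 1)).filter (fun v => StuckR d ℓ v)).sigma fun v => (range (3 * A + 1)).sigma fun n =>
      dsc E A n v with hI
  have hcov : ∑ u ∈ U.filter (fun u => ¬ StuckR d A u), g u ≤ ∑ i ∈ I, g (ch i.2.2.2 i.2.1) := by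
    refine sum_le_of_cover _ I (fun i => ch i.2.2.2 i.2.1) g hg0 ?_
    intro u hu
    obtain ⟨hu1, hu2⟩ := mem_filter.1 hu
    obtain ⟨hu3, hu4⟩ := mem_filter.1 hu1
    obtain ⟨ℓ', W, v, c1, c2, c3, c4, c5, c6, c7⟩ := hrec u hu3 hu4
    have hwin := mem_win.1 hu3
    have hvw := mem_win.1 c3
    have hv : |v| < 2 ^ thr A := by
      rcases c7 with ⟨-, h2⟩ | h
      · exfalso
        subst h2
        have e1 : ℓ' < A + 1 := (pow_lt_pow_iff_right₀ (show (1 : ℤ) < 2 by norm_num)).1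
          (lt_of_le_of_lt hvw.1 hwin.2.1)
        have e2 : A < ℓ' + 1 := (pow_lt_pow_iff_right₀ (show (1 : ℤ) < 2 by norm_num)).1
          (lt_of_le_of_lt hwin.1 hvw.2.1)
        have e3 : ℓ' = A := by omega
        rw [e3] at c4
        exact hu2 c4
      · exact h
    have hℓ' : ℓ' < thr A := (pow_lt_pow_iff_right₀ (show (1 : ℤ) < 2 by norm_num)).1
      (lt_of_le_of_lt hvw.1 hv)
    have hv0 : v ≠ 0 := by
      rintro rfl
      have := hvw.1
      have h2 : (0 : ℤ) < 2 ^ ℓ' := by positivity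
      simp at this
      omega
    have hbig : (12 * (A : ℝ) + 4) ≤ |(v : ℝ)| := by
      have e1 : (2 : ℤ) ^ L₂ ≤ 2 ^ ℓ' := pow_le_pow_right₀ (by norm_num) c1
      have e2 : ((12 * A + 4 : ℕ) : ℤ) ≤ 2 ^ L₂ := by exact_mod_cast hA2
      have e3 : ((12 * A + 4 : ℕ) : ℤ) ≤ |v| := e2.trans (e1.trans hvw.1)
      have e4 : (((12 * A + 4 : ℕ) : ℤ) : ℝ) ≤ ((|v| : ℤ) : ℝ) := by exact_mod_cast e3
      push_cast at e4
      exact e4
    have hlenr : (W.length : ℝ) ≤ 3 * A := by exact_mod_cast c6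
    have hdst := dst_le_of_Hi c2.2.2.1 c5 (by linarith) hv0
    have hch : |ch W v| < 2 ^ (A + 1) := by
      rw [c2.2.2.2]
      exact hwin.2.1
    refine ⟨⟨ℓ', v, W.length, W⟩, ?_, c2.2.2.2⟩
    rw [hI, mem_sigma]
    refine ⟨mem_Ico.2 ⟨c1, hℓ'⟩, ?_⟩
    rw [mem_sigma]
    refine ⟨mem_filter.2 ⟨c3, c4⟩, ?_⟩
    rw [mem_sigma]
    refine ⟨mem_range.2 (by show W.length < 3 * A + 1; omega), ?_⟩
    show W ∈ dsc E A W.length v
    unfold dsc
    rw [mem_filter]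
    refine ⟨mem_words.2 ⟨rfl, fun e he => ⟨c2.1 e he, ?_⟩⟩, c2.2.2.1, ?_, ?_⟩
    · have := letters_lt c2.1 c2.2.2.1 hch e he
      omega
    · rw [c2.2.2.2]
      exact hu3
    · linarith
  have hIsum : ∑ i ∈ I, g (ch i.2.2.2 i.2.1) ≤
      ∑ ℓ ∈ Ico L₂ (thr A), 800 * (A : ℝ) ^ 3 * LS ℓ (ℓ + 1) (stkR d ℓ) := by
    rw [hI, sum_sigma]
    refine sum_le_sum fun ℓ hℓ => ?_
    obtain ⟨hℓ1, hℓ2⟩ := mem_Ico.1 hℓ
    rw [sum_sigma]
    have hv : ∀ v ∈ (win ℓ (ℓ + 1)).filter (fun v => StuckR d ℓ v),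
        ∑ s ∈ (range (3 * A + 1)).sigma (fun n => dsc E A n v), g (ch s.2 v) ≤
          800 * (A : ℝ) ^ 3 * (stkR d ℓ v / |(v : ℝ)|) := by
      intro v hv
      obtain ⟨hv1, hv2⟩ := mem_filter.1 hv
      have hvw := mem_win.1 hv1
      have hv3 : |v| < 2 ^ thr A := lt_of_lt_of_le hvw.2.1 (pow_le_pow_right₀ (by norm_num) (by omega))
      have hbig : (12 * (A : ℝ) + 4) ≤ |(v : ℝ)| := by
        have e1 : (2 : ℤ) ^ L₂ ≤ 2 ^ ℓ := pow_le_pow_right₀ (by norm_num) hℓ1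
        have e2 : ((12 * A + 4 : ℕ) : ℤ) ≤ 2 ^ L₂ := by exact_mod_cast hA2
        have e3 : ((12 * A + 4 : ℕ) : ℤ) ≤ |v| := e2.trans (e1.trans hvw.1)
        have e4 : (((12 * A + 4 : ℕ) : ℤ) : ℝ) ≤ ((|v| : ℤ) : ℝ) := by exact_mod_cast e3
        push_cast at e4
        exact e4
      have hv0 : 0 < |(v : ℝ)| := by linarith
      rw [sum_sigma]
      have h1 : ∀ n ∈ range (3 * A + 1), ∑ W ∈ dsc E A n v, g (ch W v) ≤ 200 * (A : ℝ) ^ 2 / |(v : ℝ)| := by
        intro n hn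
        rw [mem_range] at hn
        exact dsc_sum_le hE1 hA hm (by omega) (by linarith) hv3
      refine (sum_le_sum h1).trans ?_
      rw [sum_const, card_range, nsmul_eq_mul]
      unfold stkR
      rw [if_pos hv2, mul_one_div, ← mul_div_assoc]
      refine div_le_div_of_nonneg_right ?_ hv0.le
      push_cast
      nlinarith
    refine (sum_le_sum hv).trans ?_
    rw [← mul_sum]
    refine mul_le_mul_of_nonneg_left ?_ (by positivity)
    unfold LS
    exact sum_le_sum_of_subset_of_nonneg (filter_subset _ _) fun v _ _ =>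
      div_nonneg (stkR_nonneg d ℓ v) (abs_nonneg _)
  have hgeo : ∑ ℓ ∈ Ico L₂ (thr A), 800 * (A : ℝ) ^ 3 * LS ℓ (ℓ + 1) (stkR d ℓ) ≤
      800 * (A : ℝ) ^ 3 * (C * (Real.exp (-(cR d * L₂)) / (1 - r))) := by
    rw [← mul_sum]
    refine mul_le_mul_of_nonneg_left ?_ (by positivity)
    have h1 : ∀ ℓ ∈ Ico L₂ (thr A), LS ℓ (ℓ + 1) (stkR d ℓ) ≤ C * r ^ ℓ := by
      intro ℓ hℓ
      obtain ⟨hℓ1, hℓ2⟩ := mem_Ico.1 hℓ
      have h2 := hstk ℓ 0 E (hL0.trans hℓ1) (by omega) hE0 (by omega)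
      rw [hrl] at h2
      refine le_trans (le_of_eq ?_) h2
      refine LS_congr fun v _ => ?_
      rw [F_zero, one_mul]
    refine (sum_le_sum h1).trans ?_
    rw [← mul_sum]
    refine mul_le_mul_of_nonneg_left ?_ hC.le
    rw [hrl]
    exact geom_sum_Ico_le_of_lt_one hr0.le hr1
  have hA3 : (1 : ℝ) ≤ (A : ℝ) ^ 3 := one_le_pow₀ (by linarith)
  calc LS A (A + 1) (fun v => F E m v * a v) ≤ ∑ u ∈ U, g u := hLS
    _ = _ := hsplit
    _ ≤ C * Real.exp (-(cR d * L₂)) + 800 * (A : ℝ) ^ 3 * (C * (Real.exp (-(cR d * L₂)) / (1 - r))) :=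
        add_le_add hst (hcov.trans (hIsum.trans hgeo))
    _ ≤ C * (A : ℝ) ^ 3 * Real.exp (-(cR d * L₂)) +
        800 * (A : ℝ) ^ 3 * (C * (Real.exp (-(cR d * L₂)) / (1 - r))) := by
        have h1 : C * 1 * Real.exp (-(cR d * L₂)) ≤ C * (A : ℝ) ^ 3 * Real.exp (-(cR d * L₂)) := by
          gcongr
        linarith
    _ = C * (1 + 800 / (1 - r)) * (A : ℝ) ^ 3 * Real.exp (-(cR d * L₂)) := by
        field_simp

end CollatzPow
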