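import Pool.Agent.CollatzPow.HB
import Pool.Agent.CollatzPow.CrudeR

set_option autoImplicit false

/-!
# Points without irregular record descend straight, from each of their points
-/

namespace CollatzPow

open CollatzOne CollatzLin CollatzTime Finset

/-- A stuck record of `u`. -/
def HasRec (d L₂ ℓ : ℕ) (u : ℤ) : Prop :=
    ∃ (ℓ' : ℕ) (W : List ℕ) (v : ℤ), L₂ ≤ ℓ' ∧ Anc W v u ∧ v ∈ win ℓ' (ℓ' + 1) ∧ StuckR d ℓ' v ∧
      Hi |v| W v ∧ W.length ≤ 3 * ℓ ∧ ((W = [] ∧ v = u) ∨ |v| < 2 ^ thr ℓ)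

/-- Straight descent from each point. -/
def Strt (ε : ℝ) (d M ℓ : ℕ) (n : ℤ) : Prop :=
  (∀ k : ℕ, (∀ l ≤ k, (M : ℤ) < |CollatzExp.C^[l] n|) → |Dev k n| ≤ 100 * ℓ / d) ∧
  ∀ i k : ℕ, (∀ l ≤ i + k, (M : ℤ) < |CollatzExp.C^[l] n|) →
    |Dev k (CollatzExp.C^[i] n)| ≤ ε / 2 * Real.log (|((CollatzExp.C^[i] n : ℤ) : ℝ)|)

lemma abs_three_sub_le (u : ℤ) : |3 * u - 1| ≤ 3 * |u| + 1 := by
  have := abs_sub (3 * u) 1
  have h3 : |(3 : ℤ)| = 3 := rfl
  have h4 : |(1 : ℤ)| = 1 := rfl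
  rw [abs_mul, h3, h4] at this
  exact this

theorem rec_or_straight {ε : ℝ} (hε : 0 < ε) {d L₂ M : ℕ} (hd : 3000 ≤ d) (hdε : 4200 ≤ ε * d)
    (hL₂ : 24 * d ≤ L₂) (hM : 4 * 2 ^ L₂ ≤ M) : ∀ (ℓ : ℕ) (u : ℤ), u ∈ win ℓ (ℓ + 1) →
    HasRec d L₂ ℓ u ∨ Strt ε d M ℓ (3 * u - 1) := by
  intro ℓ
  induction ℓ using Nat.strong_induction_on with
  | _ ℓ ih =>
    intro u hu
    obtain ⟨hu1, hu2, hu3⟩ := mem_win.1 hu
    by_cases hℓ : ℓ < L₂
    · -- the point is below `M`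
      right
      have h1 : |3 * u - 1| ≤ (M : ℤ) := by
        have h2 : |u| < 2 ^ L₂ := lt_of_lt_of_le hu2 (pow_le_pow_right₀ (by norm_num) (by omega))
        have h3 := abs_three_sub_le u
        have h4 : ((4 * 2 ^ L₂ : ℕ) : ℤ) ≤ M := by exact_mod_cast hM
        have h5 : (1 : ℤ) ≤ 2 ^ L₂ := one_le_pow₀ (by norm_num)
        push_cast at h4
        linarith
      refine ⟨fun k hk => ?_, fun i k hk => ?_⟩
      · exact absurd (hk 0 (Nat.zero_le _)) (not_lt.2 h1)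
      · exact absurd (hk 0 (Nat.zero_le _)) (not_lt.2 h1)
    push Not at hℓ
    by_cases hs : StuckR d ℓ u
    · left
      refine ⟨ℓ, [], u, hℓ, Anc.nil hu3, hu, hs, ?_, by simp, Or.inl ⟨rfl, rfl⟩⟩
      intro W' W'' h
      have h1 : W' = [] := by
        have := List.append_eq_nil_iff.1 h.symm
        exact this.1
      rw [h1, ch_nil]
    unfold StuckR at hs
    push Not at hs
    obtain ⟨W₀, v₀, hW₀⟩ := hs
    have hℓ2 : 72000 ≤ ℓ := by omega
    have hc := hW₀.ctx hd (by omega) hu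
    have hchu : ch W₀ v₀ = u := hW₀.1.2.2.2
    obtain ⟨U, V, w, hUV, hw, h1, hHi, h3, hlen, hlen2, hreg, hdst⟩ := exists_record hd (by omega) hW₀ hu
    -- real numbers
    have hd0 : (0 : ℝ) < d := by exact_mod_cast (by omega : 0 < d)
    have hℓr : (72000 : ℝ) ≤ ℓ := by exact_mod_cast hℓ2
    obtain ⟨Δ, hΔ⟩ : ∃ Δ, Δ = 3 * (ℓ / 4 / d) := ⟨_, rfl⟩
    rw [← hΔ] at hc
    have hΔd : 4 * (Δ : ℝ) * d ≤ 3 * ℓ := by
      have e1 : ℓ / 4 / d * d ≤ ℓ / 4 := Nat.div_mul_le_self _ _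
      have e2 : 4 * Δ * d ≤ 3 * ℓ := by
        calc 4 * Δ * d = 12 * (ℓ / 4 / d * d) := by rw [hΔ]; ring
          _ ≤ 12 * (ℓ / 4) := Nat.mul_le_mul_left _ e1
          _ ≤ 3 * ℓ := by omega
      exact_mod_cast e2
    have h24 : 24 * (d : ℝ) ≤ ℓ := by exact_mod_cast hL₂.trans hℓ
    have hB1 : 6 * (Δ : ℝ) + 12 ≤ 5 * (ℓ / d) := by
      rw [← mul_div_assoc, le_div_iff₀ hd0]
      linarith
    have hΔs : 12 * (Δ : ℝ) + 24 ≤ ℓ / 100 := by
      have e1 : (3000 : ℝ) ≤ d := by exact_mod_cast hd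
      have e2 : (0 : ℝ) ≤ Δ := Nat.cast_nonneg _
      nlinarith
    -- the time of the record
    obtain ⟨t, ht⟩ : ∃ t, t = js V + V.length := ⟨_, rfl⟩
    have htW : t ≤ js W₀ + W₀.length := by
      rw [hUV, js_append, List.length_append]
      omega
    have hit : CollatzExp.C^[t] (3 * u - 1) = 3 * w - 1 := by
      have := iter_word h1.1 h1.2.2.1
      rwa [h1.2.2.2, ← ht] at this
    have hlogv : (ℓ : ℝ) / 12 ≤ Real.log (|((3 * v₀ - 1 : ℤ) : ℝ)|) := by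
      have e1 : (2 : ℝ) ^ (ℓ / 8 + 2) ≤ |((3 * v₀ - 1 : ℤ) : ℝ)| := by
        have f1 := hc.big
        have f2 : (1 : ℝ) ≤ 2 ^ (ℓ / 8) := one_le_pow₀ (by norm_num)
        have f3 : 3 * |(v₀ : ℝ)| - 1 ≤ |((3 * v₀ - 1 : ℤ) : ℝ)| := by
          push_cast
          have := abs_sub_abs_le_abs_sub (3 * (v₀ : ℝ)) 1
          rw [abs_mul, abs_of_pos (show (0 : ℝ) < 3 by norm_num), abs_one] at this
          exact this
        rw [pow_add]
        linarith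
      have e2 := Real.log_le_log (by positivity) e1
      rw [Real.log_pow] at e2
      have e3 : (ℓ : ℝ) ≤ 8 * ((ℓ / 8 + 2 : ℕ) : ℝ) := by
        have : ℓ ≤ 8 * (ℓ / 8 + 2) := by omega
        exact_mod_cast this
      have e4 := Real.log_two_gt_d9
      have e5 : ((ℓ / 8 + 2 : ℕ) : ℝ) * (2 / 3) ≤ ((ℓ / 8 + 2 : ℕ) : ℝ) * Real.log 2 :=
        mul_le_mul_of_nonneg_left (by linarith) (Nat.cast_nonneg _)
      linarith
    have hlog_mid : ∀ i ≤ t, (ℓ : ℝ) / 20 ≤ Real.log (|((CollatzExp.C^[i] (3 * u - 1) : ℤ) : ℝ)|) := by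
      intro i hi
      have e1 := ctx_log_mid hc (i := i) (hi.trans htW)
      rw [hchu] at e1
      linarith
    have hdev_t : ∀ k ≤ t, |Dev k (3 * u - 1)| ≤ 5 * (ℓ / d) := by
      intro k hk
      have e1 := hc.dev_le (hk.trans htW)
      rw [hchu] at e1
      linarith
    have hw0 : w ≠ 0 := by
      intro h0
      have e1 := hlog_mid t le_rfl
      rw [hit, h0] at e1
      norm_num at e1
      linarith
    obtain ⟨ℓ₁, g1, g2⟩ := exists_dyadic hw0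
    have hℓ₁ : ℓ₁ < thr ℓ := (pow_lt_pow_iff_right₀ (show (1 : ℤ) < 2 by norm_num)).1 (lt_of_le_of_lt g1 h3)
    have hthr := thr_le (ℓ := ℓ) (by omega)
    rcases ih ℓ₁ (by omega) w (mem_win.2 ⟨g1, g2, h1.2.1⟩) with hrec | hst
    · left
      obtain ⟨ℓ', W₂, v₂, c1, c2, c3, c4, c5, c6, -⟩ := hrec
      have hanc := c2.trans h1
      have hlast : |v₂| ≤ |w| := by
        have := c5.last
        rwa [c2.2.2.2] at this
      refine ⟨ℓ', W₂ ++ V, v₂, c1, hanc, c3, c4, ?_, ?_, Or.inr (lt_of_le_of_lt hlast h3)⟩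
      · refine Hi.append hanc.2.2.1 c5 ?_
        rw [c2.2.2.2]
        exact hHi.mono hlast
      · rw [List.length_append]
        omega
    · right
      have hℓℓ : 5 * (ℓ / d : ℝ) + 100 * ℓ₁ / d ≤ 100 * ℓ / d := by
        have e1 : 5 * ℓ + 100 * ℓ₁ ≤ 100 * ℓ := by omega
        have e2 : 5 * (ℓ : ℝ) + 100 * ℓ₁ ≤ 100 * ℓ := by exact_mod_cast e1
        rw [← mul_div_assoc, ← add_div]
        exact div_le_div_of_nonneg_right e2 hd0.le
      have hfirst : ∀ k : ℕ, (∀ l ≤ k, (M : ℤ) < |CollatzExp.C^[l] (3 * u - 1)|) →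
          |Dev k (3 * u - 1)| ≤ 100 * ℓ / d := by
        intro k hk
        by_cases hkt : k ≤ t
        · have e1 := hdev_t k hkt
          have e2 : 5 * ((ℓ : ℝ) / d) ≤ 100 * ℓ / d := by
            have : 0 ≤ 100 * (ℓ₁ : ℝ) / d := by positivity
            linarith
          linarith
        · push Not at hkt
          obtain ⟨m, rfl⟩ : ∃ m, k = t + m := ⟨k - t, by omega⟩
          rw [Dev_add, hit]
          have e1 := hdev_t t le_rfl
          have e2 := hst.1 m (fun l hl => by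
            have := hk (l + t) (by omega)
            rwa [Function.iterate_add_apply, hit] at this)
          have e3 := abs_add_le (Dev t (3 * u - 1)) (Dev m (3 * w - 1))
          linarith
      refine ⟨hfirst, fun i k hik => ?_⟩
      by_cases hti : t ≤ i
      · obtain ⟨i', rfl⟩ : ∃ i', i = i' + t := ⟨i - t, by omega⟩
        rw [Function.iterate_add_apply, hit]
        exact hst.2 i' k (fun l hl => by
          have := hik (l + t) (by omega)
          rwa [Function.iterate_add_apply, hit] at this)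
      · push Not at hti
        have e1 := hdev_t i hti.le
        have e2 := hfirst (i + k) hik
        rw [Dev_add] at e2
        have e3 := hlog_mid i hti.le
        have e4 : |Dev k (CollatzExp.C^[i] (3 * u - 1))| ≤ 105 * (ℓ / d) := by
          have e5 : 100 * (ℓ : ℝ) / d = 100 * (ℓ / d) := by ring
          rw [e5] at e2
          rw [abs_le] at e1 e2 ⊢
          constructor <;> linarith
        have e5 : 105 * ((ℓ : ℝ) / d) ≤ ε / 2 * (ℓ / 20) := by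
          rw [← mul_div_assoc, div_le_iff₀ hd0]
          have : 4200 * (ℓ : ℝ) ≤ ε * d * ℓ := mul_le_mul_of_nonneg_right hdε (by linarith)
          linarith
        have e6 : ε / 2 * (ℓ / 20) ≤ ε / 2 * Real.log (|((CollatzExp.C^[i] (3 * u - 1) : ℤ) : ℝ)|) :=
          mul_le_mul_of_nonneg_left e3 (by positivity)
        linarith

/-- The crude bound. -/
theorem crudeH_prop {ε : ℝ} (hε : 0 < ε) {d : ℕ} (hd : 3000 ≤ d) (hdε : 4200 ≤ ε * d) :
    CrudeQ (cR d) (fun L₂ a => ∃ M : ℕ, 4 * 2 ^ L₂ ≤ M ∧ a = hb ε M) := by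
  obtain ⟨C, L₀, E₀, hC, h⟩ := crudeR hd
  refine ⟨C, L₀ + 24 * d, E₀, hC, ?_⟩
  rintro L₂ A m E hL hA hm hE hE5 a ⟨M, hM, rfl⟩
  have hL1 : L₀ ≤ L₂ := le_trans (Nat.le_add_right _ _) hL
  have hL2 : 24 * d ≤ L₂ := le_trans (Nat.le_add_left _ _) hL
  refine h L₂ A m E hL1 hA hm hE hE5 (hb ε M) (hb_le_one ε M) ?_ ?_
  · intro v hv
    unfold hb
    rw [if_neg]
    rintro ⟨i, k, hk, -⟩
    have h1 := hk 0 (Nat.zero_le _)
    simp only [Function.iterate_zero, id_eq] at h1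
    have h3 := abs_three_sub_le v
    have h4 : ((4 * 2 ^ L₂ : ℕ) : ℤ) ≤ M := by exact_mod_cast hM
    have h5 : (1 : ℤ) ≤ 2 ^ L₂ := one_le_pow₀ (by norm_num)
    push_cast at h4
    linarith
  · intro u hu hau
    rcases rec_or_straight hε hd hdε hL2 hM A u hu with hrec | hst
    · exact hrec
    · exfalso
      apply hau
      unfold hb
      rw [if_neg]
      rintro ⟨i, k, hk, hk2⟩
      have h1 := hst.2 i k hk
      have hne : (3 * u - 1 : ℤ) ≠ 0 := by omega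
      have h2 := half_le_gT (x := Real.log (|((3 * u - 1 : ℤ) : ℝ)|)) (Real.log_nonneg (one_le_abs_real hne))
      have h3 : 0 ≤ Real.log (|((CollatzExp.C^[i] (3 * u - 1) : ℤ) : ℝ)|) :=
        Real.log_nonneg (one_le_abs_real (C_iter_ne_zero hne i))
      have h4 : ε * (1 / 2) * Real.log (|((CollatzExp.C^[i] (3 * u - 1) : ℤ) : ℝ)|) ≤
          ε * gT (Real.log (|((3 * u - 1 : ℤ) : ℝ)|)) * Real.log (|((CollatzExp.C^[i] (3 * u - 1) : ℤ) : ℝ)|) :=
        mul_le_mul_of_nonneg_right (mul_le_mul_of_nonneg_left h2 hε.le) h3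
      linarith

/-- All dyadic windows of `hb ε M` are small. -/
theorem win_smallH {ε : ℝ} (hε : 0 < ε) : ∃ (κ : ℝ) (L₀ : ℕ), 0 < κ ∧ ∀ L₂ : ℕ, L₀ ≤ L₂ →
    ∀ M : ℕ, 4 * 2 ^ L₂ ≤ M → ∀ L : ℕ, LS L (L + 1) (hb ε M) ≤ Real.exp (-(κ * L₂)) := by
  obtain ⟨d₀, hd₀⟩ := exists_nat_ge (4200 / ε)
  obtain ⟨d, hd⟩ : ∃ d, d = max d₀ 3000 := ⟨_, rfl⟩
  have hd3 : 3000 ≤ d := hd ▸ le_max_right _ _
  have hdc : 4200 ≤ ε * d := by
    have h1 : (d₀ : ℝ) ≤ d := by exact_mod_cast (hd ▸ le_max_left _ _ : d₀ ≤ d)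
    have h2 : 4200 / ε ≤ d := hd₀.trans h1
    rw [div_le_iff₀ hε] at h2
    linarith
  have hκ := cR_pos (d := d) (by omega)
  obtain ⟨n₀, hadm⟩ := hb_adm hε
  obtain ⟨L₀, h⟩ := win_small_gen hκ (cR_le hd3) (P := AdmH n₀) (one_stepH mix n₀) (startH_prop n₀)
    (crudeH_prop hε hd3 hdc) (by
      rintro L₂ a ⟨M, -, rfl⟩
      exact hadm M)
  exact ⟨cR d / 360, L₀, by positivity, fun L₂ hL M hM L => h L₂ hL (hb ε M) ⟨M, hM, rfl⟩ L⟩

end CollatzPow
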