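import Pool.Agent.CollatzPow.WinP
import Pool.Agent.CollatzLin.TaoFinalCore

set_option autoImplicit false

/-!
# Power saving bound for the trajectories that avoid a large interval
-/

namespace CollatzPow

open CollatzOne CollatzLin Finset

open Classical in
lemma card_bx_le_pow {M : ℕ} (hM : 1 ≤ M) {δ : ℝ} (hδ : 0 ≤ δ) (h : ∀ L, LS L (L + 1) (av M) ≤ δ)
    (L : ℕ) : (((bx L).filter (fun v => Av M (3 * v - 1))).card : ℝ) ≤ δ * 2 ^ (L + 1) := by
  induction L with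
  | zero =>
    have h1 : (bx 0).filter (fun v => Av M (3 * v - 1)) = ∅ := by
      rw [filter_eq_empty_iff]
      intro v hv hA
      have h2 := (mem_bx.1 hv).1
      rw [pow_zero] at h2
      have h3 : v = 0 := by
        rw [abs_lt] at h2
        omega
      subst h3
      have h4 := hA 0
      simp at h4
      omega
    rw [h1, card_empty]
    push_cast
    positivity
  | succ L ih =>
    have h1 : ((bx (L + 1)).filter (fun v => Av M (3 * v - 1))).card ≤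
        ((bx L).filter (fun v => Av M (3 * v - 1))).card +
        ((win L (L + 1)).filter (fun v => Av M (3 * v - 1))).card := by
      refine le_trans (card_le_card ?_) (card_union_le _ _)
      intro v hv
      rw [mem_filter, mem_bx] at hv
      rw [mem_union, mem_filter, mem_filter, mem_bx, mem_win]
      by_cases hc : |v| < 2 ^ L
      · exact Or.inl ⟨⟨hc, hv.1.2⟩, hv.2⟩
      · exact Or.inr ⟨⟨by omega, hv.1.1, hv.1.2⟩, hv.2⟩
    have h2 : (((bx (L + 1)).filter (fun v => Av M (3 * v - 1))).card : ℝ) ≤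
        ((bx L).filter (fun v => Av M (3 * v - 1))).card +
        ((win L (L + 1)).filter (fun v => Av M (3 * v - 1))).card := by exact_mod_cast h1
    have h3 := card_win_le M L
    have h4 : (2 : ℝ) ^ (L + 1) * LS L (L + 1) (av M) ≤ 2 ^ (L + 1) * δ :=
      mul_le_mul_of_nonneg_left (h L) (by positivity)
    have h5 : δ * 2 ^ (L + 1 + 1) = δ * 2 ^ (L + 1) + 2 ^ (L + 1) * δ := by rw [pow_succ]; ring
    linarith

lemma cnt_zero {p : ℤ → Prop} (h : ¬ p 0) : cnt p 0 = 0 := by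
  classical
  unfold cnt
  have h1 : (Icc (-((0 : ℕ) : ℤ)) (0 : ℕ)).filter p = ∅ := by
    rw [filter_eq_empty_iff]
    intro v hv
    rw [mem_Icc] at hv
    have h2 : v = 0 := by push_cast at hv; omega
    rw [h2]
    exact h
  rw [h1]
  simp

/-- A recursion for counting functions. -/
lemma rec_bound_zero {g : ℕ → ℝ} {c : ℝ} (hc : 0 ≤ c) (h0 : g 0 ≤ 0)
    (h2 : ∀ X, 1 ≤ X → g X ≤ c * X + g (X / 2)) (X : ℕ) : g X ≤ 2 * c * X := by
  induction X using Nat.strong_induction_on with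
  | _ X ih =>
    rcases Nat.eq_zero_or_pos X with hX | hX
    · subst hX
      simpa using h0
    · have h3 := h2 X hX
      have h4 := ih (X / 2) (by omega)
      have h5 : (((X / 2 : ℕ)) : ℝ) ≤ X / 2 := by
        have := Nat.cast_div_le (α := ℝ) (m := X) (n := 2)
        simpa using this
      have h7 : 2 * c * (((X / 2 : ℕ)) : ℝ) ≤ 2 * c * (X / 2) :=
        mul_le_mul_of_nonneg_left h5 (by positivity)
      linarith

theorem avoid_cnt_pow {M : ℕ} (hM : 1 ≤ M) {δ : ℝ} (hδ : 0 ≤ δ) (h : ∀ L, LS L (L + 1) (av M) ≤ δ)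
    (X : ℕ) : cnt (fun v => OO v ∧ Av M (3 * v - 1)) X ≤ 4 * δ * X := by
  classical
  rcases Nat.eq_zero_or_pos X with hX | hX
  · subst hX
    rw [cnt_zero]
    · simp
    · rintro ⟨-, h1⟩
      have h2 := h1 0
      simp at h2
      omega
  have h1 : cnt (fun v => OO v ∧ Av M (3 * v - 1)) X ≤
      (((bx (Nat.log 2 X + 1)).filter (fun v => Av M (3 * v - 1))).card : ℝ) := by
    unfold cnt
    have h2 : ((Icc (-(X : ℤ)) X).filter (fun v => OO v ∧ Av M (3 * v - 1))).card ≤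
        ((bx (Nat.log 2 X + 1)).filter (fun v => Av M (3 * v - 1))).card := by
      apply card_le_card
      intro v hv
      rw [mem_filter, mem_Icc] at hv
      rw [mem_filter, mem_bx]
      refine ⟨⟨?_, hv.2.1⟩, hv.2.2⟩
      have h3 := Nat.lt_pow_succ_log_self (b := 2) (by norm_num) X
      have h4 : (X : ℤ) < 2 ^ (Nat.log 2 X + 1) := by exact_mod_cast h3
      exact lt_of_le_of_lt (abs_le.2 hv.1) h4
    exact_mod_cast h2
  have h2 := card_bx_le_pow hM hδ h (Nat.log 2 X + 1)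
  have h3 := Nat.pow_log_le_self 2 (by omega : X ≠ 0)
  have h4 : (2 : ℝ) ^ Nat.log 2 X ≤ X := by exact_mod_cast h3
  have h5 : δ * 2 ^ (Nat.log 2 X + 1 + 1) ≤ 4 * δ * X := by
    have : δ * 2 ^ (Nat.log 2 X + 1 + 1) = 4 * δ * 2 ^ Nat.log 2 X := by
      rw [pow_succ, pow_succ]; ring
    rw [this]
    exact mul_le_mul_of_nonneg_left h4 (by positivity)
  linarith

/-- The integers congruent to `2` modulo `3`. -/
lemma cnt_two_pow {M : ℕ} {c : ℝ} (hc : 0 ≤ c)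
    (h : ∀ X : ℕ, cnt (fun v => OO v ∧ Av M (3 * v - 1)) X ≤ c * X) (X : ℕ) :
    cnt (fun n => n % 3 = 2 ∧ Av M n) X ≤ 2 * c * X := by
  revert X
  refine rec_bound_zero hc ?_ ?_
  · rw [cnt_zero]
    rintro ⟨h1, -⟩
    omega
  intro X _
  have e1 : cnt (fun n => n % 3 = 2 ∧ Av M n) X ≤
      cnt (fun n => n % 3 = 2 ∧ n % 4 ≠ 0 ∧ Av M n) X +
      cnt (fun n => n % 3 = 2 ∧ n % 4 = 0 ∧ Av M n) X := by
    refine cnt_or fun n hn => ?_
    by_cases h4 : n % 4 = 0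
    · exact Or.inr ⟨hn.1, h4, hn.2⟩
    · exact Or.inl ⟨hn.1, h4, hn.2⟩
  have e2 : cnt (fun n => n % 3 = 2 ∧ n % 4 ≠ 0 ∧ Av M n) X ≤
      cnt (fun v => OO v ∧ Av M (3 * v - 1)) X := by
    refine cnt_map (fun n => (n + 1) / 3) ?_ ?_
    · rintro n hn ⟨h1, h2, h3⟩
      refine ⟨⟨by unfold OO; omega, ?_⟩, ?_⟩
      · have : 3 * ((n + 1) / 3) - 1 = n := by omega
        rw [this]
        exact h3
      · rw [abs_le] at hn ⊢
        constructor <;> omega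
    · rintro n m ⟨h1, -⟩ ⟨h2, -⟩ h3
      change (n + 1) / 3 = (m + 1) / 3 at h3
      omega
  have e3 : cnt (fun n => n % 3 = 2 ∧ n % 4 = 0 ∧ Av M n) X ≤
      cnt (fun n => n % 3 = 2 ∧ Av M n) (X / 2) := by
    refine cnt_map (fun n => n / 4) ?_ ?_
    · rintro n hn ⟨h1, h2, h3⟩
      refine ⟨⟨by omega, ?_⟩, ?_⟩
      · have h4 : n = 2 * (2 * (n / 4)) := by omega
        rw [h4, av_two_mul, av_two_mul] at h3
        exact h3
      · rw [abs_le] at hn ⊢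
        constructor <;> omega
    · rintro n m ⟨h1, h2, -⟩ ⟨h3, h4, -⟩ h5
      change n / 4 = m / 4 at h5
      omega
  have e4 := h X
  linarith

/-- All integers. -/
lemma cnt_all_pow {M : ℕ} {c : ℝ} (hc : 0 ≤ c)
    (h : ∀ X : ℕ, cnt (fun n => n % 3 = 2 ∧ Av M n) X ≤ c * X) (X : ℕ) :
    cnt (Av M) X ≤ 10 * c * X := by
  suffices hs : cnt (Av M) X ≤ 2 * (5 * c) * X by linarith
  revert X
  refine rec_bound_zero (by positivity) ?_ ?_
  · rw [cnt_zero]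
    intro h1
    exact h1.ne_zero rfl
  intro X hX
  have e1 : cnt (Av M) X ≤ cnt (fun n => n % 2 = 0 ∧ Av M n) X + cnt (fun n => n % 2 = 1 ∧ Av M n) X := by
    refine cnt_or fun n hn => ?_
    rcases Int.emod_two_eq_zero_or_one n with h | h
    · exact Or.inl ⟨h, hn⟩
    · exact Or.inr ⟨h, hn⟩
  have e2 : cnt (fun n => n % 2 = 0 ∧ Av M n) X ≤ cnt (Av M) (X / 2) := by
    refine cnt_map (fun n => n / 2) ?_ ?_
    · rintro n hn ⟨h1, h2⟩
      refine ⟨?_, ?_⟩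
      · have h4 : n = 2 * (n / 2) := by omega
        rw [h4, av_two_mul] at h2
        exact h2
      · rw [abs_le] at hn ⊢
        constructor <;> omega
    · rintro n m ⟨h1, -⟩ ⟨h3, -⟩ h5
      change n / 2 = m / 2 at h5
      omega
  have e3 : cnt (fun n => n % 2 = 1 ∧ Av M n) X ≤
      cnt (fun n => n % 3 = 2 ∧ Av M n) X +
      cnt (fun n => n % 2 = 1 ∧ n % 3 ≠ 2 ∧ Av M n) X := by
    refine cnt_or fun n hn => ?_
    by_cases h4 : n % 3 = 2
    · exact Or.inl ⟨h4, hn.2⟩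
    · exact Or.inr ⟨hn.1, h4, hn.2⟩
  have e4 : cnt (fun n => n % 2 = 1 ∧ n % 3 ≠ 2 ∧ Av M n) X ≤
      cnt (fun n => n % 3 = 1 ∧ Av M n) X +
      cnt (fun n => n % 2 = 1 ∧ n % 3 = 0 ∧ Av M n) X := by
    refine cnt_or fun n hn => ?_
    have h3 : n % 3 = 0 ∨ n % 3 = 1 ∨ n % 3 = 2 := by omega
    rcases h3 with h3 | h3 | h3
    · exact Or.inr ⟨hn.1, h3, hn.2.2⟩
    · exact Or.inl ⟨h3, hn.2.2⟩
    · exact absurd h3 hn.2.1
  have e5 : cnt (fun n => n % 3 = 1 ∧ Av M n) X ≤ cnt (fun n => n % 3 = 2 ∧ Av M n) (2 * X) := by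
    refine cnt_map (fun n => 2 * n) ?_ ?_
    · rintro n hn ⟨h1, h2⟩
      refine ⟨⟨by omega, av_two_mul.2 h2⟩, ?_⟩
      rw [abs_le] at hn ⊢
      constructor <;> omega
    · rintro n m - - h5
      change 2 * n = 2 * m at h5
      omega
  have e6 : cnt (fun n => n % 2 = 1 ∧ n % 3 = 0 ∧ Av M n) X ≤
      cnt (fun n => n % 3 = 2 ∧ Av M n) (2 * X) := by
    refine cnt_map (fun n => (3 * n + 1) / 2) ?_ ?_
    · rintro n hn ⟨h1, h2, h3⟩
      refine ⟨⟨by omega, h3.half h1⟩, ?_⟩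
      rw [abs_le] at hn ⊢
      constructor <;> omega
    · rintro n m ⟨h1, -⟩ ⟨h2, -⟩ h5
      change (3 * n + 1) / 2 = (3 * m + 1) / 2 at h5
      omega
  have e7 := h X
  have e8 := h (2 * X)
  push_cast at e8
  linarith

/-- The trajectories that avoid `[-M, M]`, `M ≥ 4 * 2 ^ L₂`. -/
theorem avoid_pow : ∃ L₀ : ℕ, ∀ L₂ : ℕ, L₀ ≤ L₂ → ∀ M : ℕ, 4 * 2 ^ L₂ ≤ M → ∀ X : ℕ,
    cnt (Av M) X ≤ 80 * Real.exp (-(c₀ / 360 * L₂)) * X := by
  obtain ⟨L₀, hL₀⟩ := win_small_pow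
  refine ⟨L₀, fun L₂ hL₂ M hM X => ?_⟩
  have h1 : 1 ≤ 2 ^ L₂ := Nat.one_le_two_pow
  have h2 : ∀ L, LS L (L + 1) (av M) ≤ Real.exp (-(c₀ / 360 * L₂)) :=
    hL₀ L₂ hL₂ (av M) (adm_av M) (fun v hv => av_zero (by omega) hv)
  have h3 := cnt_all_pow (M := M) (c := 2 * (4 * Real.exp (-(c₀ / 360 * L₂)))) (by positivity)
    (cnt_two_pow (by positivity) (avoid_cnt_pow (by omega) (Real.exp_pos _).le h2)) X
  linarith

/-- **Power saving**: the number of the integers of absolute value at most `X` whose trajectory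
avoids `[-M, M]` is at most `K * M ^ (-c) * X`. -/
theorem avoid_power : ∃ K c : ℝ, 0 < K ∧ 0 < c ∧ ∀ M X : ℕ, 1 ≤ M →
    cnt (Av M) X ≤ K * (M : ℝ) ^ (-c) * X := by
  obtain ⟨L₀, hL₀⟩ := avoid_pow
  have hc₀ := c₀_pos
  have hlog : 0 < Real.log 2 := Real.log_pos (by norm_num)
  obtain ⟨c, hc⟩ : ∃ c : ℝ, c = c₀ / 360 / Real.log 2 := ⟨_, rfl⟩
  have hc0 : 0 < c := by rw [hc]; positivity
  -- the bound for large `M`, written through powers
  have hexp : ∀ j : ℕ, Real.exp (-(c₀ / 360 * j)) = ((2 : ℝ) ^ j) ^ (-c) := by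
    intro j
    rw [← Real.rpow_natCast, ← Real.rpow_mul (by norm_num), Real.rpow_def_of_pos (by norm_num), hc]
    congr 1
    field_simp
  have htriv : ∀ M X : ℕ, cnt (Av M) X ≤ 2 * X := by
    intro M X
    classical
    unfold cnt
    have h1 : ((Icc (-(X : ℤ)) X).filter (Av M)).card ≤ ((Icc (-(X : ℤ)) X).erase 0).card := by
      apply card_le_card
      intro n hn
      rw [mem_filter] at hn
      rw [mem_erase]
      exact ⟨hn.2.ne_zero, hn.1⟩
    have h2 : ((Icc (-(X : ℤ)) X).erase 0).card = 2 * X := by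
      rw [card_erase_of_mem (by rw [mem_Icc]; omega), Int.card_Icc]
      omega
    rw [h2] at h1
    exact_mod_cast h1
  refine ⟨80 * (8 : ℝ) ^ c + 2 * ((8 : ℝ) * 2 ^ L₀) ^ c, c, by positivity, hc0, fun M X hM => ?_⟩
  have hM0 : (0 : ℝ) < M := by exact_mod_cast hM
  have hX0 : (0 : ℝ) ≤ X := Nat.cast_nonneg X
  have hMc : 0 < (M : ℝ) ^ (-c) := Real.rpow_pos_of_pos hM0 _
  by_cases hML : 4 * 2 ^ L₀ ≤ M
  · -- large `M`
    obtain ⟨j, hj⟩ : ∃ j, j = Nat.log 2 M := ⟨_, rfl⟩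
    have h1 : 2 ^ j ≤ M := hj ▸ Nat.pow_log_le_self 2 (by omega)
    have h2 : M < 2 ^ (j + 1) := hj ▸ Nat.lt_pow_succ_log_self (by norm_num) M
    have h3 : L₀ + 2 ≤ j := by
      by_contra hcon
      push Not at hcon
      have : 2 ^ (j + 1) ≤ 2 ^ (L₀ + 2) := Nat.pow_le_pow_right (by norm_num) (by omega)
      rw [pow_add 2 L₀] at this
      omega
    obtain ⟨i, hi⟩ : ∃ i, j = i + 2 := ⟨j - 2, by omega⟩
    have h4 := hL₀ i (by omega) M (by
      rw [hi, pow_add] at h1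
      omega) X
    rw [hexp] at h4
    have h5 : ((2 : ℝ) ^ i) ^ (-c) ≤ (8 : ℝ) ^ c * (M : ℝ) ^ (-c) := by
      have h6 : (M : ℝ) / 8 ≤ 2 ^ i := by
        have : M ≤ 8 * 2 ^ i := by
          rw [hi, pow_succ, pow_add] at h2
          omega
        have : (M : ℝ) ≤ 8 * 2 ^ i := by exact_mod_cast this
        linarith
      have h7 : ((2 : ℝ) ^ i) ^ (-c) ≤ ((M : ℝ) / 8) ^ (-c) :=
        Real.rpow_le_rpow_of_nonpos (by positivity) h6 (by linarith)
      refine h7.trans (le_of_eq ?_)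
      rw [Real.div_rpow hM0.le (by norm_num), Real.rpow_neg (by norm_num : (0 : ℝ) ≤ 8), div_inv_eq_mul, mul_comm]
    calc cnt (Av M) X ≤ 80 * ((2 : ℝ) ^ i) ^ (-c) * X := h4
      _ ≤ 80 * ((8 : ℝ) ^ c * (M : ℝ) ^ (-c)) * X := by gcongr
      _ = (80 * (8 : ℝ) ^ c) * (M : ℝ) ^ (-c) * X := by ring
      _ ≤ (80 * (8 : ℝ) ^ c + 2 * ((8 : ℝ) * 2 ^ L₀) ^ c) * (M : ℝ) ^ (-c) * X := by
          have : (0 : ℝ) ≤ 2 * ((8 : ℝ) * 2 ^ L₀) ^ c := by positivity
          gcongr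
          linarith
  · push Not at hML
    have h1 : 1 ≤ ((8 : ℝ) * 2 ^ L₀) ^ c * (M : ℝ) ^ (-c) := by
      have h2 : (M : ℝ) ≤ 8 * 2 ^ L₀ := by
        have : M ≤ 8 * 2 ^ L₀ := by omega
        exact_mod_cast this
      have h3 : (M : ℝ) ^ c ≤ ((8 : ℝ) * 2 ^ L₀) ^ c := Real.rpow_le_rpow hM0.le h2 hc0.le
      rw [Real.rpow_neg hM0.le, ← div_eq_mul_inv, one_le_div (by positivity)]
      exact h3
    calc cnt (Av M) X ≤ 2 * X := htriv M X
      _ = 2 * 1 * X := by ring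
      _ ≤ 2 * (((8 : ℝ) * 2 ^ L₀) ^ c * (M : ℝ) ^ (-c)) * X := by gcongr
      _ = (2 * ((8 : ℝ) * 2 ^ L₀) ^ c) * (M : ℝ) ^ (-c) * X := by ring
      _ ≤ (80 * (8 : ℝ) ^ c + 2 * ((8 : ℝ) * 2 ^ L₀) ^ c) * (M : ℝ) ^ (-c) * X := by
          have : (0 : ℝ) ≤ 80 * (8 : ℝ) ^ c := by positivity
          gcongr
          linarith

/-- Power saving, in terms of sets. -/
theorem power_descent : ∃ K c : ℝ, 0 < K ∧ 0 < c ∧ ∀ M N : ℕ, 1 ≤ M →
    ({n : ℤ | |n| ≤ N ∧ ∀ k : ℕ, (M : ℤ) < |CollatzExp.C^[k] n|}.ncard : ℝ) ≤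
      K * (M : ℝ) ^ (-c) * N := by
  obtain ⟨K, c, hK, hc, h⟩ := avoid_power
  refine ⟨K, c, hK, hc, fun M N hM => ?_⟩
  classical
  have hset : ({n : ℤ | |n| ≤ N ∧ ∀ k : ℕ, (M : ℤ) < |CollatzExp.C^[k] n|}.ncard : ℝ) = cnt (Av M) N := by
    unfold cnt
    rw [← Set.ncard_coe_finset]
    congr 2
    ext n
    rw [Set.mem_ofPred_eq, mem_coe, mem_filter, mem_Icc, abs_le]
    rfl
  rw [hset]
  exact h M N hM

end CollatzPow
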