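import Pool.Agent.CollatzPow.StartR
import Pool.Agent.CollatzPow.FinalP
import Pool.Agent.CollatzTime.OOcount
import Pool.Agent.CollatzTime.Transfer

set_option autoImplicit false

/-!
# Straight descent with power saving
-/

namespace CollatzPow

open CollatzOne CollatzLin CollatzTime Finset

lemma not_bad_small {ε : ℝ} {M : ℕ} {n : ℤ} (h : Bad ε M n) : (M : ℤ) < |n| := by
  obtain ⟨k, hk, -⟩ := h
  have := hk 0 (Nat.zero_le _)
  simpa using this

open Classical in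
lemma card_bx_le_bad {ε : ℝ} {M : ℕ} (hM : 1 ≤ M) {δ : ℝ} (hδ : 0 ≤ δ) (h : ∀ L, LS L (L + 1) (bf ε M) ≤ δ)
    (L : ℕ) : (((bx L).filter (fun v => Bad ε M (3 * v - 1))).card : ℝ) ≤ δ * 2 ^ (L + 1) := by
  induction L with
  | zero =>
    have h1 : (bx 0).filter (fun v => Bad ε M (3 * v - 1)) = ∅ := by
      rw [filter_eq_empty_iff]
      intro v hv hA
      have h2 := (mem_bx.1 hv).1
      rw [pow_zero] at h2
      have h3 : v = 0 := by
        rw [abs_lt] at h2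
        omega
      subst h3
      have h4 := not_bad_small hA
      simp at h4
      omega
    rw [h1, card_empty]
    push_cast
    positivity
  | succ L ih =>
    have h1 : ((bx (L + 1)).filter (fun v => Bad ε M (3 * v - 1))).card ≤
        ((bx L).filter (fun v => Bad ε M (3 * v - 1))).card +
        ((win L (L + 1)).filter (fun v => Bad ε M (3 * v - 1))).card := by
      refine le_trans (card_le_card ?_) (card_union_le _ _)
      intro v hv
      rw [mem_filter, mem_bx] at hv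
      rw [mem_union, mem_filter, mem_filter, mem_bx, mem_win]
      by_cases hc : |v| < 2 ^ L
      · exact Or.inl ⟨⟨hc, hv.1.2⟩, hv.2⟩
      · exact Or.inr ⟨⟨by omega, hv.1.1, hv.1.2⟩, hv.2⟩
    have h2 : (((bx (L + 1)).filter (fun v => Bad ε M (3 * v - 1))).card : ℝ) ≤
        ((bx L).filter (fun v => Bad ε M (3 * v - 1))).card +
        ((win L (L + 1)).filter (fun v => Bad ε M (3 * v - 1))).card := by exact_mod_cast h1
    have h3 := oo_card_win_le ε M L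
    have h4 : (2 : ℝ) ^ (L + 1) * LS L (L + 1) (bf ε M) ≤ 2 ^ (L + 1) * δ :=
      mul_le_mul_of_nonneg_left (h L) (by positivity)
    have h5 : δ * 2 ^ (L + 1 + 1) = δ * 2 ^ (L + 1) + 2 ^ (L + 1) * δ := by rw [pow_succ]; ring
    linarith

theorem bad_cnt_pow {ε : ℝ} {M : ℕ} (hM : 1 ≤ M) {δ : ℝ} (hδ : 0 ≤ δ) (h : ∀ L, LS L (L + 1) (bf ε M) ≤ δ)
    (X : ℕ) : cnt (fun v => OO v ∧ Bad ε M (3 * v - 1)) X ≤ 4 * δ * X := by
  classical
  rcases Nat.eq_zero_or_pos X with hX | hX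
  · subst hX
    rw [cnt_zero]
    · simp
    · rintro ⟨-, h1⟩
      have h2 := not_bad_small h1
      simp at h2
      omega
  have h1 : cnt (fun v => OO v ∧ Bad ε M (3 * v - 1)) X ≤
      (((bx (Nat.log 2 X + 1)).filter (fun v => Bad ε M (3 * v - 1))).card : ℝ) := by
    unfold cnt
    have h2 : ((Icc (-(X : ℤ)) X).filter (fun v => OO v ∧ Bad ε M (3 * v - 1))).card ≤
        ((bx (Nat.log 2 X + 1)).filter (fun v => Bad ε M (3 * v - 1))).card := by
      apply card_le_card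
      intro v hv
      rw [mem_filter, mem_Icc] at hv
      rw [mem_filter, mem_bx]
      refine ⟨⟨?_, hv.2.1⟩, hv.2.2⟩
      have h3 := Nat.lt_pow_succ_log_self (b := 2) (by norm_num) X
      have h4 : (X : ℤ) < 2 ^ (Nat.log 2 X + 1) := by exact_mod_cast h3
      exact lt_of_le_of_lt (abs_le.2 hv.1) h4
    exact_mod_cast h2
  have h2 := card_bx_le_bad hM hδ h (Nat.log 2 X + 1)
  have h3 := Nat.pow_log_le_self 2 (by omega : X ≠ 0)
  have h4 : (2 : ℝ) ^ Nat.log 2 X ≤ X := by exact_mod_cast h3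
  have h5 : δ * 2 ^ (Nat.log 2 X + 1 + 1) ≤ 4 * δ * X := by
    have : δ * 2 ^ (Nat.log 2 X + 1 + 1) = 4 * δ * 2 ^ Nat.log 2 X := by
      rw [pow_succ, pow_succ]; ring
    rw [this]
    exact mul_le_mul_of_nonneg_left h4 (by positivity)
  linarith

/-! ### Transfer -/

/-- Passing to a later point of the trajectory. -/
lemma bad_iter {ε ε' : ℝ} (hε' : 0 < ε') (h : ε' < ε) {M : ℕ} (hM : 1 ≤ M) {j : ℕ}
    (hj : 2 * (j : ℝ) * (1 + ε') < (ε - ε') * Real.log M) {n : ℤ} (hb : Bad ε M n) :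
    Bad ε' M (CollatzExp.C^[j] n) := by
  have hMn := not_bad_small hb
  obtain ⟨k, hk1, hk2⟩ := hb
  have hMr : (1 : ℝ) ≤ M := by exact_mod_cast hM
  have hn1 : (M : ℝ) ≤ |(n : ℝ)| := by
    have h1 : (M : ℤ) ≤ |n| := hMn.le
    have : ((M : ℤ) : ℝ) ≤ ((|n| : ℤ) : ℝ) := by exact_mod_cast h1
    simpa using this
  have hlogM : 0 ≤ Real.log M := Real.log_nonneg hMr
  have hlog : Real.log M ≤ Real.log (|(n : ℝ)|) := Real.log_le_log (by linarith) hn1
  have hbig : 2 * (j : ℝ) * (1 + ε') < (ε - ε') * Real.log (|(n : ℝ)|) :=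
    lt_of_lt_of_le hj (mul_le_mul_of_nonneg_left hlog (by linarith))
  have hne : ∀ i ≤ k, CollatzExp.C^[i] n ≠ 0 := by
    intro i hi h0
    have := hk1 i hi
    rw [h0] at this
    simp at this
    omega
  have hJ : (0 : ℝ) ≤ j := Nat.cast_nonneg j
  have hJe : 0 ≤ (j : ℝ) * ε' := by positivity
  have hle : 0 ≤ ε' * Real.log (|(n : ℝ)|) := mul_nonneg hε'.le (hlogM.trans hlog)
  have hjk : j ≤ k := by
    by_contra hc
    push Not at hc
    have h1 := tr_dev_le k n (fun i hi => hne i hi.le)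
    have h2 : (k : ℝ) ≤ j := by exact_mod_cast hc.le
    nlinarith
  obtain ⟨i, rfl⟩ := Nat.exists_eq_add_of_le hjk
  refine ⟨i, ?_, ?_⟩
  · intro l hl
    rw [← Function.iterate_add_apply]
    exact hk1 (l + j) (by omega)
  · have h1 := tr_dev_le j n (fun l hl => hne l (by omega))
    have h2 := tr_dev_split j i n
    have h3 : Real.log (|((CollatzExp.C^[j] n : ℤ) : ℝ)|) ≤ Real.log (|(n : ℝ)|) + 2 * j := by
      have h4 : Real.log (|((CollatzExp.C^[j] n : ℤ) : ℝ)|) =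
          Dev j n + Real.log (|(n : ℝ)|) - j / CollatzTime.kap := by
        unfold Dev; ring
      have h5 : 0 ≤ (j : ℝ) / CollatzTime.kap := by
        have h6 := tr_kap_inv.1
        rw [div_eq_mul_one_div]
        positivity
      have h6 := (abs_le.mp h1).2
      linarith
    have h4 : ε' * Real.log (|((CollatzExp.C^[j] n : ℤ) : ℝ)|) ≤
        ε' * (Real.log (|(n : ℝ)|) + 2 * j) := mul_le_mul_of_nonneg_left h3 hε'.le
    have h5 : |Dev (j + i) n| ≤ |Dev j n| + |Dev i (CollatzExp.C^[j] n)| := by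
      rw [h2]; exact abs_add_le _ _
    nlinarith

/-- Passing to the double. -/
lemma bad_double {ε ε' : ℝ} (hε' : 0 < ε') (h : ε' < ε) {M : ℕ} (hM : 1 ≤ M)
    (hj : 1 + ε' < (ε - ε') * Real.log M) {n : ℤ} (hb : Bad ε M n) : Bad ε' M (2 * n) := by
  have hMn := not_bad_small hb
  obtain ⟨k, hk1, hk2⟩ := hb
  have hMr : (1 : ℝ) ≤ M := by exact_mod_cast hM
  have hn1 : (M : ℝ) ≤ |(n : ℝ)| := by
    have h1 : (M : ℤ) ≤ |n| := hMn.le
    have : ((M : ℤ) : ℝ) ≤ ((|n| : ℤ) : ℝ) := by exact_mod_cast h1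
    simpa using this
  have hlog : Real.log M ≤ Real.log (|(n : ℝ)|) := Real.log_le_log (by linarith) hn1
  have hbig : 1 + ε' < (ε - ε') * Real.log (|(n : ℝ)|) :=
    lt_of_lt_of_le hj (mul_le_mul_of_nonneg_left hlog (by linarith))
  have hC : CollatzExp.C (2 * n) = n := by rw [CollatzExp.C_even (by omega)]; omega
  have hn0 : n ≠ 0 := by
    rintro rfl
    simp at hMn
    omega
  have hnr : (n : ℝ) ≠ 0 := by exact_mod_cast hn0
  refine ⟨k + 1, ?_, ?_⟩
  · intro j hj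
    rcases j with _ | j
    · have := hk1 0 (Nat.zero_le _)
      simp only [Function.iterate_zero, id_eq] at this ⊢
      have h2 : |(2 : ℤ)| = 2 := rfl
      rw [abs_mul, h2]
      omega
    · rw [Function.iterate_succ_apply, hC]
      exact hk1 j (by omega)
  · have h1 : Dev (k + 1) (2 * n) = Dev k n + (1 / CollatzTime.kap - Real.log 2) := by
      unfold Dev
      rw [Function.iterate_succ_apply, hC]
      push_cast
      rw [abs_mul, abs_of_pos (show (0 : ℝ) < 2 by norm_num),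
        Real.log_mul (by norm_num) (abs_ne_zero.mpr hnr)]
      ring
    have hlog2 : Real.log 2 < 0.7 := by
      have := Real.log_two_lt_d9
      linarith
    have hlog2' : 0 < Real.log 2 := Real.log_pos (by norm_num)
    have h2 : |Dev k n| ≤ |Dev (k + 1) (2 * n)| + 1 := by
      have h3 : Dev k n = Dev (k + 1) (2 * n) + (Real.log 2 - 1 / CollatzTime.kap) := by rw [h1]; ring
      have h4 : |Real.log 2 - 1 / CollatzTime.kap| ≤ 1 := by
        have := tr_kap_inv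
        rw [abs_le]; constructor <;> linarith
      have h5 := abs_add_le (Dev (k + 1) (2 * n)) (Real.log 2 - 1 / CollatzTime.kap)
      rw [← h3] at h5
      linarith
    have h3 : ε' * Real.log (|((2 * n : ℤ) : ℝ)|) ≤ ε' * Real.log (|(n : ℝ)|) + ε' := by
      push_cast
      rw [abs_mul, abs_of_pos (show (0 : ℝ) < 2 by norm_num),
        Real.log_mul (by norm_num) (abs_ne_zero.mpr hnr)]
      nlinarith
    linarith

lemma cnt_le_two {p : ℤ → Prop} (h : ¬ p 0) (X : ℕ) : cnt p X ≤ 2 * X := by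
  classical
  unfold cnt
  have h1 : ((Icc (-(X : ℤ)) X).filter p).card ≤ ((Icc (-(X : ℤ)) X).erase 0).card := by
    apply card_le_card
    intro n hn
    rw [mem_filter] at hn
    rw [mem_erase]
    refine ⟨?_, hn.1⟩
    rintro rfl
    exact h hn.2
  have h2 : ((Icc (-(X : ℤ)) X).erase 0).card = 2 * X := by
    rw [card_erase_of_mem (by rw [mem_Icc]; omega), Int.card_Icc]
    omega
  rw [h2] at h1
  exact_mod_cast h1

/-- The nonzero multiples of `2 ^ i`. -/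
lemma cnt_mult (p : ℤ → Prop) (i X : ℕ) (h : ∀ n, p n → n ≠ 0 ∧ (2 : ℤ) ^ i ∣ n) :
    cnt p X ≤ 2 * X / 2 ^ i := by
  classical
  have h1 : cnt p X ≤ cnt (fun n => n ≠ 0) (X / 2 ^ i) := by
    refine cnt_map (fun n => n / 2 ^ i) ?_ ?_
    · intro n hn hp
      obtain ⟨h0, m, hm⟩ := h n hp
      have h2 : (0 : ℤ) < 2 ^ i := by positivity
      have h3 : n / 2 ^ i = m := by rw [hm, Int.mul_ediv_cancel_left _ h2.ne']
      rw [h3]
      refine ⟨?_, ?_⟩
      · rintro rfl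
        exact h0 (by rw [hm, mul_zero])
      · rw [hm, abs_mul, abs_of_pos h2] at hn
        push_cast
        rw [Int.le_ediv_iff_mul_le h2]
        linarith
    · intro n m hn hm hnm
      obtain ⟨-, a, ha⟩ := h n hn
      obtain ⟨-, b, hb⟩ := h m hm
      have h2 : (0 : ℤ) < 2 ^ i := by positivity
      change n / 2 ^ i = m / 2 ^ i at hnm
      rw [ha, hb, Int.mul_ediv_cancel_left _ h2.ne', Int.mul_ediv_cancel_left _ h2.ne'] at hnm
      rw [ha, hb, hnm]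
  have h2 : cnt (fun n => n ≠ 0) (X / 2 ^ i) ≤ 2 * ((X / 2 ^ i : ℕ) : ℝ) :=
    cnt_le_two (by simp) (X / 2 ^ i)
  have h3 : ((X / 2 ^ i : ℕ) : ℝ) ≤ X / 2 ^ i := by
    have := Nat.cast_div_le (α := ℝ) (m := X) (n := 2 ^ i)
    push_cast at this
    exact this
  calc cnt p X ≤ 2 * ((X / 2 ^ i : ℕ) : ℝ) := h1.trans h2
    _ ≤ 2 * (X / 2 ^ i) := by linarith
    _ = 2 * X / 2 ^ i := by ring

/-- Splitting according to the exact power of `r` that divides. -/
lemma cnt_split_pow (p : ℤ → Prop) (r : ℤ) (X J : ℕ) :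
    cnt p X ≤ (∑ i ∈ range J, cnt (fun n => r ^ i ∣ n ∧ ¬ r ^ (i + 1) ∣ n ∧ p n) X) +
      cnt (fun n => r ^ J ∣ n ∧ p n) X := by
  induction J with
  | zero =>
    rw [sum_range_zero, zero_add]
    refine (cnt_or (q := fun n => r ^ 0 ∣ n ∧ p n) (r := fun _ => False) fun n hn => ?_).trans ?_
    · exact Or.inl ⟨by simp, hn⟩
    · have : cnt (fun _ => False) X = 0 := by
        classical
        unfold cnt
        simp
      rw [this, add_zero]
  | succ J ih =>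
    rw [sum_range_succ]
    have h1 : cnt (fun n => r ^ J ∣ n ∧ p n) X ≤
        cnt (fun n => r ^ J ∣ n ∧ ¬ r ^ (J + 1) ∣ n ∧ p n) X + cnt (fun n => r ^ (J + 1) ∣ n ∧ p n) X := by
      refine cnt_or fun n hn => ?_
      by_cases h : r ^ (J + 1) ∣ n
      · exact Or.inr ⟨h, hn.2⟩
      · exact Or.inl ⟨hn.1, h, hn.2⟩
    linarith

lemma C_iter_two_pow (i : ℕ) (m : ℤ) : CollatzExp.C^[i] (2 ^ i * m) = m := by
  induction i with
  | zero => simp
  | succ i ih =>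
    rw [Function.iterate_succ_apply]
    have h1 : (2 : ℤ) ^ (i + 1) * m = 2 * (2 ^ i * m) := by rw [pow_succ]; ring
    rw [h1, CollatzExp.C_even (by omega)]
    have h2 : 2 * (2 ^ i * m) / 2 = 2 ^ i * m := by omega
    rw [h2, ih]

lemma geom_sum_le {r : ℝ} (hr : 2 ≤ r) (J : ℕ) : ∑ i ∈ range J, 1 / r ^ i ≤ 2 := by
  have h1 : ∀ J : ℕ, ∑ i ∈ range J, 1 / r ^ i ≤ 2 - 2 / 2 ^ J := by
    intro J
    induction J with
    | zero => simp
    | succ J ih =>
      rw [sum_range_succ]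
      have h2 : 1 / r ^ J ≤ 1 / 2 ^ J :=
        one_div_le_one_div_of_le (by positivity) (pow_le_pow_left₀ (by norm_num) hr J)
      have h3 : (2 : ℝ) / 2 ^ (J + 1) = 1 / 2 ^ J := by rw [pow_succ]; field_simp
      have h4 : (2 : ℝ) / 2 ^ J = 1 / 2 ^ J + 1 / 2 ^ J := by rw [← add_div]; norm_num
      rw [h3]
      linarith
  have h2 := h1 J
  have h3 : (0 : ℝ) < 2 / 2 ^ J := by positivity
  linarith

lemma natdiv_le {b : ℝ} (hb : 0 ≤ b) (X r : ℕ) : b * ((X / r : ℕ) : ℝ) ≤ b * X * (1 / r) := by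
  have h1 := Nat.cast_div_le (α := ℝ) (m := X) (n := r)
  calc b * ((X / r : ℕ) : ℝ) ≤ b * (X / r) := mul_le_mul_of_nonneg_left h1 hb
    _ = b * X * (1 / r) := by ring

lemma four_pow_mod (i : ℕ) : (4 : ℤ) ^ i % 3 = 1 := by
  induction i with
  | zero => rfl
  | succ i ih => rw [pow_succ]; omega

/-- The bad integers congruent to `2` modulo `3`. -/
lemma bad_two {ε ε' b : ℝ} (hε' : 0 < ε') (h : ε' < ε) (hb : 0 ≤ b) {M J : ℕ} (hM : 1 ≤ M)
    (hJ : 2 * (2 * (J : ℝ)) * (1 + ε') < (ε - ε') * Real.log M)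
    (hO : ∀ X : ℕ, cnt (fun v => OO v ∧ Bad ε' M (3 * v - 1)) X ≤ b * X) (X : ℕ) :
    cnt (fun n => n % 3 = 2 ∧ Bad ε M n) X ≤ (2 * b + 2 / 4 ^ J) * X := by
  have h1 := cnt_split_pow (fun n => n % 3 = 2 ∧ Bad ε M n) 4 X J
  have h2 : ∀ i ∈ range J, cnt (fun n => (4 : ℤ) ^ i ∣ n ∧ ¬ (4 : ℤ) ^ (i + 1) ∣ n ∧ (n % 3 = 2 ∧ Bad ε M n)) X ≤
      b * X * (1 / 4 ^ i) := by
    intro i hi
    rw [mem_range] at hi
    have h3 : cnt (fun n => (4 : ℤ) ^ i ∣ n ∧ ¬ (4 : ℤ) ^ (i + 1) ∣ n ∧ (n % 3 = 2 ∧ Bad ε M n)) X ≤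
        cnt (fun v => OO v ∧ Bad ε' M (3 * v - 1)) (X / 4 ^ i) := by
      refine cnt_map (fun n => (n / 4 ^ i + 1) / 3) ?_ ?_
      · rintro n hn ⟨⟨m, hm⟩, g2, g3, g4⟩
        have h4 : (0 : ℤ) < 4 ^ i := by positivity
        have h5 : n / 4 ^ i = m := by rw [hm, Int.mul_ediv_cancel_left _ h4.ne']
        have h6 : m % 3 = 2 := by
          rw [hm, Int.mul_emod, four_pow_mod i, one_mul, Int.emod_emod_of_dvd _ (dvd_refl 3)] at g3
          exact g3
        have h7 : m % 4 ≠ 0 := by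
          intro h8
          apply g2
          obtain ⟨k, hk⟩ := Int.dvd_of_emod_eq_zero h8
          exact ⟨k, by rw [hm, hk, pow_succ]; ring⟩
        have h8 : (4 : ℤ) ^ i = 2 ^ (2 * i) := by rw [pow_mul]; norm_num
        have h9 : Bad ε' M m := by
          have h10 := bad_iter hε' h hM (j := 2 * i) (by
            have e1 : (i : ℝ) ≤ J := by exact_mod_cast hi.le
            have e2 : 2 * (((2 * i : ℕ) : ℝ)) * (1 + ε') ≤ 2 * (2 * (J : ℝ)) * (1 + ε') := by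
              push_cast
              refine mul_le_mul_of_nonneg_right (by linarith) (by linarith)
            linarith) g4
          rw [hm, h8, C_iter_two_pow] at h10
          exact h10
        show (OO ((n / 4 ^ i + 1) / 3) ∧ Bad ε' M (3 * ((n / 4 ^ i + 1) / 3) - 1)) ∧ |(n / 4 ^ i + 1) / 3| ≤ ((X / 4 ^ i : ℕ) : ℤ)
        rw [h5]
        refine ⟨⟨by unfold OO; omega, ?_⟩, ?_⟩
        · have : 3 * ((m + 1) / 3) - 1 = m := by omega
          rw [this]
          exact h9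
        · have h10 : |m| ≤ ((X / 4 ^ i : ℕ) : ℤ) := by
            rw [hm, abs_mul, abs_of_pos h4] at hn
            push_cast
            rw [Int.le_ediv_iff_mul_le h4]
            linarith
          rw [abs_le] at h10 ⊢
          constructor <;> omega
      · rintro n m ⟨⟨a, ha⟩, -, g3, -⟩ ⟨⟨c, hc⟩, -, f3, -⟩ hnm
        have h4 : (0 : ℤ) < 4 ^ i := by positivity
        have h5 := four_pow_mod i
        change (n / 4 ^ i + 1) / 3 = (m / 4 ^ i + 1) / 3 at hnm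
        rw [ha, Int.mul_emod, h5, one_mul, Int.emod_emod_of_dvd _ (dvd_refl 3)] at g3
        rw [hc, Int.mul_emod, h5, one_mul, Int.emod_emod_of_dvd _ (dvd_refl 3)] at f3
        rw [ha, hc, Int.mul_ediv_cancel_left _ h4.ne', Int.mul_ediv_cancel_left _ h4.ne'] at hnm
        have h6 : a = c := by omega
        rw [ha, hc, h6]
    refine h3.trans ((hO _).trans ?_)
    have h4 := natdiv_le hb X (4 ^ i)
    push_cast at h4
    exact h4
  have h3 := sum_le_sum h2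
  rw [← mul_sum] at h3
  have h4 := geom_sum_le (r := 4) (by norm_num) J
  have hX : (0 : ℝ) ≤ X := Nat.cast_nonneg X
  have h5 : b * X * ∑ i ∈ range J, 1 / (4 : ℝ) ^ i ≤ b * X * 2 :=
    mul_le_mul_of_nonneg_left h4 (by positivity)
  have h6 : cnt (fun n => (4 : ℤ) ^ J ∣ n ∧ (n % 3 = 2 ∧ Bad ε M n)) X ≤ 2 * X / 2 ^ (2 * J) := by
    refine cnt_mult _ (2 * J) X ?_
    rintro n ⟨g1, g2, -⟩
    refine ⟨by rintro rfl; omega, ?_⟩
    have : (2 : ℤ) ^ (2 * J) = 4 ^ J := by rw [pow_mul]; norm_num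
    rw [this]
    exact g1
  have h7 : (2 : ℝ) * X / 2 ^ (2 * J) = 2 / 4 ^ J * X := by
    rw [pow_mul]
    norm_num
    ring
  rw [h7] at h6
  calc _ ≤ _ := h1
    _ ≤ b * X * 2 + 2 / 4 ^ J * X := add_le_add (h3.trans h5) h6
    _ = _ := by ring

/-- The odd bad integers. -/
lemma bad_odd {ε ε' s : ℝ} (hε' : 0 < ε') (h : ε' < ε) {M : ℕ} (hM : 1 ≤ M)
    (hJ : 4 * (1 + ε') < (ε - ε') * Real.log M)
    (hO : ∀ X : ℕ, cnt (fun n => n % 3 = 2 ∧ Bad ε' M n) X ≤ s * X) (X : ℕ) :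
    cnt (fun n => n % 2 = 1 ∧ Bad ε M n) X ≤ 5 * s * X := by
  have e3 : cnt (fun n => n % 2 = 1 ∧ Bad ε M n) X ≤
      cnt (fun n => n % 3 = 2 ∧ Bad ε' M n) X +
      cnt (fun n => n % 2 = 1 ∧ n % 3 ≠ 2 ∧ Bad ε M n) X := by
    refine cnt_or fun n hn => ?_
    by_cases h4 : n % 3 = 2
    · exact Or.inl ⟨h4, tr_mono h.le hn.2⟩
    · exact Or.inr ⟨hn.1, h4, hn.2⟩
  have e4 : cnt (fun n => n % 2 = 1 ∧ n % 3 ≠ 2 ∧ Bad ε M n) X ≤
      cnt (fun n => n % 3 = 1 ∧ Bad ε M n) X +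
      cnt (fun n => n % 2 = 1 ∧ n % 3 = 0 ∧ Bad ε M n) X := by
    refine cnt_or fun n hn => ?_
    have h3 : n % 3 = 0 ∨ n % 3 = 1 ∨ n % 3 = 2 := by omega
    rcases h3 with h3 | h3 | h3
    · exact Or.inr ⟨hn.1, h3, hn.2.2⟩
    · exact Or.inl ⟨h3, hn.2.2⟩
    · exact absurd h3 hn.2.1
  have e5 : cnt (fun n => n % 3 = 1 ∧ Bad ε M n) X ≤ cnt (fun n => n % 3 = 2 ∧ Bad ε' M n) (2 * X) := by
    refine cnt_map (fun n => 2 * n) ?_ ?_
    · rintro n hn ⟨h1, h2⟩
      refine ⟨⟨by omega, bad_double hε' h hM (by linarith) h2⟩, ?_⟩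
      rw [abs_le] at hn ⊢
      constructor <;> omega
    · rintro n m - - h5
      change 2 * n = 2 * m at h5
      omega
  have e6 : cnt (fun n => n % 2 = 1 ∧ n % 3 = 0 ∧ Bad ε M n) X ≤
      cnt (fun n => n % 3 = 2 ∧ Bad ε' M n) (2 * X) := by
    refine cnt_map (fun n => (3 * n + 1) / 2) ?_ ?_
    · rintro n hn ⟨h1, h2, h3⟩
      refine ⟨⟨by omega, ?_⟩, ?_⟩
      · have h5 := bad_iter hε' h hM (j := 2) (by push_cast; linarith) h3
        rw [Function.iterate_succ_apply, Function.iterate_one, CollatzExp.C_odd h1,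
          CollatzExp.C_even (by omega)] at h5
        exact h5
      · rw [abs_le] at hn ⊢
        constructor <;> omega
    · rintro n m ⟨h1, -⟩ ⟨h2, -⟩ h5
      change (3 * n + 1) / 2 = (3 * m + 1) / 2 at h5
      omega
  have e7 := hO X
  have e8 := hO (2 * X)
  push_cast at e8
  linarith

/-- All bad integers. -/
lemma bad_all {ε ε' b : ℝ} (hε' : 0 < ε') (h : ε' < ε) (hb : 0 ≤ b) {M J : ℕ} (hM : 1 ≤ M)
    (hJ : 2 * (J : ℝ) * (1 + ε') < (ε - ε') * Real.log M)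
    (hO : ∀ X : ℕ, cnt (fun n => n % 2 = 1 ∧ Bad ε' M n) X ≤ b * X) (X : ℕ) :
    cnt (Bad ε M) X ≤ (2 * b + 2 / 2 ^ J) * X := by
  have h1 := cnt_split_pow (Bad ε M) 2 X J
  have h2 : ∀ i ∈ range J, cnt (fun n => (2 : ℤ) ^ i ∣ n ∧ ¬ (2 : ℤ) ^ (i + 1) ∣ n ∧ Bad ε M n) X ≤
      b * X * (1 / 2 ^ i) := by
    intro i hi
    rw [mem_range] at hi
    have h3 : cnt (fun n => (2 : ℤ) ^ i ∣ n ∧ ¬ (2 : ℤ) ^ (i + 1) ∣ n ∧ Bad ε M n) X ≤
        cnt (fun n => n % 2 = 1 ∧ Bad ε' M n) (X / 2 ^ i) := by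
      refine cnt_map (fun n => n / 2 ^ i) ?_ ?_
      · rintro n hn ⟨⟨m, hm⟩, g2, g4⟩
        have h4 : (0 : ℤ) < 2 ^ i := by positivity
        have h5 : n / 2 ^ i = m := by rw [hm, Int.mul_ediv_cancel_left _ h4.ne']
        have h7 : m % 2 = 1 := by
          by_contra h8
          apply g2
          obtain ⟨k, hk⟩ := Int.dvd_of_emod_eq_zero (show m % 2 = 0 by omega)
          exact ⟨k, by rw [hm, hk, pow_succ]; ring⟩
        have h9 : Bad ε' M m := by
          have h10 := bad_iter hε' h hM (j := i) (by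
            have e1 : (i : ℝ) ≤ J := by exact_mod_cast hi.le
            have e2 : 2 * (i : ℝ) * (1 + ε') ≤ 2 * (J : ℝ) * (1 + ε') :=
              mul_le_mul_of_nonneg_right (by linarith) (by linarith)
            linarith) g4
          rw [hm, C_iter_two_pow] at h10
          exact h10
        show ((n / 2 ^ i) % 2 = 1 ∧ Bad ε' M (n / 2 ^ i)) ∧ |n / 2 ^ i| ≤ ((X / 2 ^ i : ℕ) : ℤ)
        rw [h5]
        refine ⟨⟨h7, h9⟩, ?_⟩
        rw [hm, abs_mul, abs_of_pos h4] at hn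
        push_cast
        rw [Int.le_ediv_iff_mul_le h4]
        linarith
      · rintro n m ⟨⟨a, ha⟩, -⟩ ⟨⟨c, hc⟩, -⟩ hnm
        have h4 : (0 : ℤ) < 2 ^ i := by positivity
        change n / 2 ^ i = m / 2 ^ i at hnm
        rw [ha, hc, Int.mul_ediv_cancel_left _ h4.ne', Int.mul_ediv_cancel_left _ h4.ne'] at hnm
        rw [ha, hc, hnm]
    refine h3.trans ((hO _).trans ?_)
    have h4 := natdiv_le hb X (2 ^ i)
    push_cast at h4
    exact h4
  have h3 := sum_le_sum h2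
  rw [← mul_sum] at h3
  have h4 := geom_sum_le (r := 2) le_rfl J
  have hX : (0 : ℝ) ≤ X := Nat.cast_nonneg X
  have h5 : b * X * ∑ i ∈ range J, 1 / (2 : ℝ) ^ i ≤ b * X * 2 :=
    mul_le_mul_of_nonneg_left h4 (by positivity)
  have h6 : cnt (fun n => (2 : ℤ) ^ J ∣ n ∧ Bad ε M n) X ≤ 2 * X / 2 ^ J := by
    refine cnt_mult _ J X ?_
    rintro n ⟨g1, g2⟩
    refine ⟨?_, g1⟩
    rintro rfl
    have := not_bad_small g2
    simp at this
    omega
  calc _ ≤ _ := h1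
    _ ≤ b * X * 2 + 2 * X / 2 ^ J := add_le_add (h3.trans h5) h6
    _ = _ := by ring

/-- The bad points, `M ≥ 4 * 2 ^ L₂`. -/
theorem bad_oo_pow {ε : ℝ} (hε : 0 < ε) : ∃ (κ : ℝ) (L₀ : ℕ), 0 < κ ∧ ∀ L₂ : ℕ, L₀ ≤ L₂ → ∀ M : ℕ,
    4 * 2 ^ L₂ ≤ M → ∀ X : ℕ,
    cnt (fun v => OO v ∧ Bad ε M (3 * v - 1)) X ≤ 4 * Real.exp (-(κ * L₂)) * X := by
  obtain ⟨c, n₀, hc, hadm⟩ := adm_proof ε hε
  obtain ⟨κ, L₀, hκ, h⟩ := win_smallC hc n₀
  refine ⟨κ, L₀, hκ, fun L₂ hL₂ M hM X => ?_⟩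
  have h1 : 1 ≤ 2 ^ L₂ := Nat.one_le_two_pow
  exact bad_cnt_pow (by omega) (Real.exp_pos _).le
    (h L₂ hL₂ (bf ε M) (hadm M) (fun v hv => bf_zero (by omega) hv)) X

/-- **Power saving for the bad integers.** -/
theorem bad_power {ε : ℝ} (hε : 0 < ε) : ∃ K c : ℝ, 0 < K ∧ 0 < c ∧ ∀ M X : ℕ, 1 ≤ M →
    cnt (Bad ε M) X ≤ K * (M : ℝ) ^ (-c) * X := by
  obtain ⟨κ, L₀, hκ, hoo⟩ := bad_oo_pow (ε := ε / 8) (by positivity)
  have hlog2 : 0 < Real.log 2 := Real.log_pos (by norm_num)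
  have hlog2' : Real.log 2 < 1 := by
    have := Real.log_two_lt_d9
    linarith
  obtain ⟨τ, hτ⟩ : ∃ τ : ℝ, τ = ε / (128 * (1 + ε)) := ⟨_, rfl⟩
  have hτ0 : 0 < τ := by rw [hτ]; positivity
  obtain ⟨c, hc⟩ : ∃ c : ℝ, c = min (κ / Real.log 2) (τ * Real.log 2) := ⟨_, rfl⟩
  have hc0 : 0 < c := by rw [hc]; exact lt_min (by positivity) (by positivity)
  have hc1 : c ≤ κ / Real.log 2 := hc ▸ min_le_left _ _
  have hc2 : c ≤ τ * Real.log 2 := hc ▸ min_le_right _ _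
  -- the threshold
  obtain ⟨M₀, hM₀⟩ : ∃ M₀ : ℕ, 4 * 2 ^ L₀ ≤ M₀ ∧ 128 * (1 + ε) / ε ≤ Real.log M₀ := by
    obtain ⟨n, hn⟩ := exists_nat_ge (Real.exp (128 * (1 + ε) / ε))
    refine ⟨max (4 * 2 ^ L₀) n, le_max_left _ _, ?_⟩
    have h1 : (n : ℝ) ≤ ((max (4 * 2 ^ L₀) n : ℕ) : ℝ) := by exact_mod_cast le_max_right _ _
    rw [Real.le_log_iff_exp_le (lt_of_lt_of_le (Real.exp_pos _) (hn.trans h1))]
    exact hn.trans h1
  obtain ⟨hM₀a, hM₀b⟩ := hM₀
  have hM₀1 : (1 : ℝ) ≤ M₀ := by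
    have : 1 ≤ M₀ := by
      have := Nat.one_le_two_pow (n := L₀)
      omega
    exact_mod_cast this
  have htriv : ∀ M X : ℕ, 1 ≤ M → cnt (Bad ε M) X ≤ 2 * X := by
    intro M X hM
    refine cnt_le_two ?_ X
    intro h
    have := not_bad_small h
    simp at this
    omega
  refine ⟨80 * (8 : ℝ) ^ c + 22 + 2 * (M₀ : ℝ) ^ c, c, by positivity, hc0, fun M X hM => ?_⟩
  have hM0 : (0 : ℝ) < M := by exact_mod_cast hM
  have hM1 : (1 : ℝ) ≤ M := by exact_mod_cast hM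
  have hX0 : (0 : ℝ) ≤ X := Nat.cast_nonneg X
  have hMc : 0 < (M : ℝ) ^ (-c) := Real.rpow_pos_of_pos hM0 _
  by_cases hML : M₀ ≤ M
  · have hMlog : 128 * (1 + ε) / ε ≤ Real.log M := by
      refine hM₀b.trans (Real.log_le_log (by linarith) ?_)
      exact_mod_cast hML
    have hMlog0 : 0 < Real.log M := lt_of_lt_of_le (by positivity) hMlog
    have hMlog' : 128 * (1 + ε) ≤ ε * Real.log M := by
      rw [div_le_iff₀ hε] at hMlog
      linarith
    -- the bound for the points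
    obtain ⟨j, hj⟩ : ∃ j, j = Nat.log 2 M := ⟨_, rfl⟩
    have h1 : 2 ^ j ≤ M := hj ▸ Nat.pow_log_le_self 2 (by omega)
    have h2 : M < 2 ^ (j + 1) := hj ▸ Nat.lt_pow_succ_log_self (by norm_num) M
    have h3 : L₀ + 2 ≤ j := by
      by_contra hcon
      push Not at hcon
      have : 2 ^ (j + 1) ≤ 2 ^ (L₀ + 2) := Nat.pow_le_pow_right (by norm_num) (by omega)
      rw [pow_add 2 L₀] at this
      omega
    obtain ⟨i, hi⟩ : ∃ i, j = i + 2 := ⟨j - 2, by omega⟩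
    obtain ⟨b, hb⟩ : ∃ b : ℝ, b = (8 : ℝ) ^ c * (M : ℝ) ^ (-c) := ⟨_, rfl⟩
    have hb0 : 0 < b := by rw [hb]; positivity
    have hexp : Real.exp (-(κ * i)) ≤ b := by
      have e1 : Real.exp (-(κ * i)) = ((2 : ℝ) ^ i) ^ (-(κ / Real.log 2)) := by
        rw [← Real.rpow_natCast, ← Real.rpow_mul (by norm_num), Real.rpow_def_of_pos (by norm_num)]
        congr 1
        field_simp
      have e2 : ((2 : ℝ) ^ i) ^ (-(κ / Real.log 2)) ≤ ((2 : ℝ) ^ i) ^ (-c) :=
        Real.rpow_le_rpow_of_exponent_le (one_le_pow₀ (by norm_num)) (by linarith)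
      have e3 : (M : ℝ) / 8 ≤ 2 ^ i := by
        have : M ≤ 8 * 2 ^ i := by
          rw [hi, pow_succ, pow_add] at h2
          omega
        have : (M : ℝ) ≤ 8 * 2 ^ i := by exact_mod_cast this
        linarith
      have e4 : ((2 : ℝ) ^ i) ^ (-c) ≤ ((M : ℝ) / 8) ^ (-c) :=
        Real.rpow_le_rpow_of_nonpos (by positivity) e3 (by linarith)
      rw [e1]
      refine e2.trans (e4.trans (le_of_eq ?_))
      rw [hb, Real.div_rpow hM0.le (by norm_num), Real.rpow_neg (by norm_num : (0 : ℝ) ≤ 8),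
        div_inv_eq_mul, mul_comm]
    have hO : ∀ X : ℕ, cnt (fun v => OO v ∧ Bad (ε / 8) M (3 * v - 1)) X ≤ 4 * b * X := by
      intro X
      refine (hoo i (by omega) M (by
        rw [hi, pow_add] at h1
        omega) X).trans ?_
      have : (0 : ℝ) ≤ X := Nat.cast_nonneg X
      exact mul_le_mul_of_nonneg_right (by linarith) this
    -- the number of levels
    obtain ⟨J, hJ⟩ : ∃ J : ℕ, J = ⌈τ * Real.log M⌉₊ := ⟨_, rfl⟩
    have hJa : τ * Real.log M ≤ J := hJ ▸ Nat.le_ceil _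
    have hJb : (J : ℝ) < τ * Real.log M + 1 := hJ ▸ Nat.ceil_lt_add_one (by positivity)
    have hτM : 128 * (1 + ε) * (τ * Real.log M) = ε * Real.log M := by
      rw [hτ]
      field_simp
    have hτM1 : 1 ≤ τ * Real.log M := by
      have h4 : 128 * (1 + ε) * 1 ≤ 128 * (1 + ε) * (τ * Real.log M) := by linarith
      exact le_of_mul_le_mul_left h4 (by positivity)
    have hεM : 128 ≤ ε * Real.log M := by
      have : 0 < ε := hε
      linarith
    have hJ0 : (0 : ℝ) ≤ J := Nat.cast_nonneg J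
    have hJd : (J : ℝ) * (1 + ε) ≤ ε * Real.log M / 64 := by
      have h4 : (J : ℝ) ≤ 2 * (τ * Real.log M) := by linarith
      have h5 : (J : ℝ) * (1 + ε) ≤ 2 * (τ * Real.log M) * (1 + ε) :=
        mul_le_mul_of_nonneg_right h4 (by linarith)
      have h6 : 2 * (τ * Real.log M) * (1 + ε) = ε * Real.log M / 64 := by
        rw [← hτM]; ring
      linarith
    have g1 := bad_two (ε := ε / 4) (ε' := ε / 8) (b := 4 * b) (J := J) (by positivity) (by linarith)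
      (by positivity) hM (by
        have h4 : (J : ℝ) * (1 + ε / 8) ≤ (J : ℝ) * (1 + ε) := mul_le_mul_of_nonneg_left (by linarith) hJ0
        have h5 : (ε / 4 - ε / 8) * Real.log M = ε * Real.log M / 8 := by ring
        rw [h5]
        linarith) hO
    have g2 := bad_odd (ε := ε / 2) (ε' := ε / 4) (s := 2 * (4 * b) + 2 / 4 ^ J) (by positivity) (by linarith)
      hM (by
        have h5 : (ε / 2 - ε / 4) * Real.log M = ε * Real.log M / 4 := by ring
        rw [h5]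
        linarith) g1
    have g3 := bad_all (ε := ε) (ε' := ε / 2) (b := 5 * (2 * (4 * b) + 2 / 4 ^ J)) (J := J) (by positivity)
      (by linarith) (by positivity) hM (by
        have h4 : (J : ℝ) * (1 + ε / 2) ≤ (J : ℝ) * (1 + ε) := mul_le_mul_of_nonneg_left (by linarith) hJ0
        have h5 : (ε - ε / 2) * Real.log M = ε * Real.log M / 2 := by ring
        rw [h5]
        linarith) g2 X
    have h4J : (1 : ℝ) / 4 ^ J ≤ 1 / 2 ^ J :=
      one_div_le_one_div_of_le (by positivity) (pow_le_pow_left₀ (by norm_num) (by norm_num) J)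
    have h2J : (1 : ℝ) / 2 ^ J ≤ (M : ℝ) ^ (-c) := by
      have e1 : (1 : ℝ) / 2 ^ J = (2 : ℝ) ^ (-(J : ℝ)) := by
        rw [Real.rpow_neg (by norm_num), Real.rpow_natCast, one_div]
      have e2 : (2 : ℝ) ^ (-(J : ℝ)) ≤ (2 : ℝ) ^ (-(τ * Real.log M)) :=
        Real.rpow_le_rpow_of_exponent_le (by norm_num) (by linarith)
      have e3 : (2 : ℝ) ^ (-(τ * Real.log M)) = (M : ℝ) ^ (-(τ * Real.log 2)) := by
        rw [Real.rpow_def_of_pos (by norm_num), Real.rpow_def_of_pos hM0]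
        congr 1
        ring
      have e4 : (M : ℝ) ^ (-(τ * Real.log 2)) ≤ (M : ℝ) ^ (-c) :=
        Real.rpow_le_rpow_of_exponent_le hM1 (by linarith)
      rw [e1]
      exact e2.trans (e3.le.trans e4)
    have e5 : 2 * (5 * (2 * (4 * b) + 2 / 4 ^ J)) + 2 / 2 ^ J ≤ (80 * (8 : ℝ) ^ c + 22) * (M : ℝ) ^ (-c) := by
      have e6 : (2 : ℝ) / 4 ^ J = 2 * (1 / 4 ^ J) := by ring
      have e7 : (2 : ℝ) / 2 ^ J = 2 * (1 / 2 ^ J) := by ring
      rw [e6, e7, hb]
      nlinarith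
    calc cnt (Bad ε M) X ≤ (2 * (5 * (2 * (4 * b) + 2 / 4 ^ J)) + 2 / 2 ^ J) * X := g3
      _ ≤ ((80 * (8 : ℝ) ^ c + 22) * (M : ℝ) ^ (-c)) * X := mul_le_mul_of_nonneg_right e5 hX0
      _ ≤ ((80 * (8 : ℝ) ^ c + 22 + 2 * (M₀ : ℝ) ^ c) * (M : ℝ) ^ (-c)) * X := by
          have : (0 : ℝ) ≤ 2 * (M₀ : ℝ) ^ c := by positivity
          exact mul_le_mul_of_nonneg_right (mul_le_mul_of_nonneg_right (by linarith) hMc.le) hX0
      _ = _ := by ring
  · push Not at hML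
    have h1 : 1 ≤ (M₀ : ℝ) ^ c * (M : ℝ) ^ (-c) := by
      have h2 : (M : ℝ) ≤ M₀ := by exact_mod_cast hML.le
      have h3 : (M : ℝ) ^ c ≤ (M₀ : ℝ) ^ c := Real.rpow_le_rpow hM0.le h2 hc0.le
      rw [Real.rpow_neg hM0.le, ← div_eq_mul_inv, one_le_div (by positivity)]
      exact h3
    calc cnt (Bad ε M) X ≤ 2 * X := htriv M X hM
      _ = 2 * 1 * X := by ring
      _ ≤ 2 * ((M₀ : ℝ) ^ c * (M : ℝ) ^ (-c)) * X := by gcongr
      _ = (2 * (M₀ : ℝ) ^ c) * (M : ℝ) ^ (-c) * X := by ring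
      _ ≤ (80 * (8 : ℝ) ^ c + 22 + 2 * (M₀ : ℝ) ^ c) * (M : ℝ) ^ (-c) * X := by
          have : (0 : ℝ) ≤ 80 * (8 : ℝ) ^ c + 22 := by positivity
          exact mul_le_mul_of_nonneg_right (mul_le_mul_of_nonneg_right (by linarith) hMc.le) hX0

end CollatzPow
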