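import Pool.Agent.CollatzPow.DescH
import Pool.Agent.CollatzPow.FinalR

set_option autoImplicit false

/-!
# Straight descent from every point of the trajectory, with power saving
-/

namespace CollatzPow

open CollatzOne CollatzLin CollatzTime Finset

/-- The trajectory of `n` does not descend straight to `[-M, M]` from one of its points. -/
def HBad (ε : ℝ) (M : ℕ) (n : ℤ) : Prop :=
  ∃ i : ℕ, (∀ l < i, (M : ℤ) < |CollatzExp.C^[l] n|) ∧ Bad ε M (CollatzExp.C^[i] n)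

lemma not_hbad_small {ε : ℝ} {M : ℕ} {n : ℤ} (h : HBad ε M n) : (M : ℤ) < |n| := by
  obtain ⟨i, h1, h2⟩ := h
  rcases Nat.eq_zero_or_pos i with h0 | h0
  · subst h0
    exact not_bad_small h2
  · simpa using h1 0 h0

lemma hbad_mono {ε ε' : ℝ} (h : ε' ≤ ε) {M : ℕ} {n : ℤ} (hb : HBad ε M n) : HBad ε' M n := by
  obtain ⟨i, h1, h2⟩ := hb
  exact ⟨i, h1, tr_mono h h2⟩

lemma hbad_iter {ε ε' : ℝ} (hε' : 0 < ε') (h : ε' < ε) {M : ℕ} (hM : 1 ≤ M) {j : ℕ}
    (hj : 2 * (j : ℝ) * (1 + ε') < (ε - ε') * Real.log M) {n : ℤ} (hb : HBad ε M n) :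
    HBad ε' M (CollatzExp.C^[j] n) := by
  obtain ⟨i, h1, h2⟩ := hb
  rcases Nat.lt_or_ge i j with hij | hij
  · obtain ⟨s, rfl⟩ : ∃ s, j = s + i := ⟨j - i, by omega⟩
    refine ⟨0, by simp, ?_⟩
    have h3 := bad_iter hε' h hM (j := s) (by
      have e1 : (s : ℝ) ≤ ((s + i : ℕ) : ℝ) := by exact_mod_cast Nat.le_add_right s i
      have e2 : 2 * (s : ℝ) * (1 + ε') ≤ 2 * ((s + i : ℕ) : ℝ) * (1 + ε') :=
        mul_le_mul_of_nonneg_right (by linarith) (by linarith)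
      linarith) h2
    rw [← Function.iterate_add_apply] at h3
    exact h3
  · obtain ⟨s, rfl⟩ : ∃ s, i = s + j := ⟨i - j, by omega⟩
    refine ⟨s, fun l hl => ?_, ?_⟩
    · rw [← Function.iterate_add_apply]
      exact h1 (l + j) (by omega)
    · rw [← Function.iterate_add_apply]
      exact tr_mono h.le h2

lemma hbad_double {ε ε' : ℝ} (_hε' : 0 < ε') (h : ε' < ε) {M : ℕ} (hM : 1 ≤ M)
    (_hj : 1 + ε' < (ε - ε') * Real.log M) {n : ℤ} (hb : HBad ε M n) : HBad ε' M (2 * n) := by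
  have hn := not_hbad_small hb
  obtain ⟨i, h1, h2⟩ := hb
  have hC : CollatzExp.C (2 * n) = n := by rw [CollatzExp.C_even (by omega)]; omega
  refine ⟨i + 1, fun l hl => ?_, ?_⟩
  · rcases l with _ | l
    · simp only [Function.iterate_zero, id_eq]
      have h2 : |(2 : ℤ)| = 2 := rfl
      rw [abs_mul, h2]
      omega
    · rw [Function.iterate_succ_apply, hC]
      exact h1 l (by omega)
  · rw [Function.iterate_succ_apply, hC]
    exact tr_mono h.le h2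

lemma hb_of_hbad {ε : ℝ} (hε : 0 < ε) {M : ℕ} {n : ℤ} (h : HBad ε M n) : HB ε M n := by
  have hn := not_hbad_small h
  have hn0 : n ≠ 0 := by
    rintro rfl
    simp at hn
    omega
  obtain ⟨i, h1, k, h2, h3⟩ := h
  refine ⟨i, k, fun l hl => ?_, lt_of_le_of_lt ?_ h3⟩
  · rcases Nat.lt_or_ge l i with hli | hli
    · exact h1 l hli
    · obtain ⟨s, rfl⟩ : ∃ s, l = s + i := ⟨l - i, by omega⟩
      rw [Function.iterate_add_apply]
      exact h2 s (by omega)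
  · have h4 := gT_le_one (x := Real.log (|(n : ℝ)|)) (Real.log_nonneg (one_le_abs_real hn0))
    have h5 : 0 ≤ Real.log (|((CollatzExp.C^[i] n : ℤ) : ℝ)|) :=
      Real.log_nonneg (one_le_abs_real (C_iter_ne_zero hn0 i))
    have h6 : ε * gT (Real.log (|(n : ℝ)|)) ≤ ε * 1 := mul_le_mul_of_nonneg_left h4 hε.le
    rw [mul_one] at h6
    exact mul_le_mul_of_nonneg_right h6 h5

open Classical in
lemma card_win_le_hb (ε : ℝ) (M L : ℕ) :
    (((win L (L + 1)).filter (fun v => HB ε M (3 * v - 1))).card : ℝ) ≤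
      2 ^ (L + 1) * LS L (L + 1) (hb ε M) := by
  unfold LS
  have h1 : ∑ v ∈ (win L (L + 1)).filter (fun v => HB ε M (3 * v - 1)), (1 : ℝ) / 2 ^ (L + 1) ≤
      ∑ v ∈ win L (L + 1), hb ε M v / |(v : ℝ)| := by
    rw [sum_filter]
    refine sum_le_sum fun v hv => ?_
    have h2 := win_real hv
    have h3 := abs_pos_of_win hv
    unfold hb
    split_ifs
    · exact one_div_le_one_div_of_le h3 h2.2.le
    · simp
  rw [sum_const, nsmul_eq_mul, mul_one_div, div_le_iff₀ (by positivity)] at h1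
  linarith

lemma hb_small {ε : ℝ} {M : ℕ} {n : ℤ} (h : HB ε M n) : (M : ℤ) < |n| := by
  obtain ⟨i, k, hk, -⟩ := h
  simpa using hk 0 (Nat.zero_le _)

open Classical in
lemma card_bx_le_hb {ε : ℝ} {M : ℕ} (hM : 1 ≤ M) {δ : ℝ} (hδ : 0 ≤ δ) (h : ∀ L, LS L (L + 1) (hb ε M) ≤ δ)
    (L : ℕ) : (((bx L).filter (fun v => HB ε M (3 * v - 1))).card : ℝ) ≤ δ * 2 ^ (L + 1) := by
  induction L with
  | zero =>
    have h1 : (bx 0).filter (fun v => HB ε M (3 * v - 1)) = ∅ := by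
      rw [filter_eq_empty_iff]
      intro v hv hA
      have h2 := (mem_bx.1 hv).1
      rw [pow_zero] at h2
      have h3 : v = 0 := by
        rw [abs_lt] at h2
        omega
      subst h3
      have h4 := hb_small hA
      simp at h4
      omega
    rw [h1, card_empty]
    push_cast
    positivity
  | succ L ih =>
    have h1 : ((bx (L + 1)).filter (fun v => HB ε M (3 * v - 1))).card ≤
        ((bx L).filter (fun v => HB ε M (3 * v - 1))).card +
        ((win L (L + 1)).filter (fun v => HB ε M (3 * v - 1))).card := by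
      refine le_trans (card_le_card ?_) (card_union_le _ _)
      intro v hv
      rw [mem_filter, mem_bx] at hv
      rw [mem_union, mem_filter, mem_filter, mem_bx, mem_win]
      by_cases hc : |v| < 2 ^ L
      · exact Or.inl ⟨⟨hc, hv.1.2⟩, hv.2⟩
      · exact Or.inr ⟨⟨by omega, hv.1.1, hv.1.2⟩, hv.2⟩
    have h2 : (((bx (L + 1)).filter (fun v => HB ε M (3 * v - 1))).card : ℝ) ≤
        ((bx L).filter (fun v => HB ε M (3 * v - 1))).card +
        ((win L (L + 1)).filter (fun v => HB ε M (3 * v - 1))).card := by exact_mod_cast h1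
    have h3 := card_win_le_hb ε M L
    have h4 : (2 : ℝ) ^ (L + 1) * LS L (L + 1) (hb ε M) ≤ 2 ^ (L + 1) * δ :=
      mul_le_mul_of_nonneg_left (h L) (by positivity)
    have h5 : δ * 2 ^ (L + 1 + 1) = δ * 2 ^ (L + 1) + 2 ^ (L + 1) * δ := by rw [pow_succ]; ring
    linarith

theorem hb_cnt_pow {ε : ℝ} (hε : 0 < ε) {M : ℕ} (hM : 1 ≤ M) {δ : ℝ} (hδ : 0 ≤ δ)
    (h : ∀ L, LS L (L + 1) (hb ε M) ≤ δ)
    (X : ℕ) : cnt (fun v => OO v ∧ HBad ε M (3 * v - 1)) X ≤ 4 * δ * X := by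
  classical
  rcases Nat.eq_zero_or_pos X with hX | hX
  · subst hX
    rw [cnt_zero]
    · simp
    · rintro ⟨-, h1⟩
      have h2 := not_hbad_small h1
      simp at h2
      omega
  have h1 : cnt (fun v => OO v ∧ HBad ε M (3 * v - 1)) X ≤
      (((bx (Nat.log 2 X + 1)).filter (fun v => HB ε M (3 * v - 1))).card : ℝ) := by
    unfold cnt
    have h2 : ((Icc (-(X : ℤ)) X).filter (fun v => OO v ∧ HBad ε M (3 * v - 1))).card ≤
        ((bx (Nat.log 2 X + 1)).filter (fun v => HB ε M (3 * v - 1))).card := by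
      apply card_le_card
      intro v hv
      rw [mem_filter, mem_Icc] at hv
      rw [mem_filter, mem_bx]
      refine ⟨⟨?_, hv.2.1⟩, hb_of_hbad hε hv.2.2⟩
      have h3 := Nat.lt_pow_succ_log_self (b := 2) (by norm_num) X
      have h4 : (X : ℤ) < 2 ^ (Nat.log 2 X + 1) := by exact_mod_cast h3
      exact lt_of_le_of_lt (abs_le.2 hv.1) h4
    exact_mod_cast h2
  have h2 := card_bx_le_hb hM hδ h (Nat.log 2 X + 1)
  have h3 := Nat.pow_log_le_self 2 (by omega : X ≠ 0)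
  have h4 : (2 : ℝ) ^ Nat.log 2 X ≤ X := by exact_mod_cast h3
  have h5 : δ * 2 ^ (Nat.log 2 X + 1 + 1) ≤ 4 * δ * X := by
    have : δ * 2 ^ (Nat.log 2 X + 1 + 1) = 4 * δ * 2 ^ Nat.log 2 X := by
      rw [pow_succ, pow_succ]; ring
    rw [this]
    exact mul_le_mul_of_nonneg_left h4 (by positivity)
  linarith

/-- The bad points, `M ≥ 4 * 2 ^ L₂`. -/
theorem hbad_oo_pow {ε : ℝ} (hε : 0 < ε) : ∃ (κ : ℝ) (L₀ : ℕ), 0 < κ ∧ ∀ L₂ : ℕ, L₀ ≤ L₂ → ∀ M : ℕ,
    4 * 2 ^ L₂ ≤ M → ∀ X : ℕ,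
    cnt (fun v => OO v ∧ HBad ε M (3 * v - 1)) X ≤ 4 * Real.exp (-(κ * L₂)) * X := by
  obtain ⟨κ, L₀, hκ, h⟩ := win_smallH hε
  refine ⟨κ, L₀, hκ, fun L₂ hL₂ M hM X => ?_⟩
  have h1 : 1 ≤ 2 ^ L₂ := Nat.one_le_two_pow
  exact hb_cnt_pow hε (by omega) (Real.exp_pos _).le (h L₂ hL₂ M hM) X

/-- The bad integers congruent to `2` modulo `3`. -/
lemma hbad_two {ε ε' b : ℝ} (hε' : 0 < ε') (h : ε' < ε) (hb : 0 ≤ b) {M J : ℕ} (hM : 1 ≤ M)
    (hJ : 2 * (2 * (J : ℝ)) * (1 + ε') < (ε - ε') * Real.log M)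
    (hO : ∀ X : ℕ, cnt (fun v => OO v ∧ HBad ε' M (3 * v - 1)) X ≤ b * X) (X : ℕ) :
    cnt (fun n => n % 3 = 2 ∧ HBad ε M n) X ≤ (2 * b + 2 / 4 ^ J) * X := by
  have h1 := cnt_split_pow (fun n => n % 3 = 2 ∧ HBad ε M n) 4 X J
  have h2 : ∀ i ∈ range J, cnt (fun n => (4 : ℤ) ^ i ∣ n ∧ ¬ (4 : ℤ) ^ (i + 1) ∣ n ∧ (n % 3 = 2 ∧ HBad ε M n)) X ≤
      b * X * (1 / 4 ^ i) := by
    intro i hi
    rw [mem_range] at hi
    have h3 : cnt (fun n => (4 : ℤ) ^ i ∣ n ∧ ¬ (4 : ℤ) ^ (i + 1) ∣ n ∧ (n % 3 = 2 ∧ HBad ε M n)) X ≤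
        cnt (fun v => OO v ∧ HBad ε' M (3 * v - 1)) (X / 4 ^ i) := by
      refine cnt_map (fun n => (n / 4 ^ i + 1) / 3) ?_ ?_
      · rintro n hn ⟨⟨m, hm⟩, g2, g3, g4⟩
        have h4 : (0 : ℤ) < 4 ^ i := by positivity
        have h5 : n / 4 ^ i = m := by rw [hm, Int.mul_ediv_cancel_left _ h4.ne']
        have h6 : m % 3 = 2 := by
          rw [hm, Int.mul_emod, four_pow_mod i, one_mul, Int.emod_emod_of_dvd _ (dvd_refl 3)] at g3
          exact g3
        have h7 : m % 4 ≠ 0 := by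
          intro h8
          apply g2
          obtain ⟨k, hk⟩ := Int.dvd_of_emod_eq_zero h8
          exact ⟨k, by rw [hm, hk, pow_succ]; ring⟩
        have h8 : (4 : ℤ) ^ i = 2 ^ (2 * i) := by rw [pow_mul]; norm_num
        have h9 : HBad ε' M m := by
          have h10 := hbad_iter hε' h hM (j := 2 * i) (by
            have e1 : (i : ℝ) ≤ J := by exact_mod_cast hi.le
            have e2 : 2 * (((2 * i : ℕ) : ℝ)) * (1 + ε') ≤ 2 * (2 * (J : ℝ)) * (1 + ε') := by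
              push_cast
              refine mul_le_mul_of_nonneg_right (by linarith) (by linarith)
            linarith) g4
          rw [hm, h8, C_iter_two_pow] at h10
          exact h10
        show (OO ((n / 4 ^ i + 1) / 3) ∧ HBad ε' M (3 * ((n / 4 ^ i + 1) / 3) - 1)) ∧ |(n / 4 ^ i + 1) / 3| ≤ ((X / 4 ^ i : ℕ) : ℤ)
        rw [h5]
        refine ⟨⟨by unfold OO; omega, ?_⟩, ?_⟩
        · have : 3 * ((m + 1) / 3) - 1 = m := by omega
          rw [this]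
          exact h9
        · have h10 : |m| ≤ ((X / 4 ^ i : ℕ) : ℤ) := by
            rw [hm, abs_mul, abs_of_pos h4] at hn
            push_cast
            rw [Int.le_ediv_iff_mul_le h4]
            linarith
          rw [abs_le] at h10 ⊢
          constructor <;> omega
      · rintro n m ⟨⟨a, ha⟩, -, g3, -⟩ ⟨⟨c, hc⟩, -, f3, -⟩ hnm
        have h4 : (0 : ℤ) < 4 ^ i := by positivity
        have h5 := four_pow_mod i
        change (n / 4 ^ i + 1) / 3 = (m / 4 ^ i + 1) / 3 at hnm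
        rw [ha, Int.mul_emod, h5, one_mul, Int.emod_emod_of_dvd _ (dvd_refl 3)] at g3
        rw [hc, Int.mul_emod, h5, one_mul, Int.emod_emod_of_dvd _ (dvd_refl 3)] at f3
        rw [ha, hc, Int.mul_ediv_cancel_left _ h4.ne', Int.mul_ediv_cancel_left _ h4.ne'] at hnm
        have h6 : a = c := by omega
        rw [ha, hc, h6]
    refine h3.trans ((hO _).trans ?_)
    have h4 := natdiv_le hb X (4 ^ i)
    push_cast at h4
    exact h4
  have h3 := sum_le_sum h2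
  rw [← mul_sum] at h3
  have h4 := geom_sum_le (r := 4) (by norm_num) J
  have hX : (0 : ℝ) ≤ X := Nat.cast_nonneg X
  have h5 : b * X * ∑ i ∈ range J, 1 / (4 : ℝ) ^ i ≤ b * X * 2 :=
    mul_le_mul_of_nonneg_left h4 (by positivity)
  have h6 : cnt (fun n => (4 : ℤ) ^ J ∣ n ∧ (n % 3 = 2 ∧ HBad ε M n)) X ≤ 2 * X / 2 ^ (2 * J) := by
    refine cnt_mult _ (2 * J) X ?_
    rintro n ⟨g1, g2, -⟩
    refine ⟨by rintro rfl; omega, ?_⟩
    have : (2 : ℤ) ^ (2 * J) = 4 ^ J := by rw [pow_mul]; norm_num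
    rw [this]
    exact g1
  have h7 : (2 : ℝ) * X / 2 ^ (2 * J) = 2 / 4 ^ J * X := by
    rw [pow_mul]
    norm_num
    ring
  rw [h7] at h6
  calc _ ≤ _ := h1
    _ ≤ b * X * 2 + 2 / 4 ^ J * X := add_le_add (h3.trans h5) h6
    _ = _ := by ring

/-- The odd bad integers. -/
lemma hbad_odd {ε ε' s : ℝ} (hε' : 0 < ε') (h : ε' < ε) {M : ℕ} (hM : 1 ≤ M)
    (hJ : 4 * (1 + ε') < (ε - ε') * Real.log M)
    (hO : ∀ X : ℕ, cnt (fun n => n % 3 = 2 ∧ HBad ε' M n) X ≤ s * X) (X : ℕ) :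
    cnt (fun n => n % 2 = 1 ∧ HBad ε M n) X ≤ 5 * s * X := by
  have e3 : cnt (fun n => n % 2 = 1 ∧ HBad ε M n) X ≤
      cnt (fun n => n % 3 = 2 ∧ HBad ε' M n) X +
      cnt (fun n => n % 2 = 1 ∧ n % 3 ≠ 2 ∧ HBad ε M n) X := by
    refine cnt_or fun n hn => ?_
    by_cases h4 : n % 3 = 2
    · exact Or.inl ⟨h4, hbad_mono h.le hn.2⟩
    · exact Or.inr ⟨hn.1, h4, hn.2⟩
  have e4 : cnt (fun n => n % 2 = 1 ∧ n % 3 ≠ 2 ∧ HBad ε M n) X ≤
      cnt (fun n => n % 3 = 1 ∧ HBad ε M n) X +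
      cnt (fun n => n % 2 = 1 ∧ n % 3 = 0 ∧ HBad ε M n) X := by
    refine cnt_or fun n hn => ?_
    have h3 : n % 3 = 0 ∨ n % 3 = 1 ∨ n % 3 = 2 := by omega
    rcases h3 with h3 | h3 | h3
    · exact Or.inr ⟨hn.1, h3, hn.2.2⟩
    · exact Or.inl ⟨h3, hn.2.2⟩
    · exact absurd h3 hn.2.1
  have e5 : cnt (fun n => n % 3 = 1 ∧ HBad ε M n) X ≤ cnt (fun n => n % 3 = 2 ∧ HBad ε' M n) (2 * X) := by
    refine cnt_map (fun n => 2 * n) ?_ ?_
    · rintro n hn ⟨h1, h2⟩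
      refine ⟨⟨by omega, hbad_double hε' h hM (by linarith) h2⟩, ?_⟩
      rw [abs_le] at hn ⊢
      constructor <;> omega
    · rintro n m - - h5
      change 2 * n = 2 * m at h5
      omega
  have e6 : cnt (fun n => n % 2 = 1 ∧ n % 3 = 0 ∧ HBad ε M n) X ≤
      cnt (fun n => n % 3 = 2 ∧ HBad ε' M n) (2 * X) := by
    refine cnt_map (fun n => (3 * n + 1) / 2) ?_ ?_
    · rintro n hn ⟨h1, h2, h3⟩
      refine ⟨⟨by omega, ?_⟩, ?_⟩
      · have h5 := hbad_iter hε' h hM (j := 2) (by push_cast; linarith) h3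
        rw [Function.iterate_succ_apply, Function.iterate_one, CollatzExp.C_odd h1,
          CollatzExp.C_even (by omega)] at h5
        exact h5
      · rw [abs_le] at hn ⊢
        constructor <;> omega
    · rintro n m ⟨h1, -⟩ ⟨h2, -⟩ h5
      change (3 * n + 1) / 2 = (3 * m + 1) / 2 at h5
      omega
  have e7 := hO X
  have e8 := hO (2 * X)
  push_cast at e8
  linarith

/-- All bad integers. -/
lemma hbad_all {ε ε' b : ℝ} (hε' : 0 < ε') (h : ε' < ε) (hb : 0 ≤ b) {M J : ℕ} (hM : 1 ≤ M)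
    (hJ : 2 * (J : ℝ) * (1 + ε') < (ε - ε') * Real.log M)
    (hO : ∀ X : ℕ, cnt (fun n => n % 2 = 1 ∧ HBad ε' M n) X ≤ b * X) (X : ℕ) :
    cnt (HBad ε M) X ≤ (2 * b + 2 / 2 ^ J) * X := by
  have h1 := cnt_split_pow (HBad ε M) 2 X J
  have h2 : ∀ i ∈ range J, cnt (fun n => (2 : ℤ) ^ i ∣ n ∧ ¬ (2 : ℤ) ^ (i + 1) ∣ n ∧ HBad ε M n) X ≤
      b * X * (1 / 2 ^ i) := by
    intro i hi
    rw [mem_range] at hi
    have h3 : cnt (fun n => (2 : ℤ) ^ i ∣ n ∧ ¬ (2 : ℤ) ^ (i + 1) ∣ n ∧ HBad ε M n) X ≤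
        cnt (fun n => n % 2 = 1 ∧ HBad ε' M n) (X / 2 ^ i) := by
      refine cnt_map (fun n => n / 2 ^ i) ?_ ?_
      · rintro n hn ⟨⟨m, hm⟩, g2, g4⟩
        have h4 : (0 : ℤ) < 2 ^ i := by positivity
        have h5 : n / 2 ^ i = m := by rw [hm, Int.mul_ediv_cancel_left _ h4.ne']
        have h7 : m % 2 = 1 := by
          by_contra h8
          apply g2
          obtain ⟨k, hk⟩ := Int.dvd_of_emod_eq_zero (show m % 2 = 0 by omega)
          exact ⟨k, by rw [hm, hk, pow_succ]; ring⟩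
        have h9 : HBad ε' M m := by
          have h10 := hbad_iter hε' h hM (j := i) (by
            have e1 : (i : ℝ) ≤ J := by exact_mod_cast hi.le
            have e2 : 2 * (i : ℝ) * (1 + ε') ≤ 2 * (J : ℝ) * (1 + ε') :=
              mul_le_mul_of_nonneg_right (by linarith) (by linarith)
            linarith) g4
          rw [hm, C_iter_two_pow] at h10
          exact h10
        show ((n / 2 ^ i) % 2 = 1 ∧ HBad ε' M (n / 2 ^ i)) ∧ |n / 2 ^ i| ≤ ((X / 2 ^ i : ℕ) : ℤ)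
        rw [h5]
        refine ⟨⟨h7, h9⟩, ?_⟩
        rw [hm, abs_mul, abs_of_pos h4] at hn
        push_cast
        rw [Int.le_ediv_iff_mul_le h4]
        linarith
      · rintro n m ⟨⟨a, ha⟩, -⟩ ⟨⟨c, hc⟩, -⟩ hnm
        have h4 : (0 : ℤ) < 2 ^ i := by positivity
        change n / 2 ^ i = m / 2 ^ i at hnm
        rw [ha, hc, Int.mul_ediv_cancel_left _ h4.ne', Int.mul_ediv_cancel_left _ h4.ne'] at hnm
        rw [ha, hc, hnm]
    refine h3.trans ((hO _).trans ?_)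
    have h4 := natdiv_le hb X (2 ^ i)
    push_cast at h4
    exact h4
  have h3 := sum_le_sum h2
  rw [← mul_sum] at h3
  have h4 := geom_sum_le (r := 2) le_rfl J
  have hX : (0 : ℝ) ≤ X := Nat.cast_nonneg X
  have h5 : b * X * ∑ i ∈ range J, 1 / (2 : ℝ) ^ i ≤ b * X * 2 :=
    mul_le_mul_of_nonneg_left h4 (by positivity)
  have h6 : cnt (fun n => (2 : ℤ) ^ J ∣ n ∧ HBad ε M n) X ≤ 2 * X / 2 ^ J := by
    refine cnt_mult _ J X ?_
    rintro n ⟨g1, g2⟩
    refine ⟨?_, g1⟩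
    rintro rfl
    have := not_hbad_small g2
    simp at this
    omega
  calc _ ≤ _ := h1
    _ ≤ b * X * 2 + 2 * X / 2 ^ J := add_le_add (h3.trans h5) h6
    _ = _ := by ring

/-- **Power saving for the bad integers.** -/
theorem hbad_power {ε : ℝ} (hε : 0 < ε) : ∃ K c : ℝ, 0 < K ∧ 0 < c ∧ ∀ M X : ℕ, 1 ≤ M →
    cnt (HBad ε M) X ≤ K * (M : ℝ) ^ (-c) * X := by
  obtain ⟨κ, L₀, hκ, hoo⟩ := hbad_oo_pow (ε := ε / 8) (by positivity)
  have hlog2 : 0 < Real.log 2 := Real.log_pos (by norm_num)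
  have hlog2' : Real.log 2 < 1 := by
    have := Real.log_two_lt_d9
    linarith
  obtain ⟨τ, hτ⟩ : ∃ τ : ℝ, τ = ε / (128 * (1 + ε)) := ⟨_, rfl⟩
  have hτ0 : 0 < τ := by rw [hτ]; positivity
  obtain ⟨c, hc⟩ : ∃ c : ℝ, c = min (κ / Real.log 2) (τ * Real.log 2) := ⟨_, rfl⟩
  have hc0 : 0 < c := by rw [hc]; exact lt_min (by positivity) (by positivity)
  have hc1 : c ≤ κ / Real.log 2 := hc ▸ min_le_left _ _
  have hc2 : c ≤ τ * Real.log 2 := hc ▸ min_le_right _ _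
  -- the threshold
  obtain ⟨M₀, hM₀⟩ : ∃ M₀ : ℕ, 4 * 2 ^ L₀ ≤ M₀ ∧ 128 * (1 + ε) / ε ≤ Real.log M₀ := by
    obtain ⟨n, hn⟩ := exists_nat_ge (Real.exp (128 * (1 + ε) / ε))
    refine ⟨max (4 * 2 ^ L₀) n, le_max_left _ _, ?_⟩
    have h1 : (n : ℝ) ≤ ((max (4 * 2 ^ L₀) n : ℕ) : ℝ) := by exact_mod_cast le_max_right _ _
    rw [Real.le_log_iff_exp_le (lt_of_lt_of_le (Real.exp_pos _) (hn.trans h1))]
    exact hn.trans h1
  obtain ⟨hM₀a, hM₀b⟩ := hM₀
  have hM₀1 : (1 : ℝ) ≤ M₀ := by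
    have : 1 ≤ M₀ := by
      have := Nat.one_le_two_pow (n := L₀)
      omega
    exact_mod_cast this
  have htriv : ∀ M X : ℕ, 1 ≤ M → cnt (HBad ε M) X ≤ 2 * X := by
    intro M X hM
    refine cnt_le_two ?_ X
    intro h
    have := not_hbad_small h
    simp at this
    omega
  refine ⟨80 * (8 : ℝ) ^ c + 22 + 2 * (M₀ : ℝ) ^ c, c, by positivity, hc0, fun M X hM => ?_⟩
  have hM0 : (0 : ℝ) < M := by exact_mod_cast hM
  have hM1 : (1 : ℝ) ≤ M := by exact_mod_cast hM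
  have hX0 : (0 : ℝ) ≤ X := Nat.cast_nonneg X
  have hMc : 0 < (M : ℝ) ^ (-c) := Real.rpow_pos_of_pos hM0 _
  by_cases hML : M₀ ≤ M
  · have hMlog : 128 * (1 + ε) / ε ≤ Real.log M := by
      refine hM₀b.trans (Real.log_le_log (by linarith) ?_)
      exact_mod_cast hML
    have hMlog0 : 0 < Real.log M := lt_of_lt_of_le (by positivity) hMlog
    have hMlog' : 128 * (1 + ε) ≤ ε * Real.log M := by
      rw [div_le_iff₀ hε] at hMlog
      linarith
    -- the bound for the points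
    obtain ⟨j, hj⟩ : ∃ j, j = Nat.log 2 M := ⟨_, rfl⟩
    have h1 : 2 ^ j ≤ M := hj ▸ Nat.pow_log_le_self 2 (by omega)
    have h2 : M < 2 ^ (j + 1) := hj ▸ Nat.lt_pow_succ_log_self (by norm_num) M
    have h3 : L₀ + 2 ≤ j := by
      by_contra hcon
      push Not at hcon
      have : 2 ^ (j + 1) ≤ 2 ^ (L₀ + 2) := Nat.pow_le_pow_right (by norm_num) (by omega)
      rw [pow_add 2 L₀] at this
      omega
    obtain ⟨i, hi⟩ : ∃ i, j = i + 2 := ⟨j - 2, by omega⟩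
    obtain ⟨b, hb⟩ : ∃ b : ℝ, b = (8 : ℝ) ^ c * (M : ℝ) ^ (-c) := ⟨_, rfl⟩
    have hb0 : 0 < b := by rw [hb]; positivity
    have hexp : Real.exp (-(κ * i)) ≤ b := by
      have e1 : Real.exp (-(κ * i)) = ((2 : ℝ) ^ i) ^ (-(κ / Real.log 2)) := by
        rw [← Real.rpow_natCast, ← Real.rpow_mul (by norm_num), Real.rpow_def_of_pos (by norm_num)]
        congr 1
        field_simp
      have e2 : ((2 : ℝ) ^ i) ^ (-(κ / Real.log 2)) ≤ ((2 : ℝ) ^ i) ^ (-c) :=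
        Real.rpow_le_rpow_of_exponent_le (one_le_pow₀ (by norm_num)) (by linarith)
      have e3 : (M : ℝ) / 8 ≤ 2 ^ i := by
        have : M ≤ 8 * 2 ^ i := by
          rw [hi, pow_succ, pow_add] at h2
          omega
        have : (M : ℝ) ≤ 8 * 2 ^ i := by exact_mod_cast this
        linarith
      have e4 : ((2 : ℝ) ^ i) ^ (-c) ≤ ((M : ℝ) / 8) ^ (-c) :=
        Real.rpow_le_rpow_of_nonpos (by positivity) e3 (by linarith)
      rw [e1]
      refine e2.trans (e4.trans (le_of_eq ?_))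
      rw [hb, Real.div_rpow hM0.le (by norm_num), Real.rpow_neg (by norm_num : (0 : ℝ) ≤ 8),
        div_inv_eq_mul, mul_comm]
    have hO : ∀ X : ℕ, cnt (fun v => OO v ∧ HBad (ε / 8) M (3 * v - 1)) X ≤ 4 * b * X := by
      intro X
      refine (hoo i (by omega) M (by
        rw [hi, pow_add] at h1
        omega) X).trans ?_
      have : (0 : ℝ) ≤ X := Nat.cast_nonneg X
      exact mul_le_mul_of_nonneg_right (by linarith) this
    -- the number of levels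
    obtain ⟨J, hJ⟩ : ∃ J : ℕ, J = ⌈τ * Real.log M⌉₊ := ⟨_, rfl⟩
    have hJa : τ * Real.log M ≤ J := hJ ▸ Nat.le_ceil _
    have hJb : (J : ℝ) < τ * Real.log M + 1 := hJ ▸ Nat.ceil_lt_add_one (by positivity)
    have hτM : 128 * (1 + ε) * (τ * Real.log M) = ε * Real.log M := by
      rw [hτ]
      field_simp
    have hτM1 : 1 ≤ τ * Real.log M := by
      have h4 : 128 * (1 + ε) * 1 ≤ 128 * (1 + ε) * (τ * Real.log M) := by linarith
      exact le_of_mul_le_mul_left h4 (by positivity)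
    have hεM : 128 ≤ ε * Real.log M := by
      have : 0 < ε := hε
      linarith
    have hJ0 : (0 : ℝ) ≤ J := Nat.cast_nonneg J
    have hJd : (J : ℝ) * (1 + ε) ≤ ε * Real.log M / 64 := by
      have h4 : (J : ℝ) ≤ 2 * (τ * Real.log M) := by linarith
      have h5 : (J : ℝ) * (1 + ε) ≤ 2 * (τ * Real.log M) * (1 + ε) :=
        mul_le_mul_of_nonneg_right h4 (by linarith)
      have h6 : 2 * (τ * Real.log M) * (1 + ε) = ε * Real.log M / 64 := by
        rw [← hτM]; ring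
      linarith
    have g1 := hbad_two (ε := ε / 4) (ε' := ε / 8) (b := 4 * b) (J := J) (by positivity) (by linarith)
      (by positivity) hM (by
        have h4 : (J : ℝ) * (1 + ε / 8) ≤ (J : ℝ) * (1 + ε) := mul_le_mul_of_nonneg_left (by linarith) hJ0
        have h5 : (ε / 4 - ε / 8) * Real.log M = ε * Real.log M / 8 := by ring
        rw [h5]
        linarith) hO
    have g2 := hbad_odd (ε := ε / 2) (ε' := ε / 4) (s := 2 * (4 * b) + 2 / 4 ^ J) (by positivity) (by linarith)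
      hM (by
        have h5 : (ε / 2 - ε / 4) * Real.log M = ε * Real.log M / 4 := by ring
        rw [h5]
        linarith) g1
    have g3 := hbad_all (ε := ε) (ε' := ε / 2) (b := 5 * (2 * (4 * b) + 2 / 4 ^ J)) (J := J) (by positivity)
      (by linarith) (by positivity) hM (by
        have h4 : (J : ℝ) * (1 + ε / 2) ≤ (J : ℝ) * (1 + ε) := mul_le_mul_of_nonneg_left (by linarith) hJ0
        have h5 : (ε - ε / 2) * Real.log M = ε * Real.log M / 2 := by ring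
        rw [h5]
        linarith) g2 X
    have h4J : (1 : ℝ) / 4 ^ J ≤ 1 / 2 ^ J :=
      one_div_le_one_div_of_le (by positivity) (pow_le_pow_left₀ (by norm_num) (by norm_num) J)
    have h2J : (1 : ℝ) / 2 ^ J ≤ (M : ℝ) ^ (-c) := by
      have e1 : (1 : ℝ) / 2 ^ J = (2 : ℝ) ^ (-(J : ℝ)) := by
        rw [Real.rpow_neg (by norm_num), Real.rpow_natCast, one_div]
      have e2 : (2 : ℝ) ^ (-(J : ℝ)) ≤ (2 : ℝ) ^ (-(τ * Real.log M)) :=
        Real.rpow_le_rpow_of_exponent_le (by norm_num) (by linarith)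
      have e3 : (2 : ℝ) ^ (-(τ * Real.log M)) = (M : ℝ) ^ (-(τ * Real.log 2)) := by
        rw [Real.rpow_def_of_pos (by norm_num), Real.rpow_def_of_pos hM0]
        congr 1
        ring
      have e4 : (M : ℝ) ^ (-(τ * Real.log 2)) ≤ (M : ℝ) ^ (-c) :=
        Real.rpow_le_rpow_of_exponent_le hM1 (by linarith)
      rw [e1]
      exact e2.trans (e3.le.trans e4)
    have e5 : 2 * (5 * (2 * (4 * b) + 2 / 4 ^ J)) + 2 / 2 ^ J ≤ (80 * (8 : ℝ) ^ c + 22) * (M : ℝ) ^ (-c) := by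
      have e6 : (2 : ℝ) / 4 ^ J = 2 * (1 / 4 ^ J) := by ring
      have e7 : (2 : ℝ) / 2 ^ J = 2 * (1 / 2 ^ J) := by ring
      rw [e6, e7, hb]
      nlinarith
    calc cnt (HBad ε M) X ≤ (2 * (5 * (2 * (4 * b) + 2 / 4 ^ J)) + 2 / 2 ^ J) * X := g3
      _ ≤ ((80 * (8 : ℝ) ^ c + 22) * (M : ℝ) ^ (-c)) * X := mul_le_mul_of_nonneg_right e5 hX0
      _ ≤ ((80 * (8 : ℝ) ^ c + 22 + 2 * (M₀ : ℝ) ^ c) * (M : ℝ) ^ (-c)) * X := by
          have : (0 : ℝ) ≤ 2 * (M₀ : ℝ) ^ c := by positivity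
          exact mul_le_mul_of_nonneg_right (mul_le_mul_of_nonneg_right (by linarith) hMc.le) hX0
      _ = _ := by ring
  · push Not at hML
    have h1 : 1 ≤ (M₀ : ℝ) ^ c * (M : ℝ) ^ (-c) := by
      have h2 : (M : ℝ) ≤ M₀ := by exact_mod_cast hML.le
      have h3 : (M : ℝ) ^ c ≤ (M₀ : ℝ) ^ c := Real.rpow_le_rpow hM0.le h2 hc0.le
      rw [Real.rpow_neg hM0.le, ← div_eq_mul_inv, one_le_div (by positivity)]
      exact h3
    calc cnt (HBad ε M) X ≤ 2 * X := htriv M X hM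
      _ = 2 * 1 * X := by ring
      _ ≤ 2 * ((M₀ : ℝ) ^ c * (M : ℝ) ^ (-c)) * X := by gcongr
      _ = (2 * (M₀ : ℝ) ^ c) * (M : ℝ) ^ (-c) * X := by ring
      _ ≤ (80 * (8 : ℝ) ^ c + 22 + 2 * (M₀ : ℝ) ^ c) * (M : ℝ) ^ (-c) * X := by
          have : (0 : ℝ) ≤ 80 * (8 : ℝ) ^ c + 22 := by positivity
          exact mul_le_mul_of_nonneg_right (mul_le_mul_of_nonneg_right (by linarith) hMc.le) hX0

end CollatzPow
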