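import Pool.Agent.CollatzPow.VisitsP
import Pool.Agent.CollatzLin.Start

set_option autoImplicit false

/-!
# The mass of a dyadic window is controlled by the lower windows, with polynomial constants
-/

namespace CollatzPow

open CollatzOne CollatzLin Finset

lemma start_err_pow {C : ℝ} (hC : 0 < C) {x : ℝ} (hx : 1 ≤ x) {L : ℕ} (hL : 10 ^ 9 * (C + 1) * x ≤ L)
    {n : ℕ} (hn1 : 1 ≤ n) (hnL : n ≤ L) :
    C * (Real.exp (-(((L / 1000 : ℕ) : ℝ) ^ 2 / (8 * n))) + (1 / 2) ^ (L / 16)) ≤ 1 / (4 * x) := by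
  have hx0 : 0 < x := by linarith
  have hCx : 0 < C * x := mul_pos hC hx0
  have hL9 : (10 : ℝ) ^ 9 ≤ L := by nlinarith
  have hL9' : 10 ^ 9 ≤ L := by exact_mod_cast hL9
  obtain ⟨q, hq⟩ : ∃ q, q = L / 1000 := ⟨_, rfl⟩
  have hq1 : 1 ≤ q := by omega
  have hqL : L ≤ 2000 * q := by omega
  have hq0 : (0 : ℝ) < q := by exact_mod_cast hq1
  have hqL' : (L : ℝ) ≤ 2000 * q := by exact_mod_cast hqL
  have hn0 : (0 : ℝ) < n := by exact_mod_cast hn1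
  have hnq : (n : ℝ) ≤ 2000 * q := by
    have : n ≤ 2000 * q := by omega
    exact_mod_cast this
  rw [← hq]
  have h1 : Real.exp (-((q : ℝ) ^ 2 / (8 * n))) ≤ 16000 / q := by
    have h2 : (q : ℝ) / 16000 ≤ (q : ℝ) ^ 2 / (8 * n) := by
      rw [div_le_div_iff₀ (by norm_num) (by positivity)]
      nlinarith
    have h3 : Real.exp (-((q : ℝ) ^ 2 / (8 * n))) ≤ Real.exp (-((q : ℝ) / 16000)) :=
      Real.exp_le_exp.2 (neg_le_neg h2)
    refine h3.trans ?_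
    rw [le_div_iff₀ hq0]
    have h4 := Real.add_one_le_exp ((q : ℝ) / 16000)
    have h5 : Real.exp (-((q : ℝ) / 16000)) * Real.exp ((q : ℝ) / 16000) = 1 := by
      rw [← Real.exp_add]; simp
    have h6 := Real.exp_pos (-((q : ℝ) / 16000))
    nlinarith
  have h2 : (1 / 2 : ℝ) ^ (L / 16) ≤ 1 / q := by
    have h3 : (1 / 2 : ℝ) ^ (L / 16) ≤ (1 / 2) ^ q :=
      pow_le_pow_of_le_one (by norm_num) (by norm_num) (by omega)
    refine h3.trans ?_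
    rw [div_pow, one_pow]
    refine div_le_div_of_nonneg_left zero_le_one hq0 ?_
    exact_mod_cast Nat.lt_two_pow_self.le
  have h3 : Real.exp (-((q : ℝ) ^ 2 / (8 * n))) + (1 / 2) ^ (L / 16) ≤ 16001 / q := by
    have : (16001 : ℝ) / q = 16000 / q + 1 / q := by rw [← add_div]; norm_num
    linarith
  refine (mul_le_mul_of_nonneg_left h3 hC.le).trans ?_
  rw [← mul_div_assoc, div_le_div_iff₀ hq0 (by positivity)]
  nlinarith

/-- `start` with polynomial dependence. -/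
theorem start_pow : ∃ C : ℝ, 1 ≤ C ∧ ∀ x : ℝ, 1 ≤ x → ∀ L : ℕ, C * x ≤ L → ∀ a : ℤ → ℝ, Adm a →
    (∀ A ℓ : ℕ, L ≤ 2 * A → A ≤ 64 * ℓ → 16 * ℓ ≤ A → LS A (A + ℓ) a ≤ ℓ / (C * x ^ 14)) →
    LS L (L + 1) a ≤ 1 / x := by
  obtain ⟨K₁, E₁, hK₁, hvis⟩ := visits_pow
  obtain ⟨C, L₀, E₀, hC, hsplit⟩ := split
  have hK₁0 : 0 < K₁ := by linarith
  refine ⟨32 * 64 ^ 12 * K₁ + 10 ^ 9 * (C + 1) + L₀, ?_, fun x hx L hL a ha hsmall => ?_⟩
  · have : (0 : ℝ) ≤ L₀ := Nat.cast_nonneg _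
    nlinarith
  have hx0 : 0 < x := by linarith
  have hL₀x : (0 : ℝ) ≤ L₀ := Nat.cast_nonneg _
  have hLa : 10 ^ 9 * (C + 1) * x ≤ L := by
    have h1 : 0 ≤ 32 * 64 ^ 12 * K₁ * x := by positivity
    have h2 : 0 ≤ L₀ * x := by positivity
    nlinarith
  have hLb : 512 * K₁ * x ≤ L := by
    have h1 : 0 ≤ 10 ^ 9 * (C + 1) * x := by positivity
    have h2 : 0 ≤ L₀ * x := by positivity
    have h3 : 512 * K₁ * x ≤ 32 * 64 ^ 12 * K₁ * x := by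
      have : 0 < K₁ * x := mul_pos hK₁0 hx0
      nlinarith
    nlinarith
  have hL0 : L₀ ≤ L := by
    have h1 : 0 ≤ 10 ^ 9 * (C + 1) * x := by positivity
    have h2 : 0 ≤ 32 * 64 ^ 12 * K₁ * x := by positivity
    have h3 : (L₀ : ℝ) ≤ L₀ * x := by nlinarith
    have h4 : (L₀ : ℝ) ≤ L := by nlinarith
    exact_mod_cast h4
  have hL2 : 10000 ≤ L := by
    have h1 : (10000 : ℝ) ≤ L := by nlinarith
    exact_mod_cast h1
  obtain ⟨n₁, hn₁⟩ : ∃ n₁, n₁ = L / 8 := ⟨_, rfl⟩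
  obtain ⟨N, hN⟩ : ∃ N, N = L / 16 := ⟨_, rfl⟩
  obtain ⟨Δ, hΔ⟩ : ∃ Δ, Δ = L / 1000 := ⟨_, rfl⟩
  obtain ⟨ℓ, hℓ⟩ : ∃ ℓ, ℓ = L / 32 := ⟨_, rfl⟩
  obtain ⟨A, hA⟩ : ∃ A, A = L - sh (n₁ + N) - Δ - 3 := ⟨_, rfl⟩
  obtain ⟨E, hE⟩ : ∃ E, E = max (max E₀ E₁) (4 * L + 100) := ⟨_, rfl⟩
  have hE0 : E₀ ≤ E := hE ▸ le_trans (le_max_left _ _) (le_max_left _ _)
  have hE1 : E₁ ≤ E := hE ▸ le_trans (le_max_right _ _) (le_max_left _ _)
  have hE2 : 4 * L + 100 ≤ E := hE ▸ le_max_right _ _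
  have hsh := twelve_sh (n₁ + N)
  obtain ⟨δ, hδ⟩ : ∃ δ : ℝ, δ = 1 / x := ⟨_, rfl⟩
  have hδ0 : 0 < δ := by rw [hδ]; positivity
  obtain ⟨K, hK⟩ : ∃ K : ℝ, K = K₁ * (64 * x) ^ 12 := ⟨_, rfl⟩
  have hK0 : 0 < K := by rw [hK]; positivity
  -- the window of the ancestors
  have hwin : LS A (A + ℓ) a ≤ δ ^ 2 / (32 * K) * ℓ := by
    refine (hsmall A ℓ (by omega) (by omega) (by omega)).trans ?_
    have h1 : δ ^ 2 / (32 * K) * ℓ = ℓ / (32 * 64 ^ 12 * K₁ * x ^ 14) := by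
      rw [hδ, hK]
      field_simp
    rw [h1]
    refine div_le_div_of_nonneg_left (Nat.cast_nonneg _) (by positivity) ?_
    refine mul_le_mul_of_nonneg_right ?_ (by positivity)
    nlinarith
  -- one depth
  have hone : ∀ n ∈ Ioc n₁ (n₁ + N), LS L (L + 1) a ≤
      (∑ i ∈ Ico A (A + ℓ), ∑ v ∈ win i (i + 1),
        a v * MM E (hw E n (2 ^ L / 2 ^ (i + 2))) (fun _ => 1) v / |(v : ℝ)|) + δ / 4 := by
    intro n hn
    have hn' := mem_Ioc.1 hn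
    have h1 := hsplit L 1 n 0 Δ E hL0 le_rfl (by omega) (by omega) (by omega) (by omega) hE0 (by omega) a ha
    have h2 := start_main (E := E) hL2 hn₁ hN hΔ hℓ hA hn ha
    have h3 := start_err_pow hC hx hLa (n := n) (by omega) (by omega)
    have h4 : LS L (L + 1) (fun v => F E 0 v * a v) = LS L (L + 1) a :=
      LS_congr fun v _ => by rw [F_zero, one_mul]
    have h5 : 1 / (4 * x) = δ / 4 := by rw [hδ]; field_simp
    rw [h4, Nat.cast_one, mul_one, hΔ] at h1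
    rw [hΔ] at h2
    linarith
  -- sum over the depths
  have hsum : (N : ℝ) * LS L (L + 1) a ≤
      (∑ i ∈ Ico A (A + ℓ), LS i (i + 1) (fun v => a v * Vis E n₁ N (2 ^ L / 2 ^ (i + 2)) v)) + N * (δ / 4) := by
    have h1 := sum_le_sum hone
    rw [sum_const, Nat.card_Ioc, add_tsub_cancel_left, nsmul_eq_mul, sum_add_distrib, sum_const,
      Nat.card_Ioc, add_tsub_cancel_left, nsmul_eq_mul] at h1
    refine h1.trans (le_of_eq ?_)
    congr 1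
    rw [sum_comm]
    refine sum_congr rfl fun i _ => ?_
    rw [sum_comm]
    unfold LS
    refine sum_congr rfl fun v _ => ?_
    unfold Vis
    simp only []
    rw [mul_sum, sum_div]
  have hxN : K₁ * (64 * x) ≤ ((n₁ + N : ℕ) : ℝ) := by
    have h1 : L ≤ 8 * (n₁ + N) := by omega
    have h2 : (L : ℝ) ≤ 8 * ((n₁ + N : ℕ) : ℝ) := by exact_mod_cast h1
    linarith
  -- one dyadic window
  have hdy : ∀ i ∈ Ico A (A + ℓ), LS i (i + 1) (fun v => a v * Vis E n₁ N (2 ^ L / 2 ^ (i + 2)) v) ≤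
      √(2 * K) * √(LS i (i + 1) a) + 2 * (δ / 64) := by
    intro i hi
    have hi' := mem_Ico.1 hi
    obtain ⟨V', V'', p1, p2, p3, p4, p5, p6, p7⟩ := hvis (64 * x) (by linarith) E n₁ N
      (2 ^ L / 2 ^ (i + 2)) hE1 (by omega) (by positivity) hxN
    have p7' : mean (3 ^ (n₁ + N)) V'' ≤ δ / 64 := by
      refine p7.trans (le_of_eq ?_)
      rw [hδ]
      field_simp
    refine start_window (m := n₁ + N) ?_ ha p1 p2 p3 p4 p5 (hK ▸ p6) p7'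
    have h1 : 3 ^ (n₁ + N) ≤ 2 ^ (i - 7) := three_pow_le (by omega)
    calc 72 * 3 ^ (n₁ + N) ≤ 2 ^ 7 * 2 ^ (i - 7) := Nat.mul_le_mul (by norm_num) h1
      _ = 2 ^ i := by rw [← pow_add]; congr 1; omega
  have hdys := sum_le_sum hdy
  rw [sum_add_distrib, ← mul_sum, sum_const, Nat.card_Ico, add_tsub_cancel_left, nsmul_eq_mul] at hdys
  have hcs := start_cs A ℓ (f := fun i => LS i (i + 1) a) (fun i => LS_nonneg fun v _ => ha.nonneg v)
  rw [LS_sum_dyadic] at hcs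
  have hℓ0 : (0 : ℝ) ≤ ℓ := Nat.cast_nonneg _
  have hroot : √(2 * K) * √(ℓ * LS A (A + ℓ) a) ≤ ℓ * (δ / 4) := by
    rw [← Real.sqrt_mul (by positivity)]
    refine (Real.sqrt_le_sqrt (show 2 * K * (ℓ * LS A (A + ℓ) a) ≤ (ℓ * (δ / 4)) ^ 2 from ?_)).trans
      (le_of_eq (Real.sqrt_sq (by positivity)))
    calc 2 * K * (ℓ * LS A (A + ℓ) a) ≤ 2 * K * (ℓ * (δ ^ 2 / (32 * K) * ℓ)) := by gcongr
      _ = (ℓ * (δ / 4)) ^ 2 := by field_simp; ring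
  have hfin : (N : ℝ) * LS L (L + 1) a ≤ ℓ * (δ / 4) + ℓ * (2 * (δ / 64)) + N * (δ / 4) := by
    have h1 : √(2 * K) * ∑ i ∈ Ico A (A + ℓ), √(LS i (i + 1) a) ≤ √(2 * K) * √(ℓ * LS A (A + ℓ) a) :=
      mul_le_mul_of_nonneg_left hcs (Real.sqrt_nonneg _)
    linarith
  have hNℓ : (ℓ : ℝ) ≤ N := by
    have : ℓ ≤ N := by omega
    exact_mod_cast this
  have hN0 : (0 : ℝ) < N := by
    have : 0 < N := by omega
    exact_mod_cast this
  have hfin2 : (N : ℝ) * LS L (L + 1) a ≤ N * δ := by nlinarith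
  rw [← hδ]
  exact le_of_mul_le_mul_left hfin2 hN0

end CollatzPow
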