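import Pool.Agent.CollatzPow.LogSmallP
import Pool.Agent.CollatzPow.StartP

set_option autoImplicit false

/-!
# All dyadic windows have a small mass, with a power saving
-/

namespace CollatzPow

open CollatzOne CollatzLin Finset Filter Topology

lemma exp_neg_ev {c C : ℝ} (hc : 0 < c) : ∃ L₀ : ℕ, ∀ L : ℕ, L₀ ≤ L → C * Real.exp (-(c * L)) ≤ 1 := by
  have h1 : Tendsto (fun L : ℕ => C * Real.exp (-(c * L))) atTop (𝓝 (C * 0)) := by
    refine Tendsto.const_mul _ ?_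
    refine Real.tendsto_exp_atBot.comp ?_
    refine tendsto_neg_atTop_atBot.comp ?_
    exact Tendsto.const_mul_atTop hc tendsto_natCast_atTop_atTop
  rw [mul_zero] at h1
  have h2 := h1.eventually (gt_mem_nhds (show (0 : ℝ) < 1 by norm_num))
  obtain ⟨L₀, hL₀⟩ := eventually_atTop.1 h2
  exact ⟨L₀, fun L hL => (hL₀ L hL).le⟩

/-- All the dyadic windows of an admissible function vanishing below `2 ^ L₂` are small. -/
theorem win_small_pow : ∃ L₀ : ℕ, ∀ L₂ : ℕ, L₀ ≤ L₂ → ∀ a : ℤ → ℝ, Adm a →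
    (∀ v : ℤ, |v| < 2 ^ L₂ → a v = 0) → ∀ L : ℕ, LS L (L + 1) a ≤ Real.exp (-(c₀ / 360 * L₂)) := by
  obtain ⟨C₁, L₁, hC₁, hlog⟩ := log_small_pow
  obtain ⟨C₂, hC₂, hst⟩ := start_pow
  obtain ⟨C₃, L₃, E₃, hC₃, hcr⟩ := crude
  have hc₀ : 0 < c₀ := by unfold c₀; norm_num
  have hc : 0 < c₀ / 360 := by positivity
  obtain ⟨L₄, h4⟩ := exp_neg_ev (c := c₀ / 360) (C := C₁ * C₂) hc
  obtain ⟨L₅, h5⟩ := exp_neg_ev (c := c₀ / 360) (C := C₂) hc
  obtain ⟨L₆, h6⟩ := exp_neg_ev (c := c₀ / 360) (C := 64 * C₃) hc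
  refine ⟨L₁ + L₃ + L₄ + L₅ + L₆ + 10, fun L₂ hL₂ a ha ha0 L => ?_⟩
  have hL₂0 : (0 : ℝ) ≤ L₂ := Nat.cast_nonneg _
  obtain ⟨t, ht⟩ : ∃ t : ℝ, t = c₀ / 360 * L₂ := ⟨_, rfl⟩
  have ht0 : 0 ≤ t := by rw [ht]; positivity
  by_cases hL : 2 * SS L₂ ≤ L
  · have hx : 1 ≤ Real.exp t := Real.one_le_exp ht0
    have h := hst (Real.exp t) hx L ?_ a ha ?_
    · refine h.trans (le_of_eq ?_)
      rw [← ht, Real.exp_neg, one_div]
    · have h7 : C₂ * Real.exp t ≤ Real.exp (c₀ * L₂ / 6) := by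
        have h8 := h5 L₂ (by omega)
        rw [← ht] at h8
        have h9 : Real.exp (c₀ * L₂ / 6) = Real.exp (60 * t) := by
          congr 1
          rw [ht]
          ring
        have h10 : Real.exp (60 * t) = Real.exp (59 * t) * Real.exp t := by
          rw [← Real.exp_add]; congr 1; ring
        have h11 : Real.exp (-t) * Real.exp t = 1 := by rw [← Real.exp_add]; simp
        have h12 : Real.exp t ≤ Real.exp (59 * t) := Real.exp_le_exp.2 (by linarith)
        have h13 : C₂ ≤ Real.exp t := by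
          calc C₂ = C₂ * Real.exp (-t) * Real.exp t := by rw [mul_assoc, h11, mul_one]
            _ ≤ 1 * Real.exp t := mul_le_mul_of_nonneg_right h8 (Real.exp_pos _).le
            _ = Real.exp t := one_mul _
        rw [h9, h10]
        exact mul_le_mul_of_nonneg_right (h13.trans h12) (Real.exp_pos _).le
      have h14 := le_SS L₂
      have h15 : (SS L₂ : ℝ) ≤ L := by
        have : SS L₂ ≤ L := by omega
        exact_mod_cast this
      linarith
    · intro A ℓ h7 h8 h9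
      refine (hlog L₂ (by omega) a ha ha0 A ℓ (by omega) h8 h9).trans ?_
      have h10 := h4 L₂ (by omega)
      rw [← ht] at h10
      have h11 : c₀ * L₂ / 24 = 15 * t := by rw [ht]; ring
      rw [h11]
      have h12 : Real.exp (-(15 * t)) = Real.exp (-t) * (1 / Real.exp t ^ 14) := by
        rw [← Real.exp_nat_mul, one_div, ← Real.exp_neg, ← Real.exp_add]
        congr 1
        push_cast
        ring
      rw [h12]
      have h13 : 0 < Real.exp t ^ 14 := by positivity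
      have hC₂0 : 0 < C₂ := by linarith
      calc C₁ * ℓ * (Real.exp (-t) * (1 / Real.exp t ^ 14))
          = (C₁ * C₂ * Real.exp (-t)) * (ℓ / (C₂ * Real.exp t ^ 14)) := by field_simp
        _ ≤ 1 * (ℓ / (C₂ * Real.exp t ^ 14)) := mul_le_mul_of_nonneg_right h10 (by positivity)
        _ = _ := one_mul _
  · push Not at hL
    have h7 := hcr L₂ L 0 (max E₃ (5 * L)) (by omega) (by
      have := SS_lt_two_pow (L₂ := L₂) (by omega)
      omega) (by omega) (le_max_left _ _) (le_max_right _ _) a ha ha0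
    have h8 : LS L (L + 1) (fun v => F (max E₃ (5 * L)) 0 v * a v) = LS L (L + 1) a :=
      LS_congr fun v _ => by rw [F_zero, one_mul]
    rw [h8] at h7
    refine h7.trans ?_
    have h9 : (L : ℝ) ^ 3 ≤ 8 * (SS L₂ : ℝ) ^ 3 := by
      have h10 : (L : ℝ) ≤ 2 * SS L₂ := by exact_mod_cast hL.le
      calc (L : ℝ) ^ 3 ≤ (2 * SS L₂) ^ 3 := pow_le_pow_left₀ (Nat.cast_nonneg _) h10 3
        _ = 8 * (SS L₂ : ℝ) ^ 3 := by ring
    have h10 := SS_cube L₂
    have h11 := h6 L₂ (by omega)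
    rw [← ht] at h11
    rw [← ht]
    have h12 : Real.exp (-(c₀ * L₂ / 2)) ≤ Real.exp (-t) * Real.exp (-t) := by
      rw [← Real.exp_add]
      refine Real.exp_le_exp.2 ?_
      have h13 : c₀ * L₂ / 2 = 180 * t := by rw [ht]; ring
      rw [h13]
      linarith
    have h14 : C₃ * (L : ℝ) ^ 3 * Real.exp (-(c₀ * L₂)) ≤ C₃ * (8 * (SS L₂ : ℝ) ^ 3) * Real.exp (-(c₀ * L₂)) :=
      mul_le_mul_of_nonneg_right (mul_le_mul_of_nonneg_left h9 hC₃.le) (Real.exp_pos _).le
    calc C₃ * (L : ℝ) ^ 3 * Real.exp (-(c₀ * L₂))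
        ≤ C₃ * (8 * (SS L₂ : ℝ) ^ 3) * Real.exp (-(c₀ * L₂)) := h14
      _ = 8 * C₃ * ((SS L₂ : ℝ) ^ 3 * Real.exp (-(c₀ * L₂))) := by ring
      _ ≤ 8 * C₃ * (8 * Real.exp (-(c₀ * L₂ / 2))) := mul_le_mul_of_nonneg_left h10 (by positivity)
      _ ≤ 8 * C₃ * (8 * (Real.exp (-t) * Real.exp (-t))) := by gcongr
      _ = (64 * C₃ * Real.exp (-t)) * Real.exp (-t) := by ring
      _ ≤ 1 * Real.exp (-t) := mul_le_mul_of_nonneg_right h11 (Real.exp_pos _).le
      _ = Real.exp (-t) := one_mul _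

end CollatzPow
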