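import Pool.Agent.CollatzPow.CrudeR
import Pool.Agent.CollatzPow.WinP

set_option autoImplicit false

/-!
# From the crude bound to the dyadic windows, for general classes of functions
-/

namespace CollatzPow

open CollatzOne CollatzLin CollatzTime Finset Filter Topology

/-- One step of the recursion for the functions of the class `P`. -/
def OneStepP (P : (ℤ → ℝ) → Prop) : Prop := ∃ (Y : ℝ) (L₀ E₀ : ℕ), 0 < Y ∧
    ∀ L ℓ m E : ℕ, L₀ ≤ L → L ≤ 64 * ℓ → 16 * ℓ ≤ L → 16 * m ≤ L → E₀ ≤ E → 3 * L ≤ E →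
    ∀ a : ℤ → ℝ, P a → ∀ X : ℝ,
    (∀ A k : ℕ, 3 * L ≤ 4 * A → A < L → A ≤ 64 * k → 16 * k ≤ A →
      LS A (A + k) (fun v => F E (A / 16) v * a v) ≤ k * (X - Y * gq A)) →
    LS L (L + ℓ) (fun v => F E m v * a v) ≤ ℓ * (X - Y * gq L)

/-- The crude bound for the functions of the classes `Q L₂`. -/
def CrudeQ (κ : ℝ) (Q : ℕ → (ℤ → ℝ) → Prop) : Prop := ∃ (C : ℝ) (L₀ E₀ : ℕ), 0 < C ∧
    ∀ L₂ A m E : ℕ, L₀ ≤ L₂ → 12 * A + 4 ≤ 2 ^ L₂ → 16 * m ≤ A → E₀ ≤ E → 5 * A ≤ E → ∀ a : ℤ → ℝ, Q L₂ a →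
    LS A (A + 1) (fun v => F E m v * a v) ≤ C * (A : ℝ) ^ 3 * Real.exp (-(κ * L₂))

/-- The mass of a dyadic window is controlled by the lower windows. -/
def StartProp (P : (ℤ → ℝ) → Prop) : Prop := ∃ C : ℝ, 1 ≤ C ∧ ∀ x : ℝ, 1 ≤ x → ∀ L : ℕ, C * x ≤ L →
    ∀ a : ℤ → ℝ, P a →
    (∀ A ℓ : ℕ, L ≤ 2 * A → A ≤ 64 * ℓ → 16 * ℓ ≤ A → LS A (A + ℓ) a ≤ ℓ / (C * x ^ 14)) →
    LS L (L + 1) a ≤ 1 / x

/-- The scale at which the recursion starts. -/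
noncomputable def SSg (κ : ℝ) (L₂ : ℕ) : ℕ := ⌈Real.exp (κ * L₂ / 6)⌉₊

lemma le_SSg (κ : ℝ) (L₂ : ℕ) : Real.exp (κ * L₂ / 6) ≤ SSg κ L₂ := Nat.le_ceil _

lemma SSg_le {κ : ℝ} (hκ : 0 < κ) (L₂ : ℕ) : (SSg κ L₂ : ℝ) ≤ 2 * Real.exp (κ * L₂ / 6) := by
  have h1 : (SSg κ L₂ : ℝ) ≤ Real.exp (κ * L₂ / 6) + 1 := (Nat.ceil_lt_add_one (Real.exp_pos _).le).le
  have h2 : 1 ≤ Real.exp (κ * L₂ / 6) := by
    apply Real.one_le_exp
    have := hκ
    positivity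
  linarith

lemma SSg_cube {κ : ℝ} (hκ : 0 < κ) (L₂ : ℕ) : (SSg κ L₂ : ℝ) ^ 3 * Real.exp (-(κ * L₂)) ≤ 8 * Real.exp (-(κ * L₂ / 2)) := by
  have h1 := SSg_le hκ L₂
  have h2 : (SSg κ L₂ : ℝ) ^ 3 ≤ (2 * Real.exp (κ * L₂ / 6)) ^ 3 := pow_le_pow_left₀ (Nat.cast_nonneg _) h1 3
  have h3 : (2 * Real.exp (κ * L₂ / 6)) ^ 3 * Real.exp (-(κ * L₂)) = 8 * Real.exp (-(κ * L₂ / 2)) := by
    rw [mul_pow, ← Real.exp_nat_mul, mul_assoc, ← Real.exp_add]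
    norm_num
    ring_nf
  rw [← h3]
  exact mul_le_mul_of_nonneg_right h2 (Real.exp_pos _).le

/-- The start of the recursion is large. -/
lemma exists_SSg_ge {κ : ℝ} (hκ : 0 < κ) (B : ℝ) : ∃ L₀ : ℕ, ∀ L₂ : ℕ, L₀ ≤ L₂ → B ≤ Real.exp (κ * L₂ / 6) := by
  obtain ⟨n, hn⟩ := exists_nat_gt (6 * B / κ)
  refine ⟨n, fun L₂ hL => ?_⟩
  have h0 := hκ
  have h1 : (n : ℝ) ≤ L₂ := by exact_mod_cast hL
  have h2 : 6 * B / κ ≤ L₂ := by linarith
  rw [div_le_iff₀ h0] at h2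
  have h3 := Real.add_one_le_exp (κ * L₂ / 6)
  linarith

lemma SSg_lt_two_pow {κ : ℝ} (hκ' : κ ≤ c₀) {L₂ : ℕ} (h : 10 ≤ L₂) : 36 * SSg κ L₂ + 4 ≤ 2 ^ L₂ := by
  have h1 : SSg κ L₂ ≤ SS L₂ := by
    unfold SSg SS
    refine Nat.ceil_le_ceil (Real.exp_le_exp.2 ?_)
    have : (0 : ℝ) ≤ L₂ := Nat.cast_nonneg _
    have := mul_le_mul_of_nonneg_right hκ' this
    linarith
  have h2 := SS_lt_two_pow h
  omega

theorem log_small_gen {κ : ℝ} (hκ : 0 < κ) (hκ' : κ ≤ c₀) {P : (ℤ → ℝ) → Prop} {Q : ℕ → (ℤ → ℝ) → Prop}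
    (hP : OneStepP P) (hQ : CrudeQ κ Q) (hPQ : ∀ L₂ a, Q L₂ a → P a) :
    ∃ (C : ℝ) (L₀ : ℕ), 0 < C ∧ ∀ L₂ : ℕ, L₀ ≤ L₂ → ∀ a : ℤ → ℝ, Q L₂ a →
    ∀ L ℓ : ℕ, SSg κ L₂ ≤ L → L ≤ 64 * ℓ → 16 * ℓ ≤ L →
    LS L (L + ℓ) a ≤ C * ℓ * Real.exp (-(κ * L₂ / 24)) := by
  obtain ⟨Y, L₁, E₁, hY, h⟩ := hP
  obtain ⟨C, L₃, E₃, hC, hcr⟩ := hQ
  obtain ⟨L₄, hL₄⟩ := exists_SSg_ge hκ (max L₁ 16)
  refine ⟨Y + 1000 * C, max (max L₃ L₄) 10, by positivity, ?_⟩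
  intro L₂ hL a haQ L ℓ hSL h1 h2
  have ha := hPQ L₂ a haQ
  have hL3 : L₃ ≤ L₂ := (le_max_left _ _).trans ((le_max_left _ _).trans hL)
  have hL4 : L₄ ≤ L₂ := (le_max_right _ _).trans ((le_max_left _ _).trans hL)
  have hL10 : 10 ≤ L₂ := (le_max_right _ _).trans hL
  have h0 := hκ
  set S := SSg κ L₂ with hS
  have hSr := le_SSg κ L₂
  rw [← hS] at hSr
  have hSb : ((max L₁ 16 : ℕ) : ℝ) ≤ S := by
    have := hL₄ L₂ hL4
    push_cast at this ⊢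
    linarith
  have hSb' : max L₁ 16 ≤ S := by exact_mod_cast hSb
  have hS1 : L₁ ≤ S := (le_max_left _ _).trans hSb'
  have hS16 : 16 ≤ S := (le_max_right _ _).trans hSb'
  have hpow := SSg_lt_two_pow hκ' hL10
  rw [← hS] at hpow
  set E := E₁ + E₃ + 20 * L with hE
  set η : ℝ := 216 * C * Real.exp (-(κ * L₂ / 2)) with hη
  have hη0 : 0 ≤ η := by positivity
  -- the base case
  have hbase : ∀ A : ℕ, S ≤ A → A < 2 * S → A ≤ L → ∀ k : ℕ, A ≤ 64 * k → 16 * k ≤ A → ∀ M : ℕ,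
      16 * M ≤ A → LS A (A + k) (fun v => F E M v * a v) ≤ k * η := by
    intro A hA1 hA2 hAL k hk1 hk2 M hM
    rw [← LS_sum_dyadic]
    have h3 : ∀ i ∈ Ico A (A + k), LS i (i + 1) (fun v => F E M v * a v) ≤ η := by
      intro i hi
      rw [mem_Ico] at hi
      have h4 := hcr L₂ i M E hL3 (by omega) (by omega) (by omega) (by omega) a haQ
      refine h4.trans ?_
      have h5 : (i : ℝ) ≤ 3 * S := by exact_mod_cast (by omega : i ≤ 3 * S)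
      have h6 : (i : ℝ) ^ 3 ≤ (3 * S) ^ 3 := pow_le_pow_left₀ (Nat.cast_nonneg _) h5 3
      have h7 := SSg_cube hκ L₂
      rw [← hS] at h7
      calc C * (i : ℝ) ^ 3 * Real.exp (-(κ * L₂)) ≤ C * (3 * S) ^ 3 * Real.exp (-(κ * L₂)) := by
            gcongr
        _ = 27 * C * ((S : ℝ) ^ 3 * Real.exp (-(κ * L₂))) := by ring
        _ ≤ 27 * C * (8 * Real.exp (-(κ * L₂ / 2))) := mul_le_mul_of_nonneg_left h7 (by positivity)
        _ = η := by rw [hη]; ring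
    refine (sum_le_sum h3).trans (le_of_eq ?_)
    rw [sum_const, Nat.card_Ico, add_tsub_cancel_left, nsmul_eq_mul]
  -- the recursion
  have hrec : ∀ A : ℕ, S ≤ A → A ≤ L → ∀ k : ℕ, A ≤ 64 * k → 16 * k ≤ A → ∀ M : ℕ, 16 * M ≤ A →
      LS A (A + k) (fun v => F E M v * a v) ≤ k * (η + Y * gq S - Y * gq A) := by
    intro A
    induction A using Nat.strong_induction_on with
    | _ A ih =>
      intro hA hAL k hk1 hk2 M hM
      rcases Nat.lt_or_ge A (2 * S) with hc | hc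
      · refine (hbase A hA hc hAL k hk1 hk2 M hM).trans ?_
        have h3 := gq_anti (A := S) (L := A) (by omega) hA
        have h4 : Y * gq A ≤ Y * gq S := mul_le_mul_of_nonneg_left h3 hY.le
        exact mul_le_mul_of_nonneg_left (by linarith) (Nat.cast_nonneg _)
      · refine h A k M E (by omega) hk1 hk2 hM (by omega) (by omega) a ha _ ?_
        intro B j hB1 hB2 hB3 hB4
        exact ih B hB2 (by omega) (by omega) j hB3 hB4 (B / 16) (by omega)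
  have h3 := hrec L hSL le_rfl ℓ h1 h2 0 (by omega)
  have h4 : LS L (L + ℓ) (fun v => F E 0 v * a v) = LS L (L + ℓ) a := by
    refine LS_congr fun v _ => ?_
    rw [F_zero, one_mul]
  rw [h4] at h3
  refine h3.trans ?_
  have h5 := gq_pos (L := L) (by omega)
  have h6 : (0 : ℝ) ≤ ℓ := Nat.cast_nonneg _
  have h7 : gq S ≤ Real.exp (-(κ * L₂ / 24)) := by
    unfold gq
    have e1 : (S : ℝ) ^ (-(1 / 4) : ℝ) ≤ (Real.exp (κ * L₂ / 6)) ^ (-(1 / 4) : ℝ) :=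
      Real.rpow_le_rpow_of_nonpos (Real.exp_pos _) hSr (by norm_num)
    refine e1.trans (le_of_eq ?_)
    rw [← Real.exp_mul]
    congr 1
    ring
  have h8 : Real.exp (-(κ * L₂ / 2)) ≤ Real.exp (-(κ * L₂ / 24)) := by
    refine Real.exp_le_exp.2 (neg_le_neg ?_)
    have : 0 ≤ κ * L₂ := by positivity
    linarith
  have h9 : η + Y * gq S - Y * gq L ≤ (Y + 1000 * C) * Real.exp (-(κ * L₂ / 24)) := by
    have e1 := mul_le_mul_of_nonneg_left h7 hY.le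
    have e2 := mul_le_mul_of_nonneg_left h8 (show 0 ≤ 216 * C by positivity)
    have e3 : 0 ≤ Y * gq L := by positivity
    have e4 : 0 ≤ C * Real.exp (-(κ * L₂ / 24)) := by positivity
    rw [hη]
    nlinarith
  calc (ℓ : ℝ) * (η + Y * gq S - Y * gq L) ≤ ℓ * ((Y + 1000 * C) * Real.exp (-(κ * L₂ / 24))) :=
        mul_le_mul_of_nonneg_left h9 h6
    _ = _ := by ring

/-- All the dyadic windows of an admissible function vanishing below `2 ^ L₂` are small. -/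
theorem win_small_gen {κ : ℝ} (hκ : 0 < κ) (hκ' : κ ≤ c₀) {P : (ℤ → ℝ) → Prop} {Q : ℕ → (ℤ → ℝ) → Prop}
    (hP : OneStepP P) (hS : StartProp P) (hQ : CrudeQ κ Q) (hPQ : ∀ L₂ a, Q L₂ a → P a) :
    ∃ L₀ : ℕ, ∀ L₂ : ℕ, L₀ ≤ L₂ → ∀ a : ℤ → ℝ, Q L₂ a →
    ∀ L : ℕ, LS L (L + 1) a ≤ Real.exp (-(κ / 360 * L₂)) := by
  obtain ⟨C₁, L₁, hC₁, hlog⟩ := log_small_gen hκ hκ' hP hQ hPQ
  obtain ⟨C₂, hC₂, hst⟩ := hS
  obtain ⟨C₃, L₃, E₃, hC₃, hcr⟩ := hQ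
  have hc : 0 < κ / 360 := by positivity
  obtain ⟨L₄, h4⟩ := exp_neg_ev (c := κ / 360) (C := C₁ * C₂) hc
  obtain ⟨L₅, h5⟩ := exp_neg_ev (c := κ / 360) (C := C₂) hc
  obtain ⟨L₆, h6⟩ := exp_neg_ev (c := κ / 360) (C := 64 * C₃) hc
  refine ⟨L₁ + L₃ + L₄ + L₅ + L₆ + 10, fun L₂ hL₂ a haQ L => ?_⟩
  have ha := hPQ L₂ a haQ
  have hL₂0 : (0 : ℝ) ≤ L₂ := Nat.cast_nonneg _
  obtain ⟨t, ht⟩ : ∃ t : ℝ, t = κ / 360 * L₂ := ⟨_, rfl⟩
  have ht0 : 0 ≤ t := by rw [ht]; positivity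
  by_cases hL : 2 * SSg κ L₂ ≤ L
  · have hx : 1 ≤ Real.exp t := Real.one_le_exp ht0
    have h := hst (Real.exp t) hx L ?_ a ha ?_
    · refine h.trans (le_of_eq ?_)
      rw [← ht, Real.exp_neg, one_div]
    · have h7 : C₂ * Real.exp t ≤ Real.exp (κ * L₂ / 6) := by
        have h8 := h5 L₂ (by omega)
        rw [← ht] at h8
        have h9 : Real.exp (κ * L₂ / 6) = Real.exp (60 * t) := by
          congr 1
          rw [ht]
          ring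
        have h10 : Real.exp (60 * t) = Real.exp (59 * t) * Real.exp t := by
          rw [← Real.exp_add]; congr 1; ring
        have h11 : Real.exp (-t) * Real.exp t = 1 := by rw [← Real.exp_add]; simp
        have h12 : Real.exp t ≤ Real.exp (59 * t) := Real.exp_le_exp.2 (by linarith)
        have h13 : C₂ ≤ Real.exp t := by
          calc C₂ = C₂ * Real.exp (-t) * Real.exp t := by rw [mul_assoc, h11, mul_one]
            _ ≤ 1 * Real.exp t := mul_le_mul_of_nonneg_right h8 (Real.exp_pos _).le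
            _ = Real.exp t := one_mul _
        rw [h9, h10]
        exact mul_le_mul_of_nonneg_right (h13.trans h12) (Real.exp_pos _).le
      have h14 := le_SSg κ L₂
      have h15 : (SSg κ L₂ : ℝ) ≤ L := by
        have : SSg κ L₂ ≤ L := by omega
        exact_mod_cast this
      linarith
    · intro A ℓ h7 h8 h9
      refine (hlog L₂ (by omega) a haQ A ℓ (by omega) h8 h9).trans ?_
      have h10 := h4 L₂ (by omega)
      rw [← ht] at h10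
      have h11 : κ * L₂ / 24 = 15 * t := by rw [ht]; ring
      rw [h11]
      have h12 : Real.exp (-(15 * t)) = Real.exp (-t) * (1 / Real.exp t ^ 14) := by
        rw [← Real.exp_nat_mul, one_div, ← Real.exp_neg, ← Real.exp_add]
        congr 1
        push_cast
        ring
      rw [h12]
      have h13 : 0 < Real.exp t ^ 14 := by positivity
      have hC₂0 : 0 < C₂ := by linarith
      calc C₁ * ℓ * (Real.exp (-t) * (1 / Real.exp t ^ 14))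
          = (C₁ * C₂ * Real.exp (-t)) * (ℓ / (C₂ * Real.exp t ^ 14)) := by field_simp
        _ ≤ 1 * (ℓ / (C₂ * Real.exp t ^ 14)) := mul_le_mul_of_nonneg_right h10 (by positivity)
        _ = _ := one_mul _
  · push Not at hL
    have h7 := hcr L₂ L 0 (max E₃ (5 * L)) (by omega) (by
      have := SSg_lt_two_pow hκ' (L₂ := L₂) (by omega)
      omega) (by omega) (le_max_left _ _) (le_max_right _ _) a haQ
    have h8 : LS L (L + 1) (fun v => F (max E₃ (5 * L)) 0 v * a v) = LS L (L + 1) a :=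
      LS_congr fun v _ => by rw [F_zero, one_mul]
    rw [h8] at h7
    refine h7.trans ?_
    have h9 : (L : ℝ) ^ 3 ≤ 8 * (SSg κ L₂ : ℝ) ^ 3 := by
      have h10 : (L : ℝ) ≤ 2 * SSg κ L₂ := by exact_mod_cast hL.le
      calc (L : ℝ) ^ 3 ≤ (2 * SSg κ L₂) ^ 3 := pow_le_pow_left₀ (Nat.cast_nonneg _) h10 3
        _ = 8 * (SSg κ L₂ : ℝ) ^ 3 := by ring
    have h10 := SSg_cube hκ L₂
    have h11 := h6 L₂ (by omega)
    rw [← ht] at h11
    rw [← ht]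
    have h12 : Real.exp (-(κ * L₂ / 2)) ≤ Real.exp (-t) * Real.exp (-t) := by
      rw [← Real.exp_add]
      refine Real.exp_le_exp.2 ?_
      have h13 : κ * L₂ / 2 = 180 * t := by rw [ht]; ring
      rw [h13]
      linarith
    have h14 : C₃ * (L : ℝ) ^ 3 * Real.exp (-(κ * L₂)) ≤ C₃ * (8 * (SSg κ L₂ : ℝ) ^ 3) * Real.exp (-(κ * L₂)) :=
      mul_le_mul_of_nonneg_right (mul_le_mul_of_nonneg_left h9 hC₃.le) (Real.exp_pos _).le
    calc C₃ * (L : ℝ) ^ 3 * Real.exp (-(κ * L₂))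
        ≤ C₃ * (8 * (SSg κ L₂ : ℝ) ^ 3) * Real.exp (-(κ * L₂)) := h14
      _ = 8 * C₃ * ((SSg κ L₂ : ℝ) ^ 3 * Real.exp (-(κ * L₂))) := by ring
      _ ≤ 8 * C₃ * (8 * Real.exp (-(κ * L₂ / 2))) := mul_le_mul_of_nonneg_left h10 (by positivity)
      _ ≤ 8 * C₃ * (8 * (Real.exp (-t) * Real.exp (-t))) := by gcongr
      _ = (64 * C₃ * Real.exp (-t)) * Real.exp (-t) := by ring
      _ ≤ 1 * Real.exp (-t) := mul_le_mul_of_nonneg_right h11 (Real.exp_pos _).le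
      _ = Real.exp (-t) := one_mul _

end CollatzPow
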