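import Pool.Agent.CollatzPow.StartH
import Pool.Agent.CollatzTime.Adm

set_option autoImplicit false

/-!
# Trajectories that leave the straight line from some of their points
-/

namespace CollatzPow

open CollatzOne CollatzLin CollatzTime Finset

/-- The tolerance, an increasing function with values in `[1 / 2, 1)`. -/
noncomputable def gT (x : ℝ) : ℝ := 1 - (1 + x) ^ (-(1 / 8) : ℝ) / 2

lemma gT_le_one {x : ℝ} (hx : 0 ≤ x) : gT x ≤ 1 := by
  have : 0 ≤ (1 + x) ^ (-(1 / 8) : ℝ) := by positivity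
  unfold gT
  linarith

lemma half_le_gT {x : ℝ} (hx : 0 ≤ x) : 1 / 2 ≤ gT x := by
  have : (1 + x) ^ (-(1 / 8) : ℝ) ≤ 1 := Real.rpow_le_one_of_one_le_of_nonpos (by linarith) (by norm_num)
  unfold gT
  linarith

lemma gT_mono {x y : ℝ} (hx : 0 ≤ x) (h : x ≤ y) : gT x ≤ gT y := by
  have : (1 + y) ^ (-(1 / 8) : ℝ) ≤ (1 + x) ^ (-(1 / 8) : ℝ) :=
    Real.rpow_le_rpow_of_nonpos (by linarith) (by linarith) (by norm_num)
  unfold gT
  linarith

lemma gT_gain {n x y : ℝ} (hn : 1 ≤ n) (hx : 0 ≤ x) (h : x + n / 5 ≤ y) (hy : y ≤ 100 * n) :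
    gT x + n ^ (-(1 / 8) : ℝ) / 40000 ≤ gT y := by
  have h1 : (1 + x) * (1 + 1 / 10 ^ 4) ^ (8 : ℕ) ≤ 1 + y := by
    have e1 : ((1 : ℝ) + 1 / 10 ^ 4) ^ (8 : ℕ) ≤ 1 + 1 / 1000 := by norm_num
    have e2 : (1 + x) * (1 + 1 / 10 ^ 4) ^ (8 : ℕ) ≤ (1 + x) * (1 + 1 / 1000) :=
      mul_le_mul_of_nonneg_left e1 (by linarith)
    linarith
  have h2 : (1 + y) ^ (-(1 / 8) : ℝ) ≤ ((1 + x) * (1 + 1 / 10 ^ 4) ^ (8 : ℕ)) ^ (-(1 / 8) : ℝ) :=
    Real.rpow_le_rpow_of_nonpos (by positivity) h1 (by norm_num)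
  have h3 : (((1 : ℝ) + 1 / 10 ^ 4) ^ (8 : ℕ)) ^ (-(1 / 8) : ℝ) = (1 + 1 / 10 ^ 4)⁻¹ := by
    rw [← Real.rpow_natCast, ← Real.rpow_mul (by norm_num), ← Real.rpow_neg_one]
    norm_num
  rw [Real.mul_rpow (by linarith) (by positivity), h3] at h2
  have h4 : (1 + y) ^ (-(1 / 8) : ℝ) * (1 + 1 / 10 ^ 4) ≤ (1 + x) ^ (-(1 / 8) : ℝ) := by
    have e1 := mul_le_mul_of_nonneg_right h2 (show (0 : ℝ) ≤ 1 + 1 / 10 ^ 4 by norm_num)
    rw [mul_assoc, inv_mul_cancel₀ (by norm_num), mul_one] at e1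
    exact e1
  have h5 : n ^ (-(1 / 8) : ℝ) / 2 ≤ (1 + y) ^ (-(1 / 8) : ℝ) := by
    have e1 : 1 + y ≤ 2 ^ (8 : ℕ) * n := by norm_num; linarith
    have e2 : (2 ^ (8 : ℕ) * n) ^ (-(1 / 8) : ℝ) ≤ (1 + y) ^ (-(1 / 8) : ℝ) :=
      Real.rpow_le_rpow_of_nonpos (by linarith) e1 (by norm_num)
    have e3 : ((2 : ℝ) ^ (8 : ℕ)) ^ (-(1 / 8) : ℝ) = 1 / 2 := by
      rw [← Real.rpow_natCast, ← Real.rpow_mul (by norm_num)]
      norm_num
    rw [Real.mul_rpow (by positivity) (by linarith), e3] at e2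
    linarith
  unfold gT
  linarith

/-- The trajectory of `n` leaves, from some of its points, the neighbourhood of the straight line
before it enters `[-M, M]`. -/
def HB (ε : ℝ) (M : ℕ) (n : ℤ) : Prop :=
  ∃ i k : ℕ, (∀ l ≤ i + k, (M : ℤ) < |CollatzExp.C^[l] n|) ∧
    ε * gT (Real.log (|(n : ℝ)|)) * Real.log (|((CollatzExp.C^[i] n : ℤ) : ℝ)|) < |Dev k (CollatzExp.C^[i] n)|

open Classical in
/-- indicator function of the `v` such that `3 v - 1` is bad -/
noncomputable def hb (ε : ℝ) (M : ℕ) (v : ℤ) : ℝ := if HB ε M (3 * v - 1) then 1 else 0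

lemma hb_nonneg (ε : ℝ) (M : ℕ) (v : ℤ) : 0 ≤ hb ε M v := by unfold hb; split_ifs <;> norm_num

lemma hb_le_one (ε : ℝ) (M : ℕ) (v : ℤ) : hb ε M v ≤ 1 := by unfold hb; split_ifs <;> norm_num

lemma one_le_abs_real {a : ℤ} (h : a ≠ 0) : (1 : ℝ) ≤ |(a : ℝ)| := by
  have h1 : 1 ≤ |a| := Int.one_le_abs h
  have : ((1 : ℤ) : ℝ) ≤ ((|a| : ℤ) : ℝ) := by exact_mod_cast h1
  simpa using this

/-- Deviations between points of the path of a regular word. -/
lemma ctx_dev_mid {n Δ : ℕ} {W : List ℕ} {v : ℤ} {D : ℝ} (hc : Ctx n Δ W v D) {i k : ℕ}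
    (h : i + k ≤ js W + W.length) : |Dev k (CollatzExp.C^[i] (3 * ch W v - 1))| ≤ 12 * Δ + 24 := by
  have h1 := hc.dev_le h
  have h2 := hc.dev_le (show i ≤ js W + W.length by omega)
  rw [Dev_add] at h1
  rw [abs_le] at h1 h2 ⊢
  constructor <;> linarith

/-- The points of the path are not much smaller than its end. -/
lemma ctx_log_mid {n Δ : ℕ} {W : List ℕ} {v : ℤ} {D : ℝ} (hc : Ctx n Δ W v D) {i : ℕ}
    (h : i ≤ js W + W.length) : Real.log (|((3 * v - 1 : ℤ) : ℝ)|) - (12 * Δ + 24) ≤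
      Real.log (|((CollatzExp.C^[i] (3 * ch W v - 1) : ℤ) : ℝ)|) := by
  obtain ⟨s, hs⟩ : ∃ s, js W + W.length = i + s := ⟨js W + W.length - i, by omega⟩
  have h1 := ctx_dev_mid hc (i := i) (k := s) (by omega)
  have h2 : CollatzExp.C^[s] (CollatzExp.C^[i] (3 * ch W v - 1)) = 3 * v - 1 := by
    rw [← Function.iterate_add_apply, show s + i = js W + W.length by omega]
    exact iter_word hc.pos hc.valid
  have h3 : 0 ≤ (s : ℝ) / CollatzTime.kap := by
    have := kap_pos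
    positivity
  unfold Dev at h1
  rw [h2] at h1
  linarith [(abs_le.1 h1).2]

theorem hb_adm {ε : ℝ} (hε : 0 < ε) : ∃ n₀ : ℕ, ∀ M : ℕ, AdmH n₀ (hb ε M) := by
  obtain ⟨Z, hZ⟩ : ∃ Z : ℝ, Z = 624 * 120000 * (1 + ε) / ε + 32 := ⟨_, rfl⟩
  have hZ32 : 32 ≤ Z := by
    rw [hZ]
    have : 0 ≤ 624 * 120000 * (1 + ε) / ε := by positivity
    linarith
  have hZε : 624 * 120000 * (1 + ε) ≤ ε * Z := by
    have h2 : ε * (624 * 120000 * (1 + ε) / ε + 32) = 624 * 120000 * (1 + ε) + ε * 32 := by field_simp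
    rw [hZ, h2]
    linarith
  refine ⟨max ⌈Z ^ 8⌉₊ 400, fun M => ⟨hb_nonneg ε M, hb_le_one ε M, ?_⟩⟩
  intro n Δ L W v hn hΔ hΔn hL hpos hlen hreg hdst _ hvd hbig hup
  have hn1 : ⌈Z ^ 8⌉₊ ≤ n := (le_max_left _ _).trans hn
  have hn2 : 400 ≤ n := (le_max_right _ _).trans hn
  have hn2' : (400 : ℝ) ≤ n := by exact_mod_cast hn2
  have hn1' : Z ^ 8 ≤ (n : ℝ) := (Nat.le_ceil _).trans (by exact_mod_cast hn1)
  have hn0 : (0 : ℝ) < n := by linarith
  -- the eighth root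
  obtain ⟨z, hz⟩ : ∃ z : ℝ, z = (n : ℝ) ^ (1 / 8 : ℝ) := ⟨_, rfl⟩
  have hz8 : z ^ 8 = n := by
    rw [hz, ← Real.rpow_natCast, ← Real.rpow_mul hn0.le]
    norm_num
  have hz6 : (n : ℝ) ^ (3 / 4 : ℝ) = z ^ 6 := by
    rw [hz, ← Real.rpow_natCast, ← Real.rpow_mul hn0.le]
    norm_num
  have hz0 : 0 < z := by rw [hz]; positivity
  have hzi : (n : ℝ) ^ (-(1 / 8) : ℝ) = 1 / z := by
    rw [hz, Real.rpow_neg hn0.le]
    exact (one_div _).symm
  have hzZ : Z ≤ z := by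
    by_contra hcon
    push Not at hcon
    have : z ^ 8 < Z ^ 8 := pow_lt_pow_left₀ hcon hz0.le (by norm_num)
    linarith
  have hz32 : 32 ≤ z := hZ32.trans hzZ
  have hzε : 624 * 120000 * (1 + ε) ≤ ε * z := hZε.trans (mul_le_mul_of_nonneg_left hzZ hε.le)
  rw [hz6] at hΔ
  obtain ⟨B, hB⟩ : ∃ B : ℝ, B = 12 * Δ + 24 := ⟨_, rfl⟩
  have hz1 : 1 ≤ z ^ 6 := one_le_pow₀ (by linarith)
  have hBz : B ≤ 624 * z ^ 6 := by rw [hB]; linarith
  have hB0 : 0 ≤ B := by rw [hB]; positivity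
  have hgainB : (1 + ε) * B ≤ ε * (1 / z / 40000) * (n / 3) := by
    have e1 : ε * (1 / z / 40000) * (n / 3) = ε * z * z ^ 6 / 120000 := by
      rw [← hz8]
      field_simp
      norm_num
    rw [e1, le_div_iff₀ (by norm_num)]
    have e2 : (1 + ε) * B ≤ (1 + ε) * (624 * z ^ 6) := mul_le_mul_of_nonneg_left hBz (by linarith)
    have e3 : 624 * 120000 * (1 + ε) * z ^ 6 ≤ ε * z * z ^ 6 :=
      mul_le_mul_of_nonneg_right hzε (by positivity)
    linarith
  have hzn : 1000 * z ^ 6 ≤ n := by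
    rw [← hz8]
    have : 1000 ≤ z ^ 2 := by nlinarith
    calc 1000 * z ^ 6 ≤ z ^ 2 * z ^ 6 := mul_le_mul_of_nonneg_right this (by positivity)
      _ = z ^ 8 := by ring
  have hBn : B ≤ n / 1000 ∧ B ≤ ε * n / 1000 := by
    have e1 : ε * (1 / z / 40000) * (n / 3) ≤ ε * n / 10 ^ 6 := by
      have e2 : 1 / z ≤ 1 := by rw [div_le_one hz0]; linarith
      have e3 : ε * n * (1 / z) ≤ ε * n * 1 := mul_le_mul_of_nonneg_left e2 (by positivity)
      have e4 : ε * (1 / z / 40000) * (n / 3) = ε * n * (1 / z) / 120000 := by ring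
      rw [e4]
      have e5 : 1 / z ≤ 1 / 32 := one_div_le_one_div_of_le (by norm_num) hz32
      have e6 : ε * n * (1 / z) ≤ ε * n * (1 / 32) := mul_le_mul_of_nonneg_left e5 (by positivity)
      have e7 : 0 ≤ ε * n := by positivity
      linarith
    have e8 := hgainB.trans e1
    have e9 : 0 ≤ ε * n := by positivity
    have e10 : 0 ≤ ε * B := by positivity
    constructor
    · have e11 : ε * B ≤ ε * (n / 1000) := by
        have : (1 + ε) * B = B + ε * B := by ring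
        linarith
      exact le_of_mul_le_mul_left e11 hε
    · linarith
  have hc := ctx_of (by omega) hΔn hL hpos hlen hreg hdst hvd hbig
  have hgr := hc.growth hn2 (by linarith)
  obtain ⟨xp, hxp⟩ : ∃ xp : ℝ, xp = Real.log (|((3 * v - 1 : ℤ) : ℝ)|) := ⟨_, rfl⟩
  obtain ⟨xc, hxc⟩ : ∃ xc : ℝ, xc = Real.log (|((3 * ch W v - 1 : ℤ) : ℝ)|) := ⟨_, rfl⟩
  rw [← hxp, ← hxc] at hgr
  -- sizes
  have hxp1 : (n : ℝ) / 3 ≤ xp := by
    have e1 : (2 : ℝ) ^ (n / 2 + 2) ≤ |((3 * v - 1 : ℤ) : ℝ)| := by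
      have f1 := hc.big
      have f2 : (1 : ℝ) ≤ 2 ^ (L / 8) := one_le_pow₀ (by norm_num)
      have f3 : 3 * |(v : ℝ)| - 1 ≤ |((3 * v - 1 : ℤ) : ℝ)| := by
        push_cast
        have := abs_sub_abs_le_abs_sub (3 * (v : ℝ)) 1
        rw [abs_mul, abs_of_pos (show (0 : ℝ) < 3 by norm_num), abs_one] at this
        exact this
      have f4 : (2 : ℝ) ^ (n / 2 + 2) ≤ 4 * 2 ^ (L / 8) := by
        rw [pow_add]
        have : (2 : ℝ) ^ (n / 2) ≤ 2 ^ (L / 8) := pow_le_pow_right₀ (by norm_num) (by omega)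
        linarith
      linarith
    have e2 := Real.log_le_log (by positivity) e1
    rw [Real.log_pow, ← hxp] at e2
    have e3 : (n : ℝ) ≤ 2 * ((n / 2 + 2 : ℕ) : ℝ) := by
      have : n ≤ 2 * (n / 2 + 2) := by omega
      exact_mod_cast this
    have e4 := Real.log_two_gt_d9
    have e5 : ((n / 2 + 2 : ℕ) : ℝ) * (2 / 3) ≤ ((n / 2 + 2 : ℕ) : ℝ) * Real.log 2 :=
      mul_le_mul_of_nonneg_left (by linarith) (Nat.cast_nonneg _)
    linarith
  have hxc1 : xc ≤ 100 * n := by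
    have e1 : |((3 * ch W v - 1 : ℤ) : ℝ)| ≤ 2 ^ (100 * n + 2) := by
      have f1 : |(ch W v : ℝ)| ≤ 2 ^ (100 * n) := by exact_mod_cast hup.le
      have f2 : |((3 * ch W v - 1 : ℤ) : ℝ)| ≤ 3 * |(ch W v : ℝ)| + 1 := by
        push_cast
        have := abs_sub (3 * (ch W v : ℝ)) 1
        rw [abs_mul, abs_of_pos (show (0 : ℝ) < 3 by norm_num), abs_one] at this
        exact this
      have f3 : (1 : ℝ) ≤ 2 ^ (100 * n) := one_le_pow₀ (by norm_num)
      rw [pow_add]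
      linarith
    have hne : (3 * ch W v - 1 : ℤ) ≠ 0 := by omega
    have e2 := Real.log_le_log (by linarith [one_le_abs_real hne]) e1
    rw [Real.log_pow, ← hxc] at e2
    push_cast at e2
    have e4 := Real.log_two_lt_d9
    have e5 : (100 * (n : ℝ) + 2) * Real.log 2 ≤ (100 * (n : ℝ) + 2) * (7 / 10) :=
      mul_le_mul_of_nonneg_left (by linarith) (by positivity)
    linarith
  have hxp0 : 0 ≤ xp := by linarith
  have hgain := gT_gain (n := n) (by linarith) hxp0 hgr hxc1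
  rw [hzi] at hgain
  have hgc1 := gT_le_one (x := xc) (by linarith)
  have hgc2 := half_le_gT (x := xc) (by linarith)
  have key : HB ε M (3 * ch W v - 1) → HB ε M (3 * v - 1) := by
    rintro ⟨i, k, hk1, hk2⟩
    rw [← hxc] at hk2
    have hit := iter_word hpos hvd
    obtain ⟨t, ht⟩ : ∃ t, t = js W + W.length := ⟨_, rfl⟩
    rw [← ht] at hit
    have hpne : (3 * v - 1 : ℤ) ≠ 0 := by omega
    by_cases hti : t ≤ i
    · obtain ⟨i', rfl⟩ : ∃ i', i = i' + t := ⟨i - t, by omega⟩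
      rw [Function.iterate_add_apply, hit] at hk2
      refine ⟨i', k, fun l hl => ?_, ?_⟩
      · have h1 := hk1 (l + t) (by omega)
        rwa [Function.iterate_add_apply, hit] at h1
      · refine lt_of_le_of_lt ?_ hk2
        rw [← hxp]
        have h1 := gT_mono hxp0 (show xp ≤ xc by linarith)
        have h2 : 0 ≤ Real.log (|((CollatzExp.C^[i'] (3 * v - 1) : ℤ) : ℝ)|) :=
          Real.log_nonneg (one_le_abs_real (C_iter_ne_zero hpne i'))
        exact mul_le_mul_of_nonneg_right (mul_le_mul_of_nonneg_left h1 hε.le) h2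
    · push Not at hti
      obtain ⟨s, hs⟩ : ∃ s, t = i + s := ⟨t - i, by omega⟩
      have h1 := ctx_log_mid hc (i := i) (by omega)
      have h2 := ctx_dev_mid hc (i := i) (k := s) (by omega)
      rw [← hxp, ← hB] at h1
      rw [← hB] at h2
      obtain ⟨y, hy⟩ : ∃ y : ℝ, y = Real.log (|((CollatzExp.C^[i] (3 * ch W v - 1) : ℤ) : ℝ)|) := ⟨_, rfl⟩
      rw [← hy] at h1 hk2
      have hy0 : 0 ≤ y := by linarith [hBn.1]
      by_cases hks : k ≤ s
      · exfalso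
        have h3 := ctx_dev_mid hc (i := i) (k := k) (by omega)
        rw [← hB] at h3
        have h4 : ε * (1 / 2) * y ≤ ε * gT xc * y :=
          mul_le_mul_of_nonneg_right (mul_le_mul_of_nonneg_left hgc2 hε.le) hy0
        have h5 : ε * (1 / 2) * (n / 4) ≤ ε * (1 / 2) * y :=
          mul_le_mul_of_nonneg_left (by linarith [hBn.1]) (by positivity)
        have h6 := hBn.2
        have h7 : 0 ≤ ε * n := by positivity
        linarith
      · push Not at hks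
        obtain ⟨m, rfl⟩ : ∃ m, k = s + m := ⟨k - s, by omega⟩
        refine ⟨0, m, fun l hl => ?_, ?_⟩
        · have h3 := hk1 (l + t) (by omega)
          rwa [Function.iterate_add_apply, hit] at h3
        · rw [Function.iterate_zero, id_eq, ← hxp]
          have h3 : CollatzExp.C^[s] (CollatzExp.C^[i] (3 * ch W v - 1)) = 3 * v - 1 := by
            rw [← Function.iterate_add_apply, show s + i = t by omega]
            exact hit
          rw [Dev_add, h3] at hk2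
          have h4 := abs_add_le (Dev s (CollatzExp.C^[i] (3 * ch W v - 1))) (Dev m (3 * v - 1))
          have h5 : ε * gT xc * (xp - B) ≤ ε * gT xc * y :=
            mul_le_mul_of_nonneg_left h1 (by positivity)
          have h6 : ε * gT xc * B ≤ ε * B := by
            have : ε * gT xc ≤ ε * 1 := mul_le_mul_of_nonneg_left hgc1 hε.le
            have := mul_le_mul_of_nonneg_right this hB0
            linarith
          have h7 : ε * (gT xp + 1 / z / 40000) * xp ≤ ε * gT xc * xp :=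
            mul_le_mul_of_nonneg_right (mul_le_mul_of_nonneg_left hgain hε.le) hxp0
          have h8 : ε * (1 / z / 40000) * (n / 3) ≤ ε * (1 / z / 40000) * xp :=
            mul_le_mul_of_nonneg_left hxp1 (by positivity)
          nlinarith
  unfold hb
  by_cases h : HB ε M (3 * ch W v - 1)
  · rw [if_pos h, if_pos (key h)]
  · rw [if_neg h]
    split_ifs <;> norm_num

end CollatzPow
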