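import Pool.Agent.CollatzLin.Par

set_option autoImplicit false

/-!
# Words whose path does not go below its starting point have small displacement
-/

namespace CollatzPow

open CollatzOne CollatzLin Finset

/-- All points of the path of the word `W` from `v` have absolute value at least `B`. -/
def Hi (B : ℤ) (W : List ℕ) (v : ℤ) : Prop := ∀ W' W'' : List ℕ, W = W' ++ W'' → B ≤ |ch W' v|

lemma Hi.start {B : ℤ} {W : List ℕ} {v : ℤ} (h : Hi B W v) : B ≤ |v| := by
  have := h [] W rfl
  rwa [ch_nil] at this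

lemma Hi.last {B : ℤ} {W : List ℕ} {v : ℤ} (h : Hi B W v) : B ≤ |ch W v| :=
  h W [] (by simp)

lemma Hi.mono {B B' : ℤ} (hB : B' ≤ B) {W : List ℕ} {v : ℤ} (h : Hi B W v) : Hi B' W v :=
  fun W' W'' h' => hB.trans (h W' W'' h')

lemma Hi.append {B : ℤ} {W V : List ℕ} {v : ℤ} (hv : vd (W ++ V) v) (h1 : Hi B W v)
    (h2 : Hi B V (ch W v)) : Hi B (W ++ V) v := by
  intro W' W'' h
  rcases List.append_eq_append_iff.1 h with ⟨a, h3, h4⟩ | ⟨c, h3, h4⟩
  · subst h3
    have h5 : vd (W ++ a) v := by
      rw [h4, ← List.append_assoc] at hv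
      exact (vd_append.1 hv).1
    rw [ch_append h5]
    exact h2 a W'' h4
  · exact h1 W' c h3

lemma dst_single (e : ℕ) : dst [e] = 1 + 3 / 2 ^ e := by
  simp [dst]

/-- A word whose path from `v` does not go below `|v|` has displacement at most `2 (n + 1)`. -/
theorem dst_le_of_Hi {W : List ℕ} {v : ℤ} (hv : vd W v) (h : Hi |v| W v)
    (hn : 2 * (W.length : ℝ) ≤ |(v : ℝ)|) (h0 : v ≠ 0) : dst W ≤ 2 * (W.length + 1) := by
  have hv0 : 0 < |(v : ℝ)| := abs_pos.2 (by exact_mod_cast h0)
  set D := dst W with hD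
  have hD1 : 1 ≤ D := one_le_dst W
  -- heights
  have key : ∀ W' W'' : List ℕ, W = W' ++ W'' → 1 / ht W' ≤ 1 + D / |(v : ℝ)| := by
    intro W' W'' hW
    have h1 := h W' W'' hW
    have h2 : vd W' v := by
      rw [hW] at hv
      exact (vd_append.1 hv).1
    have h3 := abs_ch_le h2
    have h4 : |(v : ℝ)| ≤ |(ch W' v : ℝ)| := by exact_mod_cast h1
    have h5 : dst W' ≤ D := by rw [hD, hW]; exact dst_le_append W' W''
    have h6 := ht_pos W'
    rw [div_le_iff₀ h6]
    have h7 : ht W' * (|(v : ℝ)| + dst W') ≤ ht W' * (|(v : ℝ)| + D) :=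
      mul_le_mul_of_nonneg_left (by linarith) h6.le
    have h8 : |(v : ℝ)| ≤ ht W' * (|(v : ℝ)| + D) := by linarith
    have h9 : (1 + D / |(v : ℝ)|) * ht W' = ht W' * (|(v : ℝ)| + D) / |(v : ℝ)| := by
      field_simp
    rw [h9, le_div_iff₀ hv0, one_mul]
    exact h8
  have ind : ∀ W' : List ℕ, ∀ W'' : List ℕ, W = W' ++ W'' →
      dst W' ≤ 1 + W'.length * (1 + D / |(v : ℝ)|) := by
    intro W'
    induction W' using List.reverseRecOn with
    | nil =>
      intro W'' _
      simp [dst]
    | append_singleton V e ih =>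
      intro W'' hW
      have h1 := ih ([e] ++ W'') (by rw [hW, List.append_assoc])
      have h2 := key (V ++ [e]) W'' hW
      rw [dst_append, dst_single]
      have h3 : (1 + 3 / 2 ^ e - 1) / ht V = 1 / ht (V ++ [e]) := by
        rw [ht_append]
        have h4 := ht_pos V
        have h5 : ht [e] = 2 ^ e / 3 := by
          rw [ht_cons, ht_nil, mul_one]
        rw [h5]
        field_simp
        ring
      rw [h3, List.length_append, List.length_singleton]
      push_cast
      linarith
  have h1 := ind W [] (by simp)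
  rw [← hD] at h1
  have h2 : (W.length : ℝ) * (1 + D / |(v : ℝ)|) ≤ W.length + D / 2 := by
    have h3 : (W.length : ℝ) * (D / |(v : ℝ)|) ≤ D / 2 := by
      rw [← mul_div_assoc, div_le_iff₀ hv0]
      nlinarith
    linarith
  linarith

end CollatzPow
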