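import Pool.Agent.CollatzPow.StepH
import Pool.Agent.CollatzPow.GenP
import Pool.Agent.CollatzTime.LogSmallC
import Pool.Agent.CollatzTime.StartC

set_option autoImplicit false

/-!
# The class `AdmH`: one step of the recursion, and start
-/

namespace CollatzPow

open CollatzLin CollatzOne CollatzTime Finset Filter Topology

lemma replH {n₀ : ℕ} {C : ℝ} {E₀ : ℕ} (hm : ∀ E : ℕ, E₀ ≤ E → ∀ m₀ m : ℕ, 1 ≤ m₀ → m₀ ≤ m →
    mean (3 ^ m) (fun y => |F E m y - F E m₀ y|) ≤ C / (m₀ : ℝ) ^ 2)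
    {A k m M E : ℕ} (hE : E₀ ≤ E) (h1 : 1 ≤ m) (h2 : m ≤ M) (h3 : 4 * 3 ^ M ≤ 2 ^ A) (hk : 1 ≤ k)
    {a : ℤ → ℝ} (ha : AdmH n₀ a) :
    LS A (A + k) (fun v => F E M v * a v) ≤ LS A (A + k) (fun v => F E m v * a v) +
      11 * k * (C / (m : ℝ) ^ 2) := by
  have h4 : LS A (A + k) (fun v => F E M v * a v) ≤
      LS A (A + k) (fun v => F E m v * a v + |F E M v - F E m v|) := by
    refine LS_mono fun v _ => ?_
    have h5 := le_abs_self (F E M v - F E m v)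
    have h6 := abs_nonneg (F E M v - F E m v)
    have h7 := ha.nonneg v
    have h8 := ha.le_one v
    have h9 : (F E M v - F E m v) * a v ≤ |F E M v - F E m v| := by
      calc (F E M v - F E m v) * a v ≤ |F E M v - F E m v| * a v :=
            mul_le_mul_of_nonneg_right h5 h7
        _ ≤ |F E M v - F E m v| * 1 := mul_le_mul_of_nonneg_left h8 h6
        _ = _ := mul_one _
    linarith
  rw [LS_add] at h4
  have hper : Per (3 ^ M) (fun v => |F E M v - F E m v|) := by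
    intro v
    have e1 := F_per E M v
    have e2 := Per.pow_mono h2 (F_per E m) v
    simp only [e1, e2]
  have h5 := LS_per (Nat.le_add_right A k) h3 hper (fun v => abs_nonneg _)
  have h6 := (abs_le.1 h5).2
  have h7 := hm E hE m M h1 h2
  have h8 : 0 ≤ mean (3 ^ M) (fun v => |F E M v - F E m v|) := mean_nonneg fun v => abs_nonneg _
  have h9 : (36 : ℝ) * 3 ^ M / 2 ^ A ≤ 9 := by
    rw [div_le_iff₀ (by positivity)]
    have : (4 : ℝ) * 3 ^ M ≤ 2 ^ A := by exact_mod_cast h3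
    linarith
  have h10 : Real.log 2 ≤ 0.6931471808 := Real.log_two_lt_d9.le
  have h11 : (1 : ℝ) ≤ k := by exact_mod_cast hk
  have h12 : 3 / 2 * Real.log 2 * (((A + k : ℕ) : ℝ) - A) + 36 * 3 ^ M / 2 ^ A ≤ 11 * k := by
    push_cast
    rw [add_sub_cancel_left]
    nlinarith
  have h13 : LS A (A + k) (fun v => |F E M v - F E m v|) ≤ 11 * k * (C / (m : ℝ) ^ 2) := by
    calc LS A (A + k) (fun v => |F E M v - F E m v|)
        ≤ (3 / 2 * Real.log 2 * (((A + k : ℕ) : ℝ) - A) + 36 * 3 ^ M / 2 ^ A) *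
          mean (3 ^ M) (fun v => |F E M v - F E m v|) := by linarith
      _ ≤ 11 * k * mean (3 ^ M) (fun v => |F E M v - F E m v|) := mul_le_mul_of_nonneg_right h12 h8
      _ ≤ 11 * k * (C / (m : ℝ) ^ 2) := mul_le_mul_of_nonneg_left h7 (by positivity)
  linarith

/-- One step of the recursion. -/
lemma one_stepH (hm : MixStmt) (n₀ : ℕ) : ∃ (Y : ℝ) (L₀ E₀ : ℕ), 0 < Y ∧
    ∀ L ℓ m E : ℕ, L₀ ≤ L → L ≤ 64 * ℓ → 16 * ℓ ≤ L → 16 * m ≤ L → E₀ ≤ E → 3 * L ≤ E →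
    ∀ a : ℤ → ℝ, AdmH n₀ a → ∀ X : ℝ,
    (∀ A k : ℕ, 3 * L ≤ 4 * A → A < L → A ≤ 64 * k → 16 * k ≤ A →
      LS A (A + k) (fun v => F E (A / 16) v * a v) ≤ k * (X - Y * gq A)) →
    LS L (L + ℓ) (fun v => F E m v * a v) ≤ ℓ * (X - Y * gq L) := by
  obtain ⟨C, L₀, E₀, hC, hs⟩ := stepH n₀
  obtain ⟨C', E₁, hC', hm⟩ := hm
  obtain ⟨N₁, hN₁⟩ := exists_large (c := 1) one_pos
  refine ⟨100 * (C * 1573072 + 45056 * C'), max (max L₀ 300) (4 * (N₁ + n₀ + 1)), max E₀ E₁, by positivity, ?_⟩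
  intro L ℓ m E hL h1 h2 h3 hE hE' a ha X hX
  have hL0 : L₀ ≤ L := le_trans (le_trans (le_max_left _ _) (le_max_left _ _)) hL
  have hL1 : 300 ≤ L := le_trans (le_trans (le_max_right _ _) (le_max_left _ _)) hL
  have hL2 : 4 * (N₁ + n₀ + 1) ≤ L := le_trans (le_max_right _ _) hL
  have hE0 : E₀ ≤ E := le_trans (le_max_left _ _) hE
  have hE1 : E₁ ≤ E := le_trans (le_max_right _ _) hE
  obtain ⟨n, hn⟩ : ∃ n, n = L / 4 := ⟨_, rfl⟩
  obtain ⟨Δ, hΔ⟩ : ∃ Δ, Δ = ⌈(n : ℝ) ^ (3 / 4 : ℝ)⌉₊ := ⟨_, rfl⟩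
  obtain ⟨s, hsn⟩ : ∃ s, s = sh n := ⟨_, rfl⟩
  have hn1 : 1 ≤ n := by omega
  have hn1' : (1 : ℝ) ≤ n := by exact_mod_cast hn1
  have hΔn : Δ ≤ n := by
    rw [hΔ, Nat.ceil_le]
    calc (n : ℝ) ^ (3 / 4 : ℝ) ≤ (n : ℝ) ^ (1 : ℝ) :=
          Real.rpow_le_rpow_of_exponent_le hn1' (by norm_num)
      _ = n := Real.rpow_one _
  have hlarge := hN₁ n (by omega)
  rw [← hΔ] at hlarge
  have hΔ50 : 3 * (Δ : ℝ) ≤ 50 * (n : ℝ) ^ (3 / 4 : ℝ) := by
    have c1 : (Δ : ℝ) ≤ (n : ℝ) ^ (3 / 4 : ℝ) + 1 := by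
      rw [hΔ]
      exact (Nat.ceil_lt_add_one (by positivity)).le
    have c3 : (1 : ℝ) ≤ (n : ℝ) ^ (3 / 4 : ℝ) := Real.one_le_rpow hn1' (by norm_num)
    linarith
  have hst := hs L ℓ n m Δ E hL0 (by omega) hn1 (by omega) h3 hlarge.1 (by omega) hΔ50 (by omega) hE0 (by omega) a ha
  have hs1 : 12 * s ≤ 5 * n := by rw [hsn]; exact twelve_sh n
  have hs2 : 2 * n < 5 * (s + 1) := by rw [hsn]; exact lt_five_sh n
  rw [← hsn] at hst
  set G := gq L with hG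
  have hG0 : 0 < G := gq_pos (by omega)
  have hLr : (300 : ℝ) ≤ L := by exact_mod_cast hL1
  have hG1 : 1 / (L : ℝ) ≤ G := one_div_le_gq (by omega)
  have hℓ1 : 1 ≤ ℓ := by omega
  have hℓr : (1 : ℝ) ≤ ℓ := by exact_mod_cast hℓ1
  have hℓL : (L : ℝ) ≤ 64 * ℓ := by exact_mod_cast h1
  -- (I)
  have b1 : (Δ : ℝ) + 1 ≤ 192 * ℓ * G := by
    have c1 : (Δ : ℝ) ≤ (n : ℝ) ^ (3 / 4 : ℝ) + 1 := by
      rw [hΔ]
      exact (Nat.ceil_lt_add_one (by positivity)).le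
    have c2 : (n : ℝ) ^ (3 / 4 : ℝ) ≤ (L : ℝ) ^ (3 / 4 : ℝ) := by
      refine Real.rpow_le_rpow (by positivity) ?_ (by norm_num)
      exact_mod_cast (by omega : n ≤ L)
    have c3 : (1 : ℝ) ≤ (L : ℝ) ^ (3 / 4 : ℝ) := Real.one_le_rpow (by linarith) (by norm_num)
    have c4 := rpow_three_quarters (L := L) (by omega)
    rw [c4] at c2 c3
    have c5 : (L : ℝ) * G ≤ 64 * ℓ * G := mul_le_mul_of_nonneg_right hℓL hG0.le
    linarith
  -- (II)
  have b2 : (n + 1) * Real.exp (-((Δ : ℝ) ^ 2 / (8 * n))) ≤ 1572864 * G := by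
    have c1 := exp_bound2 hn1 (Δ := Δ) (by rw [hΔ]; exact Nat.le_ceil _)
    have c2 : (196608 : ℝ) / n ≤ 1572864 * (1 / L) := by
      have c3 : (L : ℝ) ≤ 8 * n := by exact_mod_cast (by omega : L ≤ 8 * n)
      rw [mul_one_div, div_le_div_iff₀ (by linarith) (by linarith)]
      linarith
    linarith
  -- (III)
  have b3 : ((1 : ℝ) / 2) ^ (L / 16) ≤ 16 * G := by
    have c1 := half_pow_bound (L := L) (by omega)
    have c2 : (16 : ℝ) / L = 16 * (1 / L) := by ring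
    linarith
  -- (IV)
  have b4 : ∀ A : ℕ, 3 * L ≤ 4 * A → C' / (((A / 16 : ℕ) : ℝ)) ^ 2 ≤ 4096 * C' * G := by
    intro A hA
    have c1 : (L : ℝ) ≤ 64 * ((A / 16 : ℕ) : ℝ) := by
      exact_mod_cast (by omega : L ≤ 64 * (A / 16))
    have c0 : (0 : ℝ) < ((A / 16 : ℕ) : ℝ) := by linarith
    have c2 : (L : ℝ) ≤ 4096 * (((A / 16 : ℕ) : ℝ)) ^ 2 := by nlinarith
    have c3 : C' / (((A / 16 : ℕ) : ℝ)) ^ 2 ≤ 4096 * C' * (1 / L) := by
      rw [mul_one_div, div_le_div_iff₀ (by positivity) (by linarith)]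
      nlinarith
    refine c3.trans ?_
    exact mul_le_mul_of_nonneg_left hG1 (by positivity)
  -- each piece
  have piece : ∀ A k : ℕ, 3 * L ≤ 4 * A → 100 * A ≤ 94 * L → A ≤ 64 * k → 16 * k ≤ A →
      LS A (A + k) (fun v => F E (n + m) v * a v) ≤
        k * (X - 100 * (C * 1573072 + 45056 * C') * (1015 / 1000 * G)) + 45056 * C' * (k * G) := by
    intro A k c1 c2 c3 c4
    have c5 := hX A k c1 (by omega) c3 c4
    have c6 := replH hm (A := A) (k := k) (m := A / 16) (M := n + m) hE1 (by omega) (by omega)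
      (four_mul_three_pow_le (L := L) (by omega) c1 (by omega)) (by omega) ha
    have c7 := b4 A c1
    have c8 : (0 : ℝ) ≤ k := Nat.cast_nonneg k
    have c9 : 11 * (k : ℝ) * (C' / (((A / 16 : ℕ) : ℝ)) ^ 2) ≤ 11 * k * (4096 * C' * G) :=
      mul_le_mul_of_nonneg_left c7 (by positivity)
    have c10 := gq_gain (A := A) (L := L) (by omega) c2
    have c11 : (k : ℝ) * (X - 100 * (C * 1573072 + 45056 * C') * gq A) ≤
        k * (X - 100 * (C * 1573072 + 45056 * C') * (1015 / 1000 * G)) := by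
      refine mul_le_mul_of_nonneg_left ?_ c8
      have : 100 * (C * 1573072 + 45056 * C') * (1015 / 1000 * G) ≤
          100 * (C * 1573072 + 45056 * C') * gq A := mul_le_mul_of_nonneg_left c10 (by positivity)
      linarith
    nlinarith
  -- the window after the step
  have key : LS (L - s) (L - s + ℓ) (fun v => F E (n + m) v * a v) ≤
      ℓ * (X - 100 * (C * 1573072 + 45056 * C') * (1015 / 1000 * G)) + 45056 * C' * (ℓ * G) := by
    by_cases hc : 16 * ℓ ≤ L - s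
    · exact piece (L - s) ℓ (by omega) (by omega) (by omega) hc
    · have p1 := piece (L - s) (ℓ / 2) (by omega) (by omega) (by omega) (by omega)
      have p2 := piece (L - s + ℓ / 2) (ℓ - ℓ / 2) (by omega) (by omega) (by omega) (by omega)
      have p3 : LS (L - s) (L - s + ℓ / 2) (fun v => F E (n + m) v * a v) +
          LS (L - s + ℓ / 2) (L - s + ℓ / 2 + (ℓ - ℓ / 2)) (fun v => F E (n + m) v * a v) =
          LS (L - s) (L - s + ℓ) (fun v => F E (n + m) v * a v) := by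
        rw [show L - s + ℓ / 2 + (ℓ - ℓ / 2) = L - s + ℓ by omega]
        exact LS_append (by omega) (by omega) _
      rw [← p3]
      have p4 : (ℓ : ℝ) = ((ℓ / 2 : ℕ) : ℝ) + ((ℓ - ℓ / 2 : ℕ) : ℝ) := by
        exact_mod_cast (by omega : ℓ = ℓ / 2 + (ℓ - ℓ / 2))
      rw [p4]
      nlinarith
  have e1 : C * ((Δ : ℝ) + 1) ≤ C * (192 * ℓ * G) := mul_le_mul_of_nonneg_left b1 hC.le
  have e2 : C * ℓ * ((n + 1) * Real.exp (-((Δ : ℝ) ^ 2 / (8 * n))) + (1 / 2) ^ (L / 16)) ≤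
      C * ℓ * (1572880 * G) := mul_le_mul_of_nonneg_left (by linarith) (by positivity)
  have e3 : ℓ * (X - 100 * (C * 1573072 + 45056 * C') * (1015 / 1000 * G)) +
      45056 * C' * (ℓ * G) + C * (192 * ℓ * G) + C * ℓ * (1572880 * G) ≤
      ℓ * (X - 100 * (C * 1573072 + 45056 * C') * G) := by
    have : 0 ≤ C * (ℓ * G) := by positivity
    have : 0 ≤ C' * (ℓ * G) := by positivity
    nlinarith
  linarith


open Classical in
lemma start_mainH {L n₁ N Δ ℓ A n E : ℕ} (hL : 10000 ≤ L) (hn₁ : n₁ = L / 8) (hN : N = L / 16)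
    (hΔ : Δ ≤ L / 1000) (hℓ : ℓ = L / 32) (hA : A = L - sh (n₁ + N) - Δ - 3)
    (hn : n ∈ Ioc n₁ (n₁ + N)) {n₀ : ℕ} {a : ℤ → ℝ} (ha : AdmH n₀ a) :
    (∑ v ∈ bx (L + 1 + n), ∑ W ∈ typR E n Δ L, if vd W v ∧ ch W v ∈ win L (L + 1) then
        wt E W * F E 0 (ch W v) * a v / |(v : ℝ)| else 0) ≤
      ∑ i ∈ Ico A (A + ℓ), ∑ v ∈ win i (i + 1),
        a v * MM E (hw E n (2 ^ L / 2 ^ (i + 2))) (fun _ => 1) v / |(v : ℝ)| := by
  set G : ℤ → ℝ := fun v => ∑ W ∈ typR E n Δ L, if vd W v ∧ ch W v ∈ win L (L + 1) then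
        wt E W * F E 0 (ch W v) * a v / |(v : ℝ)| else 0 with hG
  have hterm : ∀ (W : List ℕ) (v : ℤ), 0 ≤ wt E W * F E 0 (ch W v) * a v / |(v : ℝ)| := fun W v =>
    div_nonneg (mul_nonneg (mul_nonneg (wt_nonneg _ _) (F_nonneg _ _ _)) (ha.nonneg v)) (abs_nonneg _)
  have hG0 : ∀ v, 0 ≤ G v := by
    intro v
    refine sum_nonneg fun W _ => ?_
    split_ifs
    · exact hterm W v
    · exact le_rfl
  have h1 : ∀ v ∈ bx (L + 1 + n), v ∉ win A (A + ℓ) → G v = 0 := by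
    intro v hv hvA
    refine sum_eq_zero fun W hW => ?_
    rw [if_neg]
    rintro ⟨h2, h3⟩
    exact hvA (CollatzTime.start_geom hL hn₁ hN hΔ hℓ hA hn (typR_sub _ _ _ _ hW) (mem_bx.1 hv).2 h2 h3).1
  have h2 : ∑ v ∈ bx (L + 1 + n), G v ≤ ∑ v ∈ win A (A + ℓ), G v := by
    rw [← sum_filter_add_sum_filter_not (bx (L + 1 + n)) (fun v => v ∈ win A (A + ℓ)) G]
    rw [sum_eq_zero (s := (bx (L + 1 + n)).filter (fun v => ¬ v ∈ win A (A + ℓ)))
      (fun v hv => h1 v (mem_filter.1 hv).1 (mem_filter.1 hv).2), add_zero]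
    refine sum_le_sum_of_subset_of_nonneg ?_ fun v _ _ => hG0 v
    intro v hv
    exact (mem_filter.1 hv).2
  refine h2.trans ?_
  rw [← CollatzLin.sum_win_dyadic]
  refine sum_le_sum fun i _ => sum_le_sum fun v hv => ?_
  have hvO : OO v := (mem_win.1 hv).2.2
  have h3 : a v * MM E (hw E n (2 ^ L / 2 ^ (i + 2))) (fun _ => 1) v / |(v : ℝ)| =
      ∑ W ∈ hw E n (2 ^ L / 2 ^ (i + 2)), if vd W v then wt E W * 1 * a v / |(v : ℝ)| else 0 := by
    unfold MM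
    rw [mul_sum, sum_div]
    refine sum_congr rfl fun W _ => ?_
    split_ifs
    · ring
    · simp
  rw [h3, hG]
  have h4 : ∀ W ∈ typR E n Δ L, W ∉ hw E n (2 ^ L / 2 ^ (i + 2)) →
      (if vd W v ∧ ch W v ∈ win L (L + 1) then
        wt E W * F E 0 (ch W v) * a v / |(v : ℝ)| else 0) = 0 := by
    intro W hW hWn
    rw [if_neg]
    rintro ⟨h5, h6⟩
    exact hWn ((CollatzTime.start_geom hL hn₁ hN hΔ hℓ hA hn (typR_sub _ _ _ _ hW) hvO h5 h6).2 i hv)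
  simp only []
  rw [← sum_filter_add_sum_filter_not (typR E n Δ L) (fun W => W ∈ hw E n (2 ^ L / 2 ^ (i + 2)))]
  rw [sum_eq_zero (s := (typR E n Δ L).filter (fun W => ¬ W ∈ hw E n (2 ^ L / 2 ^ (i + 2))))
      (fun W hW => h4 W (mem_filter.1 hW).1 (mem_filter.1 hW).2), add_zero]
  refine le_trans (sum_le_sum (g := fun W => if vd W v then wt E W * 1 * a v / |(v : ℝ)| else 0)
    fun W _ => ?_) (sum_le_sum_of_subset_of_nonneg (fun W hW => (mem_filter.1 hW).2) fun W _ _ => ?_)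
  · have h5 := hterm W v
    rw [F_zero] at h5 ⊢
    split_ifs with h6 h7 h7
    · exact le_rfl
    · exact absurd h6.1 h7
    · exact h5
    · exact le_rfl
  · have h5 := hterm W v
    rw [F_zero] at h5
    split_ifs
    · exact h5
    · exact le_rfl

/-- The dyadic masses. -/
lemma start_windowH {i m : ℕ} (hi : 72 * 3 ^ m ≤ 2 ^ i) {n₀ : ℕ} {a V V' V'' : ℤ → ℝ} (ha : AdmH n₀ a)
    (hp' : Per (3 ^ m) V') (hp'' : Per (3 ^ m) V'') (h' : ∀ v, 0 ≤ V' v) (h'' : ∀ v, 0 ≤ V'' v)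
    (hV : ∀ v, V v = V' v + V'' v) {K δ : ℝ} (hK : mean (3 ^ m) (fun v => V' v ^ 2) ≤ K)
    (hδ : mean (3 ^ m) V'' ≤ δ) :
    LS i (i + 1) (fun v => a v * V v) ≤ √(2 * K) * √(LS i (i + 1) a) + 2 * δ := by
  have hlog : Real.log 2 ≤ 1 := by
    have := Real.log_two_lt_d9
    linarith
  have hlog0 : 0 ≤ Real.log 2 := Real.log_nonneg (by norm_num)
  have h1 : 36 * 3 ^ m / 2 ^ i ≤ (1 / 2 : ℝ) := by
    rw [div_le_iff₀ (by positivity)]
    have : (72 * 3 ^ m : ℝ) ≤ 2 ^ i := by exact_mod_cast hi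
    linarith
  have h4 : 4 * 3 ^ m ≤ 2 ^ i := le_trans (Nat.mul_le_mul_right _ (by norm_num)) hi
  have key : ∀ f : ℤ → ℝ, Per (3 ^ m) f → (∀ v, 0 ≤ f v) → LS i (i + 1) f ≤ 2 * mean (3 ^ m) f := by
    intro f hf hf0
    have e1 := (abs_le.1 (LS_per (show i ≤ i + 1 by omega) h4 hf hf0)).2
    have e2 : 0 ≤ mean (3 ^ m) f := mean_nonneg hf0
    have e3 : 36 * 3 ^ m / 2 ^ i * mean (3 ^ m) f ≤ 1 / 2 * mean (3 ^ m) f :=
      mul_le_mul_of_nonneg_right h1 e2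
    have e4 : Real.log 2 * mean (3 ^ m) f ≤ 1 * mean (3 ^ m) f := mul_le_mul_of_nonneg_right hlog e2
    push_cast at e1
    nlinarith
  have e1 : LS i (i + 1) (fun v => a v * V v) =
      LS i (i + 1) (fun v => a v * V' v) + LS i (i + 1) (fun v => a v * V'' v) := by
    rw [← LS_add]
    refine LS_congr fun v _ => ?_
    rw [hV]; ring
  have e2 : LS i (i + 1) (fun v => a v * V'' v) ≤ 2 * δ := by
    calc LS i (i + 1) (fun v => a v * V'' v) ≤ LS i (i + 1) V'' := by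
          refine LS_mono fun v _ => ?_
          have := mul_le_mul_of_nonneg_right (ha.le_one v) (h'' v)
          linarith
      _ ≤ 2 * mean (3 ^ m) V'' := key V'' hp'' h''
      _ ≤ 2 * δ := by linarith
  have e3 : LS i (i + 1) (fun v => a v * V' v) ≤ √(2 * K) * √(LS i (i + 1) a) := by
    refine (LS_cs ha.nonneg h').trans ?_
    rw [mul_comm]
    refine mul_le_mul (Real.sqrt_le_sqrt ?_) (Real.sqrt_le_sqrt ?_) (Real.sqrt_nonneg _) (Real.sqrt_nonneg _)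
    · have hp2 : Per (3 ^ m) (fun v => V' v ^ 2) := fun x => by
        simp only []
        rw [hp' x]
      have := key (fun v => V' v ^ 2) hp2 (fun v => sq_nonneg _)
      linarith
    · refine LS_mono fun v _ => ?_
      have h5 := ha.nonneg v
      have h6 := ha.le_one v
      nlinarith
  linarith



end CollatzPow
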