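import Pool.Agent.CollatzPow.Crude
import Pool.Agent.CollatzLin.LogSmall

set_option autoImplicit false

/-!
# Logarithmic windows at large scales: power saving
-/

namespace CollatzPow

open CollatzOne CollatzLin Finset

/-- The scale at which the recursion starts. -/
noncomputable def SS (L₂ : ℕ) : ℕ := ⌈Real.exp (c₀ * L₂ / 6)⌉₊

lemma le_SS (L₂ : ℕ) : Real.exp (c₀ * L₂ / 6) ≤ SS L₂ := Nat.le_ceil _

lemma SS_le (L₂ : ℕ) : (SS L₂ : ℝ) ≤ 2 * Real.exp (c₀ * L₂ / 6) := by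
  have h1 : (SS L₂ : ℝ) ≤ Real.exp (c₀ * L₂ / 6) + 1 := (Nat.ceil_lt_add_one (Real.exp_pos _).le).le
  have h2 : 1 ≤ Real.exp (c₀ * L₂ / 6) := by
    apply Real.one_le_exp
    have := c₀_pos
    positivity
  linarith

lemma SS_cube (L₂ : ℕ) : (SS L₂ : ℝ) ^ 3 * Real.exp (-(c₀ * L₂)) ≤ 8 * Real.exp (-(c₀ * L₂ / 2)) := by
  have h1 := SS_le L₂
  have h2 : (SS L₂ : ℝ) ^ 3 ≤ (2 * Real.exp (c₀ * L₂ / 6)) ^ 3 := pow_le_pow_left₀ (Nat.cast_nonneg _) h1 3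
  have h3 : (2 * Real.exp (c₀ * L₂ / 6)) ^ 3 * Real.exp (-(c₀ * L₂)) = 8 * Real.exp (-(c₀ * L₂ / 2)) := by
    rw [mul_pow, ← Real.exp_nat_mul, mul_assoc, ← Real.exp_add]
    norm_num
    ring_nf
  rw [← h3]
  exact mul_le_mul_of_nonneg_right h2 (Real.exp_pos _).le

/-- The start of the recursion is large. -/
lemma exists_SS_ge (B : ℝ) : ∃ L₀ : ℕ, ∀ L₂ : ℕ, L₀ ≤ L₂ → B ≤ Real.exp (c₀ * L₂ / 6) := by
  obtain ⟨n, hn⟩ := exists_nat_gt (6 * B / c₀)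
  refine ⟨n, fun L₂ hL => ?_⟩
  have h0 := c₀_pos
  have h1 : (n : ℝ) ≤ L₂ := by exact_mod_cast hL
  have h2 : 6 * B / c₀ ≤ L₂ := by linarith
  rw [div_le_iff₀ h0] at h2
  have h3 := Real.add_one_le_exp (c₀ * L₂ / 6)
  linarith

lemma SS_lt_two_pow {L₂ : ℕ} (h : 10 ≤ L₂) : 36 * SS L₂ + 4 ≤ 2 ^ L₂ := by
  have h1 := SS_le L₂
  have h0 := c₀_pos
  have h2 : Real.exp (c₀ / 6) ≤ 11 / 10 := by
    have e1 : |c₀ / 6| ≤ 1 := by
      rw [abs_of_pos (by positivity)]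
      unfold c₀
      norm_num
    have e2 := Real.abs_exp_sub_one_le e1
    rw [abs_of_pos (show 0 < c₀ / 6 by positivity)] at e2
    have e3 := (abs_le.1 e2).2
    unfold c₀ at e3 ⊢
    linarith
  have h3 : Real.exp (c₀ * L₂ / 6) = Real.exp (c₀ / 6) ^ L₂ := by
    rw [← Real.exp_nat_mul]
    congr 1
    ring
  have h4 : Real.exp (c₀ * L₂ / 6) ≤ (11 / 10) ^ L₂ := by
    rw [h3]
    exact pow_le_pow_left₀ (Real.exp_pos _).le h2 _
  have h5 : (76 : ℝ) ≤ (20 / 11) ^ L₂ := by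
    calc (76 : ℝ) ≤ (20 / 11) ^ 10 := by norm_num
      _ ≤ (20 / 11) ^ L₂ := pow_le_pow_right₀ (by norm_num) h
  have h6 : (76 : ℝ) * (11 / 10) ^ L₂ ≤ 2 ^ L₂ := by
    calc (76 : ℝ) * (11 / 10) ^ L₂ ≤ (20 / 11) ^ L₂ * (11 / 10) ^ L₂ :=
          mul_le_mul_of_nonneg_right h5 (by positivity)
      _ = 2 ^ L₂ := by rw [← mul_pow]; norm_num
  have h7 : 1 ≤ Real.exp (c₀ * L₂ / 6) := Real.one_le_exp (by positivity)
  have h8 : (36 * SS L₂ + 4 : ℝ) ≤ 2 ^ L₂ := by linarith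
  exact_mod_cast h8

theorem log_small_pow : ∃ (C : ℝ) (L₀ : ℕ), 0 < C ∧ ∀ L₂ : ℕ, L₀ ≤ L₂ → ∀ a : ℤ → ℝ, Adm a →
    (∀ v : ℤ, |v| < 2 ^ L₂ → a v = 0) → ∀ L ℓ : ℕ, SS L₂ ≤ L → L ≤ 64 * ℓ → 16 * ℓ ≤ L →
    LS L (L + ℓ) a ≤ C * ℓ * Real.exp (-(c₀ * L₂ / 24)) := by
  obtain ⟨Y, L₁, E₁, hY, h⟩ := one_step step mix
  obtain ⟨C, L₃, E₃, hC, hcr⟩ := crude
  obtain ⟨L₄, hL₄⟩ := exists_SS_ge (max L₁ 16)
  refine ⟨Y + 1000 * C, max (max L₃ L₄) 10, by positivity, ?_⟩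
  intro L₂ hL a ha hz L ℓ hSL h1 h2
  have hL3 : L₃ ≤ L₂ := (le_max_left _ _).trans ((le_max_left _ _).trans hL)
  have hL4 : L₄ ≤ L₂ := (le_max_right _ _).trans ((le_max_left _ _).trans hL)
  have hL10 : 10 ≤ L₂ := (le_max_right _ _).trans hL
  have h0 := c₀_pos
  set S := SS L₂ with hS
  have hSr := le_SS L₂
  rw [← hS] at hSr
  have hSb : ((max L₁ 16 : ℕ) : ℝ) ≤ S := by
    have := hL₄ L₂ hL4
    push_cast at this ⊢
    linarith
  have hSb' : max L₁ 16 ≤ S := by exact_mod_cast hSb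
  have hS1 : L₁ ≤ S := (le_max_left _ _).trans hSb'
  have hS16 : 16 ≤ S := (le_max_right _ _).trans hSb'
  have hpow := SS_lt_two_pow hL10
  rw [← hS] at hpow
  set E := E₁ + E₃ + 20 * L with hE
  set η : ℝ := 216 * C * Real.exp (-(c₀ * L₂ / 2)) with hη
  have hη0 : 0 ≤ η := by positivity
  -- the base case
  have hbase : ∀ A : ℕ, S ≤ A → A < 2 * S → A ≤ L → ∀ k : ℕ, A ≤ 64 * k → 16 * k ≤ A → ∀ M : ℕ,
      16 * M ≤ A → LS A (A + k) (fun v => F E M v * a v) ≤ k * η := by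
    intro A hA1 hA2 hAL k hk1 hk2 M hM
    rw [← LS_sum_dyadic]
    have h3 : ∀ i ∈ Ico A (A + k), LS i (i + 1) (fun v => F E M v * a v) ≤ η := by
      intro i hi
      rw [mem_Ico] at hi
      have h4 := hcr L₂ i M E hL3 (by omega) (by omega) (by omega) (by omega) a ha hz
      refine h4.trans ?_
      have h5 : (i : ℝ) ≤ 3 * S := by exact_mod_cast (by omega : i ≤ 3 * S)
      have h6 : (i : ℝ) ^ 3 ≤ (3 * S) ^ 3 := pow_le_pow_left₀ (Nat.cast_nonneg _) h5 3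
      have h7 := SS_cube L₂
      rw [← hS] at h7
      calc C * (i : ℝ) ^ 3 * Real.exp (-(c₀ * L₂)) ≤ C * (3 * S) ^ 3 * Real.exp (-(c₀ * L₂)) := by
            gcongr
        _ = 27 * C * ((S : ℝ) ^ 3 * Real.exp (-(c₀ * L₂))) := by ring
        _ ≤ 27 * C * (8 * Real.exp (-(c₀ * L₂ / 2))) := mul_le_mul_of_nonneg_left h7 (by positivity)
        _ = η := by rw [hη]; ring
    refine (sum_le_sum h3).trans (le_of_eq ?_)
    rw [sum_const, Nat.card_Ico, add_tsub_cancel_left, nsmul_eq_mul]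
  -- the recursion
  have hrec : ∀ A : ℕ, S ≤ A → A ≤ L → ∀ k : ℕ, A ≤ 64 * k → 16 * k ≤ A → ∀ M : ℕ, 16 * M ≤ A →
      LS A (A + k) (fun v => F E M v * a v) ≤ k * (η + Y * gq S - Y * gq A) := by
    intro A
    induction A using Nat.strong_induction_on with
    | _ A ih =>
      intro hA hAL k hk1 hk2 M hM
      rcases Nat.lt_or_ge A (2 * S) with hc | hc
      · refine (hbase A hA hc hAL k hk1 hk2 M hM).trans ?_
        have h3 := gq_anti (A := S) (L := A) (by omega) hA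
        have h4 : Y * gq A ≤ Y * gq S := mul_le_mul_of_nonneg_left h3 hY.le
        exact mul_le_mul_of_nonneg_left (by linarith) (Nat.cast_nonneg _)
      · refine h A k M E (by omega) hk1 hk2 hM (by omega) (by omega) a ha _ ?_
        intro B j hB1 hB2 hB3 hB4
        exact ih B hB2 (by omega) (by omega) j hB3 hB4 (B / 16) (by omega)
  have h3 := hrec L hSL le_rfl ℓ h1 h2 0 (by omega)
  have h4 : LS L (L + ℓ) (fun v => F E 0 v * a v) = LS L (L + ℓ) a := by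
    refine LS_congr fun v _ => ?_
    rw [F_zero, one_mul]
  rw [h4] at h3
  refine h3.trans ?_
  have h5 := gq_pos (L := L) (by omega)
  have h6 : (0 : ℝ) ≤ ℓ := Nat.cast_nonneg _
  have h7 : gq S ≤ Real.exp (-(c₀ * L₂ / 24)) := by
    unfold gq
    have e1 : (S : ℝ) ^ (-(1 / 4) : ℝ) ≤ (Real.exp (c₀ * L₂ / 6)) ^ (-(1 / 4) : ℝ) :=
      Real.rpow_le_rpow_of_nonpos (Real.exp_pos _) hSr (by norm_num)
    refine e1.trans (le_of_eq ?_)
    rw [← Real.exp_mul]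
    congr 1
    ring
  have h8 : Real.exp (-(c₀ * L₂ / 2)) ≤ Real.exp (-(c₀ * L₂ / 24)) := by
    refine Real.exp_le_exp.2 (neg_le_neg ?_)
    have : 0 ≤ c₀ * L₂ := by positivity
    linarith
  have h9 : η + Y * gq S - Y * gq L ≤ (Y + 1000 * C) * Real.exp (-(c₀ * L₂ / 24)) := by
    have e1 := mul_le_mul_of_nonneg_left h7 hY.le
    have e2 := mul_le_mul_of_nonneg_left h8 (show 0 ≤ 216 * C by positivity)
    have e3 : 0 ≤ Y * gq L := by positivity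
    have e4 : 0 ≤ C * Real.exp (-(c₀ * L₂ / 24)) := by positivity
    rw [hη]
    nlinarith
  calc (ℓ : ℝ) * (η + Y * gq S - Y * gq L) ≤ ℓ * ((Y + 1000 * C) * Real.exp (-(c₀ * L₂ / 24))) :=
        mul_le_mul_of_nonneg_left h9 h6
    _ = _ := by ring

end CollatzPow
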