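import Pool.Agent.CollatzPow.Count

set_option autoImplicit false

/-!
# The densities are bounded pointwise, up to a small part
-/

namespace CollatzPow

open CollatzOne CollatzLin Finset

open Classical in
/-- Words of height at least one, exponent at most `3 m` and displacement at most `K`. -/
noncomputable def goodF (E m : ℕ) (K : ℝ) : Finset (List ℕ) :=
  (words E m).filter (fun W => 3 ^ m ≤ 2 ^ js W ∧ js W ≤ 3 * m ∧ dst W ≤ K)

open Classical in
/-- The other words. -/
noncomputable def badF (E m : ℕ) (K : ℝ) : Finset (List ℕ) :=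
  (words E m).filter (fun W => ¬ (3 ^ m ≤ 2 ^ js W ∧ js W ≤ 3 * m ∧ dst W ≤ K))

lemma badF_sub (E m : ℕ) (K : ℝ) : badF E m K ⊆ words E m := by
  classical
  exact filter_subset _ _

lemma F_eq_good_add_bad (E m : ℕ) (K : ℝ) (y : ℤ) :
    F E m y = MM E (goodF E m K) (fun _ => 1) y + MM E (badF E m K) (fun _ => 1) y := by
  classical
  unfold F goodF badF
  rw [MM_filter_add]

theorem MM_goodF_le {E m : ℕ} (hE : m + 1 ≤ E) {K : ℝ} (hK : 0 ≤ K) (y : ℤ) :
    MM E (goodF E m K) (fun _ => 1) y ≤ 2 * (3 * m + 1) * (K + 2) := by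
  classical
  have hZ := half_le_Z_pow (n := m) hE
  have h1 : ∀ W ∈ goodF E m K, js W ∈ range (3 * m + 1) := by
    intro W hW
    unfold goodF at hW
    rw [mem_filter] at hW
    rw [mem_range]
    omega
  have h2 : MM E (goodF E m K) (fun _ => 1) y =
      ∑ J ∈ range (3 * m + 1), ∑ W ∈ (goodF E m K).filter (fun W => js W = J),
        if vd W y then wt E W * 1 else 0 := by
    unfold MM
    rw [sum_fiberwise_of_maps_to h1]
  have h3 : ∀ J ∈ range (3 * m + 1), (∑ W ∈ (goodF E m K).filter (fun W => js W = J),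
        if vd W y then wt E W * 1 else 0) ≤ 2 * (K + 2) := by
    intro J _
    rw [← sum_filter]
    set 𝒱 := ((goodF E m K).filter (fun W => js W = J)).filter (fun W => vd W y) with h𝒱
    rcases 𝒱.eq_empty_or_nonempty with h0 | ⟨W₀, hW₀⟩
    · rw [h0, sum_empty]; positivity
    have hmem : ∀ W ∈ 𝒱, W ∈ words E m ∧ 3 ^ m ≤ 2 ^ js W ∧ dst W ≤ K ∧ js W = J ∧ vd W y := by
      intro W hW
      rw [h𝒱, mem_filter, mem_filter] at hW
      unfold goodF at hW
      rw [mem_filter] at hW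
      exact ⟨hW.1.1.1, hW.1.1.2.1, hW.1.1.2.2.2, hW.1.2, hW.2⟩
    set H : ℝ := 2 ^ J / 3 ^ m with hH
    have hH1 : 1 ≤ H := by
      have h4 := (hmem W₀ hW₀).2.1
      rw [(hmem W₀ hW₀).2.2.2.1] at h4
      rw [hH, one_le_div (by positivity)]
      exact_mod_cast h4
    have h5 : ∀ W ∈ 𝒱, wt E W * 1 ≤ 2 / H := by
      intro W hW
      obtain ⟨e1, -, -, e2, -⟩ := hmem W hW
      have e3 : ht W = H := by
        unfold ht
        rw [length_of_mem e1, e2]
      unfold wt
      rw [mul_one, length_of_mem e1, e3, div_le_div_iff₀ (by positivity) (by positivity)]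
      nlinarith
    have h6 := sum_ch_le (N := 1) le_rfl (f := fun _ => (1 : ℝ)) (fun _ => rfl) (fun _ => zero_le_one)
      (y := y) (n := m) (J := J) hK (𝒱 := 𝒱) (fun W hW => one_le_of_mem (hmem W hW).1)
      (fun W hW => length_of_mem (hmem W hW).1) (fun W hW => (hmem W hW).2.2.2.1)
      (fun W hW => (hmem W hW).2.2.2.2) (fun W hW => (hmem W hW).2.2.1)
    rw [mean_const le_rfl, mul_one, sum_const, nsmul_eq_mul, mul_one, ← hH] at h6
    push_cast at h6
    calc ∑ W ∈ 𝒱, wt E W * 1 ≤ ∑ W ∈ 𝒱, 2 / H := sum_le_sum h5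
      _ = 𝒱.card * (2 / H) := by rw [sum_const, nsmul_eq_mul]
      _ ≤ (K * H + 1 + 1) * (2 / H) := mul_le_mul_of_nonneg_right h6 (by positivity)
      _ = 2 * K + 4 * (1 / H) := by field_simp; ring
      _ ≤ 2 * (K + 2) := by
        have : 1 / H ≤ 1 := by
          rw [div_le_one (by positivity)]
          exact hH1
        linarith
  rw [h2]
  refine (sum_le_sum h3).trans (le_of_eq ?_)
  rw [sum_const, card_range, nsmul_eq_mul]
  push_cast
  ring

theorem Pr_badF_le {E m : ℕ} (hE : 6 ≤ E) (hE2 : m + 1 ≤ E) {K : ℝ} (hK : 0 < K) :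
    Pr E (badF E m K) ≤ 4 * Real.exp (-((m : ℝ) / 128)) + 40 / √K := by
  classical
  have hE1 : 1 ≤ E := by omega
  have hZ := half_le_Z_pow (n := m) hE2
  have hup := Pr_upper hE1 m (ε := 1 / 4) (by norm_num) (by norm_num)
  have hlo := Pr_lower hE1 m (ε := 1 / 4) (by norm_num) (by norm_num)
  have hexp : (1 / 4 : ℝ) ^ 2 * m / 8 = m / 128 := by ring
  rw [hexp] at hup hlo
  have hd := Pr_dst hE m hK
  have hdiv : Real.exp (-((m : ℝ) / 128)) / Z E ^ m ≤ 2 * Real.exp (-((m : ℝ) / 128)) := by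
    rw [div_le_iff₀ (by linarith)]
    nlinarith [Real.exp_pos (-((m : ℝ) / 128))]
  have hsub : badF E m K ⊆ ((words E m).filter (fun W => (2 + 1 / 4 : ℝ) * m < js W) ∪
      (words E m).filter (fun W => (js W : ℝ) < (2 - 1 / 4) * m)) ∪
      (words E m).filter (fun W => K < dst W) := by
    intro W hW
    unfold badF at hW
    rw [mem_filter] at hW
    rw [mem_union, mem_union, mem_filter, mem_filter, mem_filter]
    obtain ⟨hW1, hW2⟩ := hW
    by_contra hcon
    push Not at hcon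
    obtain ⟨⟨c1, c2⟩, c3⟩ := hcon
    have d1 := c1 hW1
    have d2 := c2 hW1
    have d3 := c3 hW1
    apply hW2
    refine ⟨?_, ?_, d3⟩
    · -- `3 ^ m ≤ 2 ^ js W` since `js W ≥ 7 m / 4`
      have e1 : 7 * m ≤ 4 * js W := by
        have : (7 : ℝ) * m ≤ 4 * js W := by linarith
        exact_mod_cast this
      have e2 : (3 ^ m) ^ 4 ≤ (2 ^ js W) ^ 4 := by
        calc (3 ^ m) ^ 4 = (3 ^ 4) ^ m := by rw [← pow_mul, ← pow_mul, mul_comm]
          _ ≤ (2 ^ 7) ^ m := Nat.pow_le_pow_left (by norm_num) m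
          _ = 2 ^ (7 * m) := by rw [← pow_mul]
          _ ≤ 2 ^ (4 * js W) := Nat.pow_le_pow_right (by norm_num) e1
          _ = (2 ^ js W) ^ 4 := by rw [← pow_mul, mul_comm]
      exact (Nat.pow_le_pow_iff_left (by norm_num)).1 e2
    · have e1 : (js W : ℝ) ≤ 3 * m := by
        have : (0 : ℝ) ≤ m := Nat.cast_nonneg m
        linarith
      exact_mod_cast e1
  refine (Pr_mono hsub).trans ?_
  refine (Pr_union_le _ _ _).trans ?_
  have := Pr_union_le E ((words E m).filter (fun W => (2 + 1 / 4 : ℝ) * m < js W))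
    ((words E m).filter (fun W => (js W : ℝ) < (2 - 1 / 4) * m))
  linarith

lemma badF_nonneg (E m : ℕ) (K : ℝ) (y : ℤ) : 0 ≤ MM E (badF E m K) (fun _ => 1) y :=
  MM_nonneg (fun _ => zero_le_one) y

lemma badF_per (E m : ℕ) (K : ℝ) : Per (3 ^ m) (MM E (badF E m K) (fun _ => 1)) := by
  have h := MM_per (E := E) (n := m) (m := 0) (𝒲 := badF E m K)
    (fun W hW => length_of_mem (badF_sub E m K hW)) (φ := fun _ => 1) (fun _ => rfl)
  rwa [add_zero] at h

lemma mean_badF {E m M : ℕ} (hM : m ≤ M) (K : ℝ) :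
    mean (3 ^ M) (MM E (badF E m K) (fun _ => 1)) = Pr E (badF E m K) := by
  have h := mean_MM (E := E) (n := m) (m := 0) (𝒲 := badF E m K)
    (fun W hW => length_of_mem (badF_sub E m K hW)) (φ := fun _ => 1) (fun _ => rfl)
  rw [add_zero, pow_zero, mean_const le_rfl, mul_one] at h
  rw [mean_pow hM (badF_per E m K), h]

end CollatzPow
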