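import Pool.Agent.CollatzPow.GenP
import Pool.Agent.CollatzTime.StartC
import Pool.Agent.CollatzTime.LogSmallC

set_option autoImplicit false

/-!
# The class `AdmC`: one step and start
-/

namespace CollatzPow

open CollatzOne CollatzLin CollatzTime Finset

lemma start_errC_pow {C : ℝ} (hC : 0 < C) {q : ℕ} (hq : 1 ≤ q) {x : ℝ} (hx : 1 ≤ x) {L : ℕ}
    (hL : 4 * C * (4096 * (q : ℝ) ^ 4 + 16) * x ≤ L) (hqL : q ≤ L)
    {n : ℕ} (hn1 : 1 ≤ n) (hnL : n ≤ L) :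
    C * ((n + 1) * Real.exp (-(((L / q : ℕ) : ℝ) ^ 2 / (8 * n))) + (1 / 2) ^ (L / 16)) ≤ 1 / (4 * x) := by
  have hx0 : 0 < x := by linarith
  have hq0 : (0 : ℝ) < q := by exact_mod_cast hq
  have hL1 : (1 : ℝ) ≤ L := by exact_mod_cast hn1.trans hnL
  have hn0 : (0 : ℝ) < n := by exact_mod_cast hn1
  have hnL' : (n : ℝ) ≤ L := by exact_mod_cast hnL
  have h3 : (L : ℝ) ≤ 2 * q * ((L / q : ℕ) : ℝ) := by
    have h4 : L < q * (L / q + 1) := Nat.lt_mul_div_succ _ (by omega)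
    have h5 : 1 ≤ L / q := (Nat.one_le_div_iff hq).2 hqL
    have h6 : L ≤ 2 * q * (L / q) := by nlinarith
    exact_mod_cast h6
  have h7 : (L : ℝ) ^ 2 ≤ (2 * q * ((L / q : ℕ) : ℝ)) ^ 2 := pow_le_pow_left₀ (by positivity) h3 2
  have h8 : (L : ℝ) / (32 * (q : ℝ) ^ 2) ≤ ((L / q : ℕ) : ℝ) ^ 2 / (8 * n) := by
    rw [div_le_div_iff₀ (by positivity) (by positivity)]
    have h9 : (L : ℝ) * (8 * n) ≤ 8 * (L : ℝ) ^ 2 := by nlinarith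
    nlinarith
  have h9 : Real.exp (-(((L / q : ℕ) : ℝ) ^ 2 / (8 * n))) ≤ 2 / ((L : ℝ) / (32 * (q : ℝ) ^ 2)) ^ 2 :=
    (Real.exp_le_exp.2 (neg_le_neg h8)).trans (exp_neg_le_sq (by positivity))
  have h10 : ((n : ℝ) + 1) * Real.exp (-(((L / q : ℕ) : ℝ) ^ 2 / (8 * n))) ≤ 4096 * (q : ℝ) ^ 4 / L := by
    calc ((n : ℝ) + 1) * Real.exp (-(((L / q : ℕ) : ℝ) ^ 2 / (8 * n)))
        ≤ (2 * L) * (2 / ((L : ℝ) / (32 * (q : ℝ) ^ 2)) ^ 2) :=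
          mul_le_mul (by linarith) h9 (Real.exp_pos _).le (by positivity)
      _ = 4096 * (q : ℝ) ^ 4 / L := by field_simp; ring
  have h11 : (1 / 2 : ℝ) ^ (L / 16) ≤ 16 / L := by
    have e1 : L ≤ 16 * 2 ^ (L / 16) := by
      have : L / 16 < 2 ^ (L / 16) := Nat.lt_two_pow_self
      omega
    have e2 : (L : ℝ) ≤ 16 * 2 ^ (L / 16) := by exact_mod_cast e1
    rw [div_pow, one_pow, div_le_div_iff₀ (by positivity) (by linarith)]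
    linarith
  have h12 : ((n : ℝ) + 1) * Real.exp (-(((L / q : ℕ) : ℝ) ^ 2 / (8 * n))) + (1 / 2) ^ (L / 16) ≤
      (4096 * (q : ℝ) ^ 4 + 16) / L := by
    rw [add_div]
    exact add_le_add h10 h11
  refine (mul_le_mul_of_nonneg_left h12 hC.le).trans ?_
  rw [← mul_div_assoc, div_le_div_iff₀ (by linarith) (by positivity)]
  nlinarith

/-- `start` with polynomial dependence, for the class `AdmC`. -/
theorem startC_prop {c₁ : ℝ} (hc₁ : 0 < c₁) (n₀ : ℕ) : StartProp (AdmC c₁ n₀) := by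
  obtain ⟨K₁, E₁, hK₁, hvis⟩ := visits_pow
  obtain ⟨C, L₀, E₀, hC, hsplit⟩ := CollatzTime.split c₁ n₀
  obtain ⟨q₀, hq₀⟩ := exists_nat_ge (24 / c₁)
  obtain ⟨q, hqdef⟩ : ∃ q, q = max q₀ 1000 := ⟨_, rfl⟩
  have hq1 : 1000 ≤ q := hqdef ▸ le_max_right _ _
  have hq2 : 24 / c₁ ≤ q := hq₀.trans (by exact_mod_cast hqdef ▸ le_max_left _ _)
  have hK₁0 : 0 < K₁ := by linarith
  obtain ⟨Ce, hCe⟩ : ∃ Ce : ℝ, Ce = 4 * C * (4096 * (q : ℝ) ^ 4 + 16) := ⟨_, rfl⟩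
  have hCe0 : 0 < Ce := by rw [hCe]; positivity
  obtain ⟨R, hR⟩ : ∃ R : ℕ, R = L₀ + 10000 + 8 * n₀ + q := ⟨_, rfl⟩
  refine ⟨32 * 64 ^ 12 * K₁ + Ce + R, ?_, fun x hx L hL a ha hsmall => ?_⟩
  · have : (0 : ℝ) ≤ R := Nat.cast_nonneg _
    nlinarith
  have hx0 : 0 < x := by linarith
  have hRx : (0 : ℝ) ≤ R := Nat.cast_nonneg _
  have hLa : 4 * C * (4096 * (q : ℝ) ^ 4 + 16) * x ≤ L := by
    rw [← hCe]
    have h1 : 0 ≤ 32 * 64 ^ 12 * K₁ * x := by positivity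
    have h2 : 0 ≤ R * x := by positivity
    nlinarith
  have hLb : 512 * K₁ * x ≤ L := by
    have h1 : 0 ≤ Ce * x := by positivity
    have h2 : 0 ≤ R * x := by positivity
    have h3 : 512 * K₁ * x ≤ 32 * 64 ^ 12 * K₁ * x := by
      have : 0 < K₁ * x := mul_pos hK₁0 hx0
      nlinarith
    nlinarith
  have hRL : R ≤ L := by
    have h1 : 0 ≤ Ce * x := by positivity
    have h2 : 0 ≤ 32 * 64 ^ 12 * K₁ * x := by positivity
    have h3 : (R : ℝ) ≤ R * x := by nlinarith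
    have h4 : (R : ℝ) ≤ L := by nlinarith
    exact_mod_cast h4
  have hL0 : L₀ ≤ L := by omega
  have hL2 : 10000 ≤ L := by omega
  obtain ⟨n₁, hn₁⟩ : ∃ n₁, n₁ = L / 8 := ⟨_, rfl⟩
  obtain ⟨N, hN⟩ : ∃ N, N = L / 16 := ⟨_, rfl⟩
  obtain ⟨Δ, hΔq⟩ : ∃ Δ, Δ = L / q := ⟨_, rfl⟩
  have hΔ : Δ ≤ L / 1000 := hΔq ▸ Nat.div_le_div_left hq1 (by norm_num)
  have hΔc : ∀ n : ℕ, n₁ < n → 3 * (Δ : ℝ) ≤ c₁ * n := by
    intro n hn
    have hq0 : (0 : ℝ) < q := by exact_mod_cast (by omega : 0 < q)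
    have e1 : (Δ : ℝ) * q ≤ L := by
      have : Δ * q ≤ L := hΔq ▸ Nat.div_mul_le_self L q
      exact_mod_cast this
    have e2 : (L : ℝ) ≤ 8 * n := by
      have : L ≤ 8 * n := by omega
      exact_mod_cast this
    rw [div_le_iff₀ hc₁] at hq2
    have e3 : (0 : ℝ) ≤ n := Nat.cast_nonneg _
    have e4 : 3 * (Δ : ℝ) * q ≤ c₁ * n * q := by nlinarith
    exact le_of_mul_le_mul_right e4 hq0
  obtain ⟨ℓ, hℓ⟩ : ∃ ℓ, ℓ = L / 32 := ⟨_, rfl⟩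
  obtain ⟨A, hA⟩ : ∃ A, A = L - sh (n₁ + N) - Δ - 3 := ⟨_, rfl⟩
  obtain ⟨E, hE⟩ : ∃ E, E = max (max E₀ E₁) (4 * L + 100) := ⟨_, rfl⟩
  have hE0 : E₀ ≤ E := hE ▸ le_trans (le_max_left _ _) (le_max_left _ _)
  have hE1 : E₁ ≤ E := hE ▸ le_trans (le_max_right _ _) (le_max_left _ _)
  have hE2 : 4 * L + 100 ≤ E := hE ▸ le_max_right _ _
  have hsh := twelve_sh (n₁ + N)
  obtain ⟨δ, hδ⟩ : ∃ δ : ℝ, δ = 1 / x := ⟨_, rfl⟩
  have hδ0 : 0 < δ := by rw [hδ]; positivity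
  obtain ⟨K, hK⟩ : ∃ K : ℝ, K = K₁ * (64 * x) ^ 12 := ⟨_, rfl⟩
  have hK0 : 0 < K := by rw [hK]; positivity
  -- the window of the ancestors
  have hwin : LS A (A + ℓ) a ≤ δ ^ 2 / (32 * K) * ℓ := by
    refine (hsmall A ℓ (by omega) (by omega) (by omega)).trans ?_
    have h1 : δ ^ 2 / (32 * K) * ℓ = ℓ / (32 * 64 ^ 12 * K₁ * x ^ 14) := by
      rw [hδ, hK]
      field_simp
    rw [h1]
    refine div_le_div_of_nonneg_left (Nat.cast_nonneg _) (by positivity) ?_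
    refine mul_le_mul_of_nonneg_right ?_ (by positivity)
    nlinarith
  -- one depth
  have hone : ∀ n ∈ Ioc n₁ (n₁ + N), LS L (L + 1) a ≤
      (∑ i ∈ Ico A (A + ℓ), ∑ v ∈ win i (i + 1),
        a v * MM E (hw E n (2 ^ L / 2 ^ (i + 2))) (fun _ => 1) v / |(v : ℝ)|) + δ / 4 := by
    intro n hn
    have hn' := mem_Ioc.1 hn
    have h1 := hsplit L 1 n 0 Δ E hL0 le_rfl (by omega) (by omega) (by omega) (by omega) (by omega) (hΔc n (by omega)) hE0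
      (by omega) a ha
    have h2 := CollatzTime.start_main (E := E) hL2 hn₁ hN hΔ hℓ hA hn ha
    have h3 := start_errC_pow hC (q := q) (by omega) hx hLa (by omega) (n := n) (by omega) (by omega)
    have h4 : LS L (L + 1) (fun v => F E 0 v * a v) = LS L (L + 1) a :=
      LS_congr fun v _ => by rw [F_zero, one_mul]
    have h5 : 1 / (4 * x) = δ / 4 := by rw [hδ]; field_simp
    rw [h4, Nat.cast_one, mul_one] at h1
    rw [← hΔq] at h3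
    linarith
  -- sum over the depths
  have hsum : (N : ℝ) * LS L (L + 1) a ≤
      (∑ i ∈ Ico A (A + ℓ), LS i (i + 1) (fun v => a v * Vis E n₁ N (2 ^ L / 2 ^ (i + 2)) v)) + N * (δ / 4) := by
    have h1 := sum_le_sum hone
    rw [sum_const, Nat.card_Ioc, add_tsub_cancel_left, nsmul_eq_mul, sum_add_distrib, sum_const,
      Nat.card_Ioc, add_tsub_cancel_left, nsmul_eq_mul] at h1
    refine h1.trans (le_of_eq ?_)
    congr 1
    rw [sum_comm]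
    refine sum_congr rfl fun i _ => ?_
    rw [sum_comm]
    unfold LS
    refine sum_congr rfl fun v _ => ?_
    unfold Vis
    simp only []
    rw [mul_sum, sum_div]
  have hxN : K₁ * (64 * x) ≤ ((n₁ + N : ℕ) : ℝ) := by
    have h1 : L ≤ 8 * (n₁ + N) := by omega
    have h2 : (L : ℝ) ≤ 8 * ((n₁ + N : ℕ) : ℝ) := by exact_mod_cast h1
    linarith
  -- one dyadic window
  have hdy : ∀ i ∈ Ico A (A + ℓ), LS i (i + 1) (fun v => a v * Vis E n₁ N (2 ^ L / 2 ^ (i + 2)) v) ≤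
      √(2 * K) * √(LS i (i + 1) a) + 2 * (δ / 64) := by
    intro i hi
    have hi' := mem_Ico.1 hi
    obtain ⟨V', V'', p1, p2, p3, p4, p5, p6, p7⟩ := hvis (64 * x) (by linarith) E n₁ N
      (2 ^ L / 2 ^ (i + 2)) hE1 (by omega) (by positivity) hxN
    have p7' : mean (3 ^ (n₁ + N)) V'' ≤ δ / 64 := by
      refine p7.trans (le_of_eq ?_)
      rw [hδ]
      field_simp
    refine CollatzTime.start_window (m := n₁ + N) ?_ ha p1 p2 p3 p4 p5 (hK ▸ p6) p7'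
    have h1 : 3 ^ (n₁ + N) ≤ 2 ^ (i - 7) := three_pow_le (by omega)
    calc 72 * 3 ^ (n₁ + N) ≤ 2 ^ 7 * 2 ^ (i - 7) := Nat.mul_le_mul (by norm_num) h1
      _ = 2 ^ i := by rw [← pow_add]; congr 1; omega
  have hdys := sum_le_sum hdy
  rw [sum_add_distrib, ← mul_sum, sum_const, Nat.card_Ico, add_tsub_cancel_left, nsmul_eq_mul] at hdys
  have hcs := start_cs A ℓ (f := fun i => LS i (i + 1) a) (fun i => LS_nonneg fun v _ => ha.nonneg v)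
  rw [LS_sum_dyadic] at hcs
  have hℓ0 : (0 : ℝ) ≤ ℓ := Nat.cast_nonneg _
  have hroot : √(2 * K) * √(ℓ * LS A (A + ℓ) a) ≤ ℓ * (δ / 4) := by
    rw [← Real.sqrt_mul (by positivity)]
    refine (Real.sqrt_le_sqrt (show 2 * K * (ℓ * LS A (A + ℓ) a) ≤ (ℓ * (δ / 4)) ^ 2 from ?_)).trans
      (le_of_eq (Real.sqrt_sq (by positivity)))
    calc 2 * K * (ℓ * LS A (A + ℓ) a) ≤ 2 * K * (ℓ * (δ ^ 2 / (32 * K) * ℓ)) := by gcongr
      _ = (ℓ * (δ / 4)) ^ 2 := by field_simp; ring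
  have hfin : (N : ℝ) * LS L (L + 1) a ≤ ℓ * (δ / 4) + ℓ * (2 * (δ / 64)) + N * (δ / 4) := by
    have h1 : √(2 * K) * ∑ i ∈ Ico A (A + ℓ), √(LS i (i + 1) a) ≤ √(2 * K) * √(ℓ * LS A (A + ℓ) a) :=
      mul_le_mul_of_nonneg_left hcs (Real.sqrt_nonneg _)
    linarith
  have hNℓ : (ℓ : ℝ) ≤ N := by
    have : ℓ ≤ N := by omega
    exact_mod_cast this
  have hN0 : (0 : ℝ) < N := by
    have : 0 < N := by omega
    exact_mod_cast this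
  have hfin2 : (N : ℝ) * LS L (L + 1) a ≤ N * δ := by nlinarith
  rw [← hδ]
  exact le_of_mul_le_mul_left hfin2 hN0

theorem stepC_prop {c₁ : ℝ} (hc₁ : 0 < c₁) (n₀ : ℕ) : OneStepP (AdmC c₁ n₀) :=
  CollatzTime.one_step mix hc₁ n₀

/-- The crude bound for the class `AdmC`. -/
theorem crudeC_prop {c₁ : ℝ} (n₀ : ℕ) {d : ℕ} (hd : 3000 ≤ d) (hdc : 18 ≤ c₁ * d) :
    CrudeQ (cR d) (fun L₂ a => AdmC c₁ n₀ a ∧ ∀ v : ℤ, |v| < 2 ^ L₂ → a v = 0) := by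
  obtain ⟨C, L₀, E₀, hC, h⟩ := crudeR hd
  refine ⟨C, L₀ + (16 * n₀ + 10000), E₀, hC, ?_⟩
  rintro L₂ A m E hL hA hm hE hE5 a ⟨ha, hz⟩
  have hL1 : L₀ ≤ L₂ := le_trans (Nat.le_add_right _ _) hL
  have hL2 : 16 * n₀ + 10000 ≤ L₂ := le_trans (Nat.le_add_left _ _) hL
  refine h L₂ A m E hL1 hA hm hE hE5 a ha.le_one hz ?_
  intro u hu hau
  exact chainR hd hdc hL2 ha hz A u hu hau

/-- All dyadic windows of the functions of the class `AdmC` that vanish below `2 ^ L₂` are small. -/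
theorem win_smallC {c₁ : ℝ} (hc₁ : 0 < c₁) (n₀ : ℕ) : ∃ (κ : ℝ) (L₀ : ℕ), 0 < κ ∧ ∀ L₂ : ℕ, L₀ ≤ L₂ →
    ∀ a : ℤ → ℝ, AdmC c₁ n₀ a → (∀ v : ℤ, |v| < 2 ^ L₂ → a v = 0) →
    ∀ L : ℕ, LS L (L + 1) a ≤ Real.exp (-(κ * L₂)) := by
  obtain ⟨d₀, hd₀⟩ := exists_nat_ge (18 / c₁)
  obtain ⟨d, hd⟩ : ∃ d, d = max d₀ 3000 := ⟨_, rfl⟩
  have hd3 : 3000 ≤ d := hd ▸ le_max_right _ _
  have hdc : 18 ≤ c₁ * d := by
    have h1 : (d₀ : ℝ) ≤ d := by exact_mod_cast (hd ▸ le_max_left _ _ : d₀ ≤ d)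
    have h2 : 18 / c₁ ≤ d := hd₀.trans h1
    rw [div_le_iff₀ hc₁] at h2
    linarith
  have hκ := cR_pos (d := d) (by omega)
  obtain ⟨L₀, h⟩ := win_small_gen hκ (cR_le hd3) (stepC_prop hc₁ n₀) (startC_prop hc₁ n₀)
    (crudeC_prop n₀ hd3 hdc) (fun L₂ a hQ => hQ.1)
  exact ⟨cR d / 360, L₀, by positivity, fun L₂ hL a ha hz L => h L₂ hL a ⟨ha, hz⟩ L⟩

end CollatzPow
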