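import Pool.Agent.CollatzTime.StepC

set_option autoImplicit false

/-!
# Functions that do not increase along very regular words: one step
-/

namespace CollatzPow

open CollatzLin CollatzOne CollatzTime Finset Filter Topology

/-- Functions with values in `[0, 1]` that do not increase along very regular words. -/
structure AdmH (n₀ : ℕ) (a : ℤ → ℝ) : Prop where
  nonneg : ∀ v, 0 ≤ a v
  le_one : ∀ v, a v ≤ 1
  mono : ∀ (n Δ L : ℕ) (W : List ℕ) (v : ℤ), n₀ ≤ n → (Δ : ℝ) ≤ 50 * (n : ℝ) ^ (3 / 4 : ℝ) → Δ ≤ n →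
    4 * n ≤ L → (∀ e ∈ W, 1 ≤ e) → W.length = n → Reg Δ W → dst W ≤ 2 ^ (L / 8) → OO v → vd W v →
    (2 : ℤ) ^ L ≤ |ch W v| → |ch W v| < 2 ^ (100 * n) → a (ch W v) ≤ a v

theorem splitH (n₀ : ℕ) : ∃ (C : ℝ) (L₀ E₀ : ℕ), 0 < C ∧ ∀ L ℓ n m Δ E : ℕ, L₀ ≤ L → 1 ≤ ℓ → 1 ≤ n → 4 * n ≤ L →
    16 * m ≤ L → 3 * Δ ≤ n → n₀ ≤ n →
    3 * (Δ : ℝ) ≤ 50 * (n : ℝ) ^ (3 / 4 : ℝ) → L + ℓ ≤ 100 * n → E₀ ≤ E → 2 * (L + ℓ + n + 4) ≤ E → ∀ a : ℤ → ℝ, AdmH n₀ a →
    LS L (L + ℓ) (fun v => F E m v * a v) ≤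
      (∑ v ∈ bx (L + ℓ + n), ∑ W ∈ typR E n Δ L, if vd W v ∧ ch W v ∈ win L (L + ℓ) then
        wt E W * F E m (ch W v) * a v / |(v : ℝ)| else 0) +
      C * ℓ * ((n + 1) * Real.exp (-((Δ : ℝ) ^ 2 / (8 * n))) + (1 / 2) ^ (L / 16)) := by
  obtain ⟨E₀, hE₀⟩ := Pr_not_typR
  refine ⟨300, 16, max E₀ 1, by norm_num, fun L ℓ n m Δ E hL hℓ hn hnL hmL hΔ3 hn₀ hΔc hnu hE hE2 a ha => ?_⟩
  have hΔ : Δ ≤ n := by omega
  have hE1 : 1 ≤ E := (le_max_right _ _).trans hE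
  have hnt := hE₀ L n Δ E hn hΔ ((le_max_left _ _).trans hE) (by omega)
  set B := L + ℓ with hB
  set δ : ℝ := (1 / 2) ^ (L / 16) with hδ
  set x : ℝ := (n + 1) * Real.exp (-((Δ : ℝ) ^ 2 / (8 * n))) with hx
  have hδ0 : 0 < δ := by positivity
  have hx0 : 0 < x := by positivity
  have hℓr : (1 : ℝ) ≤ ℓ := by exact_mod_cast hℓ
  have hF0 : ∀ v, 0 ≤ F E m v := F_nonneg E m
  have hmean : mean (3 ^ m) (F E m) = 1 := mean_F hE1 m
  -- the two functions
  set g1 : ℤ → ℝ := fun u => if u ∈ win L B then F E m u * a u / |(u : ℝ)| else 0 with hg1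
  set g2 : ℤ → ℝ := fun u => if u ∈ win L B then F E m u / |(u : ℝ)| else 0 with hg2
  have hout : ∀ u : ℤ, 2 ^ B ≤ |u| → u ∉ win L B := by
    intro u hu h
    rw [sp_mem_win] at h
    omega
  have hT1 := transport (B := B) (n := n) (E := E) (by omega) g1 (fun u hu => by
    simp only [hg1]; exact if_neg (hout u hu))
  have hT2 := transport (B := B) (n := n) (E := E) (by omega) g2 (fun u hu => by
    simp only [hg2]; exact if_neg (hout u hu))
  have hg10 : ∀ u, g1 u ≤ g2 u := by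
    intro u
    simp only [hg1, hg2]
    split_ifs
    · refine div_le_div_of_nonneg_right ?_ (abs_nonneg _)
      calc F E m u * a u ≤ F E m u * 1 := mul_le_mul_of_nonneg_left (ha.le_one u) (hF0 u)
        _ = _ := mul_one _
    · exact le_rfl
  have hg20 : ∀ u, 0 ≤ g2 u := by
    intro u
    simp only [hg2]
    split_ifs
    · exact div_nonneg (hF0 u) (abs_nonneg _)
    · exact le_rfl
  -- sizes
  have h3m : (3 : ℝ) ^ m ≤ 2 ^ (2 * m) := by
    rw [pow_mul]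
    exact pow_le_pow_left₀ (by norm_num) (by norm_num) m
  have hδeq : δ * 2 ^ (L / 16) = 1 := by
    rw [hδ, ← mul_pow]; norm_num
  have hsmall : 36 * 3 ^ m / (2 : ℝ) ^ L * (1 + 2 ^ (2 * n + Δ)) ≤ 36 * δ := by
    have h1 : (1 : ℝ) + 2 ^ (2 * n + Δ) ≤ 2 ^ (3 * n + 1) := by
      have h2 : (1 : ℝ) ≤ 2 ^ (3 * n) := one_le_pow₀ (by norm_num)
      have h3 : (2 : ℝ) ^ (2 * n + Δ) ≤ 2 ^ (3 * n) := pow_le_pow_right₀ (by norm_num) (by omega)
      rw [pow_succ]
      linarith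
    have h2 : (3 : ℝ) ^ m * (1 + 2 ^ (2 * n + Δ)) * 2 ^ (L / 16) ≤ 2 ^ L := by
      calc (3 : ℝ) ^ m * (1 + 2 ^ (2 * n + Δ)) * 2 ^ (L / 16) ≤
            2 ^ (2 * m) * 2 ^ (3 * n + 1) * 2 ^ (L / 16) := by gcongr
        _ = 2 ^ (2 * m + (3 * n + 1) + L / 16) := by rw [← pow_add, ← pow_add]
        _ ≤ 2 ^ L := pow_le_pow_right₀ (by norm_num) (by omega)
    have h3 : (3 : ℝ) ^ m * (1 + 2 ^ (2 * n + Δ)) ≤ δ * 2 ^ L := by
      have h4 := mul_le_mul_of_nonneg_left h2 hδ0.le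
      calc (3 : ℝ) ^ m * (1 + 2 ^ (2 * n + Δ)) = δ * 2 ^ (L / 16) * ((3 : ℝ) ^ m * (1 + 2 ^ (2 * n + Δ))) := by
            rw [hδeq, one_mul]
        _ = δ * (3 ^ m * (1 + 2 ^ (2 * n + Δ)) * 2 ^ (L / 16)) := by ring
        _ ≤ _ := h4
    rw [div_mul_eq_mul_div, div_le_iff₀ (by positivity)]
    linarith
  have hsmall1 : 36 * 3 ^ m / (2 : ℝ) ^ L ≤ 36 * δ := by
    refine le_trans ?_ hsmall
    have h1 : (0 : ℝ) ≤ 36 * 3 ^ m / (2 : ℝ) ^ L := by positivity
    have h2 : (1 : ℝ) ≤ 1 + 2 ^ (2 * n + Δ) := by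
      have : (0 : ℝ) ≤ 2 ^ (2 * n + Δ) := by positivity
      linarith
    nlinarith
  have hnat : 4 * 3 ^ m ≤ 2 ^ L := by
    have h1 : 3 ^ m ≤ 2 ^ (2 * m) := by
      rw [pow_mul]
      exact Nat.pow_le_pow_left (by norm_num) m
    calc 4 * 3 ^ m ≤ 2 ^ 2 * 2 ^ (2 * m) := Nat.mul_le_mul (by norm_num) h1
      _ = 2 ^ (2 + 2 * m) := by rw [← pow_add]
      _ ≤ 2 ^ L := Nat.pow_le_pow_right (by norm_num) (by omega)
  have hlog : 3 / 2 * Real.log 2 ≤ 2 := by
    have := Real.log_two_lt_d9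
    linarith
  have hlog0 : 0 ≤ 3 / 2 * Real.log 2 := by
    have := Real.log_nonneg (show (1 : ℝ) ≤ 2 by norm_num)
    linarith
  have hBL : ((B : ℝ) - L) = ℓ := by
    rw [hB]; push_cast; ring
  -- total mass
  have htot : ∑ u ∈ bx B, g2 u = LS L B (F E m) := by rw [LS_eq]
  have hLSper := LS_per (A := L) (B := B) (by omega) hnat (F_per E m) hF0
  rw [hmean, mul_one, mul_one, hBL] at hLSper
  have hLSub : LS L B (F E m) ≤ 3 / 2 * Real.log 2 * ℓ + 36 * 3 ^ m / 2 ^ L := by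
    have := (abs_le.1 hLSper).2
    linarith
  -- the typical part of the transported mass
  set T2 : ℝ := ∑ v ∈ bx (B + n), ∑ W ∈ typR E n Δ L, if vd W v then g2 (ch W v) else 0 with hT2def
  have hT2lb : 3 / 2 * Real.log 2 * ℓ * (Z E ^ n * Pr E (typR E n Δ L)) -
      (typR E n Δ L).card * (36 * 3 ^ m / 2 ^ L) ≤ T2 := by
    rw [hT2def, sum_comm]
    have h1 : ∀ W ∈ typR E n Δ L, 3 / 2 * Real.log 2 * ℓ * (1 / 2 ^ js W) - 36 * 3 ^ m / 2 ^ L ≤
        ∑ v ∈ bx (B + n), if vd W v then g2 (ch W v) else 0 := by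
      intro W hW
      have hW' := sp_mem_typ.1 (typR_sub _ _ _ _ hW)
      have hjs : 4 * 3 ^ m * 2 ^ js W ≤ 2 ^ L := by
        have h1 : 3 ^ m ≤ 2 ^ (2 * m) := by
          rw [pow_mul]
          exact Nat.pow_le_pow_left (by norm_num) m
        calc 4 * 3 ^ m * 2 ^ js W ≤ 2 ^ 2 * 2 ^ (2 * m) * 2 ^ (3 * n) :=
              Nat.mul_le_mul (Nat.mul_le_mul (by norm_num) h1) (Nat.pow_le_pow_right (by norm_num) (by omega))
          _ = 2 ^ (2 + 2 * m + 3 * n) := by rw [← pow_add, ← pow_add]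
          _ ≤ 2 ^ L := Nat.pow_le_pow_right (by norm_num) (by omega)
      have h2 := LS_class (n := n) (A := L) (B := B) (one_le_of_mem hW'.1) (length_of_mem hW'.1) (by omega) hjs
        (F_per E m) hF0
      rw [hmean, mul_one, mul_one, hBL] at h2
      refine le_trans (le_of_eq ?_) (h2.trans (le_of_eq ?_))
      · rw [mul_one_div]
      · refine sum_congr rfl fun v _ => ?_
        simp only [hg2]
        by_cases hvd : vd W v
        · by_cases hw : ch W v ∈ win L B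
          · rw [if_pos ⟨hvd, hw⟩, if_pos hvd, if_pos hw]
          · rw [if_neg (fun h => hw h.2), if_pos hvd, if_neg hw]
        · rw [if_neg (fun h => hvd h.1), if_neg hvd]
    refine le_trans (le_of_eq ?_) (sum_le_sum h1)
    rw [sum_sub_distrib, ← mul_sum, sum_inv_eq hE1 (fun W hW => length_of_mem (typR_sub' _ _ _ _ hW)),
      sum_const, nsmul_eq_mul]
  -- the non typical part
  have hNT : ∑ v ∈ bx (B + n), ∑ W ∈ words E n \ typR E n Δ L, (if vd W v then g1 (ch W v) else 0) ≤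
      LS L B (F E m) - T2 := by
    have h1 : ∑ v ∈ bx (B + n), ∑ W ∈ words E n \ typR E n Δ L, (if vd W v then g1 (ch W v) else 0) ≤
        ∑ v ∈ bx (B + n), ∑ W ∈ words E n \ typR E n Δ L, (if vd W v then g2 (ch W v) else 0) := by
      refine sum_le_sum fun v _ => sum_le_sum fun W _ => ?_
      split_ifs
      · exact hg10 _
      · exact le_rfl
    refine h1.trans (le_of_eq ?_)
    rw [← htot, hT2, hT2def, ← sum_sub_distrib]
    refine sum_congr rfl fun v _ => ?_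
    rw [← sum_sdiff (typR_sub' E n Δ L)]
    ring
  have hPr1 : Pr E (typR E n Δ L) ≤ 1 := by
    have := Pr_mono (E := E) (typR_sub' E n Δ L)
    rwa [Pr_words hE1] at this
  have hPr0 := Pr_nonneg E (typR E n Δ L)
  have hZn := Z_pow_ge E n
  have hZn1 : Z E ^ n ≤ 1 := pow_le_one₀ (Z_nonneg E) (Z_le_one E)
  have hnE : (n : ℝ) / 2 ^ E ≤ δ := by
    have h1 : n < 2 ^ n := Nat.lt_two_pow_self
    have h2 : (n : ℝ) ≤ 2 ^ n := by exact_mod_cast h1.le
    rw [div_le_iff₀ (by positivity)]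
    calc (n : ℝ) ≤ 2 ^ n := h2
      _ = δ * 2 ^ (L / 16) * 2 ^ n := by rw [hδeq, one_mul]
      _ = δ * 2 ^ (L / 16 + n) := by rw [mul_assoc, ← pow_add]
      _ ≤ δ * 2 ^ E := mul_le_mul_of_nonneg_left (pow_le_pow_right₀ (by norm_num) (by omega)) hδ0.le
  have hbrace : LS L B (F E m) - T2 ≤ ℓ * (8 * x + 198 * δ) := by
    have h1 : 1 - Z E ^ n * Pr E (typR E n Δ L) ≤ δ + (4 * x + 80 * δ) := by
      have h2 : (1 - Z E ^ n) * Pr E (typR E n Δ L) ≤ (1 - Z E ^ n) * 1 :=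
        mul_le_mul_of_nonneg_left hPr1 (by linarith)
      nlinarith
    have h2 : 3 / 2 * Real.log 2 * ℓ * (1 - Z E ^ n * Pr E (typR E n Δ L)) ≤ 2 * ℓ * (δ + (4 * x + 80 * δ)) := by
      have h3 : 0 ≤ 1 - Z E ^ n * Pr E (typR E n Δ L) := by
        have : Z E ^ n * Pr E (typR E n Δ L) ≤ 1 * 1 :=
          mul_le_mul hZn1 hPr1 hPr0 (by norm_num)
        linarith
      have h4 : 3 / 2 * Real.log 2 * ℓ ≤ 2 * ℓ := mul_le_mul_of_nonneg_right hlog (by linarith)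
      exact mul_le_mul h4 h1 h3 (by linarith)
    have h3 : (typR E n Δ L).card * (36 * 3 ^ m / (2 : ℝ) ^ L) + 36 * 3 ^ m / (2 : ℝ) ^ L ≤ 36 * δ := by
      refine le_trans ?_ hsmall
      have h4 := card_typR_le (E := E) (n := n) (Δ := Δ) (L := L) hE1
      have h5 : (0 : ℝ) ≤ 36 * 3 ^ m / (2 : ℝ) ^ L := by positivity
      nlinarith [mul_le_mul_of_nonneg_right h4 h5]
    have h4 : 36 * δ ≤ 36 * (ℓ * δ) := by nlinarith
    have h5 : 3 / 2 * Real.log 2 * ℓ * (1 - Z E ^ n * Pr E (typR E n Δ L)) =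
        3 / 2 * Real.log 2 * ℓ - 3 / 2 * Real.log 2 * ℓ * (Z E ^ n * Pr E (typR E n Δ L)) := by ring
    have h6 : 2 * (ℓ : ℝ) * (δ + (4 * x + 80 * δ)) = 162 * (ℓ * δ) + 8 * (ℓ * x) := by ring
    have h7 : (ℓ : ℝ) * (8 * x + 198 * δ) = 198 * (ℓ * δ) + 8 * (ℓ * x) := by ring
    rw [h7]
    rw [h5, h6] at h2
    linarith
  -- the typical part
  have hT1ub : ∑ v ∈ bx (B + n), ∑ W ∈ typR E n Δ L, (if vd W v then g1 (ch W v) else 0) ≤
      (∑ v ∈ bx (B + n), ∑ W ∈ typR E n Δ L, if vd W v ∧ ch W v ∈ win L B then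
        wt E W * F E m (ch W v) * a v / |(v : ℝ)| else 0) + δ * LS L B (F E m) := by
    have h1 : ∀ v ∈ bx (B + n), ∀ W ∈ typR E n Δ L, (if vd W v then g1 (ch W v) else 0) ≤
        (if vd W v ∧ ch W v ∈ win L B then wt E W * F E m (ch W v) * a v / |(v : ℝ)| else 0) +
        δ * (if vd W v then g2 (ch W v) else 0) := by
      intro v hv W hW
      by_cases hvd : vd W v
      · by_cases hw : ch W v ∈ win L B
        · simp only [hg1, hg2]
          have hand : vd W v ∧ ch W v ∈ win L B := ⟨hvd, hw⟩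
          rw [if_pos hvd, if_pos hand, if_pos hw, if_pos hvd, if_pos hw]
          have hW' := sp_mem_typ.1 (typR_sub _ _ _ _ hW)
          have hOO := (sp_mem_bx.1 hv).2
          have h2 := typ_point hL hnL hΔ hE1 (typR_sub _ _ _ _ hW) hvd (sp_mem_win.1 hw).2
          have h3 := ha.mono n (3 * Δ) L W v hn₀ (by push_cast; exact hΔc) hΔ3 hnL (one_le_of_mem hW'.1)
            (length_of_mem hW'.1) (mem_typR.1 hW).2 hW'.2.2.2 hOO hvd (sp_mem_win.1 hw).2
            (lt_of_lt_of_le (sp_mem_win.1 hw).1.1 (pow_le_pow_right₀ (by norm_num) hnu))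
          have h4 := ha.nonneg v
          have h5 := ha.le_one v
          have h6 := hF0 (ch W v)
          have h7 : (0 : ℝ) ≤ 1 / |(ch W v : ℝ)| := by positivity
          calc F E m (ch W v) * a (ch W v) / |(ch W v : ℝ)|
              = F E m (ch W v) * a (ch W v) * (1 / |(ch W v : ℝ)|) := by ring
            _ ≤ F E m (ch W v) * a v * (1 / |(ch W v : ℝ)|) :=
                mul_le_mul_of_nonneg_right (mul_le_mul_of_nonneg_left h3 h6) h7
            _ ≤ F E m (ch W v) * a v * (wt E W / |(v : ℝ)| + δ / |(ch W v : ℝ)|) :=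
                mul_le_mul_of_nonneg_left h2 (mul_nonneg h6 h4)
            _ = wt E W * F E m (ch W v) * a v / |(v : ℝ)| + F E m (ch W v) * a v * (δ / |(ch W v : ℝ)|) := by
                ring
            _ ≤ wt E W * F E m (ch W v) * a v / |(v : ℝ)| + F E m (ch W v) * 1 * (δ / |(ch W v : ℝ)|) := by
                have h8 : (0 : ℝ) ≤ δ / |(ch W v : ℝ)| := by positivity
                have h9 := mul_le_mul_of_nonneg_right (mul_le_mul_of_nonneg_left h5 h6) h8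
                linarith
            _ = _ := by ring
        · have e1 : g1 (ch W v) = 0 := if_neg hw
          have e2 : g2 (ch W v) = 0 := if_neg hw
          have hand : ¬ (vd W v ∧ ch W v ∈ win L B) := fun h => hw h.2
          rw [e1, e2, if_neg hand, ite_self, mul_zero, add_zero]
      · have hand : ¬ (vd W v ∧ ch W v ∈ win L B) := fun h => hvd h.1
        rw [if_neg hvd, if_neg hand, if_neg hvd, mul_zero, add_zero]
    have h2 := sum_le_sum fun v hv => sum_le_sum (h1 v hv)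
    refine h2.trans ?_
    simp only [sum_add_distrib, ← mul_sum]
    have h3 : ∑ v ∈ bx (B + n), ∑ W ∈ typR E n Δ L, (if vd W v then g2 (ch W v) else 0) ≤ LS L B (F E m) := by
      rw [← htot, hT2]
      refine sum_le_sum fun v _ => ?_
      refine sum_le_sum_of_subset_of_nonneg (typR_sub' _ _ _ _) fun W _ _ => ?_
      split_ifs
      · exact hg20 _
      · exact le_rfl
    have h4 := mul_le_mul_of_nonneg_left h3 hδ0.le
    linarith
  have hδ1 : δ ≤ 1 := pow_le_one₀ (by norm_num) (by norm_num)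
  have hextra : δ * LS L B (F E m) ≤ ℓ * (38 * δ) := by
    have h1 : LS L B (F E m) ≤ 2 * ℓ + 36 * δ := by
      have h2 : 3 / 2 * Real.log 2 * ℓ ≤ 2 * ℓ := mul_le_mul_of_nonneg_right hlog (by linarith)
      linarith
    have h2 : LS L B (F E m) ≤ 38 * ℓ := by linarith
    calc δ * LS L B (F E m) ≤ δ * (38 * ℓ) := mul_le_mul_of_nonneg_left h2 hδ0.le
      _ = _ := by ring
  have hLS1 : LS L B (fun v => F E m v * a v) = ∑ u ∈ bx B, g1 u := by rw [LS_eq]
  have hsum : ∑ u ∈ bx B, g1 u =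
      ∑ v ∈ bx (B + n), ∑ W ∈ words E n \ typR E n Δ L, (if vd W v then g1 (ch W v) else 0) +
      ∑ v ∈ bx (B + n), ∑ W ∈ typR E n Δ L, (if vd W v then g1 (ch W v) else 0) := by
    rw [hT1, ← sum_add_distrib]
    refine sum_congr rfl fun v _ => ?_
    rw [← sum_sdiff (typR_sub' E n Δ L)]
  rw [hLS1, hsum]
  have hfin : (ℓ : ℝ) * (8 * x + 198 * δ) + ℓ * (38 * δ) ≤ 300 * ℓ * (x + δ) := by
    have h1 : 0 ≤ (ℓ : ℝ) * x := by positivity
    have h2 : 0 ≤ (ℓ : ℝ) * δ := by positivity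
    nlinarith
  linarith


theorem stepH (n₀ : ℕ) : ∃ (C : ℝ) (L₀ E₀ : ℕ), 0 < C ∧ ∀ L ℓ n m Δ E : ℕ, L₀ ≤ L → 1 ≤ ℓ → 1 ≤ n → 4 * n ≤ L →
    16 * m ≤ L → 3 * Δ ≤ n → n₀ ≤ n →
    3 * (Δ : ℝ) ≤ 50 * (n : ℝ) ^ (3 / 4 : ℝ) → L + ℓ ≤ 100 * n → E₀ ≤ E → 2 * (L + ℓ + n + 4) ≤ E → ∀ a : ℤ → ℝ, AdmH n₀ a →
    LS L (L + ℓ) (fun v => F E m v * a v) ≤
      LS (L - sh n) (L - sh n + ℓ) (fun v => F E (n + m) v * a v) + C * (Δ + 1) +
      C * ℓ * ((n + 1) * Real.exp (-((Δ : ℝ) ^ 2 / (8 * n))) + (1 / 2) ^ (L / 16)) := by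
  classical
  obtain ⟨C₀, L₀, E₀, hC₀, hsplit⟩ := splitH n₀
  refine ⟨C₀ + 24, max L₀ 32, max E₀ 1, by linarith, ?_⟩
  intro L ℓ n m Δ E hL hℓ hn h4 h16 hΔ3 hn₀ hΔc hnu hE hE2 a ha
  have hΔ : Δ ≤ n := by omega
  have hL0 : L₀ ≤ L := (le_max_left _ _).trans hL
  have hL32 : 32 ≤ L := (le_max_right _ _).trans hL
  have hE0 : E₀ ≤ E := (le_max_left _ _).trans hE
  have hE1 : 1 ≤ E := (le_max_right _ _).trans hE
  have h1 := hsplit L ℓ n m Δ E hL0 hℓ hn h4 h16 hΔ3 hn₀ hΔc hnu hE0 hE2 a ha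
  have hsn := two_sh_leS n
  set s := sh n with hs
  set A' := L - s - Δ - 2 with hA'
  set B' := L - s + ℓ + (Δ + 1) with hB'
  -- the sum over typical words
  have h2 : (∑ v ∈ bx (L + ℓ + n), ∑ W ∈ typR E n Δ L, if vd W v ∧ ch W v ∈ win L (L + ℓ) then
        wt E W * F E m (ch W v) * a v / |(v : ℝ)| else 0) ≤
      LS A' B' (fun v => F E (n + m) v * a v) := by
    have hpt : ∀ v ∈ bx (L + ℓ + n), (∑ W ∈ typR E n Δ L, if vd W v ∧ ch W v ∈ win L (L + ℓ) then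
        wt E W * F E m (ch W v) * a v / |(v : ℝ)| else 0) ≤
        if v ∈ win A' B' then F E (n + m) v * a v / |(v : ℝ)| else 0 := by
      intro v hv
      have hOO : OO v := by
        unfold bx at hv
        exact (Finset.mem_filter.1 hv).2
      by_cases hw : v ∈ win A' B'
      · rw [if_pos hw, F_add]
        unfold MM
        rw [Finset.sum_mul, Finset.sum_div]
        have hsub : typR E n Δ L ⊆ words E n := typR_sub' _ _ _ _
        refine le_trans ?_ (Finset.sum_le_sum_of_subset_of_nonneg hsub ?_)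
        · refine Finset.sum_le_sum fun W _ => ?_
          by_cases hc : vd W v ∧ ch W v ∈ win L (L + ℓ)
          · rw [if_pos hc, if_pos hc.1]
          · rw [if_neg hc]
            split_ifs
            · have e1 := wt_nonneg E W
              have e2 := F_nonneg E m (ch W v)
              have e3 := ha.nonneg v
              positivity
            · simp
        · intro W _ _
          split_ifs
          · have e1 := wt_nonneg E W
            have e2 := F_nonneg E m (ch W v)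
            have e3 := ha.nonneg v
            positivity
          · simp
      · rw [if_neg hw]
        refine le_of_eq (Finset.sum_eq_zero fun W hW => ?_)
        rw [if_neg]
        rintro ⟨hc1, hc2⟩
        exact hw (win_of_typ (by omega) (typR_sub _ _ _ _ hW) hOO hc1 hc2)
    refine (Finset.sum_le_sum hpt).trans ?_
    rw [← Finset.sum_filter]
    unfold LS
    refine Finset.sum_le_sum_of_subset_of_nonneg ?_ ?_
    · intro v hv
      exact (Finset.mem_filter.1 hv).2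
    · intro v _ _
      have e2 := F_nonneg E (n + m) v
      have e3 := ha.nonneg v
      positivity
  -- the extensions of the window
  have hnm : 4 * 3 ^ (n + m) ≤ 2 ^ A' := by
    have h5 : (3 ^ (n + m)) ^ 16 ≤ (2 ^ L) ^ 8 := by
      calc (3 ^ (n + m)) ^ 16 = 3 ^ (16 * (n + m)) := by rw [← pow_mul, mul_comm]
        _ ≤ 3 ^ (5 * L) := Nat.pow_le_pow_right (by norm_num) (by omega)
        _ = (3 ^ 5) ^ L := by rw [pow_mul]
        _ ≤ (2 ^ 8) ^ L := Nat.pow_le_pow_left (by norm_num) L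
        _ = (2 ^ L) ^ 8 := by rw [← pow_mul, ← pow_mul, mul_comm]
    have h6 : (3 ^ (n + m)) ^ 2 ≤ 2 ^ L := by
      have : ((3 ^ (n + m)) ^ 2) ^ 8 ≤ (2 ^ L) ^ 8 := by rw [← pow_mul]; exact h5
      exact (Nat.pow_le_pow_iff_left (by norm_num)).1 this
    have h7 : (4 * 3 ^ (n + m)) ^ 2 ≤ (2 ^ A') ^ 2 := by
      calc (4 * 3 ^ (n + m)) ^ 2 = 2 ^ 4 * (3 ^ (n + m)) ^ 2 := by rw [mul_pow]; norm_num
        _ ≤ 2 ^ 4 * 2 ^ L := Nat.mul_le_mul_left _ h6
        _ = 2 ^ (4 + L) := by rw [pow_add]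
        _ ≤ 2 ^ (A' * 2) := Nat.pow_le_pow_right (by norm_num) (by omega)
        _ = (2 ^ A') ^ 2 := by rw [pow_mul]
    exact (Nat.pow_le_pow_iff_left (by norm_num)).1 h7
  have hFa : ∀ v, F E (n + m) v * a v ≤ F E (n + m) v := fun v =>
    mul_le_of_le_one_right (F_nonneg _ _ _) (ha.le_one v)
  have hsplit1 : LS A' B' (fun v => F E (n + m) v * a v) =
      LS A' (L - s) (fun v => F E (n + m) v * a v) +
      (LS (L - s) (L - s + ℓ) (fun v => F E (n + m) v * a v) +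
       LS (L - s + ℓ) B' (fun v => F E (n + m) v * a v)) := by
    rw [LS_addS (B := L - s) (by omega) (by omega), LS_addS (A := L - s) (B := L - s + ℓ) (by omega)
      (by omega)]
  have hx1 := LS_F_le (A := A') (B := L - s) hE1 (by omega) hnm hFa
  have hx2 := LS_F_le (A := L - s + ℓ) (B := B') hE1 (by omega)
    (hnm.trans (Nat.pow_le_pow_right (by norm_num) (by omega))) hFa
  have hc1 : ((L - s : ℕ) : ℝ) - (A' : ℕ) = Δ + 2 := by
    have : L - s = A' + (Δ + 2) := by omega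
    rw [this]; push_cast; ring
  have hc2 : ((B' : ℕ) : ℝ) - ((L - s + ℓ : ℕ) : ℝ) = Δ + 1 := by
    have : B' = (L - s + ℓ) + (Δ + 1) := by omega
    rw [this]; push_cast; ring
  rw [hc1] at hx1
  rw [hc2] at hx2
  have hlast : C₀ * ℓ * ((n + 1) * Real.exp (-((Δ : ℝ) ^ 2 / (8 * n))) + (1 / 2) ^ (L / 16)) ≤
      (C₀ + 24) * ℓ * ((n + 1) * Real.exp (-((Δ : ℝ) ^ 2 / (8 * n))) + (1 / 2) ^ (L / 16)) := by
    have : 0 ≤ (n + 1) * Real.exp (-((Δ : ℝ) ^ 2 / (8 * n))) + (1 / 2) ^ (L / 16) := by positivity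
    gcongr
    linarith
  have hΔ0 : (0 : ℝ) ≤ Δ := Nat.cast_nonneg _
  have hΔ1 : 2 * ((Δ : ℝ) + 2) + 9 + (2 * (Δ + 1) + 9) ≤ (C₀ + 24) * (Δ + 1) := by nlinarith
  rw [hsplit1] at h2
  linarith


end CollatzPow
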