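import Pool.Agent.CollatzPow.PointF
import Pool.Agent.CollatzLin.Visits

set_option autoImplicit false

/-!
# Visits of a height window, with polynomial constants
-/

namespace CollatzPow

open CollatzOne CollatzLin Finset

lemma pow_le_inv {n : ℕ} (hn : 1 ≤ n) : (49 / 50 : ℝ) ^ n ≤ 50 / n := by
  have h0 : (0 : ℝ) < n := by exact_mod_cast hn
  have h1 := one_add_mul_le_pow (a := (1 / 49 : ℝ)) (by norm_num) n
  have h2 : (49 / 50 : ℝ) ^ n * (1 + 1 / 49) ^ n = 1 := by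
    rw [← mul_pow]; norm_num
  have h3 : (n : ℝ) / 50 ≤ (1 + 1 / 49) ^ n := by linarith
  have h4 : (0 : ℝ) < (49 / 50 : ℝ) ^ n := by positivity
  have h5 : (49 / 50 : ℝ) ^ n * (n / 50) ≤ 1 := by
    calc (49 / 50 : ℝ) ^ n * (n / 50) ≤ (49 / 50 : ℝ) ^ n * (1 + 1 / 49) ^ n :=
          mul_le_mul_of_nonneg_left h3 h4.le
      _ = 1 := h2
  rw [le_div_iff₀ h0]
  linarith

lemma exp_neg_le_sq {t : ℝ} (ht : 0 < t) : Real.exp (-t) ≤ 2 / t ^ 2 := by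
  have h1 := Real.quadratic_le_exp_of_nonneg ht.le
  have h2 : Real.exp (-t) * Real.exp t = 1 := by rw [← Real.exp_add]; simp
  have h3 := Real.exp_pos (-t)
  rw [le_div_iff₀ (by positivity)]
  have h4 : t ^ 2 ≤ 2 * Real.exp t := by nlinarith
  calc Real.exp (-t) * t ^ 2 ≤ Real.exp (-t) * (2 * Real.exp t) := mul_le_mul_of_nonneg_left h4 h3.le
    _ = 2 := by linarith

/-- `visits` with polynomial dependence. -/
theorem visits_pow : ∃ (C : ℝ) (E₀ : ℕ), 1 ≤ C ∧ ∀ x : ℝ, 1 ≤ x → ∀ E n₁ N : ℕ, ∀ H : ℝ, E₀ ≤ E →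
    n₁ + N + 1 ≤ E → 0 < H → C * x ≤ ((n₁ + N : ℕ) : ℝ) →
    ∃ V' V'' : ℤ → ℝ, Per (3 ^ (n₁ + N)) V' ∧ Per (3 ^ (n₁ + N)) V'' ∧
    (∀ v, 0 ≤ V' v) ∧ (∀ v, 0 ≤ V'' v) ∧ (∀ v, Vis E n₁ N H v = V' v + V'' v) ∧
    mean (3 ^ (n₁ + N)) (fun v => V' v ^ 2) ≤ C * x ^ 12 ∧ mean (3 ^ (n₁ + N)) V'' ≤ 1 / x := by
  obtain ⟨C, E₁, hC, hmix⟩ := mix
  obtain ⟨B, hB⟩ : ∃ B : ℝ, B = 10 ^ 6 + 1000 * C := ⟨_, rfl⟩
  have hB6 : (10 : ℝ) ^ 6 ≤ B := by rw [hB]; linarith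
  have hBC : 1000 * C ≤ B := by rw [hB]; norm_num
  have hB0 : 0 < B := by linarith [show (0 : ℝ) < 10 ^ 6 by norm_num]
  have hBB : 10 ^ 6 * B ≤ B * B := mul_le_mul_of_nonneg_right hB6 hB0.le
  refine ⟨8 * 10 ^ 40 * B ^ 2, max E₁ 6, ?_, fun x hx E n₁ N H hE₀ hE hH hxN => ?_⟩
  · nlinarith
  have hE6 : 6 ≤ E := (le_max_right _ _).trans hE₀
  have hE1 : 1 ≤ E := by omega
  have hE₁ : E₁ ≤ E := (le_max_left _ _).trans hE₀
  have hx0 : 0 < x := by linarith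
  have hx2 : x ≤ x ^ 2 := by nlinarith
  -- choice of `n₂`
  obtain ⟨n₂, hn₂⟩ : ∃ n₂ : ℕ, n₂ = ⌈40000 * x⌉₊ := ⟨_, rfl⟩
  have hn₂a : 40000 * x ≤ n₂ := hn₂ ▸ Nat.le_ceil _
  have hn₂b : (n₂ : ℝ) < 40000 * x + 1 := hn₂ ▸ Nat.ceil_lt_add_one (by positivity)
  have hn₂c : (n₂ : ℝ) + 1 ≤ 50000 * x := by linarith
  have hn₂d : (0 : ℝ) ≤ n₂ + 1 := by linarith
  have hn₂e : 1 ≤ n₂ := by
    have : (1 : ℝ) ≤ n₂ := by linarith
    exact_mod_cast this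
  have hn₂f : 200 * (49 / 50 : ℝ) ^ n₂ ≤ 1 / (4 * x) := by
    have h1 := pow_le_inv hn₂e
    have h2 : (50 : ℝ) / n₂ ≤ 50 / (40000 * x) := div_le_div_of_nonneg_left (by norm_num) (by positivity) hn₂a
    calc 200 * (49 / 50 : ℝ) ^ n₂ ≤ 200 * (50 / (40000 * x)) := by linarith
      _ = 1 / (4 * x) := by field_simp; norm_num
  -- choice of `m₀`
  obtain ⟨m₀, hm₀⟩ : ∃ m₀ : ℕ, m₀ = ⌈B * x⌉₊ := ⟨_, rfl⟩
  have hBx : 0 < B * x := mul_pos hB0 hx0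
  have hm₀a : B * x ≤ m₀ := hm₀ ▸ Nat.le_ceil _
  have hm₀b : (m₀ : ℝ) < B * x + 1 := hm₀ ▸ Nat.ceil_lt_add_one hBx.le
  have hBx1 : (10 : ℝ) ^ 6 ≤ B * x := by nlinarith
  have hm₀c : 1 ≤ m₀ := by
    have : (1 : ℝ) ≤ m₀ := by linarith [show (1 : ℝ) ≤ 10 ^ 6 by norm_num]
    exact_mod_cast this
  have hm₀0 : (0 : ℝ) < m₀ := by exact_mod_cast hm₀c
  have hm₀sq : (B * x) ^ 2 ≤ (m₀ : ℝ) ^ 2 := pow_le_pow_left₀ hBx.le hm₀a 2
  have hM : m₀ ≤ n₁ + N := by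
    have h1 : (m₀ : ℝ) ≤ 2 * (B * x) := by linarith [show (1 : ℝ) ≤ 10 ^ 6 by norm_num]
    have h2 : 2 * (B * x) ≤ 8 * 10 ^ 40 * B ^ 2 * x := by
      have h3 : 2 * B ≤ 8 * 10 ^ 40 * B ^ 2 := by nlinarith
      nlinarith
    have h4 : (m₀ : ℝ) ≤ ((n₁ + N : ℕ) : ℝ) := by linarith
    exact_mod_cast h4
  -- choice of the displacement
  obtain ⟨Kd, hKd⟩ : ∃ Kd : ℝ, Kd = (2 * 10 ^ 7 * x ^ 2) ^ 2 := ⟨_, rfl⟩
  have hKd0 : 0 < Kd := by rw [hKd]; positivity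
  have hKds : √Kd = 2 * 10 ^ 7 * x ^ 2 := by rw [hKd, Real.sqrt_sq (by positivity)]
  -- the constant
  set P : ℝ := 2 * (3 * m₀ + 1) * (Kd + 2) with hP
  have hP0 : 0 < P := by rw [hP]; positivity
  have hPle : P ≤ 4 * 10 ^ 15 * B * x ^ 5 := by
    have h1 : 3 * (m₀ : ℝ) + 1 ≤ 4 * (B * x) := by linarith [show (4 : ℝ) ≤ 10 ^ 6 by norm_num]
    have h2 : Kd + 2 ≤ 5 * 10 ^ 14 * x ^ 4 := by
      have h3 : 1 ≤ x ^ 4 := one_le_pow₀ hx
      rw [hKd]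
      nlinarith
    calc P = 2 * ((3 * m₀ + 1) * (Kd + 2)) := by rw [hP]; ring
      _ ≤ 2 * ((4 * (B * x)) * (5 * 10 ^ 14 * x ^ 4)) := by
          have := mul_le_mul h1 h2 (by positivity) (by positivity)
          linarith
      _ = 4 * 10 ^ 15 * B * x ^ 5 := by ring
  set K₀ : ℝ := (n₂ + 1) * P with hK₀
  have hn₂g : (0 : ℝ) < n₂ + 1 := by positivity
  have hK₀0 : 0 < K₀ := mul_pos hn₂g hP0
  have hK₀le : K₀ ≤ 2 * 10 ^ 20 * B * x ^ 6 := by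
    calc K₀ ≤ 50000 * x * (4 * 10 ^ 15 * B * x ^ 5) := mul_le_mul hn₂c hPle hP0.le (by positivity)
      _ = 2 * 10 ^ 20 * B * x ^ 6 := by ring
  -- the function `T`
  set T₁ : ℤ → ℝ := fun v => ∑ V ∈ words E (n₁ + N), if vd V v then wt E V * lat H n₁ N n₂ V else 0 with hT₁
  have hT₁0 : ∀ v, 0 ≤ T₁ v := by
    intro v
    refine sum_nonneg fun V _ => ?_
    split_ifs
    · exact mul_nonneg (wt_nonneg E V) (lat_nonneg _ _ _ _ _)
    · exact le_rfl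
  have hT₁per : Per (3 ^ (n₁ + N)) T₁ := by
    intro v
    refine sum_congr rfl fun V hV => ?_
    refine if_congr ?_ rfl rfl
    have := vd_shift (length_of_mem hV) v 1
    rw [mul_one] at this
    push_cast
    exact this
  have hT₁mean : mean (3 ^ (n₁ + N)) T₁ ≤ 1 / (4 * x) := by
    refine le_trans ?_ hn₂f
    refine le_trans (le_of_eq ?_) (sum_lat_le hE6 H n₁ N n₂)
    simp only [hT₁]
    rw [mean_sum]
    refine sum_congr rfl fun V hV => ?_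
    have h1 := mean_vd (E := E) (m := 0) (length_of_mem hV) (φ := fun _ => lat H n₁ N n₂ V) (fun _ => rfl)
    rw [add_zero, pow_zero, mean_const le_rfl] at h1
    exact h1
  have hBB : ∀ v, ∑ n ∈ Ioc n₁ (n₁ + N), MM E (hw E n H) (F E (n₁ + N - n)) v ≤
      (n₂ + 1) * F E (n₁ + N) v + T₁ v := by
    intro v
    rw [sum_G_eq]
    unfold F MM
    simp only [hT₁]
    rw [mul_sum, ← sum_add_distrib]
    refine sum_le_sum fun V _ => ?_
    split_ifs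
    · have h1 := mul_le_mul_of_nonneg_left (kapV_le hH n₁ N n₂ V) (wt_nonneg E V)
      linarith
    · simp
  -- the small part of the density
  set Bd : ℤ → ℝ := MM E (badF E m₀ Kd) (fun _ => 1) with hBd
  have hBd0 : ∀ v, 0 ≤ Bd v := fun v => badF_nonneg E m₀ Kd v
  have hBdper : Per (3 ^ (n₁ + N)) Bd := Per.pow_mono hM (badF_per E m₀ Kd)
  have hBdmean : (n₂ + 1) * mean (3 ^ (n₁ + N)) Bd ≤ 1 / (4 * x) := by
    rw [hBd, mean_badF hM]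
    have h1 := Pr_badF_le (E := E) (m := m₀) hE6 (by omega) hKd0
    rw [hKds] at h1
    have h2 := exp_neg_le_sq (t := (m₀ : ℝ) / 128) (by positivity)
    have h3 : 2 / ((m₀ : ℝ) / 128) ^ 2 ≤ 1 / (10 ^ 7 * x ^ 2) := by
      rw [div_le_div_iff₀ (by positivity) (by positivity)]
      have h4 : (10 ^ 6 * x) ^ 2 ≤ (m₀ : ℝ) ^ 2 := by
        refine le_trans (pow_le_pow_left₀ (by positivity) ?_ 2) hm₀sq
        exact mul_le_mul_of_nonneg_right hB6 hx0.le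
      have h5 : ((m₀ : ℝ) / 128) ^ 2 = m₀ ^ 2 / 16384 := by ring
      rw [h5]
      nlinarith [sq_nonneg x]
    have h6 : Pr E (badF E m₀ Kd) ≤ 1 / (200000 * x ^ 2) := by
      refine h1.trans ?_
      have h7 : (40 : ℝ) / (2 * 10 ^ 7 * x ^ 2) = 2 * (1 / (10 ^ 6 * x ^ 2)) := by
        field_simp; norm_num
      have h8 : (1 : ℝ) / (200000 * x ^ 2) = 50 * (1 / (10 ^ 7 * x ^ 2)) := by
        field_simp; norm_num
      have h9 : (1 : ℝ) / (10 ^ 6 * x ^ 2) = 10 * (1 / (10 ^ 7 * x ^ 2)) := by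
        field_simp
      have h10 : (0 : ℝ) < 1 / (10 ^ 7 * x ^ 2) := by positivity
      rw [h7, h8, h9]
      linarith
    calc ((n₂ : ℝ) + 1) * Pr E (badF E m₀ Kd) ≤ 50000 * x * (1 / (200000 * x ^ 2)) :=
          mul_le_mul hn₂c h6 (Pr_nonneg _ _) (by positivity)
      _ = 1 / (4 * x) := by field_simp; norm_num
  have hmixx : (n₂ + 1) * mean (3 ^ (n₁ + N)) (fun v => |F E (n₁ + N) v - F E m₀ v|) ≤ 1 / (4 * x) := by
    have h1 := hmix E hE₁ m₀ (n₁ + N) hm₀c hM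
    have h2 : C / (m₀ : ℝ) ^ 2 ≤ 1 / (200000 * x ^ 2) := by
      rw [div_le_div_iff₀ (by positivity) (by positivity)]
      have h3 : C * (200000 * x ^ 2) ≤ (B * x) ^ 2 := by
        have h4 : 200000 * C ≤ B ^ 2 := by nlinarith
        calc C * (200000 * x ^ 2) = 200000 * C * x ^ 2 := by ring
          _ ≤ B ^ 2 * x ^ 2 := mul_le_mul_of_nonneg_right h4 (sq_nonneg x)
          _ = (B * x) ^ 2 := by ring
      linarith
    have h5 : mean (3 ^ (n₁ + N)) (fun v => |F E (n₁ + N) v - F E m₀ v|) ≤ 1 / (200000 * x ^ 2) := h1.trans h2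
    calc ((n₂ : ℝ) + 1) * mean (3 ^ (n₁ + N)) (fun v => |F E (n₁ + N) v - F E m₀ v|)
        ≤ (n₂ + 1) * (1 / (200000 * x ^ 2)) := mul_le_mul_of_nonneg_left h5 hn₂d
      _ ≤ 50000 * x * (1 / (200000 * x ^ 2)) := mul_le_mul_of_nonneg_right hn₂c (by positivity)
      _ = 1 / (4 * x) := by field_simp; norm_num
  obtain ⟨V', V'', p1, p2, p3, p4, p5, p6, p7⟩ := dual_doob hE1 hK₀0 (H := H) (δ := 1 / x)
    (T := fun v => ((n₂ + 1) * |F E (n₁ + N) v - F E m₀ v| + (n₂ + 1) * Bd v) + T₁ v) (by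
      intro v
      show ((n₂ + 1) * |F E (n₁ + N) (v + _) - F E m₀ (v + _)| + (n₂ + 1) * Bd (v + _)) + T₁ (v + _) = _
      rw [F_per E (n₁ + N) v, (Per.pow_mono hM (F_per E m₀)) v, hT₁per v, hBdper v])
    (by
      intro v
      refine (hBB v).trans ?_
      have h1 : F E m₀ v ≤ P + Bd v := by
        rw [F_eq_good_add_bad E m₀ Kd v]
        have := MM_goodF_le (E := E) (m := m₀) (by omega) hKd0.le v
        rw [hP]
        linarith
      have h2 := le_abs_self (F E (n₁ + N) v - F E m₀ v)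
      have h4 : F E (n₁ + N) v ≤ P + Bd v + |F E (n₁ + N) v - F E m₀ v| := by linarith
      have h5 := mul_le_mul_of_nonneg_left h4 hn₂d
      rw [hK₀]
      linarith)
    (by
      intro v
      have h1 := hT₁0 v
      have h2 := mul_nonneg hn₂d (hBd0 v)
      have h3 := mul_nonneg hn₂d (abs_nonneg (F E (n₁ + N) v - F E m₀ v))
      linarith)
    (by
      rw [mean_add, mean_add, mean_mul_left, mean_mul_left]
      have h1 : 1 / (4 * x) + 1 / (4 * x) + 1 / (4 * x) ≤ 1 / x := by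
        have : 1 / (4 * x) + 1 / (4 * x) + 1 / (4 * x) = 3 / 4 * (1 / x) := by field_simp; norm_num
        rw [this]
        have : 0 < 1 / x := by positivity
        linarith
      linarith)
  refine ⟨V', V'', p1, p2, p3, p4, p5, p6.trans ?_, p7⟩
  calc 2 * K₀ ^ 2 ≤ 2 * (2 * 10 ^ 20 * B * x ^ 6) ^ 2 := by
        have := pow_le_pow_left₀ hK₀0.le hK₀le 2
        linarith
    _ = 8 * 10 ^ 40 * B ^ 2 * x ^ 12 := by ring

end CollatzPow
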